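import Mathlib

/-!
# Irreducible coset spaces: definitions
-/

set_option autoImplicit false

namespace Pool.Agent.R627.CosetDefs

universe u

variable {G : Type u} [Group G] [TopologicalSpace G]

/-- `G/H` is an irreducible coset space: `H` is a proper closed subgroup of `G`, and the only closed
subgroups `K` of `G` with `H ≤ K` are `H` and `G`. -/
def IrreducibleCoset (H : Subgroup G) : Prop :=
  IsClosed (H : Set G) ∧ H ≠ ⊤ ∧
    ∀ K : Subgroup G, IsClosed (K : Set G) → H ≤ K → K = H ∨ K = ⊤

/-- `G/H` is faithful: the intersection of the conjugates `g H g⁻¹` is trivial. -/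
def FaithfulCoset (H : Subgroup G) : Prop :=
  ∀ x : G, (∀ g : G, g⁻¹ * x * g ∈ H) → x = 1

/-- `M` is minimal among the nontrivial closed normal subgroups of `G`. -/
def MinClosedNormal (M : Subgroup G) : Prop :=
  M.Normal ∧ IsClosed (M : Set G) ∧ M ≠ ⊥ ∧
    ∀ N : Subgroup G, N.Normal → IsClosed (N : Set G) → N ≤ M → N = ⊥ ∨ N = M

end Pool.Agent.R627.CosetDefs
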