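import Mathlib

/-!
# Dense subgroups of locally compact groups without small normal subgroups are locally minimal
-/

set_option autoImplicit false
set_option linter.style.haveILetI false

namespace Pool.Agent.R627.DenseLM

open Topology Filter

universe u

/-- A Hausdorff topological group `(G, τ)` is locally minimal if some neighbourhood `V` of the
identity has this property: every Hausdorff group topology `σ` coarser than `τ` for which `V` is a
neighbourhood of the identity equals `τ`. -/
def LocallyMinimal (G : Type u) [Group G] [τ : TopologicalSpace G] : Prop :=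
  ∃ V ∈ 𝓝 (1 : G), ∀ σ : TopologicalSpace G, @IsTopologicalGroup G σ _ → @T2Space G σ → τ ≤ σ →
    V ∈ @nhds G σ 1 → σ = τ

theorem dense_locallyMinimal {G : Type u} [Group G] [TopologicalSpace G] [IsTopologicalGroup G]
    [T2Space G] [LocallyCompactSpace G] {V : Set G} (hV : V ∈ 𝓝 (1 : G))
    (hns : ∀ N : Subgroup G, N.Normal → IsClosed (N : Set G) → (N : Set G) ⊆ V → N = ⊥)
    (D : Subgroup G) (hD : Dense (D : Set G)) : LocallyMinimal D := by
  obtain ⟨C, hC, hCV, hCc⟩ := local_compact_nhds hV
  refine ⟨Subtype.val ⁻¹' C, continuous_subtype_val.continuousAt.preimage_mem_nhds hC, ?_⟩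
  intro σ hσ _ hle hW
  -- the closures of the `σ`-neighbourhoods
  have hsub : ∀ x : G, (∀ U ∈ @nhds D σ 1, x ∈ closure (Subtype.val '' U)) → x ∈ C := by
    intro x hx
    have h1 := hx _ hW
    have h2 : closure (Subtype.val '' (Subtype.val ⁻¹' C : Set D)) ⊆ C :=
      closure_minimal (Set.image_preimage_subset _ _) hCc.isClosed
    exact h2 h1
  let N : Subgroup G :=
    { carrier := {x | ∀ U ∈ @nhds D σ 1, x ∈ closure (Subtype.val '' U)}
      mul_mem' := by
        intro x y hx hy U hU
        obtain ⟨W, hW, hWU⟩ : ∃ W ∈ @nhds D σ 1, ∀ v ∈ W, ∀ w ∈ W, v * w ∈ U := by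
          letI := σ
          haveI := hσ
          exact exists_nhds_one_split hU
        refine map_mem_closure₂ continuous_mul (hx W hW) (hy W hW) ?_
        rintro _ ⟨v, hv, rfl⟩ _ ⟨w, hw, rfl⟩
        exact ⟨v * w, hWU v hv w hw, rfl⟩
      one_mem' := by
        intro U hU
        exact subset_closure ⟨1, @mem_of_mem_nhds D σ 1 U hU, rfl⟩
      inv_mem' := by
        intro x hx U hU
        have hU' : U⁻¹ ∈ @nhds D σ 1 := by
          letI := σ
          haveI := hσ
          exact inv_mem_nhds_one D hU
        refine map_mem_closure continuous_inv (hx _ hU') ?_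
        rintro _ ⟨v, hv, rfl⟩
        exact ⟨v⁻¹, hv, rfl⟩ }
  have hmem : ∀ x, x ∈ N ↔ ∀ U ∈ @nhds D σ 1, x ∈ closure (Subtype.val '' U) := fun x => Iff.rfl
  have hNc : IsClosed (N : Set G) := by
    have : (N : Set G) = ⋂ U ∈ @nhds D σ 1, closure (Subtype.val '' U) := by
      ext x
      simp only [SetLike.mem_coe, hmem, Set.mem_iInter]
    rw [this]
    exact isClosed_biInter fun _ _ => isClosed_closure
  have hconj : ∀ d ∈ D, ∀ x ∈ N, d * x * d⁻¹ ∈ N := by
    intro d hd x hx U hU
    have hU' : {y : D | ⟨d, hd⟩ * y * ⟨d, hd⟩⁻¹ ∈ U} ∈ @nhds D σ 1 := by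
      letI := σ
      haveI := hσ
      have h1 : Continuous fun y : D => (⟨d, hd⟩ : D) * y * ⟨d, hd⟩⁻¹ := by fun_prop
      apply h1.continuousAt.preimage_mem_nhds
      simpa using hU
    have h2 : Continuous fun y : G => d * y * d⁻¹ := by fun_prop
    refine map_mem_closure (f := fun y : G => d * y * d⁻¹) h2 (hx _ hU') ?_
    rintro _ ⟨v, hv, rfl⟩
    exact ⟨_, hv, rfl⟩
  have hN : N.Normal := by
    constructor
    intro x hx g
    have hcl : IsClosed {g : G | g * x * g⁻¹ ∈ N} := by
      have h2 : Continuous fun y : G => y * x * y⁻¹ := by fun_prop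
      exact hNc.preimage h2
    have h3 : closure (D : Set G) ⊆ {g : G | g * x * g⁻¹ ∈ N} :=
      closure_minimal (fun d hd => hconj d hd x hx) hcl
    rw [hD.closure_eq] at h3
    exact h3 (Set.mem_univ g)
  have hbot : N = ⊥ := hns N hN hNc (fun x hx => hCV (hsub x hx))
  -- the filter of the `σ`-neighbourhoods converges
  have hlim : Filter.map Subtype.val (@nhds D σ 1) ≤ 𝓝 (1 : G) := by
    apply hCc.le_nhds_of_unique_clusterPt (Filter.mem_map.mpr hW)
    intro x _ hx
    have h1 : x ∈ N := by
      intro U hU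
      rw [mem_closure_iff_clusterPt]
      exact hx.mono (Filter.le_principal_iff.mpr (Filter.image_mem_map hU))
    rw [hbot] at h1
    exact h1
  have hτ : @IsTopologicalGroup D instTopologicalSpaceSubtype _ := inferInstance
  apply IsTopologicalGroup.ext hσ hτ
  apply le_antisymm
  · rw [nhds_subtype]
    exact Filter.map_le_iff_le_comap.mp hlim
  · exact nhds_mono hle

end Pool.Agent.R627.DenseLM
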