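import Mathlib

set_option linter.style.haveILetI false

/-!
# The space of ends of a group

The Boolean algebra of left commensurated subsets, its quotient by the ideal of the finite subsets,
and the Stone space of the quotient.
-/

namespace Pool.Agent.R627.EndsAlg

open Set
open scoped Pointwise

section Basic

variable {G : Type*} [Group G]

/-- `A` is left commensurated: `gA` and `A` differ by a finite set for every `g`. -/
def IsComm (A : Set G) : Prop := ∀ g : G, (symmDiff (g • A) A).Finite

theorem isComm_iff (A : Set G) :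
    IsComm A ↔ ∀ g : G, {x | ¬ (g * x ∈ A ↔ x ∈ A)}.Finite := by
  have key : ∀ g : G, symmDiff (g⁻¹ • A) A = {x | ¬ (g * x ∈ A ↔ x ∈ A)} := by
    intro g
    ext x
    rw [Set.mem_symmDiff, Set.mem_inv_smul_set_iff, smul_eq_mul]
    simp only [Set.mem_ofPred_eq]
    tauto
  constructor
  · intro h g
    rw [← key]
    exact h g⁻¹
  · intro h g
    have := h g⁻¹
    rw [← key, inv_inv] at this
    exact this

theorem isComm_compl {A : Set G} (h : IsComm A) : IsComm Aᶜ := by
  rw [isComm_iff] at h ⊢
  intro g
  refine (h g).subset fun x hx => ?_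
  simp only [Set.mem_ofPred_eq, mem_compl_iff] at hx ⊢
  tauto

theorem isComm_inter {A B : Set G} (hA : IsComm A) (hB : IsComm B) : IsComm (A ∩ B) := by
  rw [isComm_iff] at hA hB ⊢
  intro g
  refine ((hA g).union (hB g)).subset fun x hx => ?_
  simp only [Set.mem_ofPred_eq, mem_union, mem_inter_iff] at hx ⊢
  tauto

theorem isComm_union {A B : Set G} (hA : IsComm A) (hB : IsComm B) : IsComm (A ∪ B) := by
  have := isComm_compl (isComm_inter (isComm_compl hA) (isComm_compl hB))
  rwa [compl_inter, compl_compl, compl_compl] at this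

theorem isComm_univ : IsComm (Set.univ : Set G) := by
  rw [isComm_iff]
  intro g
  simp

theorem isComm_empty : IsComm (∅ : Set G) := by
  rw [isComm_iff]
  intro g
  simp

theorem isComm_finite {A : Set G} (h : A.Finite) : IsComm A := by
  intro g
  refine ((h.smul_set (a := g)).union h).subset ?_
  exact symmDiff_subset_union

/-- it is enough to look at generators -/
theorem isComm_of_closure {S : Set G} (hS : Subgroup.closure S = ⊤) {A : Set G}
    (h : ∀ g ∈ S, {x | ¬ (g * x ∈ A ↔ x ∈ A)}.Finite) : IsComm A := by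
  rw [isComm_iff]
  intro g
  have hg : g ∈ Subgroup.closure S := by rw [hS]; exact Subgroup.mem_top g
  induction hg using Subgroup.closure_induction with
  | mem x hx => exact h x hx
  | one => simp
  | mul a b _ _ ha hb =>
    have h1 : ((fun x => b * x) ⁻¹' {x | ¬ (a * x ∈ A ↔ x ∈ A)}).Finite :=
      ha.preimage (mul_right_injective b).injOn
    refine (h1.union hb).subset fun x hx => ?_
    simp only [Set.mem_ofPred_eq, mem_union, mem_preimage, mul_assoc] at hx ⊢
    tauto
  | inv a _ ha =>
    have h1 : ((fun x => a⁻¹ * x) ⁻¹' {x | ¬ (a * x ∈ A ↔ x ∈ A)}).Finite :=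
      ha.preimage (mul_right_injective a⁻¹).injOn
    refine h1.subset fun x hx => ?_
    simp only [Set.mem_ofPred_eq, mem_preimage, mul_inv_cancel_left] at hx ⊢
    tauto

/-- a set that is invariant under generators is invariant -/
theorem inv_of_closure {S : Set G} (hS : Subgroup.closure S = ⊤) {D : Set G}
    (h : ∀ g ∈ S, ∀ x, (g * x ∈ D ↔ x ∈ D)) (g x : G) : g * x ∈ D ↔ x ∈ D := by
  have hg : g ∈ Subgroup.closure S := by rw [hS]; exact Subgroup.mem_top g
  revert x
  induction hg using Subgroup.closure_induction with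
  | mem y hy => exact h y hy
  | one => simp
  | mul a b _ _ ha hb =>
    intro x
    rw [mul_assoc]
    exact (ha (b * x)).trans (hb x)
  | inv a _ ha =>
    intro x
    have := ha (a⁻¹ * x)
    rw [mul_inv_cancel_left] at this
    exact this.symm

theorem const_of_closure {S : Set G} (hS : Subgroup.closure S = ⊤) {D : Set G}
    (h : ∀ g ∈ S, ∀ x, (g * x ∈ D ↔ x ∈ D)) : D = ∅ ∨ D = Set.univ := by
  by_cases h1 : (1 : G) ∈ D
  · right
    ext x
    have := inv_of_closure hS h x 1
    rw [mul_one] at this
    simp [this, h1]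
  · left
    ext x
    have := inv_of_closure hS h x 1
    rw [mul_one] at this
    simp [this, h1]

theorem countable_of_fg [hfg : Group.FG G] : Countable G := by
  obtain ⟨α, hα, φ, hφ⟩ := Group.fg_iff_exists_freeGroup_hom_surjective_finite.mp hfg
  haveI : Countable α := Finite.to_countable
  exact hφ.countable

theorem countable_comm [hfg : Group.FG G] : {A : Set G | IsComm A}.Countable := by
  classical
  obtain ⟨S, hS⟩ := (Group.fg_def.mp hfg)
  haveI : Countable G := countable_of_fg
  let F : {A : Set G // IsComm A} → Finset (S × G) × Prop := fun A =>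
    (Set.Finite.toFinset (s := {p : S × G | ¬ ((p.1 : G) * p.2 ∈ A.1 ↔ p.2 ∈ A.1)}) (by
      have : {p : S × G | ¬ ((p.1 : G) * p.2 ∈ A.1 ↔ p.2 ∈ A.1)} ⊆
          ⋃ s : S, (fun x => (s, x)) '' {x | ¬ ((s : G) * x ∈ A.1 ↔ x ∈ A.1)} := by
        rintro ⟨s, x⟩ h
        simp only [mem_iUnion]
        exact ⟨s, x, h, rfl⟩
      refine Set.Finite.subset (Set.finite_iUnion fun s => ?_) this
      exact (((isComm_iff A.1).mp A.2) s).image _), (1 : G) ∈ A.1)
  have hF : Function.Injective F := by
    rintro ⟨A, hA⟩ ⟨B, hB⟩ h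
    simp only [F, Prod.mk.injEq, Set.Finite.toFinset_inj] at h
    obtain ⟨h1, h2⟩ := h
    have h3 : ∀ g ∈ (S : Set G), ∀ x, (g * x ∈ symmDiff A B ↔ x ∈ symmDiff A B) := by
      intro g hg x
      have h4 := Set.ext_iff.mp h1 (⟨g, hg⟩, x)
      simp only [Set.mem_ofPred_eq] at h4
      rw [Set.mem_symmDiff, Set.mem_symmDiff]
      tauto
    have h5 : symmDiff A B = ∅ := by
      rcases const_of_closure hS h3 with h5 | h5
      · exact h5
      · exfalso
        have : (1 : G) ∈ symmDiff A B := by rw [h5]; exact mem_univ _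
        rw [Set.mem_symmDiff, h2] at this
        tauto
    have h6 : A = B := by
      rw [← Set.bot_eq_empty, symmDiff_eq_bot] at h5
      exact h5
    subst h6
    rfl
  have hc : Countable {A : Set G // IsComm A} := hF.countable
  exact Set.countable_coe_iff.mp hc

/-- A family of subsets of a finitely generated group. -/
theorem family {T : Type*} [hfg : Group.FG G] (A : T → Set G) :
    (∀ g : G, {p : G × T | ¬ (g * p.1 ∈ A p.2 ↔ p.1 ∈ A p.2)}.Finite) ↔
      (∀ t, IsComm (A t)) ∧ {t | ¬ (A t = ∅ ∨ A t = Set.univ)}.Finite := by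
  constructor
  · intro h
    constructor
    · intro t
      rw [isComm_iff]
      intro g
      have : ((fun x => (x, t)) ⁻¹' {p : G × T | ¬ (g * p.1 ∈ A p.2 ↔ p.1 ∈ A p.2)}).Finite :=
        (h g).preimage (fun x _ y _ hxy => congrArg Prod.fst hxy)
      exact this
    · obtain ⟨S, hS⟩ := (Group.fg_def.mp hfg)
      have : {t | ¬ (A t = ∅ ∨ A t = Set.univ)} ⊆
          ⋃ g ∈ S, Prod.snd '' {p : G × T | ¬ (g * p.1 ∈ A p.2 ↔ p.1 ∈ A p.2)} := by
        intro t ht
        by_contra hcon
        apply ht
        apply const_of_closure hS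
        intro g hg x
        by_contra hx
        apply hcon
        simp only [mem_iUnion]
        exact ⟨g, hg, (x, t), hx, rfl⟩
      refine Set.Finite.subset ?_ this
      exact Set.Finite.biUnion S.finite_toSet fun g _ => (h g).image _
  · rintro ⟨h1, h2⟩ g
    have : {p : G × T | ¬ (g * p.1 ∈ A p.2 ↔ p.1 ∈ A p.2)} ⊆
        ⋃ t ∈ {t | ¬ (A t = ∅ ∨ A t = Set.univ)},
          (fun x => (x, t)) '' {x | ¬ (g * x ∈ A t ↔ x ∈ A t)} := by
      rintro ⟨x, t⟩ h
      simp only [mem_iUnion]
      refine ⟨t, ?_, x, h, rfl⟩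
      rintro (h3 | h3)
      · simp [h3] at h
      · simp [h3] at h
    refine Set.Finite.subset ?_ this
    exact Set.Finite.biUnion h2 fun t _ => (((isComm_iff (A t)).mp (h1 t)) g).image _

end Basic

section Ends

variable (G : Type*) [Group G]

/-- The Boolean algebra of the left commensurated subsets of `G`. -/
def commAlg : BooleanSubalgebra (Set G) where
  carrier := {A | ∀ g : G, (symmDiff (g • A) A).Finite}
  supClosed' := fun _ hA _ hB => isComm_union hA hB
  infClosed' := fun _ hA _ hB => isComm_inter hA hB
  compl_mem' := fun hA => isComm_compl hA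
  bot_mem' := isComm_empty

/-- The ideal of the finite subsets of `G` in the Boolean ring of the left commensurated
subsets. -/
def finIdeal : Ideal (AsBoolRing (commAlg G)) where
  carrier := {a | ((ofBoolRing a : commAlg G) : Set G).Finite}
  zero_mem' := by
    show ((ofBoolRing (0 : AsBoolRing (commAlg G)) : commAlg G) : Set G).Finite
    rw [ofBoolRing_zero]
    exact Set.finite_empty
  add_mem' := by
    intro a b ha hb
    show ((ofBoolRing (a + b) : commAlg G) : Set G).Finite
    rw [ofBoolRing_add]
    have h1 : ((ofBoolRing a : commAlg G) : Set G).Finite := ha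
    have h2 : ((ofBoolRing b : commAlg G) : Set G).Finite := hb
    exact (h1.union h2).subset (by
      intro x hx
      rcases hx with hx | hx
      · exact Or.inl hx.1
      · exact Or.inr hx.1)
  smul_mem' := by
    intro c a ha
    show ((ofBoolRing (c * a) : commAlg G) : Set G).Finite
    rw [ofBoolRing_mul]
    have h1 : ((ofBoolRing a : commAlg G) : Set G).Finite := ha
    exact h1.subset fun x hx => hx.2

/-- The quotient of the Boolean algebra of the left commensurated subsets by the ideal of the
finite subsets, as a Boolean ring. -/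
abbrev PStar : Type _ := AsBoolRing (commAlg G) ⧸ finIdeal G

/-- The space of ends of `G`: the Stone space of `PStar G`, i.e. its prime spectrum. -/
abbrev Ends : Type _ := PrimeSpectrum (PStar G)

variable {G}
variable {G' : Type*} [Group G']

theorem coe_mem (a : AsBoolRing (commAlg G)) : IsComm ((ofBoolRing a : commAlg G) : Set G) :=
  (ofBoolRing a : commAlg G).2

theorem ring_ext {a b : AsBoolRing (commAlg G)}
    (h : ((ofBoolRing a : commAlg G) : Set G) = ((ofBoolRing b : commAlg G) : Set G)) : a = b := by
  have h1 : (ofBoolRing a : commAlg G) = ofBoolRing b := Subtype.ext h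
  exact ofBoolRing_inj.mp h1

/-- the transfer of the Boolean algebras -/
def algEquiv (e : G ≃ G') (he : ∀ A : Set G, IsComm A ↔ IsComm (e '' A)) :
    AsBoolRing (commAlg G) ≃+* AsBoolRing (commAlg G') where
  toFun a := toBoolRing (⟨e '' ((ofBoolRing a : commAlg G) : Set G),
    (he _).mp (coe_mem a)⟩ : commAlg G')
  invFun b := toBoolRing (⟨e.symm '' ((ofBoolRing b : commAlg G') : Set G'),
    (he _).mpr (by
      rw [Equiv.image_symm_image]
      exact coe_mem b)⟩ : commAlg G)
  left_inv a := ring_ext (e.symm_image_image _)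
  right_inv b := ring_ext (e.image_symm_image _)
  map_mul' a b := ring_ext (Set.image_inter e.injective)
  map_add' a b := ring_ext (Set.image_symmDiff e.injective _ _)

theorem finIdeal_map (e : G ≃ G') (he : ∀ A : Set G, IsComm A ↔ IsComm (e '' A)) :
    finIdeal G' = (finIdeal G).map (algEquiv e he : AsBoolRing (commAlg G) →+*
      AsBoolRing (commAlg G')) := by
  ext b
  rw [show ((finIdeal G).map (algEquiv e he : AsBoolRing (commAlg G) →+*
      AsBoolRing (commAlg G'))) = (finIdeal G).map (algEquiv e he) from rfl,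
    ← Ideal.comap_symm, Ideal.mem_comap]
  have h1 : b ∈ finIdeal G' ↔ ((ofBoolRing b : commAlg G') : Set G').Finite := Iff.rfl
  have h2 : (algEquiv e he).symm b ∈ finIdeal G ↔
      (e.symm '' ((ofBoolRing b : commAlg G') : Set G')).Finite := Iff.rfl
  rw [h1, h2, Set.finite_image_iff e.symm.injective.injOn]

/-- a bijection that preserves the commensurated subsets induces an isomorphism of the quotients -/
theorem nonempty_pstar (e : G ≃ G') (he : ∀ A : Set G, IsComm A ↔ IsComm (e '' A)) :
    Nonempty (PStar G ≃+* PStar G') :=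
  ⟨Ideal.quotientEquiv (finIdeal G) (finIdeal G') (algEquiv e he) (finIdeal_map e he)⟩

theorem nonempty_ends (h : Nonempty (PStar G ≃+* PStar G')) : Nonempty (Ends G ≃ₜ Ends G') := by
  obtain ⟨φ⟩ := h
  exact ⟨PrimeSpectrum.homeomorphOfRingEquiv φ⟩

end Ends

end Pool.Agent.R627.EndsAlg
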