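import Pool.Agent.R627.EndsWords

set_option linter.style.haveILetI false

/-!
# The commensurated subsets of a finite free product of finitely generated groups
-/

namespace Pool.Agent.R627.EndsGood

open Set Monoid Monoid.CoprodI
open Pool.Agent.R627.EndsAlg
open Pool.Agent.R627.EndsStd (Good)
open Pool.Agent.R627.EndsWords

variable {ι : Type*} {M : ι → Type*} [∀ i, Group (M i)]

theorem fg_coprod [Finite ι] (hfg : ∀ i, Group.FG (M i)) : Group.FG (CoprodI M) := by
  have h1 : ∀ i, ∃ S : Finset (M i), Subgroup.closure (S : Set (M i)) = ⊤ := fun i =>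
    Group.fg_def.mp (hfg i)
  choose S hS using h1
  rw [Group.fg_iff]
  refine ⟨⋃ i, (of : M i →* CoprodI M) '' (S i : Set (M i)), ?_,
    Set.finite_iUnion fun i => (S i).finite_toSet.image _⟩
  rw [eq_top_iff]
  intro x _
  induction x using CoprodI.induction_on with
  | one => exact Subgroup.one_mem _
  | of i m =>
    have h2 : (of m : CoprodI M) ∈ (Subgroup.closure (S i : Set (M i))).map
        (of : M i →* CoprodI M) := ⟨m, by rw [hS]; exact Subgroup.mem_top m, rfl⟩
    rw [MonoidHom.map_closure] at h2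
    exact Subgroup.closure_mono (subset_iUnion
      (fun i => (of : M i →* CoprodI M) '' (S i : Set (M i))) i) h2
  | mul a b ha hb => exact Subgroup.mul_mem _ (ha trivial) (hb trivial)

section Dec

variable [DecidableEq ι] [∀ i, DecidableEq (M i)]

/-- the elements whose reduced word ends with `l` -/
def tailset (l : List (Σ i, M i)) : Set (CoprodI M) := {x | l <:+ (Word.equiv x).toList}

theorem word_pair {i : ι} (k : M i) (t : Tail M i) :
    Word.equiv (of k * t.1.prod) = Word.rcons ⟨k, t.1, t.2⟩ := by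
  have h2 : (of k * t.1.prod : CoprodI M) = (Word.rcons ⟨k, t.1, t.2⟩ : Word M).prod := by
    rw [Word.prod_rcons]
  rw [h2]
  exact Word.equiv.apply_symm_apply _

theorem word_prod (w : Word M) : Word.equiv w.prod = w := Word.equiv.apply_symm_apply _

theorem prod_word (x : CoprodI M) : (Word.equiv x).prod = x := Word.equiv.symm_apply_apply _

theorem mem_slice_tailset {l : List (Σ i, M i)} {i : ι} {t : Tail M i} {k : M i} :
    k ∈ slice (tailset l) i t ↔ l <:+ t.1.toList ∨ (k ≠ 1 ∧ l = ⟨i, k⟩ :: t.1.toList) := by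
  show l <:+ (Word.equiv (of k * t.1.prod)).toList ↔ _
  rw [word_pair]
  by_cases h : k = 1
  · rw [Word.rcons, dif_pos h]
    simp [h]
  · rw [Word.rcons, dif_neg h]
    show l <:+ ⟨i, k⟩ :: t.1.toList ↔ _
    rw [List.suffix_cons_iff]
    simp only [ne_eq, h, not_false_eq_true, true_and]
    tauto

theorem isComm_tailset (hfg : ∀ i, Group.FG (M i)) (l : List (Σ i, M i)) :
    IsComm (tailset l : Set (CoprodI M)) := by
  rw [isComm_words hfg]
  intro i
  constructor
  · intro t
    by_cases h : l <:+ t.1.toList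
    · convert isComm_univ
      ext k
      rw [mem_slice_tailset]
      simp [h]
    · apply isComm_finite
      apply Set.Subsingleton.finite
      intro k hk k' hk'
      rw [mem_slice_tailset] at hk hk'
      have h1 : l = ⟨i, k⟩ :: t.1.toList := by tauto
      have h2 : l = ⟨i, k'⟩ :: t.1.toList := by tauto
      rw [h1] at h2
      simpa using h2
  · apply Set.Subsingleton.finite
    have key : ∀ t : Tail M i, ¬ (slice (tailset l) i t = ∅ ∨ slice (tailset l) i t = Set.univ) →
        t.1.toList = l.tail := by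
      intro t ht
      by_cases h : l <:+ t.1.toList
      · exfalso
        apply ht
        right
        ext k
        rw [mem_slice_tailset]
        simp [h]
      · by_contra hcon
        apply ht
        left
        ext k
        rw [mem_slice_tailset]
        simp only [h, false_or, mem_empty_iff_false, iff_false]
        rintro ⟨-, rfl⟩
        exact hcon rfl
    intro t ht t' ht'
    have h1 := key t ht
    have h2 := key t' ht'
    apply Subtype.ext
    apply Word.ext
    rw [h1, h2]

omit [DecidableEq ι] [(i : ι) → DecidableEq (M i)] in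
theorem finite_suffix (l : List (Σ i, M i)) : {w : Word M | w.toList <:+ l}.Finite := by
  have h1 : {s : List (Σ i, M i) | s <:+ l}.Finite := by
    refine Set.Finite.subset (List.finite_toSet l.tails) fun s hs => ?_
    exact (List.mem_tails s l).mpr hs
  exact h1.preimage (f := fun w : Word M => w.toList) (fun a _ b _ h => Word.ext h)

omit [DecidableEq ι] [(i : ι) → DecidableEq (M i)] in
/-- far away, a commensurated set is a union of sets of the form `tailset` -/
theorem const_tail (A : Set (CoprodI M)) (w : Word M)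
    (hw : ∀ i (t : Tail M i), w.toList <:+ t.1.toList →
      slice A i t = ∅ ∨ slice A i t = Set.univ) (v : Word M) (hv : w.toList <:+ v.toList) :
    v.prod ∈ A ↔ w.prod ∈ A := by
  induction v using Word.consRecOn with
  | empty =>
    have : w = Word.empty := by
      apply Word.ext
      exact List.suffix_nil.mp hv
    rw [this]
  | cons i m v' h1 h2 ih =>
    rw [Word.cons_toList, List.suffix_cons_iff] at hv
    rcases hv with hv | hv
    · have : w = Word.cons m v' h1 h2 := Word.ext hv
      rw [this]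
    · rw [← ih hv]
      have h3 : (Word.cons m v' h1 h2).prod ∈ A ↔ m ∈ slice A i ⟨v', h1⟩ := by
        rw [Word.prod_cons]
        rfl
      have h4 : v'.prod ∈ A ↔ 1 ∈ slice A i ⟨v', h1⟩ := by
        show _ ↔ of 1 * v'.prod ∈ A
        rw [map_one, one_mul]
      rw [h3, h4]
      rcases hw i ⟨v', h1⟩ hv with h | h
      · simp [h]
      · simp [h]

omit [DecidableEq ι] [(i : ι) → DecidableEq (M i)] in
theorem long_word [∀ i, Nontrivial (M i)] (h3 : ∀ a : ι, ∃ b c, b ≠ a ∧ c ≠ a ∧ b ≠ c)
    (w : Word M) (hne : w.toList ≠ []) (N : ℕ) :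
    ∃ v : Word M, w.toList <:+ v.toList ∧ N ≤ v.toList.length := by
  induction N with
  | zero => exact ⟨w, List.suffix_refl _, Nat.zero_le _⟩
  | succ N ih =>
    obtain ⟨v, hv1, hv2⟩ := ih
    have hv3 : v.toList ≠ [] := by
      intro h
      rw [h] at hv1
      exact hne (List.suffix_nil.mp hv1)
    obtain ⟨a, l, hal⟩ := List.exists_cons_of_ne_nil hv3
    obtain ⟨b, c, hb, -⟩ := h3 a.1
    obtain ⟨m, hm⟩ := exists_ne (1 : M b)
    have hvb : v.fstIdx ≠ some b := by
      rw [Word.fstIdx, hal]
      simpa using fun h => hb h.symm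
    refine ⟨Word.cons m v hvb hm, hv1.trans (List.suffix_cons _ _), ?_⟩
    rw [Word.cons_toList, List.length_cons]
    omega

theorem tailset_infinite [∀ i, Nontrivial (M i)] (h3 : ∀ a : ι, ∃ b c, b ≠ a ∧ c ≠ a ∧ b ≠ c)
    (w : Word M) (hne : w.toList ≠ []) : (tailset w.toList : Set (CoprodI M)).Infinite := by
  intro hfin
  obtain ⟨N, hN⟩ := (hfin.image (fun x => (Word.equiv x).toList.length)).bddAbove
  obtain ⟨v, hv1, hv2⟩ := long_word h3 w hne (N + 1)
  have h4 : v.prod ∈ tailset w.toList := by
    show _ <:+ (Word.equiv v.prod).toList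
    rwa [word_prod]
  have h5 := hN ⟨v.prod, h4, rfl⟩
  simp only [word_prod] at h5
  omega

theorem good_coprod_aux [Finite ι] [∀ i, Nontrivial (M i)] (hfg : ∀ i, Group.FG (M i))
    (h3 : ∀ a : ι, ∃ b c, b ≠ a ∧ c ≠ a ∧ b ≠ c) (hι : Nonempty ι) :
    Good (CoprodI M) {A : Set (CoprodI M) | IsComm A} := by
  haveI := fg_coprod hfg
  refine ⟨isComm_univ, fun A hA => isComm_compl hA, fun A hA B hB => isComm_inter hA hB,
    fun A hA => isComm_finite hA, countable_comm, ?_⟩
  intro A hA hinf
  have hA' := (isComm_words hfg A).mp hA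
  let bad : Set (Word M) := ⋃ i, ⋃ t ∈ {t : Tail M i | ¬ (slice A i t = ∅ ∨
    slice A i t = Set.univ)}, {w : Word M | w.toList <:+ t.1.toList}
  have hbad : bad.Finite :=
    Set.finite_iUnion fun i => Set.Finite.biUnion (hA' i).2 fun t _ => finite_suffix _
  obtain ⟨w, hwA, hwb⟩ : ∃ w : Word M, w.prod ∈ A ∧ w ∉ bad := by
    by_contra hcon
    push Not at hcon
    apply hinf
    refine (hbad.image Word.prod).subset fun x hx => ?_
    refine ⟨Word.equiv x, hcon _ ?_, prod_word x⟩
    rwa [prod_word]
  have hw : ∀ i (t : Tail M i), w.toList <:+ t.1.toList →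
      slice A i t = ∅ ∨ slice A i t = Set.univ := by
    intro i t ht
    by_contra hcon
    apply hwb
    simp only [bad, mem_iUnion]
    exact ⟨i, t, hcon, ht⟩
  obtain ⟨b, c, hb, hc, hbc⟩ : ∃ b c, w.fstIdx ≠ some b ∧ w.fstIdx ≠ some c ∧ b ≠ c := by
    cases h : w.fstIdx with
    | none =>
      obtain ⟨a⟩ := hι
      obtain ⟨b, c, hb, hc, hbc⟩ := h3 a
      exact ⟨b, c, by simp, by simp, hbc⟩
    | some a =>
      obtain ⟨b, c, hb, hc, hbc⟩ := h3 a
      exact ⟨b, c, by simpa using hb.symm, by simpa using hc.symm, hbc⟩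
  obtain ⟨m, hm⟩ := exists_ne (1 : M b)
  obtain ⟨n, hn⟩ := exists_ne (1 : M c)
  have hsub : ∀ l : List (Σ i, M i), w.toList <:+ l → tailset l ⊆ A := by
    intro l hl x hx
    have h4 := const_tail A w hw (Word.equiv x) (hl.trans hx)
    rw [prod_word] at h4
    exact h4.mpr hwA
  refine ⟨tailset (Word.cons m w hb hm).toList, isComm_tailset hfg _,
    hsub _ (List.suffix_cons _ _), tailset_infinite h3 _ (by simp), ?_⟩
  refine (tailset_infinite h3 (Word.cons n w hc hn) (by simp)).mono fun x hx => ?_
  refine ⟨hsub _ (List.suffix_cons _ _) hx, fun hx' => ?_⟩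
  have h5 : (Word.cons n w hc hn).toList <:+ (Word.equiv x).toList := hx
  have h6 : (Word.cons m w hb hm).toList <:+ (Word.equiv x).toList := hx'
  have h7 := List.suffix_of_suffix_length_le h5 h6 (by simp)
  have h8 := h7.eq_of_length (by simp)
  simp only [Word.cons_toList, List.cons.injEq] at h8
  apply hbc
  exact (congrArg Sigma.fst h8.1).symm

end Dec

theorem good_coprod [Finite ι] [Nonempty ι] [∀ i, Nontrivial (M i)] (hfg : ∀ i, Group.FG (M i))
    (h3 : ∀ a : ι, ∃ b c, b ≠ a ∧ c ≠ a ∧ b ≠ c) :
    Good (CoprodI M) {A : Set (CoprodI M) | IsComm A} := by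
  classical
  exact good_coprod_aux hfg h3 inferInstance

theorem infinite_coprod [Nonempty ι] [∀ i, Nontrivial (M i)]
    (h3 : ∀ a : ι, ∃ b c, b ≠ a ∧ c ≠ a ∧ b ≠ c) : Infinite (CoprodI M) := by
  classical
  obtain ⟨i⟩ := ‹Nonempty ι›
  obtain ⟨m, hm⟩ := exists_ne (1 : M i)
  have h1 := tailset_infinite h3 (Word.cons m Word.empty (by simp [Word.fstIdx]) hm) (by simp)
  exact Set.infinite_univ_iff.mp (h1.mono (subset_univ _))

end Pool.Agent.R627.EndsGood
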