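import Pool.Agent.R627.EndsGood

set_option linter.style.haveILetI false

/-!
# Regrouping of free products, and the main theorem on spaces of ends
-/

namespace Pool.Agent.R627.EndsRegroup

open Set Monoid Monoid.CoprodI
open Pool.Agent.R627.EndsAlg
open Pool.Agent.R627.EndsStd (Good exists_equiv)
open Pool.Agent.R627.EndsWords
open Pool.Agent.R627.EndsGood

/-- transport of elements along an equality of indices -/
def castHom {κ : Type*} (H : κ → Type*) [∀ i, Group (H i)] {a b : κ} (h : a = b) :
    H a →* H b := by
  subst h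
  exact MonoidHom.id _

theorem of_castHom {κ : Type*} (H : κ → Type*) [∀ i, Group (H i)] {a b : κ} (h : a = b)
    (x : H a) : (of (castHom H h x) : CoprodI H) = of x := by
  subst h
  rfl

variable (H : ℕ → Type*) [∀ n, Group (H n)] (e : Fin 3 × ℕ ≃ ℕ)

/-- a block of three factors -/
abbrev Block (n : ℕ) : Type _ := CoprodI (fun b : Fin 3 => H (e (b, n)))

/-- the map from the free product of the blocks -/
def toH : CoprodI (Block H e) →* CoprodI H :=
  lift fun n => lift fun b => (of : H (e (b, n)) →* CoprodI H)

/-- the letter of a block -/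
def letter (p : Fin 3 × ℕ) : H (e p) →* CoprodI (Block H e) :=
  (of : Block H e p.2 →* CoprodI (Block H e)).comp
    (of (M := fun b : Fin 3 => H (e (b, p.2))) (i := p.1))

theorem letter_cast (p q : Fin 3 × ℕ) (h : q = p) (h' : e p = e q) (x : H (e p)) :
    letter H e q (castHom H h' x) = letter H e p x := by
  subst h
  rfl

/-- the map to the free product of the blocks -/
def fromH : CoprodI H →* CoprodI (Block H e) :=
  lift fun m => (letter H e (e.symm m)).comp (castHom H (e.apply_symm_apply m).symm)

theorem toH_letter (p : Fin 3 × ℕ) (x : H (e p)) : toH H e (letter H e p x) = of x := by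
  unfold toH letter
  rw [MonoidHom.comp_apply, lift_of, lift_of]

theorem toH_fromH : (toH H e).comp (fromH H e) = MonoidHom.id _ := by
  apply ext_hom
  intro m
  apply MonoidHom.ext
  intro x
  simp only [MonoidHom.comp_apply, MonoidHom.id_apply, fromH, lift_of]
  rw [toH_letter]
  exact of_castHom H _ x

theorem fromH_toH : (fromH H e).comp (toH H e) = MonoidHom.id _ := by
  apply ext_hom
  intro n
  apply ext_hom
  intro b
  apply MonoidHom.ext
  intro x
  simp only [MonoidHom.comp_apply, MonoidHom.id_apply, toH, lift_of]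
  unfold fromH
  rw [lift_of, MonoidHom.comp_apply]
  exact letter_cast H e (b, n) (e.symm (e (b, n))) (e.symm_apply_apply _) _ x

/-- the regrouping isomorphism -/
def regroup : CoprodI (Block H e) ≃* CoprodI H :=
  MonoidHom.toMulEquiv (toH H e) (fromH H e) (fromH_toH H e) (toH_fromH H e)

theorem isComm_mulEquiv {G G' : Type*} [Group G] [Group G'] (f : G ≃* G') (A : Set G) :
    IsComm A ↔ IsComm (f '' A) := by
  rw [isComm_iff, isComm_iff, f.surjective.forall]
  refine forall_congr' fun g => ?_
  have : {x | ¬ (f g * x ∈ f '' A ↔ x ∈ f '' A)} = f '' {x | ¬ (g * x ∈ A ↔ x ∈ A)} := by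
    ext x
    obtain ⟨x, rfl⟩ := f.surjective x
    rw [f.injective.mem_set_image]
    simp only [Set.mem_ofPred_eq, ← map_mul, f.injective.mem_set_image]
  rw [this, Set.finite_image_iff f.injective.injOn]

variable {H}

/-- The bijection of two free products of sequences of nontrivial finitely generated groups. -/
theorem exists_bij {H' : ℕ → Type*} [∀ n, Group (H' n)] [∀ n, Nontrivial (H n)]
    [∀ n, Nontrivial (H' n)] (hfg : ∀ n, Group.FG (H n)) (hfg' : ∀ n, Group.FG (H' n)) :
    ∃ f : CoprodI H ≃ CoprodI H', ∀ A : Set (CoprodI H), IsComm A ↔ IsComm (f '' A) := by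
  classical
  obtain ⟨e⟩ : Nonempty (Fin 3 × ℕ ≃ ℕ) := nonempty_equiv_of_countable
  have h3 : ∀ a : Fin 3, ∃ b c, b ≠ a ∧ c ≠ a ∧ b ≠ c := by decide
  have hb : ∀ n, Good (Block H e n) {A : Set (Block H e n) | IsComm A} := fun n =>
    good_coprod (M := fun b : Fin 3 => H (e (b, n))) (fun b => hfg _) h3
  have hb' : ∀ n, Good (Block H' e n) {A : Set (Block H' e n) | IsComm A} := fun n =>
    good_coprod (M := fun b : Fin 3 => H' (e (b, n))) (fun b => hfg' _) h3
  have hfb : ∀ n, Group.FG (Block H e n) := fun n =>
    fg_coprod (M := fun b : Fin 3 => H (e (b, n))) (fun b => hfg _)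
  have hfb' : ∀ n, Group.FG (Block H' e n) := fun n =>
    fg_coprod (M := fun b : Fin 3 => H' (e (b, n))) (fun b => hfg' _)
  have hθ : ∀ n, ∃ θ : Block H e n ≃ Block H' e n, θ 1 = 1 ∧
      ∀ A : Set (Block H e n), IsComm A ↔ IsComm (θ '' A) := by
    intro n
    haveI := hfb n
    haveI := hfb' n
    haveI : Countable (Block H e n) := countable_of_fg
    haveI : Countable (Block H' e n) := countable_of_fg
    haveI : Infinite (Block H e n) := infinite_coprod (M := fun b : Fin 3 => H (e (b, n))) h3
    haveI : Infinite (Block H' e n) := infinite_coprod (M := fun b : Fin 3 => H' (e (b, n))) h3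
    exact exists_equiv (hb n) (hb' n) 1 1
  choose θ hθ1 hθ2 using hθ
  refine ⟨(regroup H e).symm.toEquiv.trans ((gequiv θ hθ1).trans (regroup H' e).toEquiv),
    fun A => ?_⟩
  rw [isComm_mulEquiv (regroup H e).symm, isComm_gequiv θ hθ1 hfb hfb' hθ2,
    isComm_mulEquiv (regroup H' e), Set.image_image, Set.image_image]
  rfl

end Pool.Agent.R627.EndsRegroup
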