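import Mathlib

set_option linter.style.haveILetI false

/-!
# Uniqueness of Pelczynski's compactum, in the language of algebras of sets

A countable algebra of subsets of a countable infinite set `K` that contains the finite sets and in
which every infinite member is the disjoint union of two infinite members is isomorphic, through a
bijection of the underlying sets, to the standard such algebra on the nodes of the binary tree.
-/

namespace Pool.Agent.R627.EndsStd

open Set

/-- The algebra `P` of subsets of `K` is countable, contains the finite sets and every infinite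
member splits. -/
structure Good (K : Type*) (P : Set (Set K)) : Prop where
  univ : Set.univ ∈ P
  compl : ∀ A ∈ P, Aᶜ ∈ P
  inter : ∀ A ∈ P, ∀ B ∈ P, A ∩ B ∈ P
  fin : ∀ A : Set K, A.Finite → A ∈ P
  ctbl : P.Countable
  split : ∀ A ∈ P, A.Infinite → ∃ B ∈ P, B ⊆ A ∧ B.Infinite ∧ (A \ B).Infinite

theorem Good.diff {K : Type*} {P : Set (Set K)} (h : Good K P) {A B : Set K} (hA : A ∈ P)
    (hB : B ∈ P) : A \ B ∈ P := h.inter A hA _ (h.compl B hB)

theorem Good.union {K : Type*} {P : Set (Set K)} (h : Good K P) {A B : Set K} (hA : A ∈ P)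
    (hB : B ∈ P) : A ∪ B ∈ P := by
  have := h.compl _ (h.inter _ (h.compl A hA) _ (h.compl B hB))
  rwa [compl_inter, compl_compl, compl_compl] at this

theorem Good.biUnion {K ι : Type*} {P : Set (Set K)} (h : Good K P) {I : Set ι} (hI : I.Finite)
    {F : ι → Set K} (hF : ∀ i ∈ I, F i ∈ P) : (⋃ i ∈ I, F i) ∈ P := by
  induction I, hI using Set.Finite.induction_on with
  | empty =>
    simp only [mem_empty_iff_false, iUnion_of_empty, iUnion_empty]
    exact h.fin _ finite_empty
  | @insert a s _ _ ih =>
    rw [biUnion_insert]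
    exact h.union (hF a (mem_insert _ _)) (ih fun i hi => hF i (mem_insert_of_mem _ hi))

/-- The standard algebra of subsets of the set of the nodes of the binary tree. -/
def Clop (X : Set (List Bool)) : Prop :=
  ∃ N, ∀ s : List Bool, s.length = N → (∀ t, s <:+ t → t ∈ X) ∨ (∀ t, s <:+ t → t ∉ X)

theorem suffix_total (s t : List Bool) : s <:+ t ∨ (∃ b, b :: t <:+ s) ∨
    ∃ c b, b :: c <:+ s ∧ (!b) :: c <:+ t := by
  induction s with
  | nil => left; exact List.nil_suffix
  | cons a s ih =>
    rcases ih with h | ⟨b, h⟩ | ⟨c, b, h1, h2⟩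
    · obtain ⟨u, hu⟩ := h
      rcases List.eq_nil_or_concat u with rfl | ⟨u', d, rfl⟩
      · rw [List.nil_append] at hu
        right; left
        exact ⟨a, by rw [hu]⟩
      · rw [List.concat_eq_append, List.append_assoc, List.singleton_append] at hu
        by_cases hda : d = a
        · left
          subst hda
          exact ⟨u', hu⟩
        · right; right
          refine ⟨s, a, List.suffix_refl _, ?_⟩
          have : d = !a := by
            cases a <;> cases d <;> simp_all
          rw [← this]
          exact ⟨u', hu⟩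
    · right; left
      exact ⟨b, h.trans (List.suffix_cons a s)⟩
    · right; right
      exact ⟨c, b, h1.trans (List.suffix_cons a s), h2⟩

section Tree

variable {K : Type*} {P : Set (Set K)} (f : K → ℕ) (B : ℕ → Set K) (st : List Bool → Set K)
  (κ : List Bool → K)

/-- the properties of the tree of sets -/
structure TreeOf : Prop where
  inj : Function.Injective f
  p0 : st [] = Set.univ
  pmem : ∀ s, κ s ∈ st s
  pmin : ∀ s, ∀ y ∈ st s, f (κ s) ≤ f y
  pun : ∀ s, st (true :: s) ∪ st (false :: s) = st s \ {κ s}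
  pdis : ∀ s, Disjoint (st (true :: s)) (st (false :: s))
  pP : ∀ s, st s ∈ P
  pB : ∀ s, (B s.length ∩ (st s \ {κ s})).Infinite → ((st s \ {κ s}) \ B s.length).Infinite →
    st (true :: s) = B s.length ∩ (st s \ {κ s})

variable {f B st κ} (T : TreeOf (P := P) f B st κ)
include T

theorem TreeOf.child (b : Bool) (s : List Bool) : st (b :: s) ⊆ st s \ {κ s} := by
  rw [← T.pun s]
  cases b
  · exact subset_union_right
  · exact subset_union_left

theorem TreeOf.mono {s t : List Bool} (h : s <:+ t) : st t ⊆ st s := by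
  obtain ⟨u, rfl⟩ := h
  induction u with
  | nil => exact subset_rfl
  | cons a u ih => exact ((T.child a _).trans diff_subset).trans ih

theorem TreeOf.mem_iff (s t : List Bool) : κ t ∈ st s ↔ s <:+ t := by
  constructor
  · intro h
    rcases suffix_total s t with h1 | ⟨b, h1⟩ | ⟨c, b, h1, h2⟩
    · exact h1
    · have h3 := T.child b t (T.mono h1 h)
      exact absurd rfl h3.2
    · exfalso
      have h3 := T.mono h1 h
      have h4 := T.mono h2 (T.pmem t)
      have hd := T.pdis c
      cases b
      · exact Set.disjoint_left.mp hd h4 h3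
      · exact Set.disjoint_left.mp hd h3 h4
  · intro h
    exact T.mono h (T.pmem t)

theorem TreeOf.kinj : Function.Injective κ := by
  intro s t h
  have h1 : s <:+ t := by rw [← T.mem_iff, ← h]; exact T.pmem s
  have h2 : t <:+ s := by rw [← T.mem_iff, h]; exact T.pmem t
  exact h1.eq_of_length_le h2.length_le

theorem TreeOf.ksurj : Function.Surjective κ := by
  intro x
  have key : ∀ m : ℕ, ∀ s, x ∈ st s → {y ∈ st s | f y < f x}.ncard = m → ∃ t, κ t = x := by
    intro m
    induction m using Nat.strong_induction_on with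
    | _ m ih =>
      intro s hs hm
      by_cases hx : κ s = x
      · exact ⟨s, hx⟩
      · have h1 : x ∈ st s \ {κ s} := ⟨hs, fun h => hx h.symm⟩
        rw [← T.pun s] at h1
        have h2 : ∃ b, x ∈ st (b :: s) := by
          rcases h1 with h1 | h1
          · exact ⟨true, h1⟩
          · exact ⟨false, h1⟩
        obtain ⟨b, hb⟩ := h2
        have hfin : {y ∈ st s | f y < f x}.Finite := by
          apply Set.Finite.of_finite_image (f := f)
          · exact (Set.finite_lt_nat (f x)).subset (by rintro _ ⟨y, ⟨-, hy⟩, rfl⟩; exact hy)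
          · exact T.inj.injOn
        have hss : {y ∈ st (b :: s) | f y < f x} ⊂ {y ∈ st s | f y < f x} := by
          constructor
          · rintro y ⟨hy1, hy2⟩
            exact ⟨(T.child b s hy1).1, hy2⟩
          · intro hsub
            have hk : κ s ∈ {y ∈ st s | f y < f x} :=
              ⟨T.pmem s, lt_of_le_of_ne (T.pmin s x hs) (fun h => hx (T.inj h))⟩
            exact absurd rfl (T.child b s (hsub hk).1).2
        have hlt := Set.ncard_lt_ncard hss hfin
        rw [hm] at hlt
        exact ih _ hlt (b :: s) hb rfl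
  exact key _ [] (by rw [T.p0]; exact mem_univ x) rfl

theorem TreeOf.cover (N : ℕ) (x : K) : (∃ s : List Bool, s.length < N ∧ κ s = x) ∨
    ∃ s : List Bool, s.length = N ∧ x ∈ st s := by
  obtain ⟨t, rfl⟩ := T.ksurj x
  rcases lt_or_ge t.length N with h | h
  · exact Or.inl ⟨t, h, rfl⟩
  · right
    refine ⟨t.drop (t.length - N), ?_, ?_⟩
    · rw [List.length_drop]; omega
    · rw [T.mem_iff]; exact List.drop_suffix _ _

theorem TreeOf.clop (hP : Good K P) (hB : range B = P) (X : Set K) :
    X ∈ P ↔ ∃ N, ∀ s : List Bool, s.length = N → st s ⊆ X ∨ Disjoint (st s) X := by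
  constructor
  · intro hX
    rw [← hB] at hX
    obtain ⟨n, rfl⟩ := hX
    -- the exceptional finite set
    let ex : List Bool → Set K := fun s =>
      {x | x ∈ st s \ {κ s} ∧ ((B n ∩ (st s \ {κ s})).Finite ∧ x ∈ B n ∨
        ((st s \ {κ s}) \ B n).Finite ∧ x ∉ B n)}
    have hex : ∀ s, (ex s).Finite := by
      intro s
      have : ex s ⊆ {x | (B n ∩ (st s \ {κ s})).Finite ∧ x ∈ B n ∩ (st s \ {κ s})} ∪
          {x | ((st s \ {κ s}) \ B n).Finite ∧ x ∈ (st s \ {κ s}) \ B n} := by
        rintro x ⟨hx1, hx2 | hx2⟩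
        · left; exact ⟨hx2.1, hx2.2, hx1⟩
        · right; exact ⟨hx2.1, hx1, hx2.2⟩
      refine Set.Finite.subset (Set.Finite.union ?_ ?_) this
      · by_cases h : (B n ∩ (st s \ {κ s})).Finite
        · exact h.subset fun x hx => hx.2
        · convert Set.finite_empty
          ext x
          simp [h]
      · by_cases h : ((st s \ {κ s}) \ B n).Finite
        · exact h.subset fun x hx => hx.2
        · convert Set.finite_empty
          ext x
          simp [h]
    have hF : (⋃ s ∈ {s : List Bool | s.length = n}, ex s).Finite :=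
      Set.Finite.biUnion (List.finite_length_eq Bool n) fun s _ => hex s
    -- bound on the levels
    obtain ⟨N, hN⟩ : ∃ N, ∀ t : List Bool, κ t ∈ (⋃ s ∈ {s : List Bool | s.length = n}, ex s) →
        t.length < N := by
      have h1 : (κ ⁻¹' (⋃ s ∈ {s : List Bool | s.length = n}, ex s)).Finite :=
        hF.preimage T.kinj.injOn
      have h2 := (h1.image List.length).bddAbove
      obtain ⟨M, hM⟩ := h2
      exact ⟨M + 1, fun t ht => Nat.lt_succ_of_le (hM ⟨t, ht, rfl⟩)⟩
    refine ⟨max N (n + 1), fun t ht => ?_⟩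
    have htN : N ≤ t.length := by rw [ht]; exact le_max_left _ _
    have htn : n + 1 ≤ t.length := by rw [ht]; exact le_max_right _ _
    -- elements of st t are not exceptional
    have hne : ∀ s : List Bool, s.length = n → ∀ x ∈ st t, x ∉ ex s := by
      intro s hs x hx hxe
      obtain ⟨u, rfl⟩ := T.ksurj x
      have h1 := hN u (by simp only [mem_iUnion]; exact ⟨s, hs, hxe⟩)
      have h2 := ((T.mem_iff t u).mp hx).length_le
      omega
    -- the suffixes of length n + 1 and n
    have hsuf : (t.drop (t.length - (n + 1))) <:+ t := List.drop_suffix _ _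
    have hlen : (t.drop (t.length - (n + 1))).length = n + 1 := by
      rw [List.length_drop]; omega
    obtain ⟨b, s, hbs⟩ : ∃ b s, t.drop (t.length - (n + 1)) = b :: s := by
      cases h : t.drop (t.length - (n + 1)) with
      | nil => rw [h] at hlen; simp at hlen
      | cons b s => exact ⟨b, s, rfl⟩
    rw [hbs] at hsuf hlen
    have hs : s.length = n := by simpa using hlen
    have hsub : st t ⊆ st (b :: s) := T.mono hsuf
    have hsub2 : st t ⊆ st s \ {κ s} := hsub.trans (T.child b s)
    by_cases h1 : (B n ∩ (st s \ {κ s})).Finite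
    · right
      rw [Set.disjoint_left]
      intro x hx hxB
      exact hne s hs x hx ⟨hsub2 hx, Or.inl ⟨h1, hxB⟩⟩
    · by_cases h2 : ((st s \ {κ s}) \ B n).Finite
      · left
        intro x hx
        by_contra hxB
        exact hne s hs x hx ⟨hsub2 hx, Or.inr ⟨h2, hxB⟩⟩
      · have h3 := T.pB s (by rw [hs]; exact h1) (by rw [hs]; exact h2)
        rw [hs] at h3
        cases b
        · right
          rw [Set.disjoint_left]
          intro x hx hxB
          have h4 := hsub hx
          have h5 : x ∈ st (true :: s) := by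
            rw [h3]
            exact ⟨hxB, hsub2 hx⟩
          exact Set.disjoint_left.mp (T.pdis s) h5 h4
        · left
          intro x hx
          have h4 := hsub hx
          rw [h3] at h4
          exact h4.1
  · rintro ⟨N, hN⟩
    have e : X = (X ∩ κ '' {s | s.length < N}) ∪
        ⋃ s ∈ {s : List Bool | s.length = N ∧ st s ⊆ X}, st s := by
      ext x
      constructor
      · intro hx
        rcases T.cover N x with ⟨s, hs, rfl⟩ | ⟨s, hs, hxs⟩
        · exact Or.inl ⟨hx, s, hs, rfl⟩
        · right
          rcases hN s hs with h | h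
          · simp only [mem_iUnion]
            exact ⟨s, ⟨hs, h⟩, hxs⟩
          · exact absurd hx (Set.disjoint_left.mp h hxs)
      · rintro (⟨hx, -⟩ | hx)
        · exact hx
        · simp only [mem_iUnion] at hx
          obtain ⟨s, ⟨-, hs⟩, hxs⟩ := hx
          exact hs hxs
    rw [e]
    apply hP.union
    · apply hP.fin
      apply Set.Finite.subset _ inter_subset_right
      exact (List.finite_length_lt Bool N).image κ
    · apply hP.biUnion
      · exact (List.finite_length_eq Bool N).subset fun s hs => hs.1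
      · intro s _
        exact T.pP s

end Tree

theorem exists_tree {K : Type*} [Countable K] [Infinite K] {P : Set (Set K)} (h : Good K P) :
    ∃ (f : K → ℕ) (B : ℕ → Set K) (st : List Bool → Set K) (κ : List Bool → K),
      TreeOf (P := P) f B st κ ∧ range B = P := by
  obtain ⟨f, hf⟩ := Countable.exists_injective_nat K
  obtain ⟨B, hB⟩ := h.ctbl.exists_eq_range ⟨_, h.univ⟩
  have hlo : ∀ A : {A : Set K // A ∈ P ∧ A.Infinite}, ∃ x ∈ A.1, ∀ y ∈ A.1, f x ≤ f y := by
    rintro ⟨A, hA, hinf⟩
    obtain ⟨x, hx, hmin⟩ := WellFounded.has_min (measure f).wf A hinf.nonempty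
    exact ⟨x, hx, fun y hy => not_lt.mp (hmin y hy)⟩
  choose lo hlo1 hlo2 using hlo
  have hL : ∀ (A : {A : Set K // A ∈ P ∧ A.Infinite}) (n : ℕ), ∃ L ∈ P, L ⊆ A.1 \ {lo A} ∧
      L.Infinite ∧ ((A.1 \ {lo A}) \ L).Infinite ∧
      ((B n ∩ (A.1 \ {lo A})).Infinite → ((A.1 \ {lo A}) \ B n).Infinite →
        L = B n ∩ (A.1 \ {lo A})) := by
    rintro ⟨A, hA, hinf⟩ n
    have hA' : A \ {lo ⟨A, hA, hinf⟩} ∈ P := h.diff hA (h.fin _ (finite_singleton _))
    have hinf' : (A \ {lo ⟨A, hA, hinf⟩}).Infinite := hinf.diff (finite_singleton _)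
    by_cases hc : (B n ∩ (A \ {lo ⟨A, hA, hinf⟩})).Infinite ∧
        ((A \ {lo ⟨A, hA, hinf⟩}) \ B n).Infinite
    · refine ⟨B n ∩ (A \ {lo ⟨A, hA, hinf⟩}), ?_, inter_subset_right, hc.1, ?_, fun _ _ => rfl⟩
      · apply h.inter _ _ _ hA'
        rw [hB]
        exact ⟨n, rfl⟩
      · convert hc.2 using 1
        ext x
        simp only [mem_diff, mem_inter_iff, mem_singleton_iff]
        tauto
    · obtain ⟨L, hL1, hL2, hL3, hL4⟩ := h.split _ hA' hinf'
      exact ⟨L, hL1, hL2, hL3, hL4, fun h1 h2 => absurd ⟨h1, h2⟩ hc⟩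
  choose L hL1 hL2 hL3 hL4 hL5 using hL
  let left : {A : Set K // A ∈ P ∧ A.Infinite} → ℕ → {A : Set K // A ∈ P ∧ A.Infinite} :=
    fun A n => ⟨L A n, hL1 A n, hL3 A n⟩
  let right : {A : Set K // A ∈ P ∧ A.Infinite} → ℕ → {A : Set K // A ∈ P ∧ A.Infinite} :=
    fun A n => ⟨(A.1 \ {lo A}) \ L A n,
      h.diff (h.diff A.2.1 (h.fin _ (finite_singleton _))) (hL1 A n), hL4 A n⟩
  let S0 : {A : Set K // A ∈ P ∧ A.Infinite} := ⟨Set.univ, h.univ, Set.infinite_univ⟩
  let st : List Bool → {A : Set K // A ∈ P ∧ A.Infinite} := fun s =>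
    List.rec S0 (fun b s ih => if b then left ih s.length else right ih s.length) s
  have st0 : st [] = S0 := rfl
  have stt : ∀ s, st (true :: s) = left (st s) s.length := fun s => rfl
  have stf : ∀ s, st (false :: s) = right (st s) s.length := fun s => rfl
  refine ⟨f, B, fun s => (st s).1, fun s => lo (st s), ?_, hB.symm⟩
  refine ⟨hf, ?_, fun s => hlo1 _, fun s => hlo2 _, ?_, ?_, fun s => (st s).2.1, ?_⟩
  · rw [st0]
  · intro s
    rw [stt, stf]
    show L (st s) s.length ∪ (((st s).1 \ {lo (st s)}) \ L (st s) s.length) = _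
    exact union_diff_cancel (hL2 (st s) s.length)
  · intro s
    rw [stt, stf]
    exact disjoint_sdiff_right
  · intro s h1 h2
    rw [stt]
    exact hL5 (st s) s.length h1 h2

/-- All good algebras are isomorphic to the standard one. -/
theorem exists_std {K : Type*} [Countable K] [Infinite K] {P : Set (Set K)} (h : Good K P) :
    ∃ e : List Bool ≃ K, ∀ X : Set (List Bool), e '' X ∈ P ↔ Clop X := by
  obtain ⟨f, B, st, κ, T, hB⟩ := exists_tree h
  refine ⟨Equiv.ofBijective κ ⟨T.kinj, T.ksurj⟩, fun X => ?_⟩
  rw [T.clop h hB]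
  unfold Clop
  refine exists_congr fun N => forall_congr' fun s => imp_congr_right fun _ => or_congr ?_ ?_
  · constructor
    · intro h t ht
      obtain ⟨t', ht', he⟩ := h ((T.mem_iff s t).mpr ht)
      have : t' = t := T.kinj he
      rwa [← this]
    · intro h x hx
      obtain ⟨t, rfl⟩ := T.ksurj x
      exact ⟨t, h t ((T.mem_iff s t).mp hx), rfl⟩
  · constructor
    · intro h t ht htX
      exact Set.disjoint_left.mp h ((T.mem_iff s t).mpr ht) ⟨t, htX, rfl⟩
    · intro h
      rw [Set.disjoint_left]
      rintro _ hx ⟨t, htX, rfl⟩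
      exact h t ((T.mem_iff s t).mp hx) htX

/-- Two good algebras are isomorphic through a bijection that maps a given point to a given
point. -/
theorem exists_equiv {K K' : Type*} [Countable K] [Infinite K] [Countable K'] [Infinite K']
    {P : Set (Set K)} {P' : Set (Set K')} (h : Good K P) (h' : Good K' P') (x : K) (x' : K') :
    ∃ e : K ≃ K', e x = x' ∧ ∀ A : Set K, A ∈ P ↔ e '' A ∈ P' := by
  classical
  obtain ⟨a, ha⟩ := exists_std h
  obtain ⟨b, hb⟩ := exists_std h'
  let e₀ : K ≃ K' := a.symm.trans b
  have he₀ : ∀ A : Set K, A ∈ P ↔ e₀ '' A ∈ P' := by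
    intro A
    have h1 : A = a '' (a.symm '' A) := by simp [← image_comp]
    conv_lhs => rw [h1]
    rw [ha, ← hb, ← image_comp]
    rfl
  let τ : Equiv.Perm K' := Equiv.swap (e₀ x) x'
  have hτ : ∀ A : Set K', A ∈ P' → τ '' A ∈ P' := by
    intro A hA
    have : τ '' A = (A \ {e₀ x, x'}) ∪ (τ '' A ∩ {e₀ x, x'}) := by
      ext y
      have hy : ∀ y, y ≠ e₀ x → y ≠ x' → (y ∈ τ '' A ↔ y ∈ A) := by
        intro y h1 h2
        have h3 : τ y = y := Equiv.swap_apply_of_ne_of_ne h1 h2
        constructor
        · rintro ⟨z, hz, hzy⟩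
          have : z = y := τ.injective (by rw [hzy, h3])
          rwa [← this]
        · intro hyA
          exact ⟨y, hyA, h3⟩
      by_cases h1 : y = e₀ x
      · simp [h1]
      · by_cases h2 : y = x'
        · simp [h2]
        · have h4 := hy y h1 h2
          simp only [mem_union, mem_diff, mem_inter_iff, mem_insert_iff, mem_singleton_iff, h1, h2,
            or_self, not_false_eq_true, and_true, and_false, or_false]
          exact h4
    rw [this]
    apply h'.union
    · exact h'.diff hA (h'.fin _ (by simp))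
    · exact h'.fin _ (Set.Finite.inter_of_right (by simp) _)
  have hτ' : ∀ A : Set K', τ '' A ∈ P' ↔ A ∈ P' := by
    intro A
    refine ⟨fun hA => ?_, hτ A⟩
    have := hτ _ hA
    rwa [← image_comp, show (τ ∘ τ : K' → K') = id by
      funext y; exact Equiv.swap_apply_self .., image_id] at this
  refine ⟨e₀.trans τ, Equiv.swap_apply_left _ _, fun A => ?_⟩
  rw [he₀, ← hτ', ← image_comp]
  rfl

end Pool.Agent.R627.EndsStd
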