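import Pool.Agent.R627.EndsStd
import Pool.Agent.R627.EndsAlg

set_option linter.style.haveILetI false

/-!
# Commensurated subsets of free products of finitely generated groups
-/

namespace Pool.Agent.R627.EndsWords

open Set Monoid Monoid.CoprodI
open Pool.Agent.R627.EndsAlg
open Pool.Agent.R627.EndsStd (Good)

variable {ι : Type*} {M : ι → Type*} [∀ i, Group (M i)]

theorem isComm_coprod (A : Set (CoprodI M)) :
    IsComm A ↔ ∀ i (m : M i), {x | ¬ (of m * x ∈ A ↔ x ∈ A)}.Finite := by
  constructor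
  · intro h i m
    exact ((isComm_iff A).mp h) (of m)
  · intro h
    rw [isComm_iff]
    intro g
    induction g using CoprodI.induction_on with
    | one => simp
    | of i m => exact h i m
    | mul a b ha hb =>
      have h1 : ((fun x => b * x) ⁻¹' {x | ¬ (a * x ∈ A ↔ x ∈ A)}).Finite :=
        ha.preimage (mul_right_injective b).injOn
      refine (h1.union hb).subset fun x hx => ?_
      simp only [Set.mem_ofPred_eq, mem_union, mem_preimage, mul_assoc] at hx ⊢
      tauto

/-- The reduced words that do not start with the letter `i`. -/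
abbrev Tail (M : ι → Type*) [∀ i, Group (M i)] (i : ι) : Type _ :=
  {w : Word M // w.fstIdx ≠ some i}

/-- slices -/
def slice (A : Set (CoprodI M)) (i : ι) (t : Tail M i) : Set (M i) :=
  {k | of k * t.1.prod ∈ A}

section Dec

variable [DecidableEq ι] [∀ i, DecidableEq (M i)]

theorem pair_bij (i : ι) :
    Function.Bijective (fun p : M i × Tail M i => (of p.1 * p.2.1.prod : CoprodI M)) := by
  have h1 : Function.Bijective (fun p : M i × Tail M i => (⟨p.1, p.2.1, p.2.2⟩ : Word.Pair M i)) := by
    constructor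
    · rintro ⟨a, b, hb⟩ ⟨c, d, hd⟩ h
      simp only [Word.Pair.mk.injEq] at h
      obtain ⟨rfl, rfl⟩ := h
      rfl
    · rintro ⟨a, b, hb⟩
      exact ⟨(a, ⟨b, hb⟩), rfl⟩
  have h2 : Function.Bijective (fun p : Word.Pair M i => (Word.rcons p).prod) := by
    have : (fun p : Word.Pair M i => (Word.rcons p).prod) =
        (Word.equiv.symm : Word M → CoprodI M) ∘ (Word.equivPair i).symm := rfl
    rw [this]
    exact (Word.equiv.symm.bijective).comp (Word.equivPair i).symm.bijective
  convert h2.comp h1 using 1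
  funext p
  simp only [Function.comp_apply, Word.prod_rcons]

omit [DecidableEq ι] [∀ i, DecidableEq (M i)] in
theorem isComm_words (hfg : ∀ i, Group.FG (M i)) (A : Set (CoprodI M)) :
    IsComm A ↔ ∀ i, (∀ t : Tail M i, IsComm (slice A i t)) ∧
      {t : Tail M i | ¬ (slice A i t = ∅ ∨ slice A i t = Set.univ)}.Finite := by
  classical
  rw [isComm_coprod]
  refine forall_congr' fun i => ?_
  haveI := hfg i
  rw [← family]
  refine forall_congr' fun m => ?_
  have h1 : {x | ¬ (of m * x ∈ A ↔ x ∈ A)} =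
      (fun p : M i × Tail M i => (of p.1 * p.2.1.prod : CoprodI M)) ''
        {p : M i × Tail M i | ¬ (m * p.1 ∈ slice A i p.2 ↔ p.1 ∈ slice A i p.2)} := by
    ext x
    constructor
    · intro hx
      obtain ⟨p, rfl⟩ := (pair_bij i).2 x
      refine ⟨p, ?_, rfl⟩
      simp only [Set.mem_ofPred_eq, slice, map_mul, mul_assoc] at hx ⊢
      exact hx
    · rintro ⟨p, hp, rfl⟩
      simp only [Set.mem_ofPred_eq, slice, map_mul, mul_assoc] at hp ⊢
      exact hp
  rw [h1]
  exact Set.finite_image_iff (pair_bij i).1.injOn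

end Dec

section Map

variable {M' : ι → Type*} [∀ i, Group (M' i)]

/-- the letterwise map of reduced words -/
def wmap (θ : ∀ i, M i ≃ M' i) (h1 : ∀ i, θ i 1 = 1) (w : Word M) : Word M' where
  toList := w.toList.map (Sigma.map id fun i => θ i)
  ne_one := by
    intro l hl
    rw [List.mem_map] at hl
    obtain ⟨⟨i, m⟩, hm, rfl⟩ := hl
    intro h
    apply w.ne_one _ hm
    apply (θ i).injective
    rw [h1]
    exact h
  chain_ne := by
    rw [List.isChain_map]
    exact w.chain_ne

variable (θ : ∀ i, M i ≃ M' i) (h1 : ∀ i, θ i 1 = 1)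

theorem fstIdx_wmap (w : Word M) : (wmap θ h1 w).fstIdx = w.fstIdx := by
  unfold Word.fstIdx wmap
  simp only [List.head?_map, Option.map_map]
  rfl

theorem wmap_inv (h2 : ∀ i, (θ i).symm 1 = 1) (w : Word M) :
    wmap (fun i => (θ i).symm) h2 (wmap θ h1 w) = w := by
  apply Word.ext
  show List.map _ (List.map _ w.toList) = w.toList
  rw [List.map_map]
  conv_rhs => rw [← List.map_id w.toList]
  apply List.map_congr_left
  rintro ⟨i, m⟩ -
  show (⟨i, (θ i).symm (θ i m)⟩ : Σ i, M i) = ⟨i, m⟩
  rw [(θ i).symm_apply_apply m]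

theorem wmap_inv' (h2 : ∀ i, (θ i).symm 1 = 1) (w : Word M') :
    wmap θ h1 (wmap (fun i => (θ i).symm) h2 w) = w := by
  apply Word.ext
  show List.map _ (List.map _ w.toList) = w.toList
  rw [List.map_map]
  conv_rhs => rw [← List.map_id w.toList]
  apply List.map_congr_left
  rintro ⟨i, m⟩ -
  show (⟨i, θ i ((θ i).symm m)⟩ : Σ i, M' i) = ⟨i, m⟩
  rw [(θ i).apply_symm_apply m]

/-- the letterwise bijection of words -/
def wequiv : Word M ≃ Word M' where
  toFun := wmap θ h1
  invFun := wmap (fun i => (θ i).symm) (fun i => by rw [Equiv.symm_apply_eq, h1])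
  left_inv := wmap_inv θ h1 _
  right_inv := wmap_inv' θ h1 _

/-- the bijection of the tails -/
theorem tail_bij (i : ι) : Function.Bijective (fun t : Tail M i =>
    (⟨wmap θ h1 t.1, by rw [fstIdx_wmap]; exact t.2⟩ : Tail M' i)) := by
  constructor
  · rintro ⟨a, ha⟩ ⟨b, hb⟩ h
    simp only [Subtype.mk.injEq] at h ⊢
    exact (wequiv θ h1).injective h
  · rintro ⟨b, hb⟩
    obtain ⟨a, rfl⟩ := (wequiv θ h1).surjective b
    have hb' : (wmap θ h1 a).fstIdx ≠ some i := hb
    rw [fstIdx_wmap] at hb'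
    exact ⟨⟨a, hb'⟩, rfl⟩

section Dec2
variable [DecidableEq ι] [∀ i, DecidableEq (M i)] [∀ i, DecidableEq (M' i)]

/-- the letterwise bijection of the free products -/
def gequiv : CoprodI M ≃ CoprodI M' :=
  Word.equiv.trans ((wequiv θ h1).trans Word.equiv.symm)

omit [DecidableEq ι] in
theorem wmap_rcons {i : ι} (p : Word.Pair M i) : wmap θ h1 (Word.rcons p) =
    Word.rcons ⟨θ i p.head, wmap θ h1 p.tail, by rw [fstIdx_wmap]; exact p.fstIdx_ne⟩ := by
  by_cases h : p.head = 1
  · rw [Word.rcons, dif_pos h, Word.rcons, dif_pos]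
    show θ i p.head = 1
    rw [h, h1]
  · rw [Word.rcons, dif_neg h, Word.rcons, dif_neg]
    · apply Word.ext
      rfl
    · intro h3
      apply h
      apply (θ i).injective
      rw [h1]
      exact h3

theorem gequiv_pair {i : ι} (k : M i) (t : Tail M i) :
    gequiv θ h1 (of k * t.1.prod) = of (θ i k) * (wmap θ h1 t.1).prod := by
  have h2 : (of k * t.1.prod : CoprodI M) = (Word.rcons ⟨k, t.1, t.2⟩ : Word M).prod := by
    rw [Word.prod_rcons]
  have h3 : (of (θ i k) * (wmap θ h1 t.1).prod : CoprodI M') =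
      (Word.rcons ⟨θ i k, wmap θ h1 t.1, by rw [fstIdx_wmap]; exact t.2⟩ : Word M').prod := by
    rw [Word.prod_rcons]
  rw [h2, h3]
  show (wmap θ h1 (Word.equiv (Word.equiv.symm _))).prod = _
  rw [Equiv.apply_symm_apply, wmap_rcons]

theorem slice_gequiv (A : Set (CoprodI M)) {i : ι} (t : Tail M i) :
    slice (gequiv θ h1 '' A) i ⟨wmap θ h1 t.1, by rw [fstIdx_wmap]; exact t.2⟩ =
      θ i '' (slice A i t) := by
  ext k
  obtain ⟨k, rfl⟩ := (θ i).surjective k
  show of (θ i k) * (wmap θ h1 t.1).prod ∈ gequiv θ h1 '' A ↔ _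
  rw [← gequiv_pair, (gequiv θ h1).injective.mem_set_image, (θ i).injective.mem_set_image]
  rfl

omit [∀ i, Group (M i)] [∀ i, Group (M' i)] [DecidableEq ι] [∀ i, DecidableEq (M i)]
  [∀ i, DecidableEq (M' i)] in
theorem image_univ_iff (i : ι) (S : Set (M i)) : θ i '' S = Set.univ ↔ S = Set.univ := by
  constructor
  · intro h
    have := (θ i).symm_image_image S
    rw [h, Set.image_univ, (θ i).symm.range_eq_univ] at this
    exact this.symm
  · rintro rfl
    rw [Set.image_univ, (θ i).range_eq_univ]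

theorem isComm_gequiv (hfg : ∀ i, Group.FG (M i)) (hfg' : ∀ i, Group.FG (M' i))
    (hθ : ∀ i (A : Set (M i)), IsComm A ↔ IsComm (θ i '' A)) (A : Set (CoprodI M)) :
    IsComm A ↔ IsComm (gequiv θ h1 '' A) := by
  rw [isComm_words hfg, isComm_words hfg']
  refine forall_congr' fun i => ?_
  refine and_congr ?_ ?_
  · rw [(tail_bij θ h1 i).2.forall]
    refine forall_congr' fun t => ?_
    rw [slice_gequiv, hθ]
  · have h2 : {t : Tail M' i | ¬ (slice (gequiv θ h1 '' A) i t = ∅ ∨
        slice (gequiv θ h1 '' A) i t = Set.univ)} = (fun t : Tail M i =>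
          (⟨wmap θ h1 t.1, by rw [fstIdx_wmap]; exact t.2⟩ : Tail M' i)) ''
            {t : Tail M i | ¬ (slice A i t = ∅ ∨ slice A i t = Set.univ)} := by
      ext t
      obtain ⟨t, rfl⟩ := (tail_bij θ h1 i).2 t
      rw [(tail_bij θ h1 i).1.mem_set_image]
      simp only [Set.mem_ofPred_eq, slice_gequiv, Set.image_eq_empty,
        image_univ_iff]
    rw [h2, Set.finite_image_iff (tail_bij θ h1 i).1.injOn]

end Dec2

end Map

end Pool.Agent.R627.EndsWords
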