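import Mathlib

/-!
# Two by two matrices of determinant one over a commutative ring, and over the dual numbers
-/

set_option autoImplicit false
set_option linter.style.haveILetI false
set_option linter.unusedSimpArgs false

namespace Pool.Agent.R627.SL2G

open Matrix

section general

variable {R : Type*} [CommRing R]

/-- the group `SL₂(R)` -/
abbrev SL (R : Type*) [CommRing R] : Type _ := Matrix.SpecialLinearGroup (Fin 2) R

/-- upper unipotent matrices -/
def u (x : R) : SL R := ⟨!![1, x; 0, 1], by simp [Matrix.det_fin_two]⟩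

/-- lower unipotent matrices -/
def l (x : R) : SL R := ⟨!![1, 0; x, 1], by simp [Matrix.det_fin_two]⟩

/-- diagonal matrices -/
def dg (s r : R) (h : s * r = 1) : SL R := ⟨!![s, 0; 0, r], by simp [Matrix.det_fin_two, h]⟩

/-- the Weyl element -/
def w : SL R := ⟨!![0, 1; -1, 0], by simp [Matrix.det_fin_two]⟩

theorem ext4 {g h : SL R} (h00 : g.1 0 0 = h.1 0 0) (h01 : g.1 0 1 = h.1 0 1)
    (h10 : g.1 1 0 = h.1 1 0) (h11 : g.1 1 1 = h.1 1 1) : g = h := by
  apply Subtype.ext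
  ext i j
  fin_cases i <;> fin_cases j
  · exact h00
  · exact h01
  · exact h10
  · exact h11

theorem det_eq (g : SL R) : g.1 0 0 * g.1 1 1 - g.1 0 1 * g.1 1 0 = 1 := by
  have := g.2
  rwa [Matrix.det_fin_two] at this

theorem mul00 (g h : SL R) : (g * h).1 0 0 = g.1 0 0 * h.1 0 0 + g.1 0 1 * h.1 1 0 := by
  rw [Matrix.SpecialLinearGroup.coe_mul, Matrix.mul_apply, Fin.sum_univ_two]
theorem mul01 (g h : SL R) : (g * h).1 0 1 = g.1 0 0 * h.1 0 1 + g.1 0 1 * h.1 1 1 := by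
  rw [Matrix.SpecialLinearGroup.coe_mul, Matrix.mul_apply, Fin.sum_univ_two]
theorem mul10 (g h : SL R) : (g * h).1 1 0 = g.1 1 0 * h.1 0 0 + g.1 1 1 * h.1 1 0 := by
  rw [Matrix.SpecialLinearGroup.coe_mul, Matrix.mul_apply, Fin.sum_univ_two]
theorem mul11 (g h : SL R) : (g * h).1 1 1 = g.1 1 0 * h.1 0 1 + g.1 1 1 * h.1 1 1 := by
  rw [Matrix.SpecialLinearGroup.coe_mul, Matrix.mul_apply, Fin.sum_univ_two]
theorem inv00 (g : SL R) : (g⁻¹).1 0 0 = g.1 1 1 := by
  rw [Matrix.SpecialLinearGroup.coe_inv, Matrix.adjugate_fin_two]; rfl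
theorem inv01 (g : SL R) : (g⁻¹).1 0 1 = -g.1 0 1 := by
  rw [Matrix.SpecialLinearGroup.coe_inv, Matrix.adjugate_fin_two]; rfl
theorem inv10 (g : SL R) : (g⁻¹).1 1 0 = -g.1 1 0 := by
  rw [Matrix.SpecialLinearGroup.coe_inv, Matrix.adjugate_fin_two]; rfl
theorem inv11 (g : SL R) : (g⁻¹).1 1 1 = g.1 0 0 := by
  rw [Matrix.SpecialLinearGroup.coe_inv, Matrix.adjugate_fin_two]; rfl
theorem one00 : (1 : SL R).1 0 0 = 1 := by simp
theorem one01 : (1 : SL R).1 0 1 = 0 := by simp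
theorem one10 : (1 : SL R).1 1 0 = 0 := by simp
theorem one11 : (1 : SL R).1 1 1 = 1 := by simp

theorem u00 (x : R) : (u x).1 0 0 = 1 := rfl
theorem u01 (x : R) : (u x).1 0 1 = x := rfl
theorem u10 (x : R) : (u x).1 1 0 = 0 := rfl
theorem u11 (x : R) : (u x).1 1 1 = 1 := rfl
theorem l00 (x : R) : (l x).1 0 0 = 1 := rfl
theorem l01 (x : R) : (l x).1 0 1 = 0 := rfl
theorem l10 (x : R) : (l x).1 1 0 = x := rfl
theorem l11 (x : R) : (l x).1 1 1 = 1 := rfl
theorem d00 (s r : R) (h : s * r = 1) : (dg s r h).1 0 0 = s := rfl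
theorem d01 (s r : R) (h : s * r = 1) : (dg s r h).1 0 1 = 0 := rfl
theorem d10 (s r : R) (h : s * r = 1) : (dg s r h).1 1 0 = 0 := rfl
theorem d11 (s r : R) (h : s * r = 1) : (dg s r h).1 1 1 = r := rfl
theorem w00 : (w (R := R)).1 0 0 = 0 := rfl
theorem w01 : (w (R := R)).1 0 1 = 1 := rfl
theorem w10 : (w (R := R)).1 1 0 = -1 := rfl
theorem w11 : (w (R := R)).1 1 1 = 0 := rfl

/-- Decomposition of a matrix with invertible lower left entry. -/
theorem decomp (g : SL R) (r : R) (h : g.1 1 0 * r = 1) :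
    g = u ((g.1 0 0 - 1) * r) * l (g.1 1 0) * u ((g.1 1 1 - 1) * r) := by
  have hd := det_eq g
  apply ext4 <;> simp only [mul00, mul01, mul10, mul11, u00, u01, u10, u11, l00, l01, l10, l11]
  · linear_combination (1 - g.1 0 0) * h
  · linear_combination (-g.1 0 1 - (g.1 0 0 - 1) * (g.1 1 1 - 1) * r) * h - r * hd
  · ring
  · linear_combination (1 - g.1 1 1) * h

end general

section dual

/-- the dual numbers over the reals -/
abbrev D : Type := TrivSqZeroExt ℝ ℝ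

/-- The dual number `a + b ε`. -/
def dn (a b : ℝ) : D := (a, b)

theorem fst_dn (a b : ℝ) : (dn a b).fst = a := rfl
theorem snd_dn (a b : ℝ) : (dn a b).snd = b := rfl

theorem dn_mul (a b c d : ℝ) : dn a b * dn c d = dn (a * c) (a * d + b * c) := rfl
theorem dn_add (a b c d : ℝ) : dn a b + dn c d = dn (a + c) (b + d) := rfl
theorem dn_sub (a b c d : ℝ) : dn a b - dn c d = dn (a - c) (b - d) := rfl
theorem dn_neg (a b : ℝ) : -dn a b = dn (-a) (-b) := rfl
theorem dn_one : (1 : D) = dn 1 0 := rfl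
theorem dn_zero : (0 : D) = dn 0 0 := rfl
theorem dn_eta (x : D) : dn x.fst x.snd = x := rfl
theorem dn_ext {a b c d : ℝ} (h1 : a = c) (h2 : b = d) : dn a b = dn c d := by rw [h1, h2]

theorem continuous_dn {T : Type*} [TopologicalSpace T] {f g : T → ℝ} (hf : Continuous f)
    (hg : Continuous g) : Continuous fun t => dn (f t) (g t) := hf.prodMk hg

/-- A dual number with nonzero real part is invertible. -/
theorem exists_inv {x : D} (hx : x.fst ≠ 0) : ∃ y : D, x * y = 1 ∧ (x.snd = 0 → y.snd = 0) := by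
  refine ⟨dn x.fst⁻¹ (-(x.snd / x.fst ^ 2)), ?_, ?_⟩
  · rw [← dn_eta x, fst_dn, snd_dn, dn_mul, dn_one]
    apply dn_ext
    · exact mul_inv_cancel₀ hx
    · field_simp
      ring
  · intro h
    rw [snd_dn, h, zero_div, neg_zero]

/-- The group elements `1 + ε X`. -/
def al (X : ℝ × ℝ × ℝ) : SL D :=
  ⟨!![dn 1 X.1, dn 0 X.2.1; dn 0 X.2.2, dn 1 (-X.1)], by
    rw [Matrix.det_fin_two]
    show dn 1 X.1 * dn 1 (-X.1) - dn 0 X.2.1 * dn 0 X.2.2 = 1
    rw [dn_mul, dn_mul, dn_sub, dn_one]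
    apply dn_ext <;> ring⟩

theorem al00 (X : ℝ × ℝ × ℝ) : (al X).1 0 0 = dn 1 X.1 := rfl
theorem al01 (X : ℝ × ℝ × ℝ) : (al X).1 0 1 = dn 0 X.2.1 := rfl
theorem al10 (X : ℝ × ℝ × ℝ) : (al X).1 1 0 = dn 0 X.2.2 := rfl
theorem al11 (X : ℝ × ℝ × ℝ) : (al X).1 1 1 = dn 1 (-X.1) := rfl

theorem al_add (X Y : ℝ × ℝ × ℝ) : al (X + Y) = al X * al Y := by
  apply ext4 <;> simp only [mul00, mul01, mul10, mul11, al00, al01, al10, al11, dn_mul, dn_add,
    Prod.fst_add, Prod.snd_add] <;> apply dn_ext <;> ring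

theorem al_zero : al 0 = 1 := by
  apply ext4
  · rw [one00]; exact dn_ext rfl rfl
  · rw [one01]; exact dn_ext rfl rfl
  · rw [one10]; exact dn_ext rfl rfl
  · rw [one11]; exact dn_ext rfl neg_zero

theorem al_neg (X : ℝ × ℝ × ℝ) : al (-X) = (al X)⁻¹ := by
  rw [eq_inv_iff_mul_eq_one, ← al_add, neg_add_cancel, al_zero]

theorem al_injective {X Y : ℝ × ℝ × ℝ} (h : al X = al Y) : X = Y := by
  have h0 : (al X).1 0 0 = (al Y).1 0 0 := by rw [h]
  have h1 : (al X).1 0 1 = (al Y).1 0 1 := by rw [h]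
  have h2 : (al X).1 1 0 = (al Y).1 1 0 := by rw [h]
  have f0 : ((al X).1 0 0).snd = ((al Y).1 0 0).snd := by rw [h0]
  have f1 : ((al X).1 0 1).snd = ((al Y).1 0 1).snd := by rw [h1]
  have f2 : ((al X).1 1 0).snd = ((al Y).1 1 0).snd := by rw [h2]
  have e0 : X.1 = Y.1 := f0
  have e1 : X.2.1 = Y.2.1 := f1
  have e2 : X.2.2 = Y.2.2 := f2
  exact Prod.ext e0 (Prod.ext e1 e2)

theorem u_conj (s : ℝ) (X : ℝ × ℝ × ℝ) :
    u (dn s 0) * al X * (u (dn s 0))⁻¹ =
      al (X.1 + s * X.2.2, X.2.1 - 2 * s * X.1 - s ^ 2 * X.2.2, X.2.2) := by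
  apply ext4 <;> simp only [mul00, mul01, mul10, mul11, inv00, inv01, inv10, inv11, u00, u01, u10,
    u11, al00, al01, al10, al11, dn_mul, dn_add, dn_neg, dn_one, dn_zero] <;> apply dn_ext <;> ring

theorem l_conj (s : ℝ) (X : ℝ × ℝ × ℝ) :
    l (dn s 0) * al X * (l (dn s 0))⁻¹ =
      al (X.1 - s * X.2.1, X.2.1, X.2.2 + 2 * s * X.1 - s ^ 2 * X.2.1) := by
  apply ext4 <;> simp only [mul00, mul01, mul10, mul11, inv00, inv01, inv10, inv11, l00, l01, l10,
    l11, al00, al01, al10, al11, dn_mul, dn_add, dn_neg, dn_one, dn_zero] <;> apply dn_ext <;> ring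

theorem w_conj (X : ℝ × ℝ × ℝ) :
    w * al X * w⁻¹ = al (-X.1, -X.2.2, -X.2.1) := by
  apply ext4 <;> simp only [mul00, mul01, mul10, mul11, inv00, inv01, inv10, inv11, w00, w01, w10,
    w11, al00, al01, al10, al11, dn_mul, dn_add, dn_neg, dn_one, dn_zero] <;> apply dn_ext <;> ring

theorem d_conj (s : ℝ) (hs : s ≠ 0) (X : ℝ × ℝ × ℝ)
    (h : dn s 0 * dn s⁻¹ 0 = 1) :
    dg (dn s 0) (dn s⁻¹ 0) h * al X * (dg (dn s 0) (dn s⁻¹ 0) h)⁻¹ =
      al (X.1, s ^ 2 * X.2.1, (s⁻¹) ^ 2 * X.2.2) := by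
  have hs' : s * s⁻¹ = 1 := mul_inv_cancel₀ hs
  apply ext4 <;> simp only [mul00, mul01, mul10, mul11, inv00, inv01, inv10, inv11, d00, d01, d10,
    d11, al00, al01, al10, al11, dn_mul, dn_add, dn_neg, dn_one, dn_zero] <;> apply dn_ext
  · linear_combination hs'
  · linear_combination X.1 * hs'
  · ring
  · ring
  · ring
  · ring
  · linear_combination hs'
  · linear_combination (-X.1) * hs'

/-- The matrices with real entries. -/
def IsReal (g : SL D) : Prop := ∀ i j, (g.1 i j).snd = 0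

theorem isReal_iff (g : SL D) : IsReal g ↔ (g.1 0 0).snd = 0 ∧ (g.1 0 1).snd = 0 ∧
    (g.1 1 0).snd = 0 ∧ (g.1 1 1).snd = 0 := by
  constructor
  · intro h; exact ⟨h 0 0, h 0 1, h 1 0, h 1 1⟩
  · rintro ⟨h0, h1, h2, h3⟩ i j
    fin_cases i <;> fin_cases j
    · exact h0
    · exact h1
    · exact h2
    · exact h3

/-- The subgroup of the matrices with real entries. -/
def realSub : Subgroup (SL D) where
  carrier := {g | IsReal g}
  one_mem' := by
    rw [Set.mem_ofPred_eq, isReal_iff, one00, one01, one10, one11]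
    exact ⟨rfl, rfl, rfl, rfl⟩
  mul_mem' := by
    intro g h hg hh
    rw [Set.mem_ofPred_eq, isReal_iff] at *
    obtain ⟨a0, a1, a2, a3⟩ := hg
    obtain ⟨b0, b1, b2, b3⟩ := hh
    rw [mul00, mul01, mul10, mul11]
    simp only [TrivSqZeroExt.snd_add, TrivSqZeroExt.snd_mul, a0, a1, a2, a3, b0, b1, b2, b3,
      smul_zero, add_zero, MulOpposite.op_zero, and_self]
  inv_mem' := by
    intro g hg
    rw [Set.mem_ofPred_eq, isReal_iff] at *
    obtain ⟨a0, a1, a2, a3⟩ := hg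
    rw [inv00, inv01, inv10, inv11]
    simp only [TrivSqZeroExt.snd_neg, a0, a1, a2, a3, neg_zero, and_self]

theorem mem_realSub (g : SL D) : g ∈ realSub ↔ (g.1 0 0).snd = 0 ∧ (g.1 0 1).snd = 0 ∧
    (g.1 1 0).snd = 0 ∧ (g.1 1 1).snd = 0 := isReal_iff g

/-- Every matrix is the product of a matrix `1 + ε X` and a matrix with real entries. -/
theorem exists_al (g : SL D) : ∃ X, ∃ r ∈ realSub, g = al X * r := by
  have hd := det_eq g
  have hd0 := congrArg TrivSqZeroExt.fst hd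
  have hd1 := congrArg TrivSqZeroExt.snd hd
  set a := g.1 0 0 with ha
  set b := g.1 0 1 with hb
  set c := g.1 1 0 with hc
  set d := g.1 1 1 with hd'
  rw [← dn_eta a, ← dn_eta b, ← dn_eta c, ← dn_eta d, dn_mul, dn_mul, dn_sub, dn_one] at hd0 hd1
  simp only [fst_dn, snd_dn] at hd0 hd1
  -- the real part
  let r : SL D := ⟨!![dn a.fst 0, dn b.fst 0; dn c.fst 0, dn d.fst 0], by
    rw [Matrix.det_fin_two]
    show dn a.fst 0 * dn d.fst 0 - dn b.fst 0 * dn c.fst 0 = 1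
    rw [dn_mul, dn_mul, dn_sub, dn_one]
    apply dn_ext
    · exact hd0
    · ring⟩
  refine ⟨(a.snd * d.fst - b.snd * c.fst, -(a.snd * b.fst) + b.snd * a.fst,
    c.snd * d.fst - d.snd * c.fst), r, ?_, ?_⟩
  · rw [mem_realSub]
    exact ⟨rfl, rfl, rfl, rfl⟩
  · have r0 : r.1 0 0 = dn a.fst 0 := rfl
    have r1 : r.1 0 1 = dn b.fst 0 := rfl
    have r2 : r.1 1 0 = dn c.fst 0 := rfl
    have r3 : r.1 1 1 = dn d.fst 0 := rfl
    apply ext4
    · rw [mul00, al00, al01, r0, r2, dn_mul, dn_mul, dn_add, ← ha]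
      nth_rewrite 1 [← dn_eta a]
      apply dn_ext
      · ring
      · linear_combination (-a.snd) * hd0
    · rw [mul01, al00, al01, r1, r3, dn_mul, dn_mul, dn_add, ← hb]
      nth_rewrite 1 [← dn_eta b]
      apply dn_ext
      · ring
      · linear_combination (-b.snd) * hd0
    · rw [mul10, al10, al11, r0, r2, dn_mul, dn_mul, dn_add, ← hc]
      nth_rewrite 1 [← dn_eta c]
      apply dn_ext
      · ring
      · simp only
        linear_combination (-c.snd) * hd0 + c.fst * hd1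
    · rw [mul11, al10, al11, r1, r3, dn_mul, dn_mul, dn_add, ← hd']
      nth_rewrite 1 [← dn_eta d]
      apply dn_ext
      · ring
      · simp only
        linear_combination (-d.snd) * hd0 + d.fst * hd1

theorem snd_mul_zero {x y : D} (hx : x.snd = 0) (hy : y.snd = 0) : (x * y).snd = 0 := by
  rw [← dn_eta x, ← dn_eta y, hx, hy, dn_mul, snd_dn]
  ring

theorem snd_sub_zero {x y : D} (hx : x.snd = 0) (hy : y.snd = 0) : (x - y).snd = 0 := by
  rw [← dn_eta x, ← dn_eta y, hx, hy, dn_sub, snd_dn]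
  ring

/-- Every matrix is a product of four elementary matrices of a fixed shape. -/
theorem exists_elem (g : SL D) : ∃ s x y z : D, g = l s * u x * l y * u z ∧
    (g ∈ realSub → s.snd = 0 ∧ x.snd = 0 ∧ y.snd = 0 ∧ z.snd = 0) := by
  have key : ∀ g : SL D, (g.1 1 0).fst ≠ 0 → ∃ x y z : D, g = u x * l y * u z ∧
    (g ∈ realSub → x.snd = 0 ∧ y.snd = 0 ∧ z.snd = 0) := by
    intro g hg
    obtain ⟨r, hr, hr2⟩ := exists_inv hg
    refine ⟨_, _, _, decomp g r hr, fun h => ?_⟩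
    obtain ⟨h0, h1, h2, h3⟩ := (mem_realSub g).mp h
    have h4 := hr2 h2
    exact ⟨snd_mul_zero (snd_sub_zero h0 rfl) h4, h2, snd_mul_zero (snd_sub_zero h3 rfl) h4⟩
  by_cases hg : (g.1 1 0).fst = 0
  · have h1 : ((l 1 * g).1 1 0).fst ≠ 0 := by
      rw [mul10, l10, l11, one_mul, one_mul, TrivSqZeroExt.fst_add, hg, add_zero]
      intro h0
      have hd := congrArg TrivSqZeroExt.fst (det_eq g)
      rw [TrivSqZeroExt.fst_sub, TrivSqZeroExt.fst_mul, TrivSqZeroExt.fst_mul, h0, hg,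
        TrivSqZeroExt.fst_one] at hd
      norm_num at hd
    obtain ⟨x, y, z, h2, h3⟩ := key _ h1
    refine ⟨-1, x, y, z, ?_, fun h => ?_⟩
    · have h4 : (l (-1) : SL D) * l 1 = 1 := by
        apply ext4 <;> simp only [mul00, mul01, mul10, mul11, l00, l01, l10, l11, one00, one01,
          one10, one11] <;> ring
      rw [mul_assoc (l (-1)), mul_assoc (l (-1)), ← h2, ← mul_assoc, h4, one_mul]
    · have h5 : (l 1 : SL D) ∈ realSub := by
        rw [mem_realSub]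
        exact ⟨rfl, rfl, rfl, rfl⟩
      obtain ⟨e1, e2, e3⟩ := h3 (realSub.mul_mem h5 h)
      refine ⟨?_, e1, e2, e3⟩
      rw [TrivSqZeroExt.snd_neg, TrivSqZeroExt.snd_one, neg_zero]
  · obtain ⟨x, y, z, h2, h3⟩ := key g hg
    refine ⟨0, x, y, z, ?_, fun h => ⟨rfl, h3 h⟩⟩
    have h4 : (l 0 : SL D) = 1 := by
      apply ext4 <;> simp only [l00, l01, l10, l11, one00, one01, one10, one11]
    rw [h4, one_mul]
    exact h2

/-- The subgroup of the matrices congruent to the identity. -/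
def aSub : Subgroup (SL D) where
  carrier := {g | (g.1 0 0).fst = 1 ∧ (g.1 0 1).fst = 0 ∧ (g.1 1 0).fst = 0 ∧ (g.1 1 1).fst = 1}
  one_mem' := by
    rw [Set.mem_ofPred_eq, one00, one01, one10, one11]
    exact ⟨rfl, rfl, rfl, rfl⟩
  mul_mem' := by
    intro g h hg hh
    rw [Set.mem_ofPred_eq] at *
    obtain ⟨a0, a1, a2, a3⟩ := hg
    obtain ⟨b0, b1, b2, b3⟩ := hh
    rw [mul00, mul01, mul10, mul11]
    simp only [TrivSqZeroExt.fst_add, TrivSqZeroExt.fst_mul, a0, a1, a2, a3, b0, b1, b2, b3]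
    norm_num
  inv_mem' := by
    intro g hg
    rw [Set.mem_ofPred_eq] at *
    obtain ⟨a0, a1, a2, a3⟩ := hg
    rw [inv00, inv01, inv10, inv11]
    simp only [TrivSqZeroExt.fst_neg, a0, a1, a2, a3]
    norm_num

theorem mem_aSub (g : SL D) : g ∈ aSub ↔ (g.1 0 0).fst = 1 ∧ (g.1 0 1).fst = 0 ∧
    (g.1 1 0).fst = 0 ∧ (g.1 1 1).fst = 1 := Iff.rfl

theorem al_mem (X : ℝ × ℝ × ℝ) : al X ∈ aSub := ⟨rfl, rfl, rfl, rfl⟩

theorem exists_of_mem_aSub {g : SL D} (hg : g ∈ aSub) : ∃ X, g = al X := by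
  obtain ⟨X, r, hr, h⟩ := exists_al g
  have hr2 : r ∈ aSub := by
    have : r = (al X)⁻¹ * g := by rw [h, inv_mul_cancel_left]
    rw [this]
    exact aSub.mul_mem (aSub.inv_mem (al_mem X)) hg
  have hr1 : r = 1 := by
    obtain ⟨a0, a1, a2, a3⟩ := hr2
    obtain ⟨b0, b1, b2, b3⟩ := (mem_realSub r).mp hr
    apply ext4
    · rw [one00, ← dn_eta (r.1 0 0), a0, b0]; rfl
    · rw [one01, ← dn_eta (r.1 0 1), a1, b1]; rfl
    · rw [one10, ← dn_eta (r.1 1 0), a2, b2]; rfl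
    · rw [one11, ← dn_eta (r.1 1 1), a3, b3]; rfl
  exact ⟨X, by rw [h, hr1, mul_one]⟩

theorem aSub_conj (h : SL D) {g : SL D} (hg : g ∈ aSub) : h * g * h⁻¹ ∈ aSub := by
  obtain ⟨a0, a1, a2, a3⟩ := hg
  have hd := congrArg TrivSqZeroExt.fst (det_eq h)
  rw [TrivSqZeroExt.fst_sub, TrivSqZeroExt.fst_mul, TrivSqZeroExt.fst_mul,
    TrivSqZeroExt.fst_one] at hd
  rw [mem_aSub]
  simp only [mul00, mul01, mul10, mul11, inv00, inv01, inv10, inv11, TrivSqZeroExt.fst_add,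
    TrivSqZeroExt.fst_mul, TrivSqZeroExt.fst_neg, a0, a1, a2, a3]
  refine ⟨?_, ?_, ?_, ?_⟩
  · linear_combination hd
  · ring
  · ring
  · linear_combination hd

theorem aSub_comm {g h : SL D} (hg : g ∈ aSub) (hh : h ∈ aSub) : g * h = h * g := by
  obtain ⟨X, rfl⟩ := exists_of_mem_aSub hg
  obtain ⟨Y, rfl⟩ := exists_of_mem_aSub hh
  rw [← al_add, ← al_add, add_comm]

/-- Nontrivial elements of `sl₂(ℝ)` are not fixed by `SL₂(ℝ)`. -/
theorem exists_moved {X : ℝ × ℝ × ℝ} (hX : X ≠ 0) :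
    ∃ r ∈ realSub, ∃ Y, Y ≠ 0 ∧ r * al X * r⁻¹ * (al X)⁻¹ = al Y := by
  by_cases h : (X.1 = 0 ∧ X.2.2 = 0)
  · refine ⟨l (dn 1 0), ?_, (X.1 - 1 * X.2.1, X.2.1, X.2.2 + 2 * 1 * X.1 - 1 ^ 2 * X.2.1) + -X,
      ?_, ?_⟩
    · rw [mem_realSub]; exact ⟨rfl, rfl, rfl, rfl⟩
    · intro h0
      have h1 := congrArg Prod.fst h0
      simp only [Prod.fst_add, Prod.fst_neg, Prod.fst_zero] at h1
      apply hX
      exact Prod.ext h.1 (Prod.ext (by simp only [Prod.snd_zero, Prod.fst_zero]; linarith) h.2)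
    · rw [l_conj, ← al_neg, ← al_add]
  · refine ⟨u (dn 1 0), ?_, (X.1 + 1 * X.2.2, X.2.1 - 2 * 1 * X.1 - 1 ^ 2 * X.2.2, X.2.2) + -X,
      ?_, ?_⟩
    · rw [mem_realSub]; exact ⟨rfl, rfl, rfl, rfl⟩
    · intro h0
      have h1 := congrArg Prod.fst h0
      have h2 := congrArg (fun t => t.2.1) h0
      simp only [Prod.fst_add, Prod.fst_neg, Prod.fst_zero, Prod.snd_add, Prod.snd_neg,
        Prod.snd_zero] at h1 h2
      apply h
      constructor <;> linarith
    · rw [u_conj, ← al_neg, ← al_add]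

/-- A nonzero additive subgroup of `sl₂(ℝ)` which is invariant under `SL₂(ℝ)` is everything. -/
theorem irred (B : AddSubgroup (ℝ × ℝ × ℝ))
    (hu : ∀ (s : ℝ) (X : ℝ × ℝ × ℝ), X ∈ B →
      (X.1 + s * X.2.2, X.2.1 - 2 * s * X.1 - s ^ 2 * X.2.2, X.2.2) ∈ B)
    (hl : ∀ (s : ℝ) (X : ℝ × ℝ × ℝ), X ∈ B →
      (X.1 - s * X.2.1, X.2.1, X.2.2 + 2 * s * X.1 - s ^ 2 * X.2.1) ∈ B)
    (hw : ∀ X : ℝ × ℝ × ℝ, X ∈ B → (-X.1, -X.2.2, -X.2.1) ∈ B)
    (hdd : ∀ (s : ℝ) (X : ℝ × ℝ × ℝ), s ≠ 0 → X ∈ B → (X.1, s ^ 2 * X.2.1, (s⁻¹) ^ 2 * X.2.2) ∈ B)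
    {X : ℝ × ℝ × ℝ} (hX : X ∈ B) (hne : X ≠ 0) : B = ⊤ := by
  -- first, all multiples of `E`
  have hneg : ∀ {Y : ℝ × ℝ × ℝ}, Y ∈ B → -Y ∈ B := fun h => B.neg_mem h
  have hE : ∀ r : ℝ, (0, r, 0) ∈ B := by
    by_cases hc : X.2.2 = 0
    · by_cases ha : X.1 = 0
      · -- `X` is a multiple of `E`
        have hb : X.2.1 ≠ 0 := by
          intro hb
          exact hne (Prod.ext ha (Prod.ext hb hc))
        have hX' : X = (0, X.2.1, 0) := Prod.ext ha (Prod.ext rfl hc)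
        have hpos : ∀ t : ℝ, 0 < t → (0, t * X.2.1, 0) ∈ B := by
          intro t ht
          have h1 := hdd (Real.sqrt t) X (Real.sqrt_pos.mpr ht).ne' hX
          rw [ha, hc, Real.sq_sqrt ht.le, mul_zero] at h1
          exact h1
        intro r
        rcases lt_trichotomy (r / X.2.1) 0 with h | h | h
        · have h1 := hneg (hpos (-(r / X.2.1)) (by linarith))
          have h2 : -((0 : ℝ), -(r / X.2.1) * X.2.1, (0 : ℝ)) = (0, r, 0) := by
            ext <;> simp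
            field_simp
          rwa [h2] at h1
        · have hr : r = 0 := by
            rcases div_eq_zero_iff.mp h with h | h
            · exact h
            · exact absurd h hb
          rw [hr]
          exact B.zero_mem
        · have h1 := hpos (r / X.2.1) h
          rwa [div_mul_cancel₀ _ hb] at h1
      · intro r
        have h1 := hu (-r / (2 * X.1)) X hX
        have h2 := B.sub_mem h1 hX
        have h3 : (X.1 + -r / (2 * X.1) * X.2.2, X.2.1 - 2 * (-r / (2 * X.1)) * X.1 -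
            (-r / (2 * X.1)) ^ 2 * X.2.2, X.2.2) - X = (0, r, 0) := by
          ext
          · simp [hc]
          · simp only [Prod.snd_sub, Prod.fst_sub, hc, mul_zero, sub_zero]
            field_simp
            ring
          · simp
        rwa [h3] at h2
    · -- second differences
      have hs : ∀ s : ℝ, (0, s ^ 2 * X.2.2 * 2, 0) ∈ B := by
        intro s
        have h1 := hu s X hX
        have h2 := hu (-s) X hX
        have h3 := hneg (B.add_mem (B.sub_mem h1 hX) (B.sub_mem h2 hX))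
        have h4 : -((X.1 + s * X.2.2, X.2.1 - 2 * s * X.1 - s ^ 2 * X.2.2, X.2.2) - X +
            ((X.1 + -s * X.2.2, X.2.1 - 2 * -s * X.1 - (-s) ^ 2 * X.2.2, X.2.2) - X)) =
            (0, s ^ 2 * X.2.2 * 2, 0) := by
          ext
          · simp
          · simp only [Prod.snd_neg, Prod.fst_neg, Prod.snd_add, Prod.fst_add, Prod.snd_sub,
              Prod.fst_sub]
            ring
          · simp
        rwa [h4] at h3
      intro r
      rcases le_total 0 (r / (X.2.2 * 2)) with h | h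
      · have h1 := hs (Real.sqrt (r / (X.2.2 * 2)))
        rw [Real.sq_sqrt h] at h1
        have h2 : r / (X.2.2 * 2) * X.2.2 * 2 = r := by field_simp
        rwa [h2] at h1
      · have h1 := hneg (hs (Real.sqrt (-(r / (X.2.2 * 2)))))
        rw [Real.sq_sqrt (by linarith)] at h1
        have h2 : -((0 : ℝ), -(r / (X.2.2 * 2)) * X.2.2 * 2, (0 : ℝ)) = (0, r, 0) := by
          ext
          · simp
          · simp only [Prod.snd_neg, Prod.fst_neg]
            field_simp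
          · simp
        rwa [h2] at h1
  have hF : ∀ r : ℝ, (0, 0, r) ∈ B := by
    intro r
    have h1 := hneg (hw _ (hE r))
    have h2 : -(-(0 : ℝ), -(0 : ℝ), -r) = (0, 0, r) := by ext <;> simp
    simp only at h1
    rwa [h2] at h1
  have hH : ∀ r : ℝ, (r, 0, 0) ∈ B := by
    intro r
    have h1 := hl (-r) _ (hE 1)
    have h2 := B.sub_mem (B.sub_mem h1 (hE 1)) (hF (-r ^ 2))
    have h3 : ((0 : ℝ) - -r * 1, (1 : ℝ), (0 : ℝ) + 2 * -r * 0 - (-r) ^ 2 * 1) - (0, 1, 0) -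
        (0, 0, -r ^ 2) = (r, 0, 0) := by
      ext
      · simp
      · simp
      · simp
    simp only at h2
    rwa [h3] at h2
  rw [eq_top_iff]
  rintro ⟨a, b, c⟩ -
  have h1 := B.add_mem (B.add_mem (hH a) (hE b)) (hF c)
  have h2 : ((a : ℝ), (0 : ℝ), (0 : ℝ)) + (0, b, 0) + (0, 0, c) = (a, b, c) := by
    ext <;> simp
  rwa [h2] at h1

end dual

end Pool.Agent.R627.SL2G
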