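import Mathlib
import Pool.Agent.R627.SL2G
import Pool.Agent.R627.CosetDefs

/-!
# A faithful irreducible coset space with infinitely many abelian minimal closed normal subgroups
-/

set_option autoImplicit false
set_option linter.style.haveILetI false
set_option linter.unusedSimpArgs false

namespace Pool.Agent.R627.IrrCoset

open Topology Polynomial Pool.Agent.R627.SL2G Pool.Agent.R627.CosetDefs

/-! ## The full product -/

/-- the product group -/
abbrev GH : Type := ℕ → SL D

/-- The elements whose coordinate at `0` is real. -/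
def Hh : Subgroup GH := realSub.comap (Pi.evalMonoidHom (fun _ : ℕ => SL D) 0)

theorem mem_Hh (g : GH) : g ∈ Hh ↔ g 0 ∈ realSub := Iff.rfl

/-- A coordinate embedding. -/
def em (j : ℕ) : SL D →* GH := MonoidHom.mulSingle (fun _ : ℕ => SL D) j

theorem em_same (j : ℕ) (x : SL D) : em j x j = x := by
  show (Pi.mulSingle j x : GH) j = x
  exact Pi.mulSingle_eq_same _ _

theorem em_ne {j n : ℕ} (h : n ≠ j) (x : SL D) : em j x n = 1 := by
  show (Pi.mulSingle j x : GH) n = 1
  exact Pi.mulSingle_eq_of_ne h _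

theorem all_al (K : Subgroup GH) (j : ℕ)
    (hK : ∀ r ∈ realSub, ∀ x ∈ K, em j r * x * (em j r)⁻¹ ∈ K)
    {X : ℝ × ℝ × ℝ} (hX : X ≠ 0) (hXK : em j (al X) ∈ K) (Y : ℝ × ℝ × ℝ) : em j (al Y) ∈ K := by
  let B : AddSubgroup (ℝ × ℝ × ℝ) :=
    { carrier := {X | em j (al X) ∈ K}
      zero_mem' := by
        rw [Set.mem_ofPred_eq, al_zero, map_one]
        exact K.one_mem
      add_mem' := by
        intro X Y hX hY
        rw [Set.mem_ofPred_eq, al_add, map_mul]
        exact K.mul_mem hX hY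
      neg_mem' := by
        intro X hX
        rw [Set.mem_ofPred_eq, al_neg, map_inv]
        exact K.inv_mem hX }
  have hB : ∀ {r : SL D} {X Y : ℝ × ℝ × ℝ}, r ∈ realSub → r * al X * r⁻¹ = al Y → X ∈ B →
      Y ∈ B := by
    intro r X Y hr h hX
    have h1 := hK r hr _ hX
    rw [← map_inv, ← map_mul, ← map_mul, h] at h1
    exact h1
  have hu : ∀ s : ℝ, (u (dn s 0) : SL D) ∈ realSub := by
    intro s; rw [mem_realSub]; exact ⟨rfl, rfl, rfl, rfl⟩
  have hl : ∀ s : ℝ, (l (dn s 0) : SL D) ∈ realSub := by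
    intro s; rw [mem_realSub]; exact ⟨rfl, rfl, rfl, rfl⟩
  have hw : (w : SL D) ∈ realSub := by
    rw [mem_realSub]
    refine ⟨rfl, rfl, ?_, rfl⟩
    rw [w10, TrivSqZeroExt.snd_neg, TrivSqZeroExt.snd_one, neg_zero]
  have htop : B = ⊤ := by
    refine irred B (fun s X hX => hB (hu s) (u_conj s X) hX) (fun s X hX => hB (hl s) (l_conj s X) hX)
      (fun X hX => hB hw (w_conj X) hX) (fun s X hs hX => ?_) hXK hX
    have h : dn s 0 * dn s⁻¹ 0 = 1 := by
      rw [dn_mul, dn_one, mul_inv_cancel₀ hs]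
      apply dn_ext <;> ring
    refine hB (r := dg (dn s 0) (dn s⁻¹ 0) h) ?_ (d_conj s hs X h) hX
    rw [mem_realSub]; exact ⟨rfl, rfl, rfl, rfl⟩
  have : Y ∈ B := by rw [htop]; trivial
  exact this

theorem Hh_maximal (K : Subgroup GH) (hle : Hh ≤ K) {g : GH} (hg : g ∈ K) (hgH : g ∉ Hh) :
    K = ⊤ := by
  have h1 : ∀ x : SL D, ∀ y : GH, y 0 = x → (y ∈ K ↔ em 0 x ∈ K) := by
    intro x y hyx
    have h2 : (em 0 x)⁻¹ * y ∈ Hh := by
      rw [mem_Hh, Pi.mul_apply, Pi.inv_apply, em_same, hyx, inv_mul_cancel]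
      exact realSub.one_mem
    constructor
    · intro hy
      have h3 := K.mul_mem hy (K.inv_mem (hle h2))
      have h4 : y * ((em 0 x)⁻¹ * y)⁻¹ = em 0 x := by group
      rwa [h4] at h3
    · intro hx
      have h3 := K.mul_mem hx (hle h2)
      have h4 : em 0 x * ((em 0 x)⁻¹ * y) = y := by group
      rwa [h4] at h3
  have hreal : ∀ r ∈ realSub, em 0 r ∈ K := by
    intro r hr
    apply hle
    rw [mem_Hh, em_same]
    exact hr
  have h2 := (h1 (g 0) g rfl).mp hg
  obtain ⟨X, r, hr, hX⟩ := exists_al (g 0)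
  have h3 : em 0 (al X) ∈ K := by
    rw [hX, map_mul] at h2
    have h4 := K.mul_mem h2 (K.inv_mem (hreal r hr))
    rwa [mul_inv_cancel_right] at h4
  have hX0 : X ≠ 0 := by
    intro h
    apply hgH
    rw [mem_Hh, hX, h, al_zero, one_mul]
    exact hr
  have h4 := all_al K 0 (fun r hr x hx => K.mul_mem (K.mul_mem (hreal r hr) hx)
    (K.inv_mem (hreal r hr))) hX0 h3
  rw [eq_top_iff]
  intro y _
  rw [h1 (y 0) y rfl]
  obtain ⟨Y, r', hr', hY⟩ := exists_al (y 0)
  rw [hY, map_mul]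
  exact K.mul_mem (h4 Y) (hreal r' hr')

theorem normal_al (B : Subgroup GH) (hB : B.Normal) {b : GH} (hb : b ∈ B) (j : ℕ)
    {X : ℝ × ℝ × ℝ} (hX : X ≠ 0) (hbj : b j = al X) (Y : ℝ × ℝ × ℝ) : em j (al Y) ∈ B := by
  obtain ⟨r, hr, Z, hZ, h⟩ := exists_moved hX
  have h1 : em j r * b * (em j r)⁻¹ * b⁻¹ ∈ B := B.mul_mem (hB.conj_mem b hb _) (B.inv_mem hb)
  have h2 : em j r * b * (em j r)⁻¹ * b⁻¹ = em j (al Z) := by
    funext n
    by_cases hn : n = j
    · subst hn
      simp only [Pi.mul_apply, Pi.inv_apply, em_same, hbj]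
      exact h
    · simp only [Pi.mul_apply, Pi.inv_apply, em_ne hn, one_mul, inv_one, mul_one, mul_inv_cancel]
  rw [h2] at h1
  exact all_al B j (fun r _ x hx => hB.conj_mem x hx _) hZ h1 Y

/-! ## Topology -/

theorem continuous_entry (i j : Fin 2) : Continuous fun g : SL D => g.1 i j :=
  (continuous_apply j).comp ((continuous_apply i).comp continuous_subtype_val)

theorem isClosed_realSub : IsClosed (realSub : Set (SL D)) := by
  have h : (realSub : Set (SL D)) = ⋂ i, ⋂ j, {g : SL D | (g.1 i j).snd = 0} := by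
    ext g
    simp only [Set.mem_iInter]
    rfl
  rw [h]
  exact isClosed_iInter fun i => isClosed_iInter fun j =>
    isClosed_eq (TrivSqZeroExt.continuous_snd.comp (continuous_entry i j)) continuous_const

theorem isClosed_Hh : IsClosed (Hh : Set GH) :=
  isClosed_realSub.preimage (show Continuous fun g : GH => g 0 from continuous_apply 0)

theorem isClosed_aSub : IsClosed (aSub : Set (SL D)) := by
  have h : (aSub : Set (SL D)) = {g : SL D | (g.1 0 0).fst = 1} ∩ ({g : SL D | (g.1 0 1).fst = 0} ∩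
      ({g : SL D | (g.1 1 0).fst = 0} ∩ {g : SL D | (g.1 1 1).fst = 1})) := by
    ext g
    exact Iff.rfl
  rw [h]
  have hc : ∀ i j, Continuous fun g : SL D => (g.1 i j).fst := fun i j =>
    TrivSqZeroExt.continuous_fst.comp (continuous_entry i j)
  exact (isClosed_eq (hc 0 0) continuous_const).inter ((isClosed_eq (hc 0 1) continuous_const).inter
    ((isClosed_eq (hc 1 0) continuous_const).inter (isClosed_eq (hc 1 1) continuous_const)))

theorem continuous_SL {T : Type*} [TopologicalSpace T] {f : T → SL D}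
    (h : ∀ i j, Continuous fun t => (f t).1 i j) : Continuous f := by
  apply Continuous.subtype_mk (p := fun A : Matrix (Fin 2) (Fin 2) D => A.det = 1)
    (f := fun t => (f t).1)
  exact continuous_pi fun i => continuous_pi fun j => h i j

theorem continuous_u : Continuous fun x : ℕ → D => ((fun n => u (x n)) : GH) := by
  apply continuous_pi
  intro n
  apply continuous_SL
  intro i j
  fin_cases i <;> fin_cases j
  · exact continuous_const
  · exact continuous_apply n
  · exact continuous_const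
  · exact continuous_const

theorem continuous_l : Continuous fun x : ℕ → D => ((fun n => l (x n)) : GH) := by
  apply continuous_pi
  intro n
  apply continuous_SL
  intro i j
  fin_cases i <;> fin_cases j
  · exact continuous_const
  · exact continuous_const
  · exact continuous_apply n
  · exact continuous_const

/-! ## The parameters -/

/-- Evaluation of rational polynomials in two variables. -/
noncomputable def ev2 (t ω : ℝ) : ℚ[X][X] →+* ℝ :=
  Polynomial.eval₂RingHom (aeval t : ℚ[X] →ₐ[ℚ] ℝ).toRingHom ω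

theorem ev2_C (t ω : ℝ) (f : ℚ[X]) : ev2 t ω (C f) = aeval t f := by
  simp [ev2]

/-- The parameters of the construction: distinct transcendental numbers, and a number which is
transcendental over the first one of them. -/
structure Par where
  /-- the evaluation points -/
  τ : ℕ → ℝ
  /-- a number that is transcendental over the first evaluation point -/
  ω : ℝ
  inj : Function.Injective τ
  tr : ∀ (n : ℕ) (f : ℚ[X]), aeval (τ n) f = 0 → f = 0
  trω : ∀ m : ℚ[X][X], ev2 (τ 0) ω m = 0 → m = 0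

theorem exists_par : Nonempty Par := by
  have h1 : {x : ℝ | IsAlgebraic ℚ x}.Countable := Algebraic.countable ℚ ℝ
  have h2 : {x : ℝ | IsAlgebraic ℚ x}ᶜ.Infinite := by
    intro hfin
    have h3 : (Set.univ : Set ℝ).Countable := by
      rw [← Set.union_compl_self {x : ℝ | IsAlgebraic ℚ x}]
      exact h1.union hfin.countable
    exact Set.not_countable_univ h3
  haveI : Infinite ↥({x : ℝ | IsAlgebraic ℚ x}ᶜ) := h2.to_subtype
  let e := Infinite.natEmbedding ↥({x : ℝ | IsAlgebraic ℚ x}ᶜ)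
  let τ : ℕ → ℝ := fun n => (e n).1
  have htr : ∀ (n : ℕ) (f : ℚ[X]), aeval (τ n) f = 0 → f = 0 := by
    intro n f hf
    have h3 : Transcendental ℚ (τ n) := (e n).2
    exact (transcendental_iff.mp h3) f hf
  letI : Algebra ℚ[X] ℝ := (aeval (τ 0) : ℚ[X] →ₐ[ℚ] ℝ).toRingHom.toAlgebra
  have hmap : ∀ f : ℚ[X], algebraMap ℚ[X] ℝ f = aeval (τ 0) f := fun f => rfl
  have hinj : Function.Injective (algebraMap ℚ[X] ℝ) := by
    rw [injective_iff_map_eq_zero]
    intro f hf
    exact htr 0 f hf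
  haveI : FaithfulSMul ℚ[X] ℝ := (faithfulSMul_iff_algebraMap_injective ℚ[X] ℝ).mpr hinj
  haveI : Countable ℚ[X] := by
    rw [← Cardinal.mk_le_aleph0_iff]
    exact (Polynomial.cardinalMk_le_max).trans (by simp)
  have h4 : {x : ℝ | IsAlgebraic ℚ[X] x}.Countable := Algebraic.countable ℚ[X] ℝ
  obtain ⟨ω, hω⟩ : ∃ ω : ℝ, ω ∉ {x : ℝ | IsAlgebraic ℚ[X] x} := by
    by_contra hcon
    push Not at hcon
    have h5 : {x : ℝ | IsAlgebraic ℚ[X] x} = Set.univ := Set.eq_univ_of_forall hcon
    rw [h5] at h4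
    exact Set.not_countable_univ h4
  have h6 : Transcendental ℚ[X] ω := hω
  refine ⟨⟨τ, ω, ?_, htr, ?_⟩⟩
  · intro m n h
    exact e.injective (Subtype.ext h)
  · intro m hm
    exact (transcendental_iff.mp h6) m hm

variable (P : Par)

/-- The sequences of dual numbers which make up the ring. -/
noncomputable def el (f : ℚ[X]) (m : ℚ[X][X]) : ℕ → D
  | 0 => dn (aeval (P.τ 0) f) (ev2 (P.τ 0) P.ω m)
  | n + 1 => dn (aeval (P.τ (n + 1)) f)
      (aeval (P.τ (n + 1)) (derivative f) + aeval (P.τ (n + 1)) (m.coeff n))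

theorem el_add (f g : ℚ[X]) (m k : ℚ[X][X]) : el P f m + el P g k = el P (f + g) (m + k) := by
  funext n
  cases n with
  | zero =>
    show dn _ _ + dn _ _ = dn _ _
    rw [dn_add, map_add, map_add]
  | succ n =>
    show dn _ _ + dn _ _ = dn _ _
    rw [dn_add, map_add, derivative_add, map_add, coeff_add, map_add]
    apply dn_ext <;> ring

theorem el_neg (f : ℚ[X]) (m : ℚ[X][X]) : -el P f m = el P (-f) (-m) := by
  funext n
  cases n with
  | zero =>
    show -dn _ _ = dn _ _
    rw [dn_neg, map_neg, map_neg]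
  | succ n =>
    show -dn _ _ = dn _ _
    rw [dn_neg, map_neg, derivative_neg, map_neg, coeff_neg, map_neg]
    apply dn_ext <;> ring

theorem el_mul (f g : ℚ[X]) (m k : ℚ[X][X]) :
    el P f m * el P g k = el P (f * g) (C f * k + C g * m) := by
  funext n
  cases n with
  | zero =>
    show dn _ _ * dn _ _ = dn _ _
    rw [dn_mul, map_mul, map_add, map_mul, map_mul, ev2_C, ev2_C]
    apply dn_ext <;> ring
  | succ n =>
    show dn _ _ * dn _ _ = dn _ _
    rw [dn_mul, map_mul, derivative_mul, map_add, map_mul, map_mul, coeff_add, coeff_C_mul,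
      coeff_C_mul, map_add, map_mul, map_mul]
    apply dn_ext <;> ring

theorem el_zero : el P 0 0 = 0 := by
  funext n
  cases n with
  | zero =>
    show dn _ _ = dn 0 0
    rw [map_zero, map_zero]
  | succ n =>
    show dn _ _ = dn 0 0
    rw [map_zero, derivative_zero, map_zero, coeff_zero, map_zero, add_zero]

/-- The sequences without constant term. -/
def J : Set (ℕ → D) := {x | ∃ f m, f.coeff 0 = 0 ∧ x = el P f m}

variable {P}

theorem J_zero : (0 : ℕ → D) ∈ J P := ⟨0, 0, by simp, (el_zero P).symm⟩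

theorem J_add {x y : ℕ → D} (hx : x ∈ J P) (hy : y ∈ J P) : x + y ∈ J P := by
  obtain ⟨f, m, hf, rfl⟩ := hx
  obtain ⟨g, k, hg, rfl⟩ := hy
  exact ⟨f + g, m + k, by rw [coeff_add, hf, hg, add_zero], el_add P f g m k⟩

theorem J_neg {x : ℕ → D} (hx : x ∈ J P) : -x ∈ J P := by
  obtain ⟨f, m, hf, rfl⟩ := hx
  exact ⟨-f, -m, by rw [coeff_neg, hf, neg_zero], el_neg P f m⟩

theorem J_mul {x y : ℕ → D} (hx : x ∈ J P) (hy : y ∈ J P) : x * y ∈ J P := by
  obtain ⟨f, m, hf, rfl⟩ := hx
  obtain ⟨g, k, hg, rfl⟩ := hy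
  exact ⟨f * g, _, by rw [mul_coeff_zero, hf, zero_mul], el_mul P f g m k⟩

variable (P)

/-- The group `G`. -/
def G : Subgroup GH where
  carrier := {g | (fun n => (g n).1 0 0 - 1) ∈ J P ∧ (fun n => (g n).1 0 1) ∈ J P ∧
    (fun n => (g n).1 1 0) ∈ J P ∧ (fun n => (g n).1 1 1 - 1) ∈ J P}
  one_mem' := by
    have h0 : (fun n => ((1 : GH) n).1 0 0 - 1) = (0 : ℕ → D) := by
      funext n; rw [Pi.one_apply, one00, sub_self]; rfl
    have h1 : (fun n => ((1 : GH) n).1 0 1) = (0 : ℕ → D) := by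
      funext n; rw [Pi.one_apply, one01]; rfl
    have h2 : (fun n => ((1 : GH) n).1 1 0) = (0 : ℕ → D) := by
      funext n; rw [Pi.one_apply, one10]; rfl
    have h3 : (fun n => ((1 : GH) n).1 1 1 - 1) = (0 : ℕ → D) := by
      funext n; rw [Pi.one_apply, one11, sub_self]; rfl
    rw [Set.mem_ofPred_eq, h0, h1, h2, h3]
    exact ⟨J_zero, J_zero, J_zero, J_zero⟩
  mul_mem' := by
    rintro g h ⟨a0, a1, a2, a3⟩ ⟨b0, b1, b2, b3⟩
    refine ⟨?_, ?_, ?_, ?_⟩
    · have := J_add (J_add (J_add (J_mul a0 b0) a0) b0) (J_mul a1 b2)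
      refine cast (congrArg (fun z => z ∈ J P) ?_) this
      funext n
      rw [Pi.mul_apply, mul00]
      simp only [Pi.add_apply, Pi.mul_apply]
      ring
    · have := J_add (J_add (J_add (J_mul a0 b1) b1) (J_mul a1 b3)) a1
      refine cast (congrArg (fun z => z ∈ J P) ?_) this
      funext n
      rw [Pi.mul_apply, mul01]
      simp only [Pi.add_apply, Pi.mul_apply]
      ring
    · have := J_add (J_add (J_add (J_mul a2 b0) a2) (J_mul a3 b2)) b2
      refine cast (congrArg (fun z => z ∈ J P) ?_) this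
      funext n
      rw [Pi.mul_apply, mul10]
      simp only [Pi.add_apply, Pi.mul_apply]
      ring
    · have := J_add (J_add (J_add (J_mul a3 b3) a3) b3) (J_mul a2 b1)
      refine cast (congrArg (fun z => z ∈ J P) ?_) this
      funext n
      rw [Pi.mul_apply, mul11]
      simp only [Pi.add_apply, Pi.mul_apply]
      ring
  inv_mem' := by
    rintro g ⟨a0, a1, a2, a3⟩
    refine ⟨?_, ?_, ?_, ?_⟩
    · refine cast (congrArg (fun z => z ∈ J P) ?_) a3
      funext n
      rw [Pi.inv_apply, inv00]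
    · refine cast (congrArg (fun z => z ∈ J P) ?_) (J_neg a1)
      funext n
      rw [Pi.inv_apply, inv01]
      rfl
    · refine cast (congrArg (fun z => z ∈ J P) ?_) (J_neg a2)
      funext n
      rw [Pi.inv_apply, inv10]
      rfl
    · refine cast (congrArg (fun z => z ∈ J P) ?_) a0
      funext n
      rw [Pi.inv_apply, inv11]

theorem mem_G (g : GH) : g ∈ G P ↔ (fun n => (g n).1 0 0 - 1) ∈ J P ∧
    (fun n => (g n).1 0 1) ∈ J P ∧ (fun n => (g n).1 1 0) ∈ J P ∧
    (fun n => (g n).1 1 1 - 1) ∈ J P := Iff.rfl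

variable {P}

theorem u_mem_G {x : ℕ → D} (hx : x ∈ J P) : ((fun n => u (x n)) : GH) ∈ G P := by
  rw [mem_G]
  simp only [u00, u01, u10, u11, sub_self]
  exact ⟨J_zero, hx, J_zero, J_zero⟩

theorem l_mem_G {x : ℕ → D} (hx : x ∈ J P) : ((fun n => l (x n)) : GH) ∈ G P := by
  rw [mem_G]
  simp only [l00, l01, l10, l11, sub_self]
  exact ⟨J_zero, J_zero, hx, J_zero⟩

/-- A member of `J` which vanishes at `0` vanishes. -/
theorem J_inj0 {x : ℕ → D} (hx : x ∈ J P) (h0 : x 0 = 0) : x = 0 := by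
  obtain ⟨f, m, -, rfl⟩ := hx
  have h1 : dn (aeval (P.τ 0) f) (ev2 (P.τ 0) P.ω m) = dn 0 0 := h0
  have hf : f = 0 := P.tr 0 f (congrArg TrivSqZeroExt.fst h1)
  have hm : m = 0 := P.trω m (congrArg TrivSqZeroExt.snd h1)
  rw [hf, hm, el_zero]

/-- A member of `J` which vanishes at all places but `0` vanishes. -/
theorem J_inj1 {x : ℕ → D} (hx : x ∈ J P) (h0 : ∀ n, x (n + 1) = 0) : x = 0 := by
  obtain ⟨f, m, -, rfl⟩ := hx
  have h1 : ∀ n, dn (aeval (P.τ (n + 1)) f)
      (aeval (P.τ (n + 1)) (derivative f) + aeval (P.τ (n + 1)) (m.coeff n)) = dn 0 0 := h0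
  have hf : f = 0 := P.tr 1 f (congrArg TrivSqZeroExt.fst (h1 0))
  have hm : m = 0 := by
    ext1 n
    have h2 := congrArg TrivSqZeroExt.snd (h1 n)
    rw [hf, derivative_zero, map_zero, zero_add] at h2
    rw [coeff_zero]
    exact P.tr (n + 1) _ h2
  rw [hf, hm, el_zero]

theorem G_ext {g : GH} (hg : g ∈ G P) {Q : (ℕ → D) → Prop} (hQ : ∀ x ∈ J P, Q x → x = 0)
    (h0 : Q (fun n => (g n).1 0 0 - 1)) (h1 : Q (fun n => (g n).1 0 1))
    (h2 : Q (fun n => (g n).1 1 0)) (h3 : Q (fun n => (g n).1 1 1 - 1)) : g = 1 := by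
  obtain ⟨a0, a1, a2, a3⟩ := hg
  have b0 := hQ _ a0 h0
  have b1 := hQ _ a1 h1
  have b2 := hQ _ a2 h2
  have b3 := hQ _ a3 h3
  funext n
  apply ext4
  · rw [Pi.one_apply, one00]; exact sub_eq_zero.mp (congrFun b0 n)
  · rw [Pi.one_apply, one01]; exact congrFun b1 n
  · rw [Pi.one_apply, one10]; exact congrFun b2 n
  · rw [Pi.one_apply, one11]; exact sub_eq_zero.mp (congrFun b3 n)

theorem G_inj0 {g : GH} (hg : g ∈ G P) (h : g 0 = 1) : g = 1 := by
  refine G_ext hg (Q := fun x => x 0 = 0) (fun x hx h => J_inj0 hx h) ?_ ?_ ?_ ?_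
  · simp only [h, one00, sub_self]
  · simp only [h, one01]
  · simp only [h, one10]
  · simp only [h, one11, sub_self]

theorem G_inj1 {g : GH} (hg : g ∈ G P) (h : ∀ n, g (n + 1) = 1) : g = 1 := by
  refine G_ext hg (Q := fun x => ∀ n, x (n + 1) = 0) (fun x hx h => J_inj1 hx h) ?_ ?_ ?_ ?_
  · simp only [h, one00, sub_self, implies_true]
  · simp only [h, one01, implies_true]
  · simp only [h, one10, implies_true]
  · simp only [h, one11, sub_self, implies_true]

/-! ## Density -/

/-- the image of the variable -/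
noncomputable def th (P : Par) (n : ℕ) : D := dn (P.τ n) (if n = 0 then 0 else 1)

theorem aeval_dn (a b : ℝ) (p : ℝ[X]) :
    aeval (dn a b) p = dn (p.eval a) (b * p.derivative.eval a) := by
  induction p using Polynomial.induction_on' with
  | add p q hp hq =>
    rw [map_add, hp, hq, dn_add, eval_add, derivative_add, eval_add]
    apply dn_ext <;> ring
  | monomial n c =>
    have hpow : ∀ k : ℕ, (dn a b) ^ k = dn (a ^ k) (k * a ^ (k - 1) * b) := by
      intro k
      induction k with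
      | zero => rw [pow_zero, dn_one]; apply dn_ext <;> simp
      | succ k ih =>
        rw [pow_succ, ih, dn_mul]
        apply dn_ext
        · rw [pow_succ]
        · rcases Nat.eq_zero_or_pos k with rfl | hk
          · simp
          · have : a ^ k = a ^ (k - 1) * a := by
              rw [← pow_succ]; congr 1; omega
            rw [Nat.add_sub_cancel, this]
            push_cast
            ring
    have hal : algebraMap ℝ D c = dn c 0 := rfl
    rw [aeval_monomial, hal, hpow, dn_mul, eval_monomial, derivative_monomial, eval_monomial]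
    apply dn_ext <;> ring

/-- real polynomials as sequences -/
noncomputable def elR (P : Par) (p : ℝ[X]) : ℕ → D := fun n => aeval (th P n) p

theorem elR_add (P : Par) (p q : ℝ[X]) : elR P (p + q) = elR P p + elR P q := by
  funext n; exact map_add _ _ _

/-- The basic elements of `H`. -/
def E (P : Par) : AddSubgroup (ℕ → D) where
  carrier := {x | ∃ f, f.coeff 0 = 0 ∧ x = el P f 0}
  zero_mem' := ⟨0, by simp, (el_zero P).symm⟩
  add_mem' := by
    rintro _ _ ⟨f, hf, rfl⟩ ⟨g, hg, rfl⟩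
    exact ⟨f + g, by rw [coeff_add, hf, hg, add_zero], by rw [el_add, add_zero]⟩
  neg_mem' := by
    rintro _ ⟨f, hf, rfl⟩
    exact ⟨-f, by rw [coeff_neg, hf, neg_zero], by rw [el_neg, neg_zero]⟩

theorem elR_rat (f : ℚ[X]) : elR P (f.map (algebraMap ℚ ℝ)) = el P f 0 := by
  funext n
  cases n with
  | zero =>
    show aeval (dn (P.τ 0) 0) _ = dn _ _
    rw [aeval_dn, map_zero, eval_map_algebraMap]
    apply dn_ext
    · rfl
    · rw [zero_mul]
  | succ n =>
    show aeval (dn (P.τ (n + 1)) 1) _ = dn _ _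
    rw [aeval_dn, eval_map_algebraMap, derivative_map, eval_map_algebraMap, coeff_zero, map_zero,
      one_mul, add_zero]

/-- Real polynomials without constant term belong to the closure. -/
theorem elR_mem (p : ℝ[X]) : elR P (X * p) ∈ closure (E P : Set (ℕ → D)) := by
  have hcl : closure (E P : Set (ℕ → D)) = ((E P).topologicalClosure : Set (ℕ → D)) := rfl
  rw [hcl, SetLike.mem_coe]
  induction p using Polynomial.induction_on' with
  | add p q hp hq =>
    rw [mul_add, elR_add]
    exact (E P).topologicalClosure.add_mem hp hq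
  | monomial n c =>
    have hcont : Continuous fun c : ℝ => elR P (X * monomial n c) := by
      apply continuous_pi
      intro k
      have h1 : (fun c : ℝ => elR P (X * monomial n c) k) =
          fun c : ℝ => th P k * (dn c 0 * (th P k) ^ n) := by
        funext c
        show aeval (th P k) (X * monomial n c) = _
        rw [map_mul, aeval_X, aeval_monomial]
        rfl
      rw [h1]
      exact continuous_const.mul ((continuous_dn continuous_id continuous_const).mul
        continuous_const)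
    have hc : c ∈ closure (Set.range ((↑) : ℚ → ℝ)) := by
      rw [Rat.denseRange_cast.closure_range]
      trivial
    refine map_mem_closure (f := fun c : ℝ => elR P (X * monomial n c)) hcont hc ?_
    rintro _ ⟨q, rfl⟩
    have h2 : (X * monomial n ((q : ℚ) : ℝ) : ℝ[X]) =
        (X * monomial n q : ℚ[X]).map (algebraMap ℚ ℝ) := by
      rw [Polynomial.map_mul, map_X, map_monomial]
      rfl
    show elR P (X * monomial n ((q : ℚ) : ℝ)) ∈ (E P : Set (ℕ → D))
    rw [h2, elR_rat]
    exact ⟨X * monomial n q, by rw [mul_coeff_zero, coeff_X_zero, zero_mul], rfl⟩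

theorem fst_prod {ι : Type*} (s : Finset ι) (g : ι → D) :
    (∏ i ∈ s, g i).fst = ∏ i ∈ s, (g i).fst :=
  map_prod (TrivSqZeroExt.fstHom ℝ ℝ ℝ) g s

theorem tau_ne_zero (P : Par) (n : ℕ) : P.τ n ≠ 0 := by
  intro h
  have h1 : aeval (P.τ n) (X : ℚ[X]) = 0 := by rw [aeval_X, h]
  exact X_ne_zero (P.tr n X h1)

/-- Interpolation at one place. -/
theorem interp_one (N j : ℕ) (x : D) (hx : j = 0 → x.snd = 0) : ∃ p : ℝ[X],
    elR P (X * p) j = x ∧ ∀ n ≤ N, n ≠ j → elR P (X * p) n = 0 := by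
  classical
  let Q : ℝ[X] := ∏ k ∈ (Finset.range (N + 1)).erase j, (X - C (P.τ k)) ^ 2
  have hfac : ∀ n k, aeval (th P n) ((X - C (P.τ k)) ^ 2 : ℝ[X]) =
      (dn (P.τ n - P.τ k) (if n = 0 then 0 else 1)) ^ 2 := by
    intro n k
    rw [map_pow, map_sub, aeval_X, aeval_C]
    congr 1
    show dn _ _ - dn (P.τ k) 0 = dn _ _
    rw [dn_sub, sub_zero]
  have hQ : ∀ n, aeval (th P n) Q = ∏ k ∈ (Finset.range (N + 1)).erase j,
      (dn (P.τ n - P.τ k) (if n = 0 then 0 else 1)) ^ 2 := by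
    intro n
    rw [map_prod]
    exact Finset.prod_congr rfl (fun k _ => hfac n k)
  have hQ0 : ∀ n ≤ N, n ≠ j → aeval (th P n) Q = 0 := by
    intro n hn hnj
    rw [hQ]
    apply Finset.prod_eq_zero (i := n)
    · simp [hnj]; omega
    · rw [sub_self, sq, dn_mul, dn_zero]
      apply dn_ext <;> ring
  have hQj : (aeval (th P j) Q).fst ≠ 0 := by
    rw [hQ, fst_prod]
    apply Finset.prod_ne_zero_iff.mpr
    intro k hk
    rw [sq, TrivSqZeroExt.fst_mul]
    have hkj : k ≠ j := (Finset.mem_erase.mp hk).1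
    have : P.τ j - P.τ k ≠ 0 := sub_ne_zero.mpr (fun h => hkj (P.inj h.symm))
    exact mul_ne_zero this this
  have hX : (th P j * aeval (th P j) Q).fst ≠ 0 := by
    rw [TrivSqZeroExt.fst_mul]
    exact mul_ne_zero (tau_ne_zero P j) hQj
  obtain ⟨y, hy, hy2⟩ := exists_inv hX
  have hsnd : j = 0 → (th P j * aeval (th P j) Q).snd = 0 := by
    intro hj
    subst hj
    have h1 : th P 0 = dn (P.τ 0) 0 := rfl
    rw [h1, aeval_dn, zero_mul, dn_mul]
    show P.τ 0 * 0 + 0 * _ = 0
    ring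
  -- the polynomial with prescribed value
  obtain ⟨r, hr⟩ : ∃ r : ℝ[X], aeval (th P j) r = x * y := by
    by_cases hj : j = 0
    · refine ⟨C (x * y).fst, ?_⟩
      have h1 : (x * y).snd = 0 := snd_mul_zero (hx hj) (hy2 (hsnd hj))
      rw [aeval_C]
      show dn _ 0 = x * y
      rw [← dn_eta (x * y), h1]
      rfl
    · refine ⟨C (x * y).fst + C (x * y).snd * (X - C (P.τ j)), ?_⟩
      rw [map_add, map_mul, map_sub, aeval_C, aeval_C, aeval_C, aeval_X]
      have h1 : th P j = dn (P.τ j) 1 := by rw [th, if_neg hj]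
      rw [h1]
      show dn (x * y).fst 0 + dn (x * y).snd 0 * (dn (P.τ j) _ - dn (P.τ j) 0) = x * y
      rw [dn_sub, dn_mul, dn_add]
      conv_rhs => rw [← dn_eta (x * y)]
      apply dn_ext <;> ring
  refine ⟨Q * r, ?_, ?_⟩
  · show aeval (th P j) (X * (Q * r)) = x
    rw [map_mul, map_mul, aeval_X, hr]
    calc th P j * (aeval (th P j) Q * (x * y)) = x * (th P j * aeval (th P j) Q * y) := by ring
      _ = x := by rw [hy, mul_one]
  · intro n hn hnj
    show aeval (th P n) (X * (Q * r)) = 0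
    rw [map_mul, map_mul, hQ0 n hn hnj, zero_mul, mul_zero]

theorem interp (N : ℕ) (x : ℕ → D) (hx : (x 0).snd = 0) : ∃ p : ℝ[X],
    ∀ n ≤ N, elR P (X * p) n = x n := by
  classical
  have h1 : ∀ j, ∃ p : ℝ[X], elR P (X * p) j = x j ∧ ∀ n ≤ N, n ≠ j → elR P (X * p) n = 0 :=
    fun j => interp_one N j (x j) (fun hj => by rw [hj]; exact hx)
  choose p hp1 hp2 using h1
  refine ⟨∑ j ∈ Finset.range (N + 1), p j, fun n hn => ?_⟩
  have h2 : elR P (X * ∑ j ∈ Finset.range (N + 1), p j) n =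
      ∑ j ∈ Finset.range (N + 1), elR P (X * p j) n := by
    show aeval (th P n) _ = ∑ j ∈ Finset.range (N + 1), aeval (th P n) _
    rw [Finset.mul_sum, map_sum]
  rw [h2, Finset.sum_eq_single n]
  · exact hp1 n
  · intro j _ hj
    exact hp2 j n hn hj.symm
  · intro h
    exact absurd (Finset.mem_range.mpr (by omega)) h

theorem mem_closure_E (x : ℕ → D) (hx : (x 0).snd = 0) : x ∈ closure (E P : Set (ℕ → D)) := by
  choose p hp using fun N => interp (P := P) N x hx
  have h1 : Filter.Tendsto (fun N => elR P (X * p N)) Filter.atTop (𝓝 x) := by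
    rw [tendsto_pi_nhds]
    intro n
    apply tendsto_const_nhds.congr'
    filter_upwards [Filter.eventually_ge_atTop n] with N hN
    exact (hp N n hN).symm
  have h2 := mem_closure_of_tendsto h1 (Filter.Eventually.of_forall fun N => elR_mem (P := P) (p N))
  rwa [closure_closure] at h2

/-- `H` is dense in the group of all sequences with real coordinate at `0`. -/
theorem Hh_le_closure : Hh ≤ (G P ⊓ Hh).topologicalClosure := by
  have hE : ∀ x ∈ (E P : Set (ℕ → D)), x ∈ J P ∧ (x 0).snd = 0 := by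
    rintro _ ⟨f, hf, rfl⟩
    refine ⟨⟨f, 0, hf, rfl⟩, ?_⟩
    show ev2 (P.τ 0) P.ω 0 = 0
    exact map_zero _
  have hu : ∀ x : ℕ → D, (x 0).snd = 0 → ((fun n => u (x n)) : GH) ∈ (G P ⊓ Hh).topologicalClosure := by
    intro x hx
    have h1 := map_mem_closure continuous_u (mem_closure_E (P := P) x hx)
      (t := ((G P ⊓ Hh : Subgroup GH) : Set GH)) (by
        intro y hy
        obtain ⟨hy1, hy2⟩ := hE y hy
        refine ⟨u_mem_G hy1, ?_⟩
        show u (y 0) ∈ realSub
        rw [mem_realSub]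
        exact ⟨rfl, hy2, rfl, rfl⟩)
    exact h1
  have hl : ∀ x : ℕ → D, (x 0).snd = 0 → ((fun n => l (x n)) : GH) ∈ (G P ⊓ Hh).topologicalClosure := by
    intro x hx
    have h1 := map_mem_closure continuous_l (mem_closure_E (P := P) x hx)
      (t := ((G P ⊓ Hh : Subgroup GH) : Set GH)) (by
        intro y hy
        obtain ⟨hy1, hy2⟩ := hE y hy
        refine ⟨l_mem_G hy1, ?_⟩
        show l (y 0) ∈ realSub
        rw [mem_realSub]
        exact ⟨rfl, rfl, hy2, rfl⟩)
    exact h1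
  intro g hg
  choose s x y z h1 h2 using fun n => exists_elem (g n)
  obtain ⟨hs, hx, hy, hz⟩ := h2 0 hg
  have h3 : g = (fun n => l (s n)) * (fun n => u (x n)) * (fun n => l (y n)) *
      (fun n => u (z n)) := by
    funext n
    exact h1 n
  rw [h3]
  exact mul_mem (mul_mem (mul_mem (hl s hs) (hu x hx)) (hl y hy)) (hu z hz)

/-! ## The coset space -/

/-- The subgroup `H` of `G`. -/
def H (P : Par) : Subgroup (G P) := Hh.subgroupOf (G P)

theorem mem_H (g : G P) : g ∈ H P ↔ g.1 0 ∈ realSub := Iff.rfl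

/-- A closed subgroup of `G` is the trace of the closure. -/
theorem mem_of_closure {K : Subgroup (G P)} (hK : IsClosed (K : Set (G P))) {x : G P}
    (hx : x.1 ∈ (K.map (G P).subtype).topologicalClosure) : x ∈ K := by
  obtain ⟨F, hF, hFK⟩ := isClosed_induced_iff.mp hK
  have h1 : ((K.map (G P).subtype : Subgroup GH) : Set GH) ⊆ F := by
    rintro _ ⟨y, hy, rfl⟩
    have : y ∈ (Subtype.val ⁻¹' F : Set (G P)) := by rw [hFK]; exact hy
    exact this
  have h2 : closure ((K.map (G P).subtype : Subgroup GH) : Set GH) ⊆ F := closure_minimal h1 hF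
  have h3 : x ∈ (Subtype.val ⁻¹' F : Set (G P)) := h2 hx
  rw [hFK] at h3
  exact h3

theorem closure_map {K : Subgroup (G P)} (hle : H P ≤ K) :
    Hh ≤ (K.map (G P).subtype).topologicalClosure := by
  refine (Hh_le_closure (P := P)).trans ?_
  apply closure_mono
  rintro x ⟨hx1, hx2⟩
  exact ⟨⟨x, hx1⟩, hle hx2, rfl⟩

/-- The subgroups `A₀ × Aᵢ₊₁` of the full product. -/
def Vh (i : ℕ) : Subgroup GH where
  carrier := {g | g 0 ∈ aSub ∧ g (i + 1) ∈ aSub ∧ ∀ n, n ≠ 0 → n ≠ i + 1 → g n = 1}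
  one_mem' := ⟨aSub.one_mem, aSub.one_mem, fun _ _ _ => rfl⟩
  mul_mem' := by
    rintro g h ⟨a0, a1, a2⟩ ⟨b0, b1, b2⟩
    refine ⟨aSub.mul_mem a0 b0, aSub.mul_mem a1 b1, fun n h1 h2 => ?_⟩
    rw [Pi.mul_apply, a2 n h1 h2, b2 n h1 h2, one_mul]
  inv_mem' := by
    rintro g ⟨a0, a1, a2⟩
    refine ⟨aSub.inv_mem a0, aSub.inv_mem a1, fun n h1 h2 => ?_⟩
    rw [Pi.inv_apply, a2 n h1 h2, inv_one]

theorem Vh_normal (i : ℕ) : (Vh i).Normal := by
  constructor
  rintro x ⟨a0, a1, a2⟩ g
  refine ⟨aSub_conj _ a0, aSub_conj _ a1, fun n h1 h2 => ?_⟩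
  rw [Pi.mul_apply, Pi.mul_apply, Pi.inv_apply, a2 n h1 h2, mul_one, mul_inv_cancel]

theorem isClosed_Vh (i : ℕ) : IsClosed (Vh i : Set GH) := by
  have h : (Vh i : Set GH) = {g : GH | g 0 ∈ (aSub : Set (SL D))} ∩
      ({g : GH | g (i + 1) ∈ (aSub : Set (SL D))} ∩
        ⋂ n, {g : GH | n ≠ 0 → n ≠ i + 1 → g n = 1}) := by
    ext g
    simp only [Set.mem_inter_iff, Set.mem_iInter]
    exact Iff.rfl
  rw [h]
  refine (isClosed_aSub.preimage (show Continuous fun g : GH => g 0 from continuous_apply 0)).inter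
    ((isClosed_aSub.preimage
      (show Continuous fun g : GH => g (i + 1) from continuous_apply (i + 1))).inter
    (isClosed_iInter fun n => ?_))
  by_cases h1 : n = 0
  · have : {g : GH | n ≠ 0 → n ≠ i + 1 → g n = 1} = Set.univ := by
      ext g; simp [h1]
    rw [this]
    exact isClosed_univ
  · by_cases h2 : n = i + 1
    · have : {g : GH | n ≠ 0 → n ≠ i + 1 → g n = 1} = Set.univ := by
        ext g; simp [h2]
      rw [this]
      exact isClosed_univ
    · have : {g : GH | n ≠ 0 → n ≠ i + 1 → g n = 1} = {g : GH | g n = 1} := by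
        ext g; simp [h1, h2]
      rw [this]
      exact isClosed_eq (continuous_apply n) continuous_const

/-- The abelian normal subgroups `V i` of `G`. -/
def V (P : Par) (i : ℕ) : Subgroup (G P) := (Vh i).subgroupOf (G P)

theorem mem_V (i : ℕ) (g : G P) : g ∈ V P i ↔ g.1 0 ∈ aSub ∧ g.1 (i + 1) ∈ aSub ∧
    ∀ n, n ≠ 0 → n ≠ i + 1 → g.1 n = 1 := Iff.rfl

theorem V_normal (i : ℕ) : (V P i).Normal := (Vh_normal i).subgroupOf (G P)

theorem isClosed_V (i : ℕ) : IsClosed (V P i : Set (G P)) :=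
  (isClosed_Vh i).preimage continuous_subtype_val

theorem V_comm (i : ℕ) {x y : G P} (hx : x ∈ V P i) (hy : y ∈ V P i) : x * y = y * x := by
  obtain ⟨a0, a1, a2⟩ := (mem_V _ x).mp hx
  obtain ⟨b0, b1, b2⟩ := (mem_V _ y).mp hy
  apply Subtype.ext
  funext n
  show x.1 n * y.1 n = y.1 n * x.1 n
  by_cases h0 : n = 0
  · rw [h0]; exact aSub_comm a0 b0
  · by_cases h1 : n = i + 1
    · rw [h1]; exact aSub_comm a1 b1
    · rw [a2 n h0 h1, b2 n h0 h1]

/-- Elements of `V i` commute with the elements of `V j`. -/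
theorem V_comm' (i j : ℕ) {x y : G P} (hx : x ∈ V P i) (hy : y ∈ V P j) : x * y = y * x := by
  by_cases hij : i = j
  · subst hij
    exact V_comm i hx hy
  obtain ⟨a0, a1, a2⟩ := (mem_V _ x).mp hx
  obtain ⟨b0, b1, b2⟩ := (mem_V _ y).mp hy
  apply Subtype.ext
  funext n
  show x.1 n * y.1 n = y.1 n * x.1 n
  by_cases h0 : n = 0
  · rw [h0]; exact aSub_comm a0 b0
  · by_cases h1 : n = i + 1
    · have h2 : n ≠ j + 1 := by omega
      rw [b2 n h0 h2, mul_one, one_mul]
    · rw [a2 n h0 h1, mul_one, one_mul]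

/-- The basic sequences in `V i`. -/
theorem el_V (i : ℕ) : el P 0 (monomial i X) 0 = dn 0 (P.τ 0 * P.ω ^ i) ∧
    el P 0 (monomial i X) (i + 1) = dn 0 (P.τ (i + 1)) ∧
    ∀ n, n ≠ 0 → n ≠ i + 1 → el P 0 (monomial i X) n = 0 := by
  refine ⟨?_, ?_, ?_⟩
  · show dn _ _ = _
    apply dn_ext
    · exact map_zero _
    · rw [ev2, coe_eval₂RingHom, eval₂_monomial]
      congr 1
      exact aeval_X _
  · show dn _ _ = _
    apply dn_ext
    · exact map_zero _
    · rw [derivative_zero, map_zero, zero_add, coeff_monomial, if_pos rfl, aeval_X]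
  · intro n h0 h1
    obtain ⟨k, rfl⟩ := Nat.exists_eq_succ_of_ne_zero h0
    show dn _ _ = dn 0 0
    apply dn_ext
    · exact map_zero _
    · rw [derivative_zero, map_zero, zero_add, coeff_monomial, if_neg (by omega), map_zero]

theorem el_V_mem (i : ℕ) : el P 0 (monomial i X) ∈ J P := ⟨0, _, by simp, rfl⟩

/-- An upper unipotent element of `V i`. -/
noncomputable def vu (P : Par) (i : ℕ) : G P :=
  ⟨fun n => u (el P 0 (monomial i X) n), u_mem_G (el_V_mem i)⟩

/-- A lower unipotent element of `V i`. -/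
noncomputable def vl (P : Par) (i : ℕ) : G P :=
  ⟨fun n => l (el P 0 (monomial i X) n), l_mem_G (el_V_mem i)⟩

theorem u_dn (r : ℝ) : (u (dn 0 r) : SL D) = al (0, r, 0) := by
  apply ext4
  · rw [u00, al00]; rfl
  · rw [u01, al01]
  · rw [u10, al10]; rfl
  · rw [u11, al11]; exact dn_ext rfl neg_zero.symm

theorem l_dn (r : ℝ) : (l (dn 0 r) : SL D) = al (0, 0, r) := by
  apply ext4
  · rw [l00, al00]; rfl
  · rw [l01, al01]; rfl
  · rw [l10, al10]
  · rw [l11, al11]; exact dn_ext rfl neg_zero.symm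

theorem u_zero : (u 0 : SL D) = 1 := by
  apply ext4 <;> simp only [u00, u01, u10, u11, one00, one01, one10, one11]

theorem l_zero : (l 0 : SL D) = 1 := by
  apply ext4 <;> simp only [l00, l01, l10, l11, one00, one01, one10, one11]

theorem vu_mem (i : ℕ) : vu P i ∈ V P i := by
  obtain ⟨h0, h1, h2⟩ := el_V (P := P) i
  rw [mem_V]
  refine ⟨?_, ?_, fun n hn hi => ?_⟩
  · show u _ ∈ aSub
    rw [h0, u_dn]; exact al_mem _
  · show u _ ∈ aSub
    rw [h1, u_dn]; exact al_mem _
  · show u _ = 1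
    rw [h2 n hn hi, u_zero]

theorem vl_mem (i : ℕ) : vl P i ∈ V P i := by
  obtain ⟨h0, h1, h2⟩ := el_V (P := P) i
  rw [mem_V]
  refine ⟨?_, ?_, fun n hn hi => ?_⟩
  · show l _ ∈ aSub
    rw [h0, l_dn]; exact al_mem _
  · show l _ ∈ aSub
    rw [h1, l_dn]; exact al_mem _
  · show l _ = 1
    rw [h2 n hn hi, l_zero]

theorem omega_ne_zero (P : Par) : P.ω ≠ 0 := by
  intro h
  have h1 : ev2 (P.τ 0) P.ω (X : ℚ[X][X]) = 0 := by
    rw [ev2, coe_eval₂RingHom, eval₂_X, h]
  exact X_ne_zero (P.trω X h1)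

theorem vu_zero (i : ℕ) : (vu P i).1 0 = al (0, P.τ 0 * P.ω ^ i, 0) := by
  show u _ = _
  rw [(el_V (P := P) i).1, u_dn]

theorem vl_zero (i : ℕ) : (vl P i).1 0 = al (0, 0, P.τ 0 * P.ω ^ i) := by
  show l _ = _
  rw [(el_V (P := P) i).1, l_dn]

theorem tw_ne_zero (i : ℕ) : P.τ 0 * P.ω ^ i ≠ 0 :=
  mul_ne_zero (tau_ne_zero P 0) (pow_ne_zero _ (omega_ne_zero P))

theorem vu_ne_one (i : ℕ) : vu P i ≠ 1 := by
  intro h
  have h1 : (vu P i).1 0 = al 0 := by rw [h, al_zero]; rfl
  rw [vu_zero] at h1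
  have h2 := congrArg (fun t => t.2.1) (al_injective h1)
  exact tw_ne_zero i h2

/-- The nontrivial elements of `V i` have nontrivial coordinates at `0` and `i + 1`. -/
theorem V_coord {i : ℕ} {g : G P} (hg : g ∈ V P i) (hne : g ≠ 1) :
    (∃ X, X ≠ 0 ∧ g.1 0 = al X) ∧ ∃ Y, Y ≠ 0 ∧ g.1 (i + 1) = al Y := by
  obtain ⟨a0, a1, a2⟩ := (mem_V _ g).mp hg
  obtain ⟨X, hX⟩ := exists_of_mem_aSub a0
  obtain ⟨Y, hY⟩ := exists_of_mem_aSub a1
  refine ⟨⟨X, ?_, hX⟩, ⟨Y, ?_, hY⟩⟩
  · rintro rfl
    apply hne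
    apply Subtype.ext
    apply G_inj0 g.2
    rw [hX, al_zero]
  · rintro rfl
    apply hne
    apply Subtype.ext
    apply G_inj1 g.2
    intro n
    by_cases h : n = i
    · rw [h, hY, al_zero]
    · exact a2 (n + 1) (by omega) (by omega)

theorem V_inf {i j : ℕ} (hij : i ≠ j) : V P i ⊓ V P j = ⊥ := by
  rw [eq_bot_iff]
  rintro g ⟨hi, hj⟩
  by_contra hne
  obtain ⟨-, Y, hY, h⟩ := V_coord hi (fun h => hne (Subgroup.mem_bot.mpr h))
  have h1 := hj.2.2 (i + 1) (by omega) (by omega)
  have h2 : (al Y : SL D) = al 0 := by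
    rw [al_zero, ← h]
    exact h1
  exact hY (al_injective h2)

theorem V_ne_bot (i : ℕ) : V P i ≠ ⊥ := by
  intro h
  have h1 := vu_mem (P := P) i
  rw [h, Subgroup.mem_bot] at h1
  exact vu_ne_one i h1

theorem irreducible (P : Par) : IrreducibleCoset (H P) := by
  refine ⟨isClosed_Hh.preimage continuous_subtype_val, ?_, ?_⟩
  · intro h
    have h1 : vu P 0 ∈ H P := by rw [h]; trivial
    rw [mem_H, vu_zero, mem_realSub] at h1
    exact tw_ne_zero (P := P) 0 h1.2.1
  · intro K hK hle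
    by_cases hKH : K ≤ H P
    · exact Or.inl (le_antisymm hKH hle)
    · right
      obtain ⟨k, hk, hkH⟩ := SetLike.not_le_iff_exists.mp hKH
      have h1 : k.1 ∈ (K.map (G P).subtype).topologicalClosure :=
        subset_closure ⟨k, hk, rfl⟩
      have h2 := Hh_maximal _ (closure_map hle) h1 hkH
      rw [eq_top_iff]
      intro x _
      apply mem_of_closure hK
      rw [h2]
      trivial

theorem G_closure (P : Par) : (G P).topologicalClosure = ⊤ := by
  have h1 : Hh ≤ (G P).topologicalClosure :=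
    (Hh_le_closure (P := P)).trans (closure_mono (fun x hx => hx.1))
  apply Hh_maximal _ h1 (g := (vu P 0).1) (subset_closure (vu P 0).2)
  intro h
  rw [mem_Hh, vu_zero, mem_realSub] at h
  exact tw_ne_zero (P := P) 0 h.2.1

theorem minimal (P : Par) (i : ℕ) : MinClosedNormal (V P i) := by
  refine ⟨V_normal i, isClosed_V i, V_ne_bot i, ?_⟩
  intro N hN hNc hle
  by_cases hbot : N = ⊥
  · exact Or.inl hbot
  right
  apply le_antisymm hle
  obtain ⟨v, hv, hv1⟩ : ∃ v ∈ N, v ≠ 1 := by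
    by_contra hcon
    push Not at hcon
    apply hbot
    rw [eq_bot_iff]
    intro x hx
    exact hcon x hx
  let B : Subgroup GH := (N.map (G P).subtype).topologicalClosure
  -- `B` is normal
  have hB : B.Normal := by
    constructor
    intro b hb g
    -- first, for `g ∈ G`
    have h1 : ∀ g ∈ G P, ∀ b ∈ B, g * b * g⁻¹ ∈ B := by
      intro g hg b hb
      have hc : Continuous fun b : GH => g * b * g⁻¹ := by fun_prop
      refine map_mem_closure (f := fun b : GH => g * b * g⁻¹) hc hb ?_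
      rintro _ ⟨n, hn, rfl⟩
      exact ⟨_, hN.conj_mem n hn ⟨g, hg⟩, rfl⟩
    have h2 : g ∈ closure ((G P : Subgroup GH) : Set GH) := by
      have : g ∈ (G P).topologicalClosure := by rw [G_closure]; trivial
      exact this
    have hc : Continuous fun g : GH => g * b * g⁻¹ := by fun_prop
    have h3 := map_mem_closure (f := fun g : GH => g * b * g⁻¹) hc h2 (t := (B : Set GH))
      (fun g hg => h1 g hg b hb)
    have h4 : IsClosed (B : Set GH) := Subgroup.isClosed_topologicalClosure _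
    rwa [h4.closure_eq] at h3
  have hvB : v.1 ∈ B := subset_closure ⟨v, hv, rfl⟩
  obtain ⟨⟨X, hX, hvX⟩, Y, hY, hvY⟩ := V_coord (hle hv) hv1
  have h0 := normal_al B hB hvB 0 hX hvX
  have hi := normal_al B hB hvB (i + 1) hY hvY
  intro x hx
  apply mem_of_closure hNc
  obtain ⟨a0, a1, a2⟩ := hx
  obtain ⟨X', hX'⟩ := exists_of_mem_aSub a0
  obtain ⟨Y', hY'⟩ := exists_of_mem_aSub a1
  have h1 : x.1 = em 0 (al X') * em (i + 1) (al Y') := by
    funext n
    rw [Pi.mul_apply]
    by_cases h0 : n = 0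
    · subst h0
      rw [em_same, em_ne (by omega), mul_one]
      exact hX'
    · by_cases h1 : n = i + 1
      · subst h1
        rw [em_same, em_ne (by omega), one_mul]
        exact hY'
      · rw [em_ne h0, em_ne h1, mul_one]
        exact a2 n h0 h1
  rw [h1]
  exact B.mul_mem (h0 X') (hi Y')

/-- The coset space is faithful. -/
theorem faithful (P : Par) : FaithfulCoset (H P) := by
  intro x hx
  have hxH : x.1 0 ∈ realSub := by
    have := hx 1
    rwa [inv_one, one_mul, mul_one] at this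
  have hr : ∀ (v : G P) (Z : ℝ × ℝ × ℝ), v.1 0 = al Z → ((al Z)⁻¹ * x.1 0 * al Z) ∈ realSub := by
    intro v Z hZ
    have := hx v
    rw [mem_H] at this
    have h2 : (v⁻¹ * x * v).1 0 = (v.1 0)⁻¹ * x.1 0 * v.1 0 := rfl
    rw [h2, hZ] at this
    exact this
  set t := P.τ 0 * P.ω ^ 0 with ht
  have ht0 : t ≠ 0 := tw_ne_zero 0
  have hu := hr (vu P 0) _ (vu_zero 0)
  have hl := hr (vl P 0) _ (vl_zero 0)
  rw [← al_neg, mem_realSub] at hu hl
  obtain ⟨e0, e1, e2, e3⟩ := (mem_realSub _).mp hxH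
  set y := x.1 0 with hy
  -- entries
  have hy00 : y.1 0 0 = dn (y.1 0 0).fst 0 := by rw [← e0]; rfl
  have hy01 : y.1 0 1 = dn (y.1 0 1).fst 0 := by rw [← e1]; rfl
  have hy10 : y.1 1 0 = dn (y.1 1 0).fst 0 := by rw [← e2]; rfl
  have hy11 : y.1 1 1 = dn (y.1 1 1).fst 0 := by rw [← e3]; rfl
  have hu0 := hu.1
  have hu1 := hu.2.1
  have hl0 := hl.1
  rw [mul00, mul00, mul01, al00, al01, al00, al10, hy00, hy01, hy10, hy11] at hu0 hl0
  rw [mul01, mul00, mul01, al00, al01, al01, al11, hy00, hy01, hy10, hy11] at hu1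
  simp only [dn_mul, dn_add, snd_dn, fst_dn, Prod.fst_neg, Prod.snd_neg] at hu0 hu1 hl0
  have hc : (y.1 1 0).fst = 0 := by
    have h1 : t * (y.1 1 0).fst = 0 := by linarith
    exact (mul_eq_zero.mp h1).resolve_left ht0
  have hb : (y.1 0 1).fst = 0 := by
    have h1 : t * (y.1 0 1).fst = 0 := by linarith
    exact (mul_eq_zero.mp h1).resolve_left ht0
  have had : (y.1 0 0).fst = (y.1 1 1).fst := by
    have h1 : t * ((y.1 0 0).fst - (y.1 1 1).fst) = 0 := by rw [hc] at hu1; linarith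
    linarith [(mul_eq_zero.mp h1).resolve_left ht0]
  have hdet := congrArg TrivSqZeroExt.fst (det_eq y)
  rw [TrivSqZeroExt.fst_sub, TrivSqZeroExt.fst_mul, TrivSqZeroExt.fst_mul, hb, hc, ← had,
    TrivSqZeroExt.fst_one] at hdet
  have hpm : ((y.1 0 0).fst - 1) * ((y.1 0 0).fst + 1) = 0 := by linarith
  -- the value `-1` is impossible
  have hne : ∀ z ∈ J P, z 0 ≠ dn (-2) 0 := by
    rintro _ ⟨f, m, hf, rfl⟩ h
    have h1 : aeval (P.τ 0) f = (-2 : ℝ) := congrArg TrivSqZeroExt.fst h
    have h2 : f + C 2 = 0 := by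
      apply P.tr 0
      rw [map_add, h1, aeval_C]
      norm_num
    have h3 := congrArg (fun q : ℚ[X] => q.coeff 0) h2
    simp only [coeff_add, hf, coeff_C_zero, coeff_zero] at h3
    norm_num at h3
  have h1 : (y.1 0 0).fst = 1 := by
    rcases mul_eq_zero.mp hpm with h | h
    · linarith
    · exfalso
      apply hne _ x.2.1
      show y.1 0 0 - 1 = _
      rw [hy00]
      show dn _ 0 - dn 1 0 = _
      rw [dn_sub]
      apply dn_ext <;> linarith
  apply Subtype.ext
  apply G_inj0 x.2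
  apply ext4
  · show y.1 0 0 = _
    rw [one00, hy00, h1]; rfl
  · show y.1 0 1 = _
    rw [one01, hy01, hb]; rfl
  · show y.1 1 0 = _
    rw [one10, hy10, hc]; rfl
  · show y.1 1 1 = _
    rw [one11, hy11, ← had, h1]; rfl

end Pool.Agent.R627.IrrCoset
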