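import Mathlib

/-!
# The intersection of the kernels of all ordinary representations

For every Hausdorff abelian topological group `A` we construct a central extension `Heis A` of a
discrete abelian group by `A` such that the intersection of the kernels of all continuous
homomorphisms `Heis A → GL_n(ℂ)` is exactly `A`.
-/

set_option autoImplicit false

namespace Pool.Agent.R627.KOHeis

open Topology

universe u

/-- `KO G` is the intersection of the kernels of all ordinary representations of the topological
group `G`, that is, of all continuous homomorphisms from `G` to `GL_n(ℂ)`, `n ≥ 1`. -/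
def KO (G : Type u) [Group G] [TopologicalSpace G] : Subgroup G :=
  ⨅ (n : ℕ) (ρ : G →* GL (Fin (n + 1)) ℂ) (_ : Continuous ρ), ρ.ker

theorem mem_KO {G : Type u} [Group G] [TopologicalSpace G] (g : G) :
    g ∈ KO G ↔ ∀ (n : ℕ) (ρ : G →* GL (Fin (n + 1)) ℂ), Continuous ρ → ρ g = 1 := by
  simp only [KO, Subgroup.mem_iInf, MonoidHom.mem_ker]

/-- The underlying set of the Heisenberg group. -/
@[ext] structure Heis (A : Type u) [CommGroup A] : Type u where
  /-- the central coordinate -/
  c : A
  /-- the integral coordinates -/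
  e : ℕ →₀ ℤ
  /-- the `A`-coordinates -/
  f : ℕ →₀ Additive A

variable {A : Type u} [CommGroup A]

/-- The pairing of `⨁ ℤ` and `⨁ A` with values in `A`. -/
noncomputable def om (e : ℕ →₀ ℤ) (f : ℕ →₀ Additive A) : A :=
  Additive.toMul (e.sum fun n k => k • f n)

theorem om_add_left (e e' : ℕ →₀ ℤ) (f : ℕ →₀ Additive A) :
    om (e + e') f = om e f * om e' f := by
  unfold om
  rw [Finsupp.sum_add_index']
  · rfl
  · intro n; exact zero_smul _ _
  · intro n a b; exact add_smul _ _ _

theorem om_add_right (e : ℕ →₀ ℤ) (f f' : ℕ →₀ Additive A) :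
    om e (f + f') = om e f * om e f' := by
  unfold om
  rw [← toMul_add]
  congr 1
  rw [← Finsupp.sum_add]
  apply Finsupp.sum_congr
  intro n _
  rw [Finsupp.add_apply, smul_add]

@[simp] theorem om_zero_left (f : ℕ →₀ Additive A) : om (0 : ℕ →₀ ℤ) f = 1 := by
  simp [om]

@[simp] theorem om_zero_right (e : ℕ →₀ ℤ) : om e (0 : ℕ →₀ Additive A) = 1 := by
  simp [om, Finsupp.sum]

theorem om_neg_left (e : ℕ →₀ ℤ) (f : ℕ →₀ Additive A) : om (-e) f = (om e f)⁻¹ := by
  rw [eq_inv_iff_mul_eq_one, ← om_add_left]
  simp

theorem om_neg_right (e : ℕ →₀ ℤ) (f : ℕ →₀ Additive A) : om e (-f) = (om e f)⁻¹ := by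
  rw [eq_inv_iff_mul_eq_one, ← om_add_right]
  simp

theorem om_single_single (m n : ℕ) (a : A) :
    om (Finsupp.single m 1) (Finsupp.single n (Additive.ofMul a)) = if m = n then a else 1 := by
  unfold om
  rw [Finsupp.sum_single_index (by simp)]
  by_cases h : m = n
  · subst h
    simp
  · rw [Finsupp.single_apply, if_neg (fun h' => h h'.symm), if_neg h]
    simp

noncomputable instance : Mul (Heis A) :=
  ⟨fun x y => ⟨x.c * y.c * om x.e y.f, x.e + y.e, x.f + y.f⟩⟩

noncomputable instance : One (Heis A) := ⟨⟨1, 0, 0⟩⟩

noncomputable instance : Inv (Heis A) := ⟨fun x => ⟨x.c⁻¹ * om x.e x.f, -x.e, -x.f⟩⟩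

@[simp] theorem mul_c (x y : Heis A) : (x * y).c = x.c * y.c * om x.e y.f := rfl
@[simp] theorem mul_e (x y : Heis A) : (x * y).e = x.e + y.e := rfl
@[simp] theorem mul_f (x y : Heis A) : (x * y).f = x.f + y.f := rfl
@[simp] theorem one_c : (1 : Heis A).c = 1 := rfl
@[simp] theorem one_e : (1 : Heis A).e = 0 := rfl
@[simp] theorem one_f : (1 : Heis A).f = 0 := rfl
@[simp] theorem inv_c (x : Heis A) : (x⁻¹).c = x.c⁻¹ * om x.e x.f := rfl
@[simp] theorem inv_e (x : Heis A) : (x⁻¹).e = -x.e := rfl
@[simp] theorem inv_f (x : Heis A) : (x⁻¹).f = -x.f := rfl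

noncomputable instance : Group (Heis A) :=
  Group.ofLeftAxioms
    (by
      intro x y z
      apply Heis.ext
      · simp only [mul_c, mul_e, mul_f, om_add_left, om_add_right]
        simp only [mul_assoc, mul_left_comm, mul_comm]
      · simp only [mul_e, add_assoc]
      · simp only [mul_f, add_assoc])
    (by
      intro x
      apply Heis.ext <;> simp)
    (by
      intro x
      apply Heis.ext
      · simp only [mul_c, inv_c, inv_e, om_neg_left, one_c]
        rw [mul_inv_eq_one, mul_assoc, mul_comm (om x.e x.f), inv_mul_cancel_left]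
      · simp
      · simp)

/-- the embedding of `A` -/
noncomputable def ι (a : A) : Heis A := ⟨a, 0, 0⟩

/-- the elements `x n` -/
noncomputable def X (A : Type u) [CommGroup A] (n : ℕ) : Heis A := ⟨1, Finsupp.single n 1, 0⟩

/-- the elements `y n` -/
noncomputable def Y (a : A) (n : ℕ) : Heis A := ⟨1, 0, Finsupp.single n (Additive.ofMul a)⟩

theorem X_mul_Y (a : A) (m n : ℕ) :
    X A m * Y a n = (if m = n then ι a else 1) * (Y a n * X A m) := by
  by_cases h : m = n
  · rw [if_pos h]
    apply Heis.ext <;> simp [X, Y, ι, om_single_single, h]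
  · rw [if_neg h]
    apply Heis.ext <;> simp [X, Y, om_single_single, h]

/-- Every representation by invertible matrices of finite size is trivial on `A`. -/
theorem rep_trivial {n : ℕ} (ρ : Heis A →* GL (Fin n) ℂ) (a : A) : ρ (ι a) = 1 := by
  by_contra hne
  -- the matrices
  let u : Matrix (Fin n) (Fin n) ℂ := (ρ (ι a) : GL (Fin n) ℂ)
  let y : ℕ → Matrix (Fin n) (Fin n) ℂ := fun k => (ρ (Y a k) : GL (Fin n) ℂ)
  let x : ℕ → Matrix (Fin n) (Fin n) ℂ := fun k => (ρ (X A k) : GL (Fin n) ℂ)
  have hu : u ≠ 1 := by
    intro h
    apply hne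
    exact Units.ext h
  have hxy : ∀ m k, x m * y k = (if m = k then u else 1) * (y k * x m) := by
    intro m k
    have h := congrArg (fun g => ((ρ g : GL (Fin n) ℂ) : Matrix (Fin n) (Fin n) ℂ)) (X_mul_Y a m k)
    simp only [map_mul, Units.val_mul] at h
    by_cases hmk : m = k
    · rw [if_pos hmk] at h ⊢
      exact h
    · rw [if_neg hmk] at h ⊢
      rw [map_one, Units.val_one] at h
      exact h
  have hli : LinearIndependent ℂ y := by
    rw [linearIndependent_iff']
    intro s g hg i hi
    -- conjugate by `x i`
    have h1 : ∑ k ∈ s, g k • (x i * y k) = 0 := by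
      have := congrArg (fun M => x i * M) hg
      simpa [Finset.mul_sum] using this
    have h2 : ∑ k ∈ s, g k • (y k * x i) = 0 := by
      have := congrArg (fun M => M * x i) hg
      simpa [Finset.sum_mul] using this
    have h3 : g i • ((u - 1) * (y i * x i)) = 0 := by
      have h4 : ∑ k ∈ s, (g k • (x i * y k) - g k • (y k * x i)) = 0 := by
        rw [Finset.sum_sub_distrib, h1, h2, sub_zero]
      rw [Finset.sum_eq_single i] at h4
      · rw [hxy i i, if_pos rfl, ← smul_sub] at h4
        rw [sub_mul, one_mul]
        exact h4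
      · intro k _ hk
        rw [hxy i k, if_neg (fun h => hk h.symm), one_mul, sub_self]
      · intro h
        exact absurd hi h
    rcases smul_eq_zero.mp h3 with h | h
    · exact h
    · exfalso
      apply hu
      have hyx : y i * x i = ((ρ (Y a i * X A i) : GL (Fin n) ℂ) : Matrix (Fin n) (Fin n) ℂ) := by
        rw [map_mul, Units.val_mul]
      rw [hyx] at h
      have h5 : u - 1 = 0 := by
        have := congrArg (fun M => M * ((ρ (Y a i * X A i))⁻¹ : GL (Fin n) ℂ).val) h
        simpa [mul_assoc] using this
      exact sub_eq_zero.mp h5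
  have := hli.finite_of_isNoetherian
  exact not_finite ℕ

/-! ## The topology -/

/-- The discrete abelian quotient. -/
def DD (A : Type u) [CommGroup A] : Type u := (ℕ →₀ ℤ) × (ℕ →₀ Additive A)

instance : TopologicalSpace (DD A) := ⊥

instance : DiscreteTopology (DD A) := ⟨rfl⟩

/-- Addition on `DD`. -/
noncomputable def DDadd (p : DD A × DD A) : DD A := (p.1.1 + p.2.1, p.1.2 + p.2.2)

/-- Negation on `DD`. -/
noncomputable def DDneg (p : DD A) : DD A := (-p.1, -p.2)

/-- The projection to the discrete quotient. -/
def pr (x : Heis A) : DD A := ((x.e, x.f) : (ℕ →₀ ℤ) × (ℕ →₀ Additive A))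

/-- The coordinates of an element, the last two being regarded in a discrete space. -/
def toProd (A : Type u) [CommGroup A] : Heis A ≃ A × DD A where
  toFun x := (x.c, pr x)
  invFun p := ⟨p.1, p.2.1, p.2.2⟩
  left_inv _ := rfl
  right_inv _ := rfl

section topology

variable [TopologicalSpace A]

/-- The topology of `A ×` discrete. -/
instance : TopologicalSpace (Heis A) :=
  TopologicalSpace.induced (toProd A) inferInstance

/-- The coordinate homeomorphism. -/
def homeo (A : Type u) [CommGroup A] [TopologicalSpace A] : Heis A ≃ₜ A × DD A :=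
  (toProd A).toHomeomorphOfIsInducing ⟨rfl⟩

theorem continuous_c : Continuous (fun x : Heis A => x.c) :=
  continuous_fst.comp (homeo A).continuous

theorem continuous_pr : Continuous (fun x : Heis A => pr x) :=
  continuous_snd.comp (homeo A).continuous

theorem continuous_into {Z : Type*} [TopologicalSpace Z] {g : Z → Heis A}
    (h1 : Continuous fun z => (g z).c) (h2 : Continuous fun z => pr (g z)) : Continuous g := by
  have : Continuous fun z => (homeo A).symm ((g z).c, pr (g z)) :=
    (homeo A).symm.continuous.comp (h1.prodMk h2)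
  exact this

theorem continuous_om_pr : Continuous fun p : DD A × DD A =>
    (om p.1.1 p.2.2 : A) := continuous_of_discreteTopology

instance [IsTopologicalGroup A] : IsTopologicalGroup (Heis A) where
  continuous_mul := by
    apply continuous_into
    · show Continuous fun p : Heis A × Heis A => p.1.c * p.2.c * om p.1.e p.2.f
      refine ((continuous_c.comp continuous_fst).mul (continuous_c.comp continuous_snd)).mul ?_
      exact continuous_om_pr.comp
        ((continuous_pr.comp continuous_fst).prodMk (continuous_pr.comp continuous_snd))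
    · have h : Continuous (DDadd (A := A)) := continuous_of_discreteTopology
      exact h.comp ((continuous_pr.comp continuous_fst).prodMk (continuous_pr.comp continuous_snd))
  continuous_inv := by
    apply continuous_into
    · show Continuous fun p : Heis A => p.c⁻¹ * om p.e p.f
      refine (continuous_c.inv).mul ?_
      exact continuous_om_pr.comp (continuous_pr.prodMk continuous_pr)
    · have h : Continuous (DDneg (A := A)) := continuous_of_discreteTopology
      exact h.comp continuous_pr

instance [T2Space A] : T2Space (Heis A) := (homeo A).symm.t2Space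

instance [LocallyCompactSpace A] : LocallyCompactSpace (Heis A) :=
  (homeo A).isClosedEmbedding.locallyCompactSpace

/-- The homomorphism from `ℚ/ℤ` to `ℂˣ`. -/
noncomputable def expQ : AddCircle (1 : ℚ) →+ Additive ℂˣ :=
  QuotientAddGroup.lift _
    ({ toFun := fun q => Additive.ofMul
        (Units.mk0 (Complex.exp (2 * Real.pi * Complex.I * (q : ℂ))) (Complex.exp_ne_zero _))
       map_zero' := by
        rw [← ofMul_one]
        congr 1
        apply Units.ext
        simp
       map_add' := by
        intro p q
        rw [← ofMul_mul]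
        congr 1
        apply Units.ext
        simp only [Units.val_mk0, Units.val_mul]
        rw [← Complex.exp_add]
        congr 1
        push_cast
        ring } : ℚ →+ Additive ℂˣ)
    (by
      intro q hq
      obtain ⟨n, rfl⟩ := AddSubgroup.mem_zmultiples_iff.mp hq
      rw [AddMonoidHom.mem_ker, AddMonoidHom.coe_mk, ZeroHom.coe_mk, ← ofMul_one]
      congr 1
      apply Units.ext
      simp only [Units.val_mk0, Units.val_one]
      rw [Complex.exp_eq_one_iff]
      exact ⟨n, by simp; ring⟩)

theorem expQ_injective (x : AddCircle (1 : ℚ)) (h : expQ x = 0) : x = 0 := by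
  induction x using QuotientAddGroup.induction_on with
  | H q =>
    have h2 : Additive.ofMul (Units.mk0 (Complex.exp (2 * Real.pi * Complex.I * (q : ℂ)))
      (Complex.exp_ne_zero _)) = 0 := h
    rw [← ofMul_one, Additive.ofMul.injective.eq_iff, Units.ext_iff] at h2
    simp only [Units.val_mk0, Units.val_one] at h2
    rw [Complex.exp_eq_one_iff] at h2
    obtain ⟨n, hn⟩ := h2
    rw [QuotientAddGroup.eq_zero_iff, AddSubgroup.mem_zmultiples_iff]
    refine ⟨n, ?_⟩
    have h3 : (2 * Real.pi * Complex.I : ℂ) ≠ 0 := Complex.two_pi_I_ne_zero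
    have h4 : (q : ℂ) = n := by
      have : (2 * Real.pi * Complex.I : ℂ) * q = (2 * Real.pi * Complex.I : ℂ) * n := by
        rw [hn]; ring
      exact mul_left_cancel₀ h3 this
    have h5 : q = n := by exact_mod_cast h4
    simp [h5]

/-- Characters separate the points of an abelian group. -/
theorem exists_char {B : Type*} [AddCommGroup B] {b : B} (hb : b ≠ 0) :
    ∃ χ : B →+ Additive ℂˣ, χ b ≠ 0 := by
  obtain ⟨c, hc⟩ := CharacterModule.exists_character_apply_ne_zero_of_ne_zero hb
  refine ⟨expQ.comp c, fun h => hc (expQ_injective _ h)⟩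

/-- The projection as a homomorphism. -/
noncomputable def prHom (A : Type u) [CommGroup A] :
    Heis A →* Multiplicative ((ℕ →₀ ℤ) × (ℕ →₀ Additive A)) where
  toFun x := Multiplicative.ofAdd (x.e, x.f)
  map_one' := rfl
  map_mul' _ _ := rfl

theorem mem_KO_iff (x : Heis A) : x ∈ KO (Heis A) ↔ x = ι x.c := by
  rw [mem_KO]
  constructor
  · intro h
    by_contra hne
    have hb : ((x.e, x.f) : (ℕ →₀ ℤ) × (ℕ →₀ Additive A)) ≠ 0 := by
      intro h0
      apply hne
      have h1 : x.e = 0 := congrArg Prod.fst h0
      have h2 : x.f = 0 := congrArg Prod.snd h0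
      apply Heis.ext
      · rfl
      · exact h1
      · exact h2
    obtain ⟨χ, hχ⟩ := exists_char hb
    let χ' : Heis A →* ℂˣ := (AddMonoidHom.toMultiplicativeLeft χ).comp (prHom A)
    have hχ' : Continuous χ' := by
      have h : Continuous fun p : DD A => AddMonoidHom.toMultiplicativeLeft χ
        (Multiplicative.ofAdd ((p.1, p.2) : (ℕ →₀ ℤ) × (ℕ →₀ Additive A))) :=
        continuous_of_discreteTopology
      exact h.comp continuous_pr
    let ρ : Heis A →* GL (Fin (0 + 1)) ℂ :=
      (Matrix.GeneralLinearGroup.scalar (Fin (0 + 1))).comp χ'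
    have hρ : Continuous ρ := by
      have h : Continuous fun p : DD A => Matrix.GeneralLinearGroup.scalar (Fin (0 + 1))
        (AddMonoidHom.toMultiplicativeLeft χ
        (Multiplicative.ofAdd ((p.1, p.2) : (ℕ →₀ ℤ) × (ℕ →₀ Additive A)))) :=
        continuous_of_discreteTopology
      exact h.comp continuous_pr
    have h1 := h 0 ρ hρ
    apply hχ
    have h2 : Matrix.GeneralLinearGroup.scalar (Fin (0 + 1)) (χ' x) = 1 := h1
    have h3 : χ' x = 1 := by
      apply Units.ext
      have h4 := congrArg (fun g : GL (Fin (0 + 1)) ℂ => (g : Matrix (Fin (0 + 1)) (Fin (0 + 1)) ℂ) 0 0) h2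
      simpa using h4
    exact h3
  · intro h n ρ _
    rw [h]
    exact rep_trivial ρ _

/-- The main theorem: `KO (Heis A)` is isomorphic with `A`. -/
noncomputable def koEquiv (A : Type u) [CommGroup A] [TopologicalSpace A] :
    A ≃ₜ* KO (Heis A) where
  toFun a := ⟨ι a, (mem_KO_iff _).mpr rfl⟩
  invFun x := x.1.c
  left_inv _ := rfl
  right_inv x := Subtype.ext ((mem_KO_iff _).mp x.2).symm
  map_mul' a b := by
    apply Subtype.ext
    apply Heis.ext <;> simp [ι]
  continuous_toFun := by
    apply Continuous.subtype_mk
    apply continuous_into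
    · show Continuous fun a : A => a
      exact continuous_id
    · show Continuous fun _ : A => pr (1 : Heis A)
      exact continuous_const
  continuous_invFun := continuous_c.comp continuous_subtype_val

theorem main (A : Type u) [CommGroup A] [TopologicalSpace A] [IsTopologicalGroup A] [T2Space A]
    [LocallyCompactSpace A] :
    ∃ (G : Type u) (_ : Group G) (_ : TopologicalSpace G) (_ : IsTopologicalGroup G)
      (_ : T2Space G) (_ : LocallyCompactSpace G), Nonempty (A ≃ₜ* KO G) :=
  ⟨Heis A, inferInstance, inferInstance, inferInstance, inferInstance, inferInstance,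
    ⟨koEquiv A⟩⟩

end topology

end Pool.Agent.R627.KOHeis
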