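import Mathlib

/-!
# A group of integer functions on the first uncountable ordinal

The group `H` is generated by the unit vectors and by the characteristic functions of ladders.
Every uncountable subset of `H` has an accumulation point for the topology of agreement on initial
segments, and no set that generates a dense subgroup of `H` is closed and discrete up to `0`.
-/

set_option autoImplicit false
set_option linter.style.haveILetI false
set_option linter.unusedSectionVars false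

namespace Pool.Agent.R627.Ladder

open Set

/-- A well order that looks like the first uncountable ordinal. -/
structure IsOmegaOne (W : Type) [LinearOrder W] : Prop where
  wf : WellFoundedLT W
  hc : ∀ a : W, (Iio a).Countable
  hu : ¬ (univ : Set W).Countable

variable {W : Type} [LinearOrder W]

theorem IsOmegaOne.bdd (h : IsOmegaOne W) {C : Set W} (hC : C.Countable) : ∃ b, ∀ c ∈ C, c < b := by
  by_contra hcon
  push Not at hcon
  apply h.hu
  have h1 : (univ : Set W) ⊆ ⋃ c ∈ C, Iic c := by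
    intro b _
    obtain ⟨c, hc, hbc⟩ := hcon b
    exact mem_biUnion hc hbc
  refine Set.Countable.mono h1 (hC.biUnion fun c _ => ?_)
  rw [← Iio_insert]
  exact (h.hc c).insert c

/-- Limit elements. -/
def Lim (δ : W) : Prop := (∃ a, a < δ) ∧ ∀ a < δ, ∃ a' < δ, a < a'

theorem Lim.finite {δ : W} (hδ : Lim δ) (s : Finset W) (hs : ∀ x ∈ s, x < δ) :
    ∃ a < δ, ∀ x ∈ s, x < a := by
  classical
  induction s using Finset.induction_on with
  | empty =>
    obtain ⟨a, ha⟩ := hδ.1
    exact ⟨a, ha, fun x hx => absurd hx (Finset.notMem_empty x)⟩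
  | insert y s _ ih =>
    obtain ⟨a, ha, h1⟩ := ih fun x hx => hs x (Finset.mem_insert_of_mem hx)
    obtain ⟨a', ha', h2⟩ := hδ.2 (max a y) (max_lt ha (hs y (Finset.mem_insert_self y s)))
    refine ⟨a', ha', fun x hx => ?_⟩
    rcases Finset.mem_insert.mp hx with rfl | hx
    · exact lt_of_le_of_lt (le_max_right _ _) h2
    · exact lt_trans (h1 x hx) (lt_of_le_of_lt (le_max_left _ _) h2)

theorem IsOmegaOne.closing (h : IsOmegaOne W) (F : W → Set W) (hF : ∀ a, (F a).Countable) (b : W) :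
    ∃ δ, b < δ ∧ Lim δ ∧ ∀ a < δ, ∀ c ∈ F a, c < δ := by
  haveI := h.wf
  have hstep : ∀ d : W, ∃ n, d < n ∧ ∀ a ≤ d, ∀ c ∈ F a, c < n := by
    intro d
    have h1 : (insert d (⋃ a ∈ Iic d, F a)).Countable := by
      refine Set.Countable.insert d (Set.Countable.biUnion ?_ fun a _ => hF a)
      rw [← Iio_insert]
      exact (h.hc d).insert d
    obtain ⟨n, hn⟩ := h.bdd h1
    exact ⟨n, hn d (mem_insert _ _), fun a ha c hc =>
      hn c (mem_insert_of_mem _ (mem_biUnion (mem_Iic.mpr ha) hc))⟩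
  choose nxt hn1 hn2 using hstep
  let s : ℕ → W := fun k => Nat.rec b (fun _ r => nxt r) k
  have hs0 : s 0 = b := rfl
  have hs1 : ∀ k, s (k + 1) = nxt (s k) := fun k => rfl
  have hne : {d | ∀ k, s k < d}.Nonempty := by
    obtain ⟨d, hd⟩ := h.bdd (Set.countable_range s)
    exact ⟨d, fun k => hd _ (mem_range_self k)⟩
  set δ := WellFounded.min (wellFounded_lt (α := W)) _ hne with hδ
  have hδ1 : ∀ k, s k < δ := WellFounded.min_mem (wellFounded_lt (α := W)) _ hne
  have hδ2 : ∀ a < δ, ∃ k, a ≤ s k := by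
    intro a ha
    by_contra hcon
    push Not at hcon
    have hmem : a ∈ {d | ∀ k, s k < d} := hcon
    exact WellFounded.not_lt_min (wellFounded_lt (α := W)) _ hmem ha
  refine ⟨δ, ?_, ⟨⟨b, ?_⟩, ?_⟩, ?_⟩
  · exact hδ1 0
  · exact hδ1 0
  · intro a ha
    obtain ⟨k, hk⟩ := hδ2 a ha
    exact ⟨s (k + 1), hδ1 (k + 1), lt_of_le_of_lt hk (hn1 (s k))⟩
  · intro a ha c hc
    obtain ⟨k, hk⟩ := hδ2 a ha
    exact lt_trans (hn2 (s k) a hk c hc) (hδ1 (k + 1))

/-- A ladder system, given by characteristic functions. -/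
structure IsLadder (c : W → W → ℤ) : Prop where
  lt : ∀ δ γ, c δ γ ≠ 0 → γ < δ
  fin : ∀ δ a, a < δ → {γ | γ < a ∧ c δ γ ≠ 0}.Finite
  cof : ∀ δ, Lim δ → ∀ a < δ, ∃ γ, a ≤ γ ∧ γ < δ ∧ c δ γ ≠ 0

theorem exists_ladder (h : IsOmegaOne W) : ∃ c : W → W → ℤ, IsLadder c := by
  classical
  have key : ∀ δ : W, ∃ f : W → ℤ, (∀ γ, f γ ≠ 0 → γ < δ) ∧
      (∀ a, a < δ → {γ | γ < a ∧ f γ ≠ 0}.Finite) ∧
      (Lim δ → ∀ a < δ, ∃ γ, a ≤ γ ∧ γ < δ ∧ f γ ≠ 0) := by
    intro δ
    by_cases hδ : Lim δ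
    · haveI : Nonempty (Iio δ) := by
        obtain ⟨a, ha⟩ := hδ.1
        exact ⟨⟨a, ha⟩⟩
      haveI : Countable (Iio δ) := (h.hc δ).to_subtype
      obtain ⟨e, he⟩ := exists_surjective_nat (Iio δ)
      have hstep : ∀ (k : ℕ) (r : Iio δ), ∃ r' : Iio δ, r < r' ∧ e k < r' := by
        intro k r
        obtain ⟨a', ha', h2⟩ := hδ.2 (max r.1 (e k).1) (max_lt r.2 (e k).2)
        have h3 : r.1 < a' := lt_of_le_of_lt (le_max_left r.1 (e k).1) h2
        have h4 : (e k).1 < a' := lt_of_le_of_lt (le_max_right r.1 (e k).1) h2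
        exact ⟨⟨a', ha'⟩, h3, h4⟩
      choose nxt hn1 hn2 using hstep
      let s : ℕ → Iio δ := fun k => Nat.rec (e 0) (fun k r => nxt k r) k
      have hs1 : ∀ k, s (k + 1) = nxt k (s k) := fun k => rfl
      have hmono : StrictMono s := strictMono_nat_of_lt_succ fun k => by
        rw [hs1]; exact hn1 k (s k)
      have hcof : ∀ a < δ, ∃ k, a < (s k).1 := by
        intro a ha
        obtain ⟨k, hk⟩ := he ⟨a, ha⟩
        refine ⟨k + 1, ?_⟩
        have := hn2 k (s k)
        rw [hk] at this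
        exact this
      refine ⟨fun γ => if ∃ k, (s k).1 = γ then 1 else 0, ?_, ?_, ?_⟩
      · intro γ hγ
        by_cases h1 : ∃ k, (s k).1 = γ
        · obtain ⟨k, rfl⟩ := h1
          exact (s k).2
        · simp only [if_neg h1] at hγ
          exact absurd rfl hγ
      · intro a ha
        obtain ⟨k, hk⟩ := hcof a ha
        refine ((Set.finite_lt_nat k).image fun j => (s j).1).subset ?_
        rintro γ ⟨hγa, hγ⟩
        by_cases h1 : ∃ j, (s j).1 = γ
        · obtain ⟨j, rfl⟩ := h1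
          refine ⟨j, ?_, rfl⟩
          by_contra hle
          have h2 : s k ≤ s j := hmono.monotone (not_lt.mp hle)
          have h3 : (s k).1 ≤ (s j).1 := h2
          exact absurd (lt_trans hγa hk) (not_lt.mpr h3)
        · simp only [if_neg h1] at hγ
          exact absurd rfl hγ
      · intro _ a ha
        obtain ⟨k, hk⟩ := hcof a ha
        refine ⟨(s k).1, hk.le, (s k).2, ?_⟩
        simp
    · exact ⟨fun _ => 0, fun γ hγ => absurd rfl hγ, fun a _ => by simp, fun h' => absurd h' hδ⟩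
  choose c hc1 hc2 hc3 using key
  exact ⟨c, hc1, hc2, hc3⟩

/-! ## The group -/

/-- The parametrization of the group. -/
noncomputable def Phi (c : W → W → ℤ) : (W →₀ ℤ) × (W →₀ ℤ) →+ (W → ℤ) where
  toFun q := fun γ => q.1 γ + q.2.sum fun l n => n * c l γ
  map_zero' := by
    funext γ
    simp
  map_add' q r := by
    funext γ
    show (q.1 + r.1) γ + (q.2 + r.2).sum (fun l n => n * c l γ) =
      (q.1 γ + q.2.sum fun l n => n * c l γ) + (r.1 γ + r.2.sum fun l n => n * c l γ)
    rw [Finsupp.add_apply, Finsupp.sum_add_index' (by intro a; ring) (by intro a b b'; ring)]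
    ring

theorem Phi_apply (c : W → W → ℤ) (q : (W →₀ ℤ) × (W →₀ ℤ)) (γ : W) :
    Phi c q γ = q.1 γ + q.2.sum fun l n => n * c l γ := rfl

/-- The group. -/
noncomputable def H (c : W → W → ℤ) : AddSubgroup (W → ℤ) := (Phi c).range

/-- The parameters supported below `a`. -/
def P (a : W) : Set ((W →₀ ℤ) × (W →₀ ℤ)) :=
  {q | (∀ γ ∈ q.1.support, γ < a) ∧ ∀ γ ∈ q.2.support, γ < a}

theorem countable_below (h : IsOmegaOne W) (a : W) :
    {f : W →₀ ℤ | ∀ γ ∈ f.support, γ < a}.Countable := by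
  classical
  haveI : Countable {x // x < a} := (h.hc a).to_subtype
  refine (Set.countable_range fun g : {x // x < a} →₀ ℤ => g.extendDomain).mono ?_
  intro f hf
  exact ⟨f.subtypeDomain (fun x => x < a), Finsupp.extendDomain_subtypeDomain f hf⟩

theorem countable_P (h : IsOmegaOne W) (a : W) : (P a).Countable := by
  refine ((countable_below h a).prod (countable_below h a)).mono ?_
  rintro ⟨f, g⟩ hq
  exact hq

/-- Truncation. -/
theorem trunc {c : W → W → ℤ} (hc : IsLadder c) {δ : W} (hδ : Lim δ)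
    (q : (W →₀ ℤ) × (W →₀ ℤ)) (hq : q.2 δ = 0) :
    ∃ a < δ, ∃ q' ∈ P a, ∀ γ < δ, Phi c q' γ = Phi c q γ := by
  classical
  let s : Finset W := q.2.support.filter fun l => δ < l
  let v : W → ℤ := fun γ => if γ < δ then q.1 γ + ∑ l ∈ s, q.2 l * c l γ else 0
  have hv : v.support.Finite := by
    have h1 : ((q.1.support : Set W) ∪ ⋃ l ∈ s, {γ | γ < δ ∧ c l γ ≠ 0}).Finite := by
      refine (Finset.finite_toSet _).union (Set.Finite.biUnion (Finset.finite_toSet _) ?_)
      intro l hl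
      exact hc.fin l δ (Finset.mem_filter.mp hl).2
    refine h1.subset fun γ hγ => ?_
    rw [Function.mem_support] at hγ
    by_cases hγδ : γ < δ
    · simp only [v, if_pos hγδ] at hγ
      by_contra hcon
      rw [mem_union, not_or] at hcon
      apply hγ
      have h2 : q.1 γ = 0 := by
        have := hcon.1
        rwa [Finset.mem_coe, Finsupp.mem_support_iff, not_not] at this
      rw [h2, zero_add]
      apply Finset.sum_eq_zero
      intro l hl
      have h3 : c l γ = 0 := by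
        by_contra hne
        exact hcon.2 (mem_biUnion (s := (s : Set W)) hl ⟨hγδ, hne⟩)
      rw [h3, mul_zero]
    · simp only [v, if_neg hγδ] at hγ
      exact absurd rfl hγ
  let f' : W →₀ ℤ := Finsupp.ofSupportFinite v hv
  let g' : W →₀ ℤ := q.2.filter fun l => l < δ
  have hf' : ∀ γ ∈ f'.support, γ < δ := by
    intro γ hγ
    rw [Finsupp.mem_support_iff] at hγ
    by_contra hcon
    apply hγ
    show v γ = 0
    simp only [v, if_neg hcon]
  have hg' : ∀ γ ∈ g'.support, γ < δ := by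
    intro γ hγ
    rw [Finsupp.support_filter, Finset.mem_filter] at hγ
    exact hγ.2
  obtain ⟨a, ha, h1⟩ := hδ.finite (f'.support ∪ g'.support) fun x hx => by
    rcases Finset.mem_union.mp hx with hx | hx
    · exact hf' x hx
    · exact hg' x hx
  refine ⟨a, ha, (f', g'), ⟨fun γ hγ => h1 γ (Finset.mem_union_left _ hγ),
    fun γ hγ => h1 γ (Finset.mem_union_right _ hγ)⟩, fun γ hγ => ?_⟩
  rw [Phi_apply, Phi_apply]
  have e1 : f' γ = q.1 γ + ∑ l ∈ s, q.2 l * c l γ := by
    show v γ = _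
    simp only [v, if_pos hγ]
  have e2 : (g'.sum fun l n => n * c l γ) =
      ∑ l ∈ q.2.support.filter (fun l => l < δ), q.2 l * c l γ := by
    rw [Finsupp.sum, Finsupp.support_filter]
    apply Finset.sum_congr rfl
    intro l hl
    have hl2 : l < δ := (Finset.mem_filter.mp hl).2
    show (Finsupp.filter (fun l => l < δ) q.2) l * c l γ = q.2 l * c l γ
    rw [Finsupp.filter_apply_pos (fun l => l < δ) q.2 hl2]
  have e3 : (q.2.sum fun l n => n * c l γ) =
      ∑ l ∈ q.2.support.filter (fun l => l < δ), q.2 l * c l γ + ∑ l ∈ s, q.2 l * c l γ := by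
    rw [Finsupp.sum, ← Finset.sum_filter_add_sum_filter_not q.2.support (fun l => l < δ)]
    congr 1
    apply Finset.sum_congr _ fun _ _ => rfl
    ext l
    rw [Finset.mem_filter, Finset.mem_filter, not_lt]
    constructor
    · rintro ⟨h2, h3⟩
      refine ⟨h2, lt_of_le_of_ne h3 ?_⟩
      rintro rfl
      exact (Finsupp.mem_support_iff.mp h2) hq
    · rintro ⟨h2, h3⟩
      exact ⟨h2, h3.le⟩
  show f' γ + (g'.sum fun l n => n * c l γ) = _
  rw [e1, e2, e3]
  ring

/-- Every uncountable subset of the group has an accumulation point in the group. -/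
theorem exists_acc (h : IsOmegaOne W) {c : W → W → ℤ} (hc : IsLadder c) {A : Set (W → ℤ)}
    (hA : A ⊆ H c) (hAu : ¬ A.Countable) :
    ∃ z ∈ H c, ∀ α, ¬ {x ∈ A | ∀ γ < α, x γ = z γ}.Countable := by
  classical
  by_contra hcon
  push Not at hcon
  have hcon' : ∀ z : W → ℤ, ∃ α : W, z ∈ H c → {x ∈ A | ∀ γ < α, x γ = z γ}.Countable := by
    intro z
    by_cases hz : z ∈ H c
    · obtain ⟨α, hα⟩ := hcon z hz
      exact ⟨α, fun _ => hα⟩
    · obtain ⟨b, -⟩ := h.bdd (Set.countable_empty (α := W))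
      exact ⟨b, fun h' => absurd h' hz⟩
  choose α hα using hcon'
  let F : W → Set W := fun a => (fun q => α (Phi c q)) '' P a
  have hF : ∀ a, (F a).Countable := fun a => (countable_P h a).image _
  choose dl hd1 hd2 hd3 using h.closing F hF
  obtain ⟨b, -⟩ := h.bdd (Set.countable_empty (α := W))
  let δ : ℕ → W := fun k => Nat.rec (dl b) (fun _ r => dl r) k
  have hδ1 : ∀ k, δ (k + 1) = dl (δ k) := fun k => rfl
  have hmono : StrictMono δ := strictMono_nat_of_lt_succ fun k => by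
    rw [hδ1]; exact hd1 _
  have hgood : ∀ k, ∃ b', δ k = dl b' := by
    intro k
    cases k with
    | zero => exact ⟨b, rfl⟩
    | succ k => exact ⟨δ k, rfl⟩
  let E : ℕ → Set (W → ℤ) := fun k =>
    ⋃ a ∈ Iio (δ k), ⋃ q ∈ P a, {x ∈ A | ∀ γ < α (Phi c q), x γ = Phi c q γ}
  have hE : (⋃ k, E k).Countable := by
    refine Set.countable_iUnion fun k => Set.Countable.biUnion (h.hc _) fun a _ =>
      Set.Countable.biUnion (countable_P h a) fun q _ => hα _ ⟨q, rfl⟩
  obtain ⟨x, hxA, hxE⟩ : ∃ x ∈ A, x ∉ ⋃ k, E k := by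
    by_contra hno
    push Not at hno
    exact hAu (hE.mono hno)
  obtain ⟨q, hq⟩ := hA hxA
  have hqδ : ∀ k, q.2 (δ k) ≠ 0 := by
    intro k hk
    obtain ⟨b', hb'⟩ := hgood k
    have hlim : Lim (δ k) := by rw [hb']; exact hd2 b'
    obtain ⟨a, ha, q', hq', hag⟩ := trunc hc hlim q hk
    apply hxE
    refine mem_iUnion.mpr ⟨k, mem_biUnion (mem_Iio.mpr ha) (mem_biUnion hq' ⟨hxA, ?_⟩)⟩
    intro γ hγ
    have h1 : α (Phi c q') < δ k := by
      rw [hb'] at ha ⊢
      exact hd3 b' a ha _ ⟨q', hq', rfl⟩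
    rw [hag γ (lt_trans hγ h1), hq]
  have hinf : (range δ).Infinite := Set.infinite_range_of_injective hmono.injective
  apply hinf
  refine (Finset.finite_toSet q.2.support).subset ?_
  rintro _ ⟨k, rfl⟩
  exact Finsupp.mem_support_iff.mpr (hqδ k)

theorem exists_bound (h : IsOmegaOne W) {c : W → W → ℤ} (hc : IsLadder c) {x : W → ℤ}
    (hx : x ∈ H c) : ∃ b, ∀ γ, b ≤ γ → x γ = 0 := by
  classical
  obtain ⟨q, rfl⟩ := hx
  obtain ⟨b, hb⟩ := h.bdd ((Finset.countable_toSet (q.1.support ∪ q.2.support)))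
  refine ⟨b, fun γ hγ => ?_⟩
  rw [Phi_apply]
  have h1 : q.1 γ = 0 := by
    by_contra hne
    have := hb γ (Finset.mem_coe.mpr (Finset.mem_union_left _ (Finsupp.mem_support_iff.mpr hne)))
    exact absurd this (not_lt.mpr hγ)
  rw [h1, zero_add]
  apply Finset.sum_eq_zero
  intro l hl
  have h2 : l < b := hb l (Finset.mem_coe.mpr (Finset.mem_union_right _ hl))
  have h3 : c l γ = 0 := by
    by_contra hne
    exact absurd (lt_trans (hc.lt l γ hne) h2) (not_lt.mpr hγ)
  show q.2 l * c l γ = 0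
  rw [h3, mul_zero]

theorem c_mem {c : W → W → ℤ} (δ : W) : c δ ∈ H c := by
  refine ⟨(0, Finsupp.single δ 1), ?_⟩
  funext γ
  rw [Phi_apply, Finsupp.sum_single_index (by ring), Finsupp.zero_apply, zero_add, one_mul]

/-- A subset of the group whose countable part below each level is countable does not generate a
dense subgroup. -/
theorem not_dense (h : IsOmegaOne W) {c : W → W → ℤ} (hc : IsLadder c) {S : Set (W → ℤ)}
    (hS : S ⊆ H c) (hcount : ∀ β, {x ∈ S | ∃ γ < β, x γ ≠ 0}.Countable) :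
    ∃ (z : W → ℤ) (δ : W), z ∈ H c ∧ ∀ x ∈ AddSubgroup.closure S, ∃ γ < δ, x γ ≠ z γ := by
  classical
  have hb : ∀ x : W → ℤ, ∃ b, x ∈ H c → ∀ γ, b ≤ γ → x γ = 0 := by
    intro x
    by_cases hx : x ∈ H c
    · obtain ⟨b, hb⟩ := exists_bound h hc hx
      exact ⟨b, fun _ => hb⟩
    · obtain ⟨b, -⟩ := h.bdd (Set.countable_empty (α := W))
      exact ⟨b, fun h' => absurd h' hx⟩
  choose bd hbd using hb
  obtain ⟨b, -⟩ := h.bdd (Set.countable_empty (α := W))
  obtain ⟨δ, -, hδ, hcl⟩ := h.closing (fun a => bd '' {x ∈ S | ∃ γ < a, x γ ≠ 0})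
    (fun a => (hcount a).image _) b
  let V : AddSubgroup (W → ℤ) :=
    { carrier := {x | ∃ a < δ, ∀ γ, a ≤ γ → γ < δ → x γ = 0}
      zero_mem' := by
        obtain ⟨a, ha⟩ := hδ.1
        exact ⟨a, ha, fun _ _ _ => rfl⟩
      add_mem' := by
        rintro x y ⟨a, ha, h1⟩ ⟨a', ha', h2⟩
        refine ⟨max a a', max_lt ha ha', fun γ hγ hγδ => ?_⟩
        rw [Pi.add_apply, h1 γ (le_trans (le_max_left _ _) hγ) hγδ,
          h2 γ (le_trans (le_max_right _ _) hγ) hγδ, add_zero]
      neg_mem' := by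
        rintro x ⟨a, ha, h1⟩
        refine ⟨a, ha, fun γ hγ hγδ => ?_⟩
        rw [Pi.neg_apply, h1 γ hγ hγδ, neg_zero] }
  have hSV : AddSubgroup.closure S ≤ V := by
    rw [AddSubgroup.closure_le]
    intro x hx
    by_cases hx0 : ∃ γ < δ, x γ ≠ 0
    · obtain ⟨γ, hγ, hne⟩ := hx0
      obtain ⟨a, ha, hγa⟩ := hδ.2 γ hγ
      have h1 : bd x < δ := hcl a ha _ ⟨x, ⟨hx, γ, hγa, hne⟩, rfl⟩
      exact ⟨bd x, h1, fun γ' hγ' _ => hbd x (hS hx) γ' hγ'⟩
    · push Not at hx0
      obtain ⟨a, ha⟩ := hδ.1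
      exact ⟨a, ha, fun γ _ hγ => hx0 γ hγ⟩
  refine ⟨c δ, δ, c_mem δ, fun x hx => ?_⟩
  obtain ⟨a, ha, h1⟩ := hSV hx
  obtain ⟨γ, haγ, hγ, hne⟩ := hc.cof δ hδ a ha
  exact ⟨γ, hγ, fun heq => hne (heq ▸ h1 γ haγ hγ)⟩

/-- The first uncountable ordinal. -/
abbrev W1 : Type := (Cardinal.aleph 1).ord.ToType

theorem isOmegaOne_W1 : IsOmegaOne W1 where
  wf := inferInstance
  hc a := by
    rw [← Cardinal.le_aleph0_iff_set_countable, ← Cardinal.lt_aleph_one_iff]
    exact Cardinal.mk_Iio_toType_ord_lt a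
  hu h := by
    rw [Set.countable_univ_iff, ← Cardinal.mk_le_aleph0_iff, ← Cardinal.lt_aleph_one_iff,
      Cardinal.mk_ord_toType] at h
    exact lt_irrefl _ h

end Pool.Agent.R627.Ladder
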