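import Mathlib

/-!
# The local field of Laurent series over the field with four elements

The norm, the compactness of closed balls, the Frobenius map on coefficients and squares.
-/

set_option autoImplicit false
set_option linter.style.haveILetI false

namespace Pool.Agent.R627.LaurentF4

open Topology Filter Set

/-- The field with four elements. -/
abbrev F4 : Type := GaloisField 2 2

instance : Fact (Nat.Prime 2) := ⟨Nat.prime_two⟩

noncomputable instance : Fintype F4 := Fintype.ofFinite _

theorem card_F4 : Fintype.card F4 = 4 := by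
  rw [← Nat.card_eq_fintype_card, GaloisField.card 2 2 (by norm_num)]
  norm_num

theorem pow_four (a : F4) : a ^ 4 = a := by
  have := FiniteField.pow_card a
  rwa [card_F4] at this

theorem exists_sq_ne : ∃ c : F4, c ^ 2 ≠ c := by
  classical
  by_contra hcon
  push Not at hcon
  have h1 : ∀ c : F4, c = 0 ∨ c = 1 := by
    intro c
    have h2 : c * (c - 1) = 0 := by
      have := hcon c
      rw [sq] at this
      rw [mul_sub, this]; ring
    rcases mul_eq_zero.mp h2 with h | h
    · exact Or.inl h
    · exact Or.inr (sub_eq_zero.mp h)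
  have h3 : Fintype.card F4 ≤ 2 := by
    have h4 : (Finset.univ : Finset F4) ⊆ {0, 1} := by
      intro c _
      rcases h1 c with h | h <;> simp [h]
    calc Fintype.card F4 = (Finset.univ : Finset F4).card := rfl
      _ ≤ ({0, 1} : Finset F4).card := Finset.card_le_card h4
      _ ≤ 2 := Finset.card_le_two
  rw [card_F4] at h3
  omega

theorem two_eq_zero : (2 : F4) = 0 := CharP.cast_eq_zero F4 2

theorem add_self (a : F4) : a + a = 0 := by
  rw [← two_mul, two_eq_zero, zero_mul]

/-- The field of Laurent series over the field with four elements. -/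
def K : Type := HahnSeries ℤ F4

noncomputable instance : Field K := inferInstanceAs (Field (HahnSeries ℤ F4))

/-- The coefficients. -/
def co (x : K) (n : ℤ) : F4 := HahnSeries.coeff x n

theorem K_ext {x y : K} (h : ∀ n, co x n = co y n) : x = y :=
  HahnSeries.ext (funext h)

theorem co_zero (n : ℤ) : co 0 n = 0 := rfl

theorem co_add (x y : K) (n : ℤ) : co (x + y) n = co x n + co y n := rfl

theorem co_sub (x y : K) (n : ℤ) : co (x - y) n = co x n - co y n := rfl

/-- The monomials. -/
noncomputable def mono (n : ℤ) (c : F4) : K := HahnSeries.single n c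

open Classical in
theorem co_mono (n : ℤ) (c : F4) (m : ℤ) : co (mono n c) m = if m = n then c else 0 := by
  show (HahnSeries.single n c).coeff m = _
  split_ifs with h
  · rw [h, HahnSeries.coeff_single_same]
  · exact HahnSeries.coeff_single_of_ne h

theorem mono_mul (m n : ℤ) (c d : F4) : mono m c * mono n d = mono (m + n) (c * d) :=
  HahnSeries.single_mul_single

theorem one_eq : (1 : K) = mono 0 1 := rfl

/-- The order of a series. -/
noncomputable def ord (x : K) : ℤ := HahnSeries.order (Γ := ℤ) (R := F4) x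

theorem co_ord_ne {x : K} (hx : x ≠ 0) : co x (ord x) ≠ 0 := fun h =>
  hx (HahnSeries.coeff_order_eq_zero.mp h)

theorem co_eq_zero {x : K} {n : ℤ} (h : n < ord x) : co x n = 0 :=
  HahnSeries.coeff_eq_zero_of_lt_order h

theorem ord_mul {x y : K} (hx : x ≠ 0) (hy : y ≠ 0) : ord (x * y) = ord x + ord y :=
  HahnSeries.order_mul hx hy

open Classical in
/-- The norm of a series. -/
noncomputable def nrm (x : K) : ℝ := if x = 0 then 0 else (2 : ℝ) ^ (-(ord x))

theorem nrm_zero : nrm 0 = 0 := if_pos rfl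

theorem nrm_of_ne {x : K} (h : x ≠ 0) : nrm x = (2 : ℝ) ^ (-(ord x)) := if_neg h

theorem nrm_nonneg (x : K) : 0 ≤ nrm x := by
  by_cases h : x = 0
  · rw [h, nrm_zero]
  · rw [nrm_of_ne h]; positivity

theorem nrm_le_iff (x : K) (m : ℤ) : nrm x ≤ (2 : ℝ) ^ (-m) ↔ ∀ n < m, co x n = 0 := by
  by_cases h : x = 0
  · subst h
    rw [nrm_zero]
    exact ⟨fun _ n _ => rfl, fun _ => by positivity⟩
  · rw [nrm_of_ne h, zpow_le_zpow_iff_right₀ (by norm_num : (1 : ℝ) < 2), neg_le_neg_iff]
    constructor
    · intro h1 n hn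
      exact co_eq_zero (lt_of_lt_of_le hn h1)
    · intro h1
      by_contra hcon
      exact co_ord_ne h (h1 _ (not_le.mp hcon))

theorem nrm_add_le_max (x y : K) : nrm (x + y) ≤ max (nrm x) (nrm y) := by
  by_cases hx : x = 0
  · subst hx
    rw [zero_add]; exact le_max_right _ _
  by_cases hy : y = 0
  · subst hy
    rw [add_zero]; exact le_max_left _ _
  have h1 : max (nrm x) (nrm y) = (2 : ℝ) ^ (-(min (ord x) (ord y))) := by
    rw [nrm_of_ne hx, nrm_of_ne hy]
    rcases le_total (ord x) (ord y) with h | h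
    · rw [min_eq_left h, max_eq_left]
      exact zpow_le_zpow_right₀ (by norm_num) (by omega)
    · rw [min_eq_right h, max_eq_right]
      exact zpow_le_zpow_right₀ (by norm_num) (by omega)
  rw [h1, nrm_le_iff]
  intro n hn
  rw [co_add, co_eq_zero (lt_of_lt_of_le hn (min_le_left _ _)),
    co_eq_zero (lt_of_lt_of_le hn (min_le_right _ _)), add_zero]

/-- The absolute value. -/
noncomputable def av : AbsoluteValue K ℝ where
  toFun := nrm
  map_mul' x y := by
    by_cases hx : x = 0
    · subst hx; rw [zero_mul, nrm_zero, zero_mul]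
    by_cases hy : y = 0
    · subst hy; rw [mul_zero, nrm_zero, mul_zero]
    rw [nrm_of_ne hx, nrm_of_ne hy, nrm_of_ne (mul_ne_zero hx hy), ord_mul hx hy,
      ← zpow_add₀ (by norm_num)]
    congr 1
    ring
  nonneg' := nrm_nonneg
  eq_zero' x := by
    constructor
    · intro h
      by_contra hx
      rw [nrm_of_ne hx] at h
      have : (0 : ℝ) < 2 ^ (-(ord x)) := by positivity
      linarith
    · intro h
      rw [h, nrm_zero]
  add_le' x y := (nrm_add_le_max x y).trans
    (max_le_add_of_nonneg (nrm_nonneg x) (nrm_nonneg y))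

noncomputable instance : NormedField K := AbsoluteValue.toNormedField av

theorem norm_def (x : K) : ‖x‖ = nrm x := rfl

theorem norm_le_iff (x : K) (m : ℤ) : ‖x‖ ≤ (2 : ℝ) ^ (-m) ↔ ∀ n < m, co x n = 0 :=
  nrm_le_iff x m

theorem norm_add_le_max (x y : K) : ‖x + y‖ ≤ max ‖x‖ ‖y‖ := nrm_add_le_max x y

/-! ## Compactness -/

/-- The power series with given coefficients. -/
noncomputable def ps (s : ℕ → F4) : K :=
  HahnSeries.ofSuppBddBelow (fun n : ℤ => if 0 ≤ n then s n.toNat else 0) (by
    refine ⟨0, fun n hn => ?_⟩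
    by_contra hcon
    exact hn (if_neg hcon))

theorem co_ps (s : ℕ → F4) (n : ℤ) : co (ps s) n = if 0 ≤ n then s n.toNat else 0 := rfl

theorem isCompact_unit : IsCompact (Metric.closedBall (0 : K) 1) := by
  letI : TopologicalSpace F4 := ⊥
  haveI : DiscreteTopology F4 := ⟨rfl⟩
  have h1 : Metric.closedBall (0 : K) 1 = range ps := by
    ext x
    have h2 : x ∈ Metric.closedBall (0 : K) 1 ↔ ∀ n < 0, co x n = 0 := by
      rw [mem_closedBall_zero_iff, ← norm_le_iff]
      simp
    rw [h2]
    constructor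
    · intro h
      refine ⟨fun n => co x n, K_ext fun n => ?_⟩
      rw [co_ps]
      split_ifs with hn
      · rw [Int.toNat_of_nonneg hn]
      · exact (h n (not_le.mp hn)).symm
    · rintro ⟨s, rfl⟩ n hn
      rw [co_ps, if_neg (not_le.mpr hn)]
  rw [h1]
  apply isCompact_range
  rw [continuous_iff_continuousAt]
  intro s
  rw [ContinuousAt, Metric.tendsto_nhds]
  intro ε hε
  obtain ⟨N, hN⟩ : ∃ N : ℕ, (2 : ℝ) ^ (-(N : ℤ)) < ε := by
    obtain ⟨N, hN⟩ := exists_pow_lt_of_lt_one hε (by norm_num : (1 / 2 : ℝ) < 1)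
    refine ⟨N, ?_⟩
    rw [zpow_neg, zpow_natCast, ← inv_pow]
    simpa using hN
  have h2 : ∀ᶠ s' in 𝓝 s, ∀ n < N, s' n = s n := by
    refine (Filter.eventually_all_finite (Set.finite_lt_nat N)).mpr fun n _ => ?_
    have h3 : Tendsto (fun s' : ℕ → F4 => s' n) (𝓝 s) (𝓝 (s n)) := (continuous_apply n).tendsto s
    rw [nhds_discrete F4] at h3
    exact tendsto_pure.mp h3
  filter_upwards [h2] with s' hs'
  rw [dist_eq_norm]
  refine lt_of_le_of_lt ?_ hN
  rw [norm_le_iff]
  intro n hn
  rw [co_sub, co_ps, co_ps]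
  split_ifs with h0
  · rw [hs' n.toNat (by omega), sub_self]
  · exact sub_self 0

theorem norm_mono {n : ℤ} {c : F4} (hc : c ≠ 0) : ‖mono n c‖ = (2 : ℝ) ^ (-n) := by
  classical
  have hne : mono n c ≠ 0 := by
    intro h
    have h1 := congrArg (fun x => co x n) h
    simp only [co_mono, if_true, co_zero] at h1
    exact hc h1
  rw [norm_def, nrm_of_ne hne]
  congr 2
  exact HahnSeries.order_single hc

instance : ProperSpace K := by
  refine ⟨fun x r => ?_⟩
  obtain ⟨n, hn⟩ := pow_unbounded_of_one_lt r (by norm_num : (1 : ℝ) < 2)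
  have h1 : IsCompact ((fun z => x + mono (-(n : ℤ)) 1 * z) '' Metric.closedBall (0 : K) 1) :=
    isCompact_unit.image (by fun_prop)
  refine h1.of_isClosed_subset Metric.isClosed_closedBall ?_
  intro y hy
  have hm : mono (n : ℤ) 1 * mono (-(n : ℤ)) 1 = 1 := by
    rw [mono_mul, add_neg_cancel, one_mul]; rfl
  refine ⟨mono (n : ℤ) 1 * (y - x), ?_, ?_⟩
  · rw [mem_closedBall_zero_iff, norm_mul, norm_mono one_ne_zero]
    rw [Metric.mem_closedBall, dist_eq_norm] at hy
    calc (2 : ℝ) ^ (-(n : ℤ)) * ‖y - x‖ ≤ 2 ^ (-(n : ℤ)) * 2 ^ n := by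
          gcongr
          exact hy.trans hn.le
      _ = 1 := by
          rw [zpow_neg, zpow_natCast]
          exact inv_mul_cancel₀ (by positivity)
  · show x + mono (-(n : ℤ)) 1 * (mono (n : ℤ) 1 * (y - x)) = y
    rw [← mul_assoc, mul_comm (mono (-(n : ℤ)) 1), hm, one_mul]
    ring

/-! ## The involution -/

/-- The squaring map of the field with four elements. -/
noncomputable def fr : F4 →+* F4 := frobenius F4 2

theorem fr_apply (a : F4) : fr a = a ^ 2 := rfl

theorem fr_fr (a : F4) : fr (fr a) = a := by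
  rw [fr_apply, fr_apply, ← pow_mul]
  exact pow_four a

/-- The coefficientwise squaring map. -/
noncomputable def sgf (x : K) : K := HahnSeries.map (Γ := ℤ) x fr

theorem co_sgf (x : K) (n : ℤ) : co (sgf x) n = fr (co x n) := HahnSeries.map_coeff x fr n

theorem sgf_sgf (x : K) : sgf (sgf x) = x := K_ext fun n => by rw [co_sgf, co_sgf, fr_fr]

/-- The coefficientwise squaring map as a ring isomorphism. -/
noncomputable def sg : K ≃+* K where
  toFun := sgf
  invFun := sgf
  left_inv := sgf_sgf
  right_inv := sgf_sgf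
  map_add' x y := K_ext fun n => by rw [co_sgf, co_add, map_add, co_add, co_sgf, co_sgf]
  map_mul' x y := HahnSeries.map_mul (fr : F4 →ₙ+* F4) (x := x) (y := y)

theorem sg_apply (x : K) : sg x = sgf x := rfl

theorem sg_sg (x : K) : sg (sg x) = x := sgf_sgf x

theorem co_sg (x : K) (n : ℤ) : co (sg x) n = (co x n) ^ 2 := co_sgf x n

theorem norm_sg (x : K) : ‖sg x‖ = ‖x‖ := by
  have key : ∀ y : K, ‖sg y‖ ≤ ‖y‖ := by
    intro y
    by_cases hy : y = 0
    · rw [hy, map_zero]
    · rw [norm_def y, nrm_of_ne hy, norm_le_iff]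
      intro n hn
      rw [co_sg, co_eq_zero hn]
      exact zero_pow (by norm_num)
  refine le_antisymm (key x) ?_
  have := key (sg x)
  rwa [sg_sg] at this

theorem sg_mono (n : ℤ) (c : F4) : sg (mono n c) = mono n (c ^ 2) := by
  classical
  refine K_ext fun m => ?_
  rw [co_sg, co_mono, co_mono]
  split_ifs
  · rfl
  · exact zero_pow (by norm_num)

/-! ## Squares -/

theorem co_sq_odd (x : K) {n : ℤ} (hn : Odd n) : co (x * x) n = 0 := by
  show HahnSeries.coeff (Γ := ℤ) (R := F4) (x * x) n = 0
  have h0 : HahnSeries.coeff (Γ := ℤ) (R := F4) (x * x) n =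
    ∑ ij ∈ Finset.antidiagonal (HahnSeries.isPWO_support (Γ := ℤ) (R := F4) x)
      (HahnSeries.isPWO_support (Γ := ℤ) (R := F4) x) n, co x ij.1 * co x ij.2 :=
    HahnSeries.coeff_mul (Γ := ℤ) (R := F4) (x := x) (y := x)
  rw [h0]
  refine Finset.sum_involution (fun ij _ => (ij.2, ij.1)) ?_ ?_ ?_ ?_
  · intro ij _
    rw [mul_comm (co x ij.2)]
    exact add_self _
  · intro ij hij _ heq
    rw [Finset.mem_antidiagonal] at hij
    have h1 : ij.2 = ij.1 := congrArg Prod.fst heq
    obtain ⟨k, hk⟩ := hn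
    omega
  · intro ij hij
    rw [Finset.mem_antidiagonal] at hij ⊢
    exact ⟨hij.2.1, hij.1, by rw [add_comm]; exact hij.2.2⟩
  · intro ij _
    rfl

end Pool.Agent.R627.LaurentF4
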