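import Mathlib

/-!
# The metric dual of a normed abelian group
-/

set_option autoImplicit false
set_option linter.style.haveILetI false

namespace Pool.Agent.R627.MetricDual

open Topology

universe u

/-- The continuous characters of a normed abelian group, as a subgroup of all homomorphisms. The
circle group is written additively, as `ℝ/ℤ`; its norm is the distance to the nearest integer. -/
def dualSub (G : Type u) [NormedAddCommGroup G] : AddSubgroup (G →+ UnitAddCircle) where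
  carrier := {χ | Continuous χ}
  zero_mem' := continuous_const
  add_mem' := fun {_ _} hf hg => hf.add hg
  neg_mem' := fun {_} hf => hf.neg

/-- The group `G'` of the continuous characters of a normed abelian group. -/
def MDual (G : Type u) [NormedAddCommGroup G] : Type u := dualSub G

section basic

variable {G : Type u} [NormedAddCommGroup G]

instance : AddCommGroup (MDual G) := inferInstanceAs (AddCommGroup (dualSub G))

/-- The homomorphism underlying a continuous character. -/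
def MDual.hom : MDual G →+ (G →+ UnitAddCircle) := (dualSub G).subtype

theorem MDual.continuous (χ : MDual G) : Continuous χ.hom := χ.2

theorem MDual.ext' {χ ψ : MDual G} (h : ∀ x, χ.hom x = ψ.hom x) : χ = ψ :=
  Subtype.ext (AddMonoidHom.ext h)

/-- The dual norm. -/
noncomputable def dualNorm (χ : MDual G) : ℝ := sInf {M : ℝ | 0 < M ∧ ∀ x, ‖χ.hom x‖ ≤ M * ‖x‖}

theorem circle_norm_le (a : UnitAddCircle) : ‖a‖ ≤ 1 / 2 := by
  have := AddCircle.norm_le_half_period (p := (1 : ℝ)) (x := a) one_ne_zero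
  simpa using this

/-- If the first `n` multiples of `a` are small, the norm of the `n`-th one is `n` times the norm
of `a`. -/
theorem circle_mul (a : UnitAddCircle) (n : ℕ) (h : ∀ k ≤ n, ‖k • a‖ ≤ 1 / 4) :
    n * ‖a‖ = ‖n • a‖ := by
  rcases Nat.eq_zero_or_pos n with rfl | hn
  · simp
  obtain ⟨t, ht, hta⟩ : ∃ t : ℝ, (t : UnitAddCircle) = a ∧ |t| = ‖a‖ := by
    obtain ⟨s, rfl⟩ := QuotientAddGroup.mk_surjective a
    refine ⟨s - round s, ?_, ?_⟩
    · have : ((round s : ℝ) : UnitAddCircle) = 0 := by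
        rw [AddCircle.coe_eq_zero_iff]
        exact ⟨round s, by simp⟩
      rw [AddCircle.coe_sub, this, sub_zero]
    · exact UnitAddCircle.norm_eq.symm
  have h1 : |t| ≤ 1 / 4 := by
    rw [hta]
    simpa using h 1 hn
  have key : ∀ k ≤ n, |(k : ℝ) * t| ≤ 1 / 4 := by
    intro k
    induction k with
    | zero => intro _; simp
    | succ k ih =>
      intro hk
      have h2 := ih (by omega)
      have h3 : |((k + 1 : ℕ) : ℝ) * t| ≤ 1 / 2 := by
        push_cast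
        rw [add_mul, one_mul]
        exact (abs_add_le _ _).trans (by linarith)
      have h4 : ‖((((k + 1 : ℕ) : ℝ) * t : ℝ) : UnitAddCircle)‖ = |((k + 1 : ℕ) : ℝ) * t| := by
        rw [AddCircle.norm_coe_eq_abs_iff 1 one_ne_zero]
        simpa using h3
      have h5 : ((((k + 1 : ℕ) : ℝ) * t : ℝ) : UnitAddCircle) = (k + 1) • a := by
        rw [← nsmul_eq_mul, AddCircle.coe_nsmul, ht]
      rw [← h4, h5]
      exact h (k + 1) hk
  have h6 := key n le_rfl
  have h4 : ‖(((n : ℝ) * t : ℝ) : UnitAddCircle)‖ = |(n : ℝ) * t| := by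
    rw [AddCircle.norm_coe_eq_abs_iff 1 one_ne_zero]
    rw [abs_one]
    linarith
  have h5 : (((n : ℝ) * t : ℝ) : UnitAddCircle) = n • a := by
    rw [← nsmul_eq_mul, AddCircle.coe_nsmul, ht]
  rw [← h5, h4, abs_mul, Nat.abs_cast, hta]

/-- The key estimate. -/
theorem key_estimate (χ : G →+ UnitAddCircle) {R : ℝ} (hR : 0 < R)
    (h : ∀ x, ‖x‖ ≤ R → ‖χ x‖ ≤ 1 / 4) (x : G) : ‖χ x‖ ≤ (1 / (2 * R)) * ‖x‖ := by
  rcases le_or_gt ‖x‖ R with hx | hx
  · rcases eq_or_ne x 0 with rfl | hx0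
    · simp
    have hx' : 0 < ‖x‖ := norm_pos_iff.mpr hx0
    set n : ℕ := ⌊R / ‖x‖⌋₊ with hn
    have h1 : 1 ≤ R / ‖x‖ := (one_le_div hx').mpr hx
    have hn1 : 1 ≤ n := (Nat.one_le_floor_iff _).mpr h1
    have h2 : (n : ℝ) ≤ R / ‖x‖ := Nat.floor_le (by linarith)
    have h3 : R / ‖x‖ < n + 1 := Nat.lt_floor_add_one _
    have hn1' : (1 : ℝ) ≤ n := by exact_mod_cast hn1
    have h4 : ∀ k ≤ n, ‖k • χ x‖ ≤ 1 / 4 := by
      intro k hk
      rw [← map_nsmul]
      apply h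
      calc ‖k • x‖ ≤ k * ‖x‖ := norm_nsmul_le
        _ ≤ (R / ‖x‖) * ‖x‖ := by
          apply mul_le_mul_of_nonneg_right _ hx'.le
          exact le_trans (by exact_mod_cast hk) h2
        _ = R := div_mul_cancel₀ _ hx'.ne'
    have h5 := circle_mul (χ x) n h4
    have h6 := h4 n le_rfl
    rw [← h5] at h6
    -- `‖χ x‖ ≤ 1 / (4 n)`, `n ≥ R / (2 ‖x‖)`
    have h7 : R ≤ 2 * n * ‖x‖ := by
      rw [div_lt_iff₀ hx'] at h3
      nlinarith
    rw [div_mul_eq_mul_div, one_mul, le_div_iff₀ (by positivity)]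
    have h8 : 0 ≤ ‖χ x‖ := norm_nonneg _
    calc ‖χ x‖ * (2 * R) ≤ ‖χ x‖ * (2 * (2 * n * ‖x‖)) := by gcongr
      _ = 4 * (n * ‖χ x‖) * ‖x‖ := by ring
      _ ≤ 4 * (1 / 4) * ‖x‖ := by gcongr
      _ = ‖x‖ := by ring
  · have h1 := circle_norm_le (χ x)
    rw [div_mul_eq_mul_div, one_mul, le_div_iff₀ (by positivity)]
    nlinarith

theorem exists_bound (χ : MDual G) : ∃ M : ℝ, 0 < M ∧ ∀ x, ‖χ.hom x‖ ≤ M * ‖x‖ := by
  have h1 := χ.continuous.tendsto 0
  rw [map_zero] at h1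
  have h2 := h1 (Metric.closedBall_mem_nhds (0 : UnitAddCircle) (ε := 1 / 4) (by norm_num))
  obtain ⟨δ, hδ, hδ'⟩ := Metric.mem_nhds_iff.mp h2
  refine ⟨1 / (2 * (δ / 2)), by positivity, ?_⟩
  apply key_estimate _ (by positivity)
  intro x hx
  have h3 : x ∈ Metric.ball (0 : G) δ := by
    rw [mem_ball_zero_iff]; linarith
  have h4 := hδ' h3
  simpa using h4

theorem dualNorm_nonneg (χ : MDual G) : 0 ≤ dualNorm χ :=
  Real.sInf_nonneg (fun _ hM => hM.1.le)

theorem le_dualNorm (χ : MDual G) (x : G) : ‖χ.hom x‖ ≤ dualNorm χ * ‖x‖ := by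
  rcases eq_or_ne x 0 with rfl | hx
  · simp
  have hx' : 0 < ‖x‖ := norm_pos_iff.mpr hx
  rw [← div_le_iff₀ hx']
  apply le_csInf (exists_bound χ)
  intro M hM
  rw [div_le_iff₀ hx']
  exact hM.2 x

theorem dualNorm_le (χ : MDual G) {M : ℝ} (hM : 0 ≤ M) (h : ∀ x, ‖χ.hom x‖ ≤ M * ‖x‖) :
    dualNorm χ ≤ M := by
  apply le_of_forall_pos_le_add
  intro ε hε
  apply csInf_le ⟨0, fun _ hM => hM.1.le⟩
  refine ⟨by linarith, fun x => (h x).trans ?_⟩
  apply mul_le_mul_of_nonneg_right (by linarith) (norm_nonneg _)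

/-- The dual norm makes `G'` a normed abelian group. -/
noncomputable instance : NormedAddCommGroup (MDual G) :=
  AddGroupNorm.toNormedAddCommGroup
    { toFun := dualNorm
      map_zero' := by
        apply le_antisymm _ (dualNorm_nonneg _)
        apply dualNorm_le _ le_rfl
        intro x
        rw [map_zero, AddMonoidHom.zero_apply]
        simp
      add_le' := by
        intro χ ψ
        apply dualNorm_le _ (add_nonneg (dualNorm_nonneg _) (dualNorm_nonneg _))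
        intro x
        rw [map_add, AddMonoidHom.add_apply, add_mul]
        exact (norm_add_le _ _).trans (add_le_add (le_dualNorm χ x) (le_dualNorm ψ x))
      neg' := by
        intro χ
        unfold dualNorm
        congr 1
        ext M
        simp only [map_neg, AddMonoidHom.neg_apply, norm_neg]
      eq_zero_of_map_eq_zero' := by
        intro χ hχ
        apply MDual.ext'
        intro x
        have := le_dualNorm χ x
        rw [hχ, zero_mul] at this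
        rw [map_zero, AddMonoidHom.zero_apply]
        exact norm_le_zero_iff.mp this }

theorem norm_def (χ : MDual G) : ‖χ‖ = sInf {M : ℝ | 0 < M ∧ ∀ x, ‖χ.hom x‖ ≤ M * ‖x‖} := rfl

theorem norm_apply_le (χ : MDual G) (x : G) : ‖χ.hom x‖ ≤ ‖χ‖ * ‖x‖ := le_dualNorm χ x

theorem norm_le_of (χ : MDual G) {M : ℝ} (hM : 0 ≤ M) (h : ∀ x, ‖χ.hom x‖ ≤ M * ‖x‖) :
    ‖χ‖ ≤ M := dualNorm_le χ hM h

/-- A homomorphism with a linear bound is a continuous character. -/
def mkDual (f : G →+ UnitAddCircle) (M : ℝ) (h : ∀ x, ‖f x‖ ≤ M * ‖x‖) : MDual G :=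
  ⟨f, (AddMonoidHomClass.continuous_of_bound f M h)⟩

theorem mkDual_hom (f : G →+ UnitAddCircle) (M : ℝ) (h : ∀ x, ‖f x‖ ≤ M * ‖x‖) :
    (mkDual f M h).hom = f := rfl

end basic

section sep

variable {G : Type u} [NormedAddCommGroup G]

/-- The characters of norm at most `R` on `G'`, as functions. -/
def ball (G : Type u) [NormedAddCommGroup G] (R : ℝ) : Set (MDual G → UnitAddCircle) :=
  {ξ | (∀ χ ψ, ξ (χ + ψ) = ξ χ + ξ ψ) ∧ ∀ χ, ‖ξ χ‖ ≤ R * ‖χ‖}

theorem isCompact_ball (R : ℝ) : IsCompact (ball G R) := by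
  apply IsClosed.isCompact
  have h1 : IsClosed {ξ : MDual G → UnitAddCircle | ∀ χ ψ, ξ (χ + ψ) = ξ χ + ξ ψ} := by
    simp only [Set.ofPred_forall]
    refine isClosed_iInter fun χ => isClosed_iInter fun ψ => ?_
    exact isClosed_eq (continuous_apply _) ((continuous_apply χ).add (continuous_apply ψ))
  have h2 : IsClosed {ξ : MDual G → UnitAddCircle | ∀ χ, ‖ξ χ‖ ≤ R * ‖χ‖} := by
    simp only [Set.ofPred_forall]
    refine isClosed_iInter fun χ => ?_
    exact isClosed_le ((continuous_apply χ).norm) continuous_const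
  exact h1.inter h2

/-- The element of the bidual given by an element of `ball`. -/
noncomputable def ofBall {R : ℝ} (ξ : MDual G → UnitAddCircle) (h : ξ ∈ ball G R) : MDual (MDual G) :=
  mkDual (AddMonoidHom.mk' ξ h.1) R h.2

theorem ofBall_apply {R : ℝ} (ξ : MDual G → UnitAddCircle) (h : ξ ∈ ball G R) (χ : MDual G) :
    (ofBall ξ h).hom χ = ξ χ := rfl

/-- Evaluations belong to `ball`. -/
theorem eval_mem {R : ℝ} {x : G} (hx : ‖x‖ ≤ R) : (fun χ : MDual G => χ.hom x) ∈ ball G R := by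
  constructor
  · intro χ ψ
    simp only [map_add, AddMonoidHom.add_apply]
  · intro χ
    refine (norm_apply_le χ x).trans ?_
    rw [mul_comm]
    exact mul_le_mul_of_nonneg_right hx (norm_nonneg _)

/-- A dense subset of the bidual yields a small family of characters which separates the points
of the bidual. -/
theorem exists_separating (T : Set (MDual (MDual G))) (hT : Dense T) :
    ∃ q : T × T × ℕ → MDual G, ∀ ξ η : MDual (MDual G), ξ ≠ η → ∃ i, ξ.hom (q i) ≠ η.hom (q i) := by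
  classical
  let P : T × T × ℕ → MDual G → Prop := fun i χ =>
    ∀ ξ ∈ Metric.ball i.1.1 (1 / ((i.2.2 : ℝ) + 1)), ∀ η ∈ Metric.ball i.2.1.1 (1 / ((i.2.2 : ℝ) + 1)),
      ξ.hom χ ≠ η.hom χ
  let Q : T × T × ℕ → MDual G := fun i => if h : ∃ χ, P i χ then h.choose else 0
  refine ⟨Q, ?_⟩
  intro ξ η hne
  obtain ⟨χ, hχ⟩ : ∃ χ, ξ.hom χ ≠ η.hom χ := by
    by_contra h
    push Not at h
    exact hne (MDual.ext' h)
  set δ : ℝ := ‖ξ.hom χ - η.hom χ‖ with hδ
  have hδ0 : 0 < δ := norm_pos_iff.mpr (sub_ne_zero.mpr hχ)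
  obtain ⟨n, hn⟩ := exists_nat_gt (4 * (‖χ‖ + 1) / δ)
  have hn1 : (0 : ℝ) < (n : ℝ) + 1 := by positivity
  have hε : (0 : ℝ) < 1 / ((n : ℝ) + 1) := by positivity
  have hlt : 4 * (1 / ((n : ℝ) + 1)) * ‖χ‖ < δ := by
    rw [div_lt_iff₀ hδ0] at hn
    rw [mul_one_div, div_mul_eq_mul_div, div_lt_iff₀ hn1]
    nlinarith [norm_nonneg χ]
  obtain ⟨d, hdT, hd⟩ := hT.exists_dist_lt ξ hε
  obtain ⟨e, heT, he⟩ := hT.exists_dist_lt η hε
  let i : T × T × ℕ := (⟨d, hdT⟩, ⟨e, heT⟩, n)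
  have hP : P i χ := by
    intro ξ' hξ' η' hη' heq
    have h1 : ‖ξ - ξ'‖ ≤ 2 * (1 / ((n : ℝ) + 1)) := by
      rw [← dist_eq_norm]
      have := dist_triangle_right ξ ξ' d
      have h2 : dist ξ' d < 1 / ((n : ℝ) + 1) := hξ'
      linarith
    have h2 : ‖η - η'‖ ≤ 2 * (1 / ((n : ℝ) + 1)) := by
      rw [← dist_eq_norm]
      have := dist_triangle_right η η' e
      have h2 : dist η' e < 1 / ((n : ℝ) + 1) := hη'
      linarith
    have h3 : ‖ξ.hom χ - ξ'.hom χ‖ ≤ 2 * (1 / ((n : ℝ) + 1)) * ‖χ‖ := by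
      have h4 := norm_apply_le (ξ - ξ') χ
      rw [map_sub, AddMonoidHom.sub_apply] at h4
      exact h4.trans (mul_le_mul_of_nonneg_right h1 (norm_nonneg _))
    have h4 : ‖η.hom χ - η'.hom χ‖ ≤ 2 * (1 / ((n : ℝ) + 1)) * ‖χ‖ := by
      have h4 := norm_apply_le (η - η') χ
      rw [map_sub, AddMonoidHom.sub_apply] at h4
      exact h4.trans (mul_le_mul_of_nonneg_right h2 (norm_nonneg _))
    have h5 : δ ≤ ‖ξ.hom χ - ξ'.hom χ‖ + ‖η.hom χ - η'.hom χ‖ := by
      rw [hδ]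
      have : ξ.hom χ - η.hom χ = (ξ.hom χ - ξ'.hom χ) - (η.hom χ - η'.hom χ) := by
        rw [heq]; abel
      rw [this]
      exact norm_sub_le _ _
    linarith
  have hex : ∃ χ, P i χ := ⟨χ, hP⟩
  refine ⟨i, ?_⟩
  have hq : Q i = hex.choose := dif_pos hex
  rw [hq]
  exact hex.choose_spec ξ hd η he

/-- Equicontinuity of a character on the ball of the bidual, with respect to a separating
family. -/
theorem exists_finset {ι : Type u} (q : ι → MDual G)
    (hq : ∀ ξ η : MDual (MDual G), ξ ≠ η → ∃ i, ξ.hom (q i) ≠ η.hom (q i)) (R : ℝ)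
    (χ : MDual G) : ∃ F : Finset ι, ∃ n : ℕ, ∀ ξ ∈ ball G R, ∀ η ∈ ball G R,
      (∀ i ∈ F, ‖ξ (q i) - η (q i)‖ ≤ 1 / ((n : ℝ) + 1)) → ‖ξ χ - η χ‖ < 1 / 16 := by
  classical
  let Z : Set ((MDual G → UnitAddCircle) × (MDual G → UnitAddCircle)) :=
    (ball G R ×ˢ ball G R) ∩ {t | 1 / 16 ≤ ‖t.1 χ - t.2 χ‖}
  have hZ : IsCompact Z := by
    apply ((isCompact_ball R).prod (isCompact_ball R)).inter_right
    apply isClosed_le continuous_const
    exact (((continuous_apply χ).comp continuous_fst).sub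
      ((continuous_apply χ).comp continuous_snd)).norm
  let U : ι × ℕ → Set ((MDual G → UnitAddCircle) × (MDual G → UnitAddCircle)) := fun i =>
    {t | 1 / ((i.2 : ℝ) + 1) < ‖t.1 (q i.1) - t.2 (q i.1)‖}
  have hU : ∀ i, IsOpen (U i) := by
    intro i
    apply isOpen_lt continuous_const
    exact (((continuous_apply (q i.1)).comp continuous_fst).sub
      ((continuous_apply (q i.1)).comp continuous_snd)).norm
  have hcov : Z ⊆ ⋃ i, U i := by
    rintro ⟨ξ, η⟩ ⟨⟨hξ, hη⟩, hd⟩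
    have hne : ofBall ξ hξ ≠ ofBall η hη := by
      intro h
      have h1 : ξ χ = η χ := congrArg (fun ζ : MDual (MDual G) => ζ.hom χ) h
      have h2 : (1 : ℝ) / 16 ≤ ‖ξ χ - η χ‖ := hd
      rw [h1, sub_self, norm_zero] at h2
      norm_num at h2
    obtain ⟨i, hi⟩ := hq _ _ hne
    rw [ofBall_apply, ofBall_apply] at hi
    have h3 : 0 < ‖ξ (q i) - η (q i)‖ := norm_pos_iff.mpr (sub_ne_zero.mpr hi)
    obtain ⟨n, hn⟩ := exists_nat_one_div_lt h3
    exact Set.mem_iUnion.mpr ⟨(i, n), hn⟩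
  obtain ⟨F, hF⟩ := hZ.elim_finite_subcover U hU hcov
  refine ⟨F.image Prod.fst, F.sup Prod.snd, ?_⟩
  intro ξ hξ η hη h
  by_contra hcon
  push Not at hcon
  have hmem : (ξ, η) ∈ Z := ⟨⟨hξ, hη⟩, hcon⟩
  obtain ⟨i, hi, hi2⟩ := Set.mem_iUnion₂.mp (hF hmem)
  have h1 := h i.1 (Finset.mem_image_of_mem _ hi)
  have h2 : i.2 ≤ F.sup Prod.snd := Finset.le_sup (f := Prod.snd) hi
  have h3 : 1 / (((F.sup Prod.snd : ℕ) : ℝ) + 1) ≤ 1 / ((i.2 : ℝ) + 1) := by
    apply one_div_le_one_div_of_le (by positivity)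
    have : (i.2 : ℝ) ≤ ((F.sup Prod.snd : ℕ) : ℝ) := by exact_mod_cast h2
    linarith
  have h4 : 1 / ((i.2 : ℝ) + 1) < ‖ξ (q i.1) - η (q i.1)‖ := hi2
  linarith

/-- Finite sets of representatives. -/
theorem exists_reps {X J : Type*} [Fintype J] (A : Set X) (g : X → J → UnitAddCircle) {ε : ℝ}
    (hε : 0 < ε) : ∃ T : Set X, T.Finite ∧ T ⊆ A ∧ ∀ a ∈ A, ∃ t ∈ T, ∀ j, ‖g a j - g t j‖ < ε := by
  classical
  have h1 : TotallyBounded (g '' A) :=
    (isCompact_univ (X := J → UnitAddCircle)).totallyBounded.subset (Set.subset_univ _)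
  obtain ⟨t, htA, htf, hcov⟩ := Metric.finite_approx_of_totallyBounded h1 ε hε
  have h2 : ∀ y ∈ t, ∃ x, x ∈ A ∧ g x = y := fun y hy => htA hy
  choose c hc1 hc2 using h2
  haveI : Finite t := htf
  refine ⟨Set.range fun y : t => c y.1 y.2, Set.finite_range _, ?_, ?_⟩
  · rintro _ ⟨y, rfl⟩
    exact hc1 y.1 y.2
  · intro a ha
    obtain ⟨y, hy, hay⟩ := Set.mem_iUnion₂.mp (hcov ⟨a, ha, rfl⟩)
    refine ⟨c y hy, ⟨⟨y, hy⟩, rfl⟩, fun j => ?_⟩
    rw [hc2 y hy]
    have h3 := (dist_pi_lt_iff hε).mp hay j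
    rwa [dist_eq_norm] at h3

/-- The characters with the given modulus of continuity are close to finitely many ones. -/
theorem exists_finite {ι : Type u} (q : ι → MDual G) (R : ℝ) (hR : 0 < R) (F : Finset ι) (n : ℕ) :
    ∃ T : Set (MDual G), T.Finite ∧ ∀ χ : MDual G, (∀ ξ ∈ ball G R, ∀ η ∈ ball G R,
      (∀ i ∈ F, ‖ξ (q i) - η (q i)‖ ≤ 1 / ((n : ℝ) + 1)) → ‖ξ χ - η χ‖ < 1 / 16) →
      ∃ ψ ∈ T, ‖χ - ψ‖ ≤ 1 / (2 * R) := by
  classical
  obtain ⟨E, hEf, hEb, hE⟩ := exists_reps (J := F) (ball G R)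
    (fun ξ i => ξ (q i)) (ε := 1 / ((n : ℝ) + 1)) (by positivity)
  haveI : Fintype E := hEf.fintype
  let A : Set (MDual G) := {χ | ∀ ξ ∈ ball G R, ∀ η ∈ ball G R,
      (∀ i ∈ F, ‖ξ (q i) - η (q i)‖ ≤ 1 / ((n : ℝ) + 1)) → ‖ξ χ - η χ‖ < 1 / 16}
  obtain ⟨T, hTf, hTA, hT⟩ := exists_reps (J := E) A (fun χ e => e.1 χ) (ε := 1 / 16) (by norm_num)
  refine ⟨T, hTf, fun χ hχ => ?_⟩
  obtain ⟨ψ, hψ, hcl⟩ := hT χ hχ
  refine ⟨ψ, hψ, ?_⟩
  apply norm_le_of _ (by positivity)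
  apply key_estimate _ hR
  intro x hx
  have hxb := eval_mem (R := R) hx
  obtain ⟨e, he, hec⟩ := hE _ hxb
  have h1 := hχ _ hxb e (hEb he) (fun i hi => (hec ⟨i, hi⟩).le)
  have h2 := hTA hψ _ hxb e (hEb he) (fun i hi => (hec ⟨i, hi⟩).le)
  have h3 := hcl ⟨e, he⟩
  have h4 : (χ - ψ).hom x = (χ.hom x - e χ) + (e χ - e ψ) - (ψ.hom x - e ψ) := by
    rw [map_sub, AddMonoidHom.sub_apply]; abel
  rw [h4]
  calc ‖χ.hom x - e χ + (e χ - e ψ) - (ψ.hom x - e ψ)‖
      ≤ ‖χ.hom x - e χ + (e χ - e ψ)‖ + ‖ψ.hom x - e ψ‖ := norm_sub_le _ _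
    _ ≤ ‖χ.hom x - e χ‖ + ‖e χ - e ψ‖ + ‖ψ.hom x - e ψ‖ := by gcongr; exact norm_add_le _ _
    _ ≤ 1 / 16 + 1 / 16 + 1 / 16 := by gcongr
    _ ≤ 1 / 4 := by norm_num

open Cardinal in
/-- The main lemma: density of the dual from the density of the bidual. -/
theorem exists_dense (T : Set (MDual (MDual G))) (hT : Dense T) :
    ∃ S : Set (MDual G), Dense S ∧ #S ≤ max #T ℵ₀ := by
  obtain ⟨q, hq⟩ := exists_separating T hT
  have h1 := fun (m : ℕ) (F : Finset (T × T × ℕ)) (n : ℕ) =>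
    exists_finite q ((m : ℝ) + 1) (by positivity) F n
  choose S hSf hS using h1
  refine ⟨⋃ (i : ℕ × Finset (T × T × ℕ) × ℕ), S i.1 i.2.1 i.2.2, ?_, ?_⟩
  · rw [Metric.dense_iff]
    intro χ r hr
    obtain ⟨m, hm⟩ := exists_nat_one_div_lt hr
    obtain ⟨F, n, hF⟩ := exists_finset q hq ((m : ℝ) + 1) χ
    obtain ⟨ψ, hψ, hd⟩ := hS m F n χ hF
    refine ⟨ψ, ?_, Set.mem_iUnion.mpr ⟨(m, F, n), hψ⟩⟩
    rw [Metric.mem_ball, dist_comm, dist_eq_norm]
    refine lt_of_le_of_lt hd (lt_of_le_of_lt ?_ hm)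
    apply one_div_le_one_div_of_le (by positivity)
    have : (0 : ℝ) ≤ m := Nat.cast_nonneg m
    linarith
  · refine (Cardinal.mk_iUnion_le _).trans ?_
    have h0 : ℵ₀ ≤ max #T ℵ₀ := le_max_right _ _
    have h2 : #(T × T × ℕ) ≤ max #T ℵ₀ := by
      have e1 : #(T × T × ℕ) = #T * (#T * ℵ₀) := by simp
      rw [e1]
      calc #T * (#T * ℵ₀) ≤ max #T ℵ₀ * (max #T ℵ₀ * max #T ℵ₀) :=
            mul_le_mul' (le_max_left _ _) (mul_le_mul' (le_max_left _ _) h0)
        _ = max #T ℵ₀ := by rw [Cardinal.mul_eq_self h0, Cardinal.mul_eq_self h0]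
    have h3 : #(Finset (T × T × ℕ)) ≤ max #T ℵ₀ := by
      rcases finite_or_infinite (T × T × ℕ) with hfin | hinf
      · exact (Cardinal.lt_aleph0_of_finite _).le.trans h0
      · rw [Cardinal.mk_finset_of_infinite]
        exact h2
    have h4 : #(ℕ × Finset (T × T × ℕ) × ℕ) ≤ max #T ℵ₀ := by
      have e1 : #(ℕ × Finset (T × T × ℕ) × ℕ) = ℵ₀ * (#(Finset (T × T × ℕ)) * ℵ₀) := by simp
      rw [e1]
      calc ℵ₀ * (#(Finset (T × T × ℕ)) * ℵ₀) ≤ max #T ℵ₀ * (max #T ℵ₀ * max #T ℵ₀) :=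
            mul_le_mul' h0 (mul_le_mul' h3 h0)
        _ = max #T ℵ₀ := by rw [Cardinal.mul_eq_self h0, Cardinal.mul_eq_self h0]
    have h5 : (⨆ i : ℕ × Finset (T × T × ℕ) × ℕ, #(S i.1 i.2.1 i.2.2)) ≤ max #T ℵ₀ := by
      apply ciSup_le'
      intro i
      exact ((hSf i.1 i.2.1 i.2.2).lt_aleph0.le).trans h0
    calc _ ≤ max #T ℵ₀ * max #T ℵ₀ := mul_le_mul' h4 h5
      _ = max #T ℵ₀ := Cardinal.mul_eq_self h0

end sep

end Pool.Agent.R627.MetricDual
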