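import Mathlib

/-!
# Restricted products of finite symplectic groups
-/

set_option autoImplicit false
set_option linter.style.haveILetI false
set_option linter.unusedSectionVars false

namespace Pool.Agent.R627.SympRestr

open Topology Filter Set

/-- A family of finite groups with a perfect alternating form and a Lagrangian subgroup. -/
structure Sys (ι : Type) where
  K : ι → Type
  grp : ∀ i, AddCommGroup (K i)
  fin : ∀ i, Finite (K i)
  L : ∀ i, AddSubgroup (K i)
  B : ∀ i, K i → K i → UnitAddCircle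
  add_left : ∀ i x y z, B i (x + y) z = B i x z + B i y z
  add_right : ∀ i x y z, B i x (y + z) = B i x y + B i x z
  self : ∀ i x, B i x x = 0
  perp : ∀ i x, x ∈ L i ↔ ∀ y ∈ L i, B i x y = 0
  perfect : ∀ i (χ : K i →+ UnitAddCircle), ∃ z, ∀ y, χ y = B i z y
  nondeg : ∀ i x, (∀ y, B i x y = 0) → x = 0
  n : ι → ℕ
  half : ∀ i x y, n i • B i x y + n i • B i x y = B i x y

attribute [instance] Sys.grp Sys.fin

variable {ι : Type} (S : Sys ι)

theorem B_zero_left (i : ι) (y : S.K i) : S.B i 0 y = 0 := by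
  have := S.add_left i 0 0 y
  rw [add_zero] at this
  exact left_eq_add.mp this

theorem B_zero_right (i : ι) (y : S.K i) : S.B i y 0 = 0 := by
  have := S.add_right i y 0 0
  rw [add_zero] at this
  exact left_eq_add.mp this

theorem B_comm (i : ι) (x y : S.K i) : S.B i x y = -S.B i y x := by
  have h := S.self i (x + y)
  rw [S.add_left, S.add_right, S.add_right, S.self, S.self, zero_add, add_zero] at h
  exact eq_neg_of_add_eq_zero_left h

/-- The restricted product as a subgroup of the product. -/
def RR : AddSubgroup (∀ i, S.K i) where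
  carrier := {x | ∀ᶠ i in cofinite, x i ∈ S.L i}
  zero_mem' := by
    show ∀ᶠ i in cofinite, (0 : ∀ i, S.K i) i ∈ S.L i
    exact Filter.Eventually.of_forall fun i => (S.L i).zero_mem
  add_mem' := by
    intro x y hx hy
    have hx' : ∀ᶠ i in cofinite, x i ∈ S.L i := hx
    have hy' : ∀ᶠ i in cofinite, y i ∈ S.L i := hy
    show ∀ᶠ i in cofinite, (x + y) i ∈ S.L i
    filter_upwards [hx', hy'] with i h1 h2
    exact (S.L i).add_mem h1 h2
  neg_mem' := by
    intro x hx
    have hx' : ∀ᶠ i in cofinite, x i ∈ S.L i := hx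
    show ∀ᶠ i in cofinite, (-x) i ∈ S.L i
    filter_upwards [hx'] with i h1
    exact (S.L i).neg_mem h1

/-- The restricted product. -/
def R : Type := RR S

instance : AddCommGroup (R S) := inferInstanceAs (AddCommGroup (RR S))

/-- The coordinates. -/
def co (i : ι) : R S →+ S.K i where
  toFun x := x.1 i
  map_zero' := rfl
  map_add' _ _ := rfl

variable {S}

theorem R_ext {x y : R S} (h : ∀ i, co S i x = co S i y) : x = y := Subtype.ext (funext h)

theorem co_mem (x : R S) : ∀ᶠ i in cofinite, co S i x ∈ S.L i := x.2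

/-- The set of bad indices. -/
noncomputable def bad (x : R S) : Finset ι := (show {i | ¬ co S i x ∈ S.L i}.Finite from x.2).toFinset

theorem mem_of_notMem_bad {x : R S} {i : ι} (h : i ∉ bad x) : co S i x ∈ S.L i := by
  rw [bad, Set.Finite.mem_toFinset] at h
  exact not_not.mp h

/-! ## The topology -/

/-- The topology of the coordinates. -/
@[reducible] def top1 (S : Sys ι) : TopologicalSpace (R S) := ⨅ i, TopologicalSpace.induced (co S i) ⊥

/-- The topology of the quotient. -/
@[reducible] def top2 (S : Sys ι) : TopologicalSpace (R S) := TopologicalSpace.induced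
  (fun x : R S => fun i => (QuotientAddGroup.mk (co S i x) : S.K i ⧸ S.L i)) ⊥

instance : TopologicalSpace (R S) := top1 S ⊓ top2 S

theorem discrete_group (X : Type*) [AddCommGroup X] : @IsTopologicalAddGroup X ⊥ _ := by
  letI : TopologicalSpace X := ⊥
  haveI : DiscreteTopology X := ⟨rfl⟩
  infer_instance

/-- The map to the product of the quotients. -/
def qm (S : Sys ι) : R S →+ (∀ i, S.K i ⧸ S.L i) where
  toFun x := fun i => (QuotientAddGroup.mk (co S i x) : S.K i ⧸ S.L i)
  map_zero' := rfl
  map_add' _ _ := rfl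

theorem top1_group (S : Sys ι) : @IsTopologicalAddGroup (R S) (top1 S) _ := by
  apply topologicalAddGroup_iInf
  intro i
  letI : TopologicalSpace (S.K i) := ⊥
  haveI := discrete_group (S.K i)
  exact topologicalAddGroup_induced (co S i)

theorem top2_group (S : Sys ι) : @IsTopologicalAddGroup (R S) (top2 S) _ := by
  letI : TopologicalSpace (∀ i, S.K i ⧸ S.L i) := ⊥
  haveI := discrete_group (∀ i, S.K i ⧸ S.L i)
  exact topologicalAddGroup_induced (qm S)

instance : IsTopologicalAddGroup (R S) := topologicalAddGroup_inf (top1_group S) (top2_group S)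

theorem hasBasis (x₀ : R S) : (𝓝 x₀).HasBasis (fun F : Set ι => F.Finite)
    (fun F => {x | (∀ i, co S i x - co S i x₀ ∈ S.L i) ∧ ∀ i ∈ F, co S i x = co S i x₀}) := by
  have h1 : 𝓝 x₀ = (⨅ i, 𝓟 {x | co S i x = co S i x₀}) ⊓
      𝓟 {x | ∀ i, co S i x - co S i x₀ ∈ S.L i} := by
    refine Eq.trans (@nhds_inf (R S) (top1 S) (top2 S) x₀) ?_
    congr 1
    · rw [top1, nhds_iInf]
      congr 1
      funext i
      letI : TopologicalSpace (S.K i) := ⊥
      haveI : DiscreteTopology (S.K i) := ⟨rfl⟩
      rw [nhds_induced, nhds_discrete (S.K i), ← Filter.principal_singleton,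
        Filter.comap_principal]
      rfl
    · letI : TopologicalSpace (∀ i, S.K i ⧸ S.L i) := ⊥
      haveI : DiscreteTopology (∀ i, S.K i ⧸ S.L i) := ⟨rfl⟩
      rw [top2, nhds_induced, nhds_discrete (∀ i, S.K i ⧸ S.L i), ← Filter.principal_singleton,
        Filter.comap_principal]
      congr 1
      ext x
      simp only [mem_preimage, mem_singleton_iff, mem_ofPred_eq]
      constructor
      · intro h i
        have h2 : (QuotientAddGroup.mk (co S i x) : S.K i ⧸ S.L i) =
          QuotientAddGroup.mk (co S i x₀) := congrFun h i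
        have h3 := QuotientAddGroup.eq.mp h2.symm
        rwa [neg_add_eq_sub] at h3
      · intro h
        funext i
        have h3 := h i
        rw [← neg_add_eq_sub] at h3
        exact (QuotientAddGroup.eq.mpr h3).symm
  rw [h1]
  refine ((Filter.hasBasis_iInf_principal_finite _).inf_principal _).congr ?_ ?_
  · intro F; rfl
  · intro F _
    ext x
    simp only [mem_inter_iff, mem_iInter, mem_ofPred_eq]
    exact and_comm

theorem eventually_near (x₀ : R S) (F : Finset ι) :
    ∀ᶠ x in 𝓝 x₀, (∀ i, co S i x - co S i x₀ ∈ S.L i) ∧ ∀ i ∈ F, co S i x = co S i x₀ :=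
  (hasBasis x₀).mem_of_mem (F.finite_toSet)

instance : T2Space (R S) := by
  letI : ∀ i, TopologicalSpace (S.K i) := fun i => ⊥
  haveI : ∀ i, DiscreteTopology (S.K i) := fun i => ⟨rfl⟩
  refine T2Space.of_injective_continuous (f := fun x : R S => fun i => co S i x)
    (fun x y h => R_ext fun i => congrFun h i) ?_
  refine continuous_pi fun i => ?_
  rw [continuous_iff_continuousAt]
  intro x₀
  refine (tendsto_const_nhds (x := co S i x₀)).congr' ?_
  filter_upwards [eventually_near x₀ {i}] with x hx
  exact (hx.2 i (Finset.mem_singleton_self i)).symm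

/-- The compact sets of elements that are integral outside a finite set. -/
def C (F : Finset ι) : Set (R S) := {x | ∀ i, i ∉ F → co S i x ∈ S.L i}

theorem isCompact_C (F : Finset ι) : IsCompact (C F : Set (R S)) := by
  classical
  letI : ∀ i, TopologicalSpace (S.K i) := fun i => ⊥
  haveI : ∀ i, DiscreteTopology (S.K i) := fun i => ⟨rfl⟩
  let T : ι → Type := fun i => {k : S.K i // i ∉ F → k ∈ S.L i}
  have hmem : ∀ y : (∀ i, T i), (fun i => (y i).1) ∈ RR S := by
    intro y
    show ∀ᶠ i in cofinite, (y i).1 ∈ S.L i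
    refine F.finite_toSet.subset fun i hi => ?_
    by_contra h
    exact hi ((y i).2 h)
  let f : (∀ i, T i) → R S := fun y => ⟨fun i => (y i).1, hmem y⟩
  have hco : ∀ y i, co S i (f y) = (y i).1 := fun y i => rfl
  have hf : Continuous f := by
    rw [continuous_iff_continuousAt]
    intro y₀
    refine (hasBasis (f y₀)).tendsto_right_iff.mpr fun F' hF' => ?_
    have h1 : ∀ i, ∀ᶠ y in 𝓝 y₀, y i = y₀ i := by
      intro i
      have h2 : Tendsto (fun y : ∀ i, T i => y i) (𝓝 y₀) (𝓝 (y₀ i)) :=
        (continuous_apply i).tendsto y₀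
      rw [nhds_discrete (T i)] at h2
      exact tendsto_pure.mp h2
    have h2 : ∀ᶠ y in 𝓝 y₀, ∀ i ∈ F' ∪ F, y i = y₀ i :=
      (Filter.eventually_all_finite (hF'.union F.finite_toSet)).mpr fun i _ => h1 i
    filter_upwards [h2] with y hy
    refine ⟨fun i => ?_, fun i hi => ?_⟩
    · by_cases h : i ∈ F
      · rw [hco, hco, hy i (Or.inr h), sub_self]
        exact (S.L i).zero_mem
      · rw [hco, hco]
        exact (S.L i).sub_mem ((y i).2 h) ((y₀ i).2 h)
    · rw [hco, hco, hy i (Or.inl hi)]
  have h3 : C F = range f := by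
    ext x
    constructor
    · intro hx
      exact ⟨fun i => ⟨co S i x, hx i⟩, R_ext fun i => rfl⟩
    · rintro ⟨y, rfl⟩ i hi
      exact (y i).2 hi
  rw [h3]
  haveI : ∀ i, Finite (T i) := fun i => inferInstanceAs (Finite {k : S.K i // i ∉ F → k ∈ S.L i})
  exact isCompact_range hf

theorem C_mem_nhds : (C ∅ : Set (R S)) ∈ 𝓝 0 := by
  filter_upwards [eventually_near (0 : R S) ∅] with x hx
  intro i _
  have := hx.1 i
  rwa [map_zero, sub_zero] at this

instance : LocallyCompactSpace (R S) :=
  (isCompact_C ∅).locallyCompactSpace_of_mem_nhds_of_addGroup C_mem_nhds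

instance [Countable ι] : SigmaCompactSpace (R S) := by
  rw [← isSigmaCompact_univ_iff]
  have h1 : (univ : Set (R S)) = ⋃ F : Finset ι, C F := by
    symm
    rw [eq_univ_iff_forall]
    intro x
    exact mem_iUnion.mpr ⟨bad x, fun i hi => mem_of_notMem_bad hi⟩
  rw [h1]
  exact isSigmaCompact_iUnion_of_isCompact _ isCompact_C

/-! ## The forms -/

/-- The sum of the local forms with multiplicities. -/
noncomputable def gen (c : ι → ℕ) (x y : R S) : UnitAddCircle :=
  ∑ᶠ i, c i • S.B i (co S i x) (co S i y)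

theorem gen_finite (c : ι → ℕ) (x y : R S) :
    Function.HasFiniteSupport fun i => c i • S.B i (co S i x) (co S i y) := by
  refine ((bad x).finite_toSet.union (bad y).finite_toSet).subset fun i hi => ?_
  by_contra hcon
  rw [mem_union, not_or] at hcon
  apply hi
  show c i • S.B i (co S i x) (co S i y) = 0
  rw [(S.perp i _).mp (mem_of_notMem_bad hcon.1) _ (mem_of_notMem_bad hcon.2), smul_zero]

theorem gen_add_left (c : ι → ℕ) (x y z : R S) : gen c (x + y) z = gen c x z + gen c y z := by
  rw [gen, gen, gen, ← finsum_add_distrib (gen_finite c x z) (gen_finite c y z)]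
  apply finsum_congr
  intro i
  rw [map_add, S.add_left, smul_add]

theorem gen_add_right (c : ι → ℕ) (x y z : R S) : gen c x (y + z) = gen c x y + gen c x z := by
  rw [gen, gen, gen, ← finsum_add_distrib (gen_finite c x y) (gen_finite c x z)]
  apply finsum_congr
  intro i
  rw [map_add, S.add_right, smul_add]

/-- The form as a bilinear map. -/
noncomputable def genHom (c : ι → ℕ) : R S →+ R S →+ UnitAddCircle :=
  AddMonoidHom.mk' (fun x => AddMonoidHom.mk' (fun y => gen c x y) (gen_add_right c x))
    (fun x y => by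
      ext z
      exact gen_add_left c x y z)

theorem genHom_apply (c : ι → ℕ) (x y : R S) : genHom c x y = gen c x y := rfl

theorem gen_zero_left (c : ι → ℕ) (y : R S) : gen c 0 y = 0 := by
  rw [← genHom_apply, map_zero]; rfl

theorem gen_zero_right (c : ι → ℕ) (y : R S) : gen c y 0 = 0 := by
  rw [← genHom_apply, map_zero]

theorem gen_neg_left (c : ι → ℕ) (x y : R S) : gen c (-x) y = -gen c x y := by
  rw [← genHom_apply, map_neg]; rfl

theorem gen_neg_right (c : ι → ℕ) (x y : R S) : gen c x (-y) = -gen c x y := by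
  rw [← genHom_apply, map_neg]; rfl

theorem continuous_gen (c : ι → ℕ) : Continuous fun q : R S × R S => gen c q.1 q.2 := by
  classical
  rw [continuous_iff_continuousAt]
  rintro ⟨x₀, y₀⟩
  refine (tendsto_const_nhds (x := gen c x₀ y₀)).congr' ?_
  have h1 : ∀ᶠ q : R S × R S in 𝓝 (x₀, y₀), (∀ i, co S i q.1 - co S i x₀ ∈ S.L i) ∧
      ∀ i ∈ bad x₀ ∪ bad y₀, co S i q.1 = co S i x₀ :=
    (continuous_fst.tendsto (x₀, y₀)).eventually (eventually_near x₀ (bad x₀ ∪ bad y₀))
  have h2 : ∀ᶠ q : R S × R S in 𝓝 (x₀, y₀), (∀ i, co S i q.2 - co S i y₀ ∈ S.L i) ∧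
      ∀ i ∈ bad x₀ ∪ bad y₀, co S i q.2 = co S i y₀ :=
    (continuous_snd.tendsto (x₀, y₀)).eventually (eventually_near y₀ (bad x₀ ∪ bad y₀))
  filter_upwards [h1, h2] with q hq1 hq2
  apply finsum_congr
  intro i
  by_cases hi : i ∈ bad x₀ ∪ bad y₀
  · rw [hq1.2 i hi, hq2.2 i hi]
  · rw [Finset.mem_union, not_or] at hi
    have hx := mem_of_notMem_bad hi.1
    have hy := mem_of_notMem_bad hi.2
    have hx' : co S i q.1 ∈ S.L i := by
      have := (S.L i).add_mem (hq1.1 i) hx
      rwa [sub_add_cancel] at this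
    have hy' : co S i q.2 ∈ S.L i := by
      have := (S.L i).add_mem (hq2.1 i) hy
      rwa [sub_add_cancel] at this
    rw [(S.perp i _).mp hx _ hy, (S.perp i _).mp hx' _ hy']

/-- The symplectic form. -/
noncomputable def nab (x y : R S) : UnitAddCircle := gen (fun _ => 1) x y

/-- Half of the symplectic form. -/
noncomputable def bet (x y : R S) : UnitAddCircle := gen S.n x y

theorem bet_sub (x y : R S) : bet x y - bet y x = nab x y := by
  have h1 : bet y x = -bet x y := by
    rw [bet, bet, gen, gen, ← finsum_neg_distrib]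
    apply finsum_congr
    intro i
    rw [B_comm, smul_neg]
  rw [h1, sub_neg_eq_add, bet, nab, gen, gen,
    ← finsum_add_distrib (gen_finite _ x y) (gen_finite _ x y)]
  apply finsum_congr
  intro i
  rw [S.half, one_smul]

open Classical in
/-- The element with a single coordinate. -/
noncomputable def single (i : ι) : S.K i →+ R S where
  toFun k := ⟨Pi.single i k, by
    show ∀ᶠ j in cofinite, Pi.single i k j ∈ S.L j
    refine (Set.finite_singleton i).subset fun j hj => ?_
    by_contra h
    apply hj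
    have hji : j ≠ i := h
    show Pi.single i k j ∈ S.L j
    rw [Pi.single_eq_of_ne hji]
    exact (S.L j).zero_mem⟩
  map_zero' := Subtype.ext (Pi.single_zero i)
  map_add' x y := Subtype.ext (Pi.single_add i x y)

theorem co_single_same (i : ι) (k : S.K i) : co S i (single i k) = k := by
  classical
  exact Pi.single_eq_same i k

theorem co_single_ne {i j : ι} (h : j ≠ i) (k : S.K i) : co S j (single i k) = 0 := by
  classical
  exact Pi.single_eq_of_ne h k

theorem nab_single (i : ι) (k : S.K i) (y : R S) : nab (single i k) y = S.B i k (co S i y) := by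
  rw [nab, gen, finsum_eq_single _ i]
  · rw [co_single_same, one_smul]
  · intro j hj
    rw [co_single_ne hj, B_zero_left, smul_zero]

theorem nab_single_right (i : ι) (k : S.K i) (x : R S) : nab x (single i k) =
    S.B i (co S i x) k := by
  rw [nab, gen, finsum_eq_single _ i]
  · rw [co_single_same, one_smul]
  · intro j hj
    rw [co_single_ne hj, B_zero_right, smul_zero]

theorem nab_nondeg {x : R S} (h : ∀ y, nab x y = 0) : x = 0 := by
  refine R_ext fun i => ?_
  rw [map_zero]
  refine S.nondeg i _ fun k => ?_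
  rw [← nab_single_right, h]

/-! ## Duality -/

theorem small_subgroup {t : UnitAddCircle} (h : ∀ n : ℕ, ‖(2 ^ n) • t‖ < 1 / 4) : t = 0 := by
  have key : ∀ s : UnitAddCircle, ‖s‖ < 1 / 4 → ‖2 • s‖ = 2 * ‖s‖ := by
    intro s hs
    obtain ⟨r, rfl, hr⟩ : ∃ r : ℝ, (r : UnitAddCircle) = s ∧ ‖s‖ = |r| := by
      obtain ⟨r, rfl⟩ := QuotientAddGroup.mk_surjective s
      refine ⟨r - round r, ?_, ?_⟩
      · rw [AddCircle.coe_sub]
        have : ((round r : ℝ) : UnitAddCircle) = 0 := by
          rw [AddCircle.coe_eq_zero_iff]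
          exact ⟨round r, by simp⟩
        rw [this, sub_zero]
      · exact UnitAddCircle.norm_eq
    have h2 : (2 : ℕ) • ((r : ℝ) : UnitAddCircle) = ((2 * r : ℝ) : UnitAddCircle) := by
      rw [← AddCircle.coe_nsmul, nsmul_eq_mul, Nat.cast_ofNat]
    rw [h2, hr]
    rw [hr] at hs
    rw [(AddCircle.norm_coe_eq_abs_iff (1 : ℝ) one_ne_zero).mpr, abs_mul, abs_two]
    rw [abs_mul, abs_two, abs_one]
    linarith
  have h2 : ∀ n : ℕ, ‖(2 ^ n) • t‖ = 2 ^ n * ‖t‖ := by
    intro n
    induction n with
    | zero => simp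
    | succ n ih =>
      rw [pow_succ, mul_comm (2 ^ n) 2, mul_smul, key _ (h n), ih, pow_succ]
      ring
  by_contra hne
  have hpos : 0 < ‖t‖ := norm_pos_iff.mpr hne
  obtain ⟨n, hn⟩ := pow_unbounded_of_one_lt (1 / ‖t‖) (by norm_num : (1 : ℝ) < 2)
  have h3 := h n
  rw [h2 n] at h3
  rw [div_lt_iff₀ hpos] at hn
  linarith

/-- The basic open subgroups. -/
def U (S : Sys ι) (F : Finset ι) : AddSubgroup (R S) where
  carrier := {x | (∀ i, co S i x ∈ S.L i) ∧ ∀ i ∈ F, co S i x = 0}
  zero_mem' := ⟨fun i => by rw [map_zero]; exact (S.L i).zero_mem, fun i _ => map_zero _⟩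
  add_mem' := by
    rintro x y ⟨h1, h2⟩ ⟨h3, h4⟩
    refine ⟨fun i => ?_, fun i hi => ?_⟩
    · rw [map_add]; exact (S.L i).add_mem (h1 i) (h3 i)
    · rw [map_add, h2 i hi, h4 i hi, add_zero]
  neg_mem' := by
    rintro x ⟨h1, h2⟩
    refine ⟨fun i => ?_, fun i hi => ?_⟩
    · rw [map_neg]; exact (S.L i).neg_mem (h1 i)
    · rw [map_neg, h2 i hi, neg_zero]

theorem exists_U {s : Set (R S)} (hs : s ∈ 𝓝 0) : ∃ F : Finset ι, (U S F : Set (R S)) ⊆ s := by
  obtain ⟨F, hF, hFs⟩ := (hasBasis (0 : R S)).mem_iff.mp hs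
  refine ⟨hF.toFinset, fun x hx => hFs ?_⟩
  refine ⟨fun i => ?_, fun i hi => ?_⟩
  · rw [map_zero, sub_zero]; exact hx.1 i
  · rw [map_zero]; exact hx.2 i (hF.mem_toFinset.mpr hi)

theorem hom_trivial_on_U {c : R S →+ UnitAddCircle} (hc : Continuous c) :
    ∃ F : Finset ι, ∀ x ∈ U S F, c x = 0 := by
  have h1 : c ⁻¹' Metric.ball 0 (1 / 4) ∈ 𝓝 (0 : R S) := by
    apply hc.continuousAt.preimage_mem_nhds
    rw [map_zero]
    exact Metric.ball_mem_nhds _ (by norm_num)
  obtain ⟨F, hF⟩ := exists_U h1
  refine ⟨F, fun x hx => small_subgroup fun n => ?_⟩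
  have h2 := hF ((U S F).nsmul_mem hx (2 ^ n))
  rw [mem_preimage, mem_ball_zero_iff, map_nsmul] at h2
  exact h2

/-- A decomposition of an element. -/
theorem decomp (x : R S) (F : Finset ι) :
    ∃ G : Finset ι, F ⊆ G ∧ x - ∑ i ∈ G, single i (co S i x) ∈ U S G := by
  classical
  refine ⟨F ∪ bad x, Finset.subset_union_left, ?_⟩
  have h1 : ∀ j, co S j (∑ i ∈ F ∪ bad x, single i (co S i x)) =
      if j ∈ F ∪ bad x then co S j x else 0 := by
    intro j
    rw [map_sum]
    split_ifs with hj
    · rw [Finset.sum_eq_single j]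
      · rw [co_single_same]
      · intro i _ hij
        rw [co_single_ne hij.symm]
      · intro h; exact absurd hj h
    · apply Finset.sum_eq_zero
      intro i hi
      rw [co_single_ne (fun h : j = i => hj (by rw [h]; exact hi))]
  refine ⟨fun j => ?_, fun j hj => ?_⟩
  · rw [map_sub, h1]
    split_ifs with hj
    · rw [sub_self]; exact (S.L j).zero_mem
    · rw [sub_zero]
      rw [Finset.mem_union, not_or] at hj
      exact mem_of_notMem_bad hj.2
  · rw [map_sub, h1, if_pos hj, sub_self]

theorem hom_eq_zero {c : R S →+ UnitAddCircle} (hc : Continuous c)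
    (h : ∀ i k, c (single i k) = 0) (x : R S) : c x = 0 := by
  obtain ⟨F, hF⟩ := hom_trivial_on_U hc
  obtain ⟨G, hFG, hG⟩ := decomp x F
  have h1 : c (x - ∑ i ∈ G, single i (co S i x)) = 0 :=
    hF _ ⟨hG.1, fun i hi => hG.2 i (hFG hi)⟩
  rw [map_sub, map_sum, Finset.sum_eq_zero fun i _ => h i _, sub_zero] at h1
  exact h1

theorem dual_surj (c : R S →+ UnitAddCircle) (hc : Continuous c) :
    ∃ z : R S, ∀ y, c y = nab z y := by
  choose z hz using fun i => S.perfect i (c.comp (single i))
  obtain ⟨F, hF⟩ := hom_trivial_on_U hc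
  have hmem : z ∈ RR S := by
    refine F.finite_toSet.subset fun i hi => ?_
    by_contra hiF
    apply hi
    refine (S.perp i _).mpr fun k hk => ?_
    rw [← hz i k]
    refine hF _ ⟨fun j => ?_, fun j hj => ?_⟩
    · by_cases hj : j = i
      · subst hj; rw [co_single_same]; exact hk
      · rw [co_single_ne hj]; exact (S.L j).zero_mem
    · have hji : j ≠ i := fun h => hiF (h ▸ hj)
      exact co_single_ne hji k
  let Z : R S := ⟨z, hmem⟩
  refine ⟨Z, fun y => ?_⟩
  have hcont : Continuous (c - genHom (fun _ => 1) Z) := by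
    have h1 : Continuous fun y => gen (fun _ => 1) Z y :=
      (continuous_gen (fun _ => 1)).comp (continuous_const.prodMk continuous_id)
    exact hc.sub h1
  have h2 := hom_eq_zero hcont (fun i k => by
    show c (single i k) - nab Z (single i k) = 0
    rw [nab_single_right, sub_eq_zero]
    exact hz i k) y
  exact sub_eq_zero.mp h2

end Pool.Agent.R627.SympRestr
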