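import Mathlib
import Pool.Agent.R627.SympRestr

/-!
# The Mumford group of a restricted product of finite symplectic groups
-/

set_option autoImplicit false
set_option linter.style.haveILetI false
set_option linter.unusedSectionVars false

namespace Pool.Agent.R627.MumfordG

open Topology Filter Set Pool.Agent.R627.SympRestr

/-! ## Definitions -/

/-- A locally compact Mumford group with centre isomorphic to the circle group: the group has class
at most two, and the Mumford map, viewed (through an isomorphism of the centre with the circle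
group) as a map from the central quotient to its Pontryagin dual, is an isomorphism of topological
groups. -/
def IsMumfordGroup (G : Type*) [Group G] [TopologicalSpace G] : Prop :=
  IsTopologicalGroup G ∧ T2Space G ∧ LocallyCompactSpace G ∧
    ∃ hN : ∀ x y : G, x * y * x⁻¹ * y⁻¹ ∈ Subgroup.center G,
    ∃ (ζ : Subgroup.center G ≃ₜ* Circle)
      (M : (G ⧸ Subgroup.center G) ≃ₜ* PontryaginDual (G ⧸ Subgroup.center G)),
      ∀ x y : G, M (x : G ⧸ Subgroup.center G) (y : G ⧸ Subgroup.center G) =
        ζ ⟨x * y * x⁻¹ * y⁻¹, hN x y⟩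

section Heis

variable {A E F : Type*} [AddCommGroup A] [AddCommGroup E] [AddCommGroup F]

/-- The underlying set of the generalized Heisenberg group. -/
@[ext]
structure Heis (ω : E →+ F →+ A) where
  a : A
  b : E
  c : F

/-- The triple of an element. -/
def Heis.tr {ω : E →+ F →+ A} (x : Heis ω) : A × E × F := (x.a, x.b, x.c)

instance (ω : E →+ F →+ A) : Group (Heis ω) where
  mul x y := ⟨x.a + y.a + ω x.b y.c, x.b + y.b, x.c + y.c⟩
  one := ⟨0, 0, 0⟩
  inv x := ⟨-x.a + ω x.b x.c, -x.b, -x.c⟩
  mul_assoc x y z := by
    refine Heis.ext ?_ ?_ ?_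
    · show (x.a + y.a + ω x.b y.c) + z.a + ω (x.b + y.b) z.c =
        x.a + (y.a + z.a + ω y.b z.c) + ω x.b (y.c + z.c)
      rw [map_add, map_add, AddMonoidHom.add_apply]
      abel
    · exact add_assoc _ _ _
    · exact add_assoc _ _ _
  one_mul x := by
    refine Heis.ext ?_ ?_ ?_
    · show 0 + x.a + ω 0 x.c = x.a
      rw [map_zero, AddMonoidHom.zero_apply, add_zero, zero_add]
    · exact zero_add _
    · exact zero_add _
  mul_one x := by
    refine Heis.ext ?_ ?_ ?_
    · show x.a + 0 + ω x.b 0 = x.a
      rw [map_zero, add_zero, add_zero]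
    · exact add_zero _
    · exact add_zero _
  inv_mul_cancel x := by
    refine Heis.ext ?_ ?_ ?_
    · show (-x.a + ω x.b x.c) + x.a + ω (-x.b) x.c = 0
      rw [map_neg, AddMonoidHom.neg_apply]
      abel
    · exact neg_add_cancel _
    · exact neg_add_cancel _

/-- The product topology on the generalized Heisenberg group. -/
instance [TopologicalSpace A] [TopologicalSpace E] [TopologicalSpace F] (ω : E →+ F →+ A) :
    TopologicalSpace (Heis ω) := TopologicalSpace.induced Heis.tr inferInstance

/-- A topological group is a generalized Heisenberg group if it is isomorphic to the generalized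
Heisenberg group of a continuous bilinear map `E × F → A` of topological abelian groups (here the
groups `A`, `E`, `F` need not be Hausdorff). -/
def IsGeneralizedHeisenberg.{u, v} (G : Type v) [Group G] [TopologicalSpace G] : Prop :=
  ∃ (A E F : Type u) (_ : AddCommGroup A) (_ : TopologicalSpace A) (_ : IsTopologicalAddGroup A)
    (_ : AddCommGroup E) (_ : TopologicalSpace E) (_ : IsTopologicalAddGroup E)
    (_ : AddCommGroup F) (_ : TopologicalSpace F) (_ : IsTopologicalAddGroup F)
    (ω : E →+ F →+ A), Continuous (fun q : E × F => ω q.1 q.2) ∧ Nonempty (G ≃ₜ* Heis ω)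

variable {ω : E →+ F →+ A}

theorem mul_a (x y : Heis ω) : (x * y).a = x.a + y.a + ω x.b y.c := rfl
theorem mul_b (x y : Heis ω) : (x * y).b = x.b + y.b := rfl
theorem mul_c (x y : Heis ω) : (x * y).c = x.c + y.c := rfl

variable (ω)

/-- The projection to the first factor of the quotient. -/
def projE : Heis ω →* Heis ω where
  toFun x := ⟨0, x.b, 0⟩
  map_one' := rfl
  map_mul' x y := by
    refine Heis.ext ?_ ?_ ?_
    · show (0 : A) = 0 + 0 + ω x.b 0
      rw [map_zero]; simp
    · rfl
    · exact (add_zero 0).symm

/-- The projection to the second factor of the quotient. -/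
def projF : Heis ω →* Heis ω where
  toFun x := ⟨0, 0, x.c⟩
  map_one' := rfl
  map_mul' x y := by
    refine Heis.ext ?_ ?_ ?_
    · show (0 : A) = 0 + 0 + ω 0 y.c
      rw [map_zero]; simp
    · exact (add_zero 0).symm
    · rfl

theorem projE_projE (x : Heis ω) : projE ω (projE ω x) = projE ω x := rfl

theorem projE_comm (x y : Heis ω) : projE ω x * projE ω y = projE ω y * projE ω x := by
  rw [← map_mul, ← map_mul]
  refine Heis.ext rfl ?_ rfl
  exact add_comm _ _

theorem projF_comm (x y : Heis ω) : projF ω x * projF ω y = projF ω y * projF ω x := by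
  rw [← map_mul, ← map_mul]
  refine Heis.ext rfl rfl ?_
  exact add_comm _ _

theorem proj_central (x : Heis ω) :
    ∃ z ∈ Subgroup.center (Heis ω), x = z * (projE ω x * projF ω x) := by
  refine ⟨⟨x.a - ω x.b x.c, 0, 0⟩, ?_, ?_⟩
  · rw [Subgroup.mem_center_iff]
    intro y
    refine Heis.ext ?_ ?_ ?_
    · show y.a + (x.a - ω x.b x.c) + ω y.b 0 = (x.a - ω x.b x.c) + y.a + ω 0 y.c
      rw [map_zero, map_zero, AddMonoidHom.zero_apply]
      abel
    · show y.b + 0 = 0 + y.b
      rw [add_zero, zero_add]
    · show y.c + 0 = 0 + y.c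
      rw [add_zero, zero_add]
  · refine Heis.ext ?_ ?_ ?_
    · show x.a = (x.a - ω x.b x.c) + (0 + 0 + ω x.b x.c) + ω 0 (0 + x.c)
      rw [map_zero, AddMonoidHom.zero_apply]
      abel
    · show x.b = 0 + (x.b + 0)
      rw [add_zero, zero_add]
    · show x.c = 0 + (0 + x.c)
      rw [zero_add, zero_add]

theorem projE_center {x : Heis ω} (hx : x ∈ Subgroup.center (Heis ω)) :
    projE ω x ∈ Subgroup.center (Heis ω) := by
  rw [Subgroup.mem_center_iff] at hx ⊢
  have key : ∀ c : F, ω x.b c = 0 := by
    intro c
    have h1 := congrArg Heis.a (hx ⟨0, 0, c⟩)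
    rw [mul_a, mul_a] at h1
    simp only [map_zero, AddMonoidHom.zero_apply, zero_add, add_zero] at h1
    exact left_eq_add.mp h1
  intro y
  refine Heis.ext ?_ ?_ ?_
  · show y.a + 0 + ω y.b 0 = 0 + y.a + ω x.b y.c
    rw [map_zero, key]
    abel
  · exact add_comm _ _
  · exact add_comm _ _

theorem continuous_projE [TopologicalSpace A] [TopologicalSpace E] [TopologicalSpace F] :
    Continuous (projE ω) := by
  have h1 : Continuous (Heis.tr : Heis ω → A × E × F) := continuous_induced_dom
  refine continuous_induced_rng.mpr ?_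
  exact continuous_const.prodMk ((continuous_fst.comp (continuous_snd.comp h1)).prodMk
    continuous_const)

end Heis

/-! ## The group -/

variable {ι : Type}

/-- The underlying set of the group. -/
@[ext]
structure G (S : Sys ι) where
  z : Circle
  x : R S

/-- The exponential. -/
noncomputable def e (t : UnitAddCircle) : Circle := AddCircle.toCircle t

theorem e_add (s t : UnitAddCircle) : e (s + t) = e s * e t := AddCircle.toCircle_add s t

theorem e_zero : e 0 = 1 := AddCircle.toCircle_zero

theorem e_neg (t : UnitAddCircle) : e (-t) = (e t)⁻¹ := by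
  have h := e_add t (-t)
  rw [add_neg_cancel, e_zero] at h
  exact eq_inv_of_mul_eq_one_right h.symm

theorem e_injective : Function.Injective e := AddCircle.injective_toCircle one_ne_zero

theorem continuous_e : Continuous e := AddCircle.continuous_toCircle

variable {S : Sys ι}

noncomputable instance : Group (G S) where
  mul x y := ⟨x.z * y.z * e (bet x.x y.x), x.x + y.x⟩
  one := ⟨1, 0⟩
  inv x := ⟨x.z⁻¹ * e (bet x.x x.x), -x.x⟩
  mul_assoc x y z := by
    refine G.ext ?_ ?_
    · show (x.z * y.z * e (bet x.x y.x)) * z.z * e (bet (x.x + y.x) z.x) =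
        x.z * (y.z * z.z * e (bet y.x z.x)) * e (bet x.x (y.x + z.x))
      rw [bet, bet, bet, bet, gen_add_left, gen_add_right, e_add, e_add]
      simp only [mul_assoc, mul_left_comm, mul_comm]
    · exact add_assoc _ _ _
  one_mul x := by
    refine G.ext ?_ ?_
    · show 1 * x.z * e (bet 0 x.x) = x.z
      rw [bet, gen_zero_left, e_zero, one_mul, mul_one]
    · exact zero_add _
  mul_one x := by
    refine G.ext ?_ ?_
    · show x.z * 1 * e (bet x.x 0) = x.z
      rw [bet, gen_zero_right, e_zero, mul_one, mul_one]
    · exact add_zero _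
  inv_mul_cancel x := by
    refine G.ext ?_ ?_
    · show x.z⁻¹ * e (bet x.x x.x) * x.z * e (bet (-x.x) x.x) = 1
      rw [bet, bet, gen_neg_left, e_neg]
      simp
    · exact neg_add_cancel _

/-- The pair of an element. -/
def G.pr (x : G S) : Circle × R S := (x.z, x.x)

noncomputable instance : TopologicalSpace (G S) :=
  TopologicalSpace.induced G.pr inferInstance

theorem mul_z (x y : G S) : (x * y).z = x.z * y.z * e (bet x.x y.x) := rfl
theorem mul_x (x y : G S) : (x * y).x = x.x + y.x := rfl
theorem inv_x (x : G S) : (x⁻¹).x = -x.x := rfl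

theorem continuous_bet : Continuous fun q : R S × R S => bet q.1 q.2 := continuous_gen _

theorem continuous_nab : Continuous fun q : R S × R S => nab q.1 q.2 := continuous_gen _

theorem continuous_pr : Continuous (G.pr : G S → Circle × R S) := continuous_induced_dom

theorem continuous_z : Continuous (G.z : G S → Circle) := continuous_fst.comp continuous_pr

theorem continuous_x : Continuous (G.x : G S → R S) := continuous_snd.comp continuous_pr

/-- The homeomorphism with the product. -/
def prH : G S ≃ₜ Circle × R S where
  toFun := G.pr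
  invFun q := ⟨q.1, q.2⟩
  left_inv _ := rfl
  right_inv _ := rfl
  continuous_toFun := continuous_pr
  continuous_invFun := continuous_induced_rng.mpr continuous_id

instance : IsTopologicalGroup (G S) where
  continuous_mul := by
    have h1 : Continuous fun q : G S × G S => q.1.z := continuous_z.comp continuous_fst
    have h2 : Continuous fun q : G S × G S => q.2.z := continuous_z.comp continuous_snd
    have h3 : Continuous fun q : G S × G S => q.1.x := continuous_x.comp continuous_fst
    have h4 : Continuous fun q : G S × G S => q.2.x := continuous_x.comp continuous_snd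
    refine continuous_induced_rng.mpr ?_
    exact ((h1.mul h2).mul (continuous_e.comp (continuous_bet.comp (h3.prodMk h4)))).prodMk
      (h3.add h4)
  continuous_inv := by
    refine continuous_induced_rng.mpr ?_
    exact (continuous_z.inv.mul (continuous_e.comp
      (continuous_bet.comp (continuous_x.prodMk continuous_x)))).prodMk continuous_x.neg

instance : T2Space (G S) := prH.symm.t2Space

instance : LocallyCompactSpace (G S) := prH.isClosedEmbedding.locallyCompactSpace

instance [Countable ι] : SigmaCompactSpace (G S) := by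
  rw [← isSigmaCompact_univ_iff]
  have h1 : IsSigmaCompact (univ : Set (Circle × R S)) := isSigmaCompact_univ
  have h2 := h1.image prH.symm.continuous
  rwa [image_univ, range_eq_univ.mpr prH.symm.surjective] at h2

/-- The central elements. -/
noncomputable def cen (z : Circle) : G S := ⟨z, 0⟩

theorem cen_mul (z : Circle) (x : G S) : cen z * x = ⟨z * x.z, x.x⟩ := by
  refine G.ext ?_ ?_
  · show z * x.z * e (bet 0 x.x) = z * x.z
    rw [bet, gen_zero_left, e_zero, mul_one]
  · exact zero_add _

theorem mul_cen (z : Circle) (x : G S) : x * cen z = ⟨z * x.z, x.x⟩ := by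
  refine G.ext ?_ ?_
  · show x.z * z * e (bet x.x 0) = z * x.z
    rw [bet, gen_zero_right, e_zero, mul_one, mul_comm]
  · exact add_zero _

theorem cen_mem (z : Circle) : (cen z : G S) ∈ Subgroup.center (G S) := by
  rw [Subgroup.mem_center_iff]
  intro x
  rw [mul_cen, cen_mul]

theorem mul_swap (x y : G S) : x * y = cen (e (nab x.x y.x)) * (y * x) := by
  rw [cen_mul]
  refine G.ext ?_ ?_
  · show x.z * y.z * e (bet x.x y.x) = e (nab x.x y.x) * (y.z * x.z * e (bet y.x x.x))
    have h1 : bet x.x y.x = nab x.x y.x + bet y.x x.x := by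
      rw [← bet_sub]; abel
    rw [h1, e_add]
    simp only [mul_assoc, mul_left_comm, mul_comm]
  · exact add_comm _ _

theorem commutator_eq (x y : G S) : x * y * x⁻¹ * y⁻¹ = cen (e (nab x.x y.x)) := by
  rw [mul_swap x y]
  group

theorem mem_center_iff {x : G S} : x ∈ Subgroup.center (G S) ↔ x.x = 0 := by
  constructor
  · intro h
    rw [Subgroup.mem_center_iff] at h
    apply nab_nondeg
    intro y
    have h1 := h ⟨1, y⟩
    rw [mul_swap x ⟨1, y⟩] at h1
    have h2 : cen (e (nab x.x y)) = (1 : G S) := by
      have h3 : (1 : G S) * (⟨1, y⟩ * x) = cen (e (nab x.x y)) * (⟨1, y⟩ * x) := by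
        rw [one_mul]; exact h1
      exact (mul_right_cancel h3).symm
    have h4 : e (nab x.x y) = 1 := congrArg G.z h2
    rw [← e_zero] at h4
    exact e_injective h4
  · intro h
    have : x = cen x.z := G.ext rfl h
    rw [this]
    exact cen_mem _

/-- The centre is the circle group. -/
noncomputable def zeta : Subgroup.center (G S) ≃ₜ* Circle where
  toFun x := x.1.z
  invFun z := ⟨cen z, cen_mem z⟩
  left_inv x := by
    apply Subtype.ext
    exact G.ext rfl (mem_center_iff.mp x.2).symm
  right_inv z := rfl
  map_mul' x y := by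
    show x.1.z * y.1.z * e (bet x.1.x y.1.x) = x.1.z * y.1.z
    rw [mem_center_iff.mp x.2, bet, gen_zero_left, e_zero, mul_one]
  continuous_toFun := continuous_z.comp continuous_subtype_val
  continuous_invFun := by
    refine Continuous.subtype_mk ?_ _
    exact continuous_induced_rng.mpr (continuous_id.prodMk continuous_const)

/-! ## The Mumford map -/

theorem nab_add_left (x y z : R S) : nab (x + y) z = nab x z + nab y z := gen_add_left _ _ _ _

theorem nab_add_right (x y z : R S) : nab x (y + z) = nab x y + nab x z := gen_add_right _ _ _ _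

theorem nab_zero_left (x : R S) : nab 0 x = 0 := gen_zero_left _ _

theorem nab_zero_right (x : R S) : nab x 0 = 0 := gen_zero_right _ _

theorem nab_neg_left (x y : R S) : nab (-x) y = -nab x y := gen_neg_left _ _ _

theorem nab_neg_right (x y : R S) : nab x (-y) = -nab x y := gen_neg_right _ _ _

/-- The character given by an element. -/
noncomputable def chG (x : R S) : G S →* Circle where
  toFun y := e (nab x y.x)
  map_one' := by
    show e (nab x 0) = 1
    rw [nab_zero_right, e_zero]
  map_mul' y z := by
    show e (nab x (y.x + z.x)) = _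
    rw [nab_add_right, e_add]

theorem continuous_chG (x : R S) : Continuous (chG x) :=
  continuous_e.comp (continuous_nab.comp (continuous_const.prodMk continuous_x))

/-- The character on the quotient. -/
noncomputable def ch (x : R S) : PontryaginDual (G S ⧸ Subgroup.center (G S)) :=
  { toMonoidHom := QuotientGroup.lift _ (chG x) (fun y hy => by
      show e (nab x y.x) = 1
      rw [mem_center_iff.mp hy, nab_zero_right, e_zero])
    continuous_toFun := (continuous_chG x).quotient_lift _ }

theorem ch_mk (x : R S) (y : G S) : ch x (y : G S ⧸ Subgroup.center (G S)) = e (nab x y.x) := rfl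

theorem dual_ext {χ ψ : PontryaginDual (G S ⧸ Subgroup.center (G S))}
    (h : ∀ y : G S, χ (y : G S ⧸ Subgroup.center (G S)) = ψ (y : G S ⧸ Subgroup.center (G S))) :
    χ = ψ := by
  apply DFunLike.ext
  intro q
  obtain ⟨y, rfl⟩ := QuotientGroup.mk_surjective q
  exact h y

/-- The Mumford map on the group. -/
noncomputable def mG : G S →* PontryaginDual (G S ⧸ Subgroup.center (G S)) :=
  MonoidHom.mk' (fun x => ch x.x) (fun x y => by
    apply dual_ext
    intro z
    show e (nab (x.x + y.x) z.x) = e (nab x.x z.x) * e (nab y.x z.x)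
    rw [nab_add_left, e_add])

theorem mG_center {x : G S} (hx : x ∈ Subgroup.center (G S)) : mG x = 1 := by
  apply dual_ext
  intro z
  show e (nab x.x z.x) = 1
  rw [mem_center_iff.mp hx, nab_zero_left, e_zero]

/-- The Mumford map. -/
noncomputable def mQ : G S ⧸ Subgroup.center (G S) →*
    PontryaginDual (G S ⧸ Subgroup.center (G S)) :=
  QuotientGroup.lift _ mG fun _ hx => mG_center hx

theorem mQ_mk (x : G S) : mQ (x : G S ⧸ Subgroup.center (G S)) = ch x.x := rfl

theorem continuous_mQ : Continuous (mQ (S := S)) := by
  apply ContinuousMonoidHom.continuous_of_continuous_uncurry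
  have h1 : IsOpenQuotientMap (QuotientGroup.mk : G S → G S ⧸ Subgroup.center (G S)) :=
    QuotientGroup.isOpenQuotientMap_mk
  have h2 := (h1.prodMap h1).isQuotientMap
  rw [h2.continuous_iff]
  exact continuous_e.comp (continuous_nab.comp ((continuous_x.comp continuous_fst).prodMk
    (continuous_x.comp continuous_snd)))

theorem injective_mQ : Function.Injective (mQ (S := S)) := by
  rw [injective_iff_map_eq_one]
  intro q hq
  obtain ⟨x, rfl⟩ := QuotientGroup.mk_surjective q
  rw [QuotientGroup.eq_one_iff, mem_center_iff]
  apply nab_nondeg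
  intro y
  have h1 : ch x.x ((⟨1, y⟩ : G S) : G S ⧸ Subgroup.center (G S)) =
      (1 : PontryaginDual (G S ⧸ Subgroup.center (G S)))
      ((⟨1, y⟩ : G S) : G S ⧸ Subgroup.center (G S)) := by
    rw [← mQ_mk, hq]
  have h2 : e (nab x.x y) = 1 := h1
  rw [← e_zero] at h2
  exact e_injective h2

/-- The inverse of the exponential. -/
noncomputable def lg : Circle ≃ₜ UnitAddCircle := (AddCircle.homeomorphCircle one_ne_zero).symm

theorem e_lg (z : Circle) : e (lg z) = z := by
  have h := (AddCircle.homeomorphCircle (T := 1) one_ne_zero).apply_symm_apply z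
  rw [AddCircle.homeomorphCircle_apply] at h
  exact h

theorem surjective_mQ : Function.Surjective (mQ (S := S)) := by
  intro χ
  have hadd : ∀ x y : R S, χ ((⟨1, x + y⟩ : G S) : G S ⧸ Subgroup.center (G S)) =
      χ ((⟨1, x⟩ : G S) : G S ⧸ Subgroup.center (G S)) *
        χ ((⟨1, y⟩ : G S) : G S ⧸ Subgroup.center (G S)) := by
    intro x y
    rw [← map_mul, ← QuotientGroup.mk_mul]
    congr 1
    rw [QuotientGroup.eq, mem_center_iff]
    show -(x + y) + (x + y) = 0
    rw [neg_add_cancel]
  let c : R S →+ UnitAddCircle := AddMonoidHom.mk'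
    (fun x => lg (χ ((⟨1, x⟩ : G S) : G S ⧸ Subgroup.center (G S)))) (fun x y => by
      apply e_injective
      rw [e_add, e_lg, e_lg, e_lg, hadd])
  have hc : Continuous c := by
    have h1 : Continuous fun x : R S => (⟨1, x⟩ : G S) :=
      continuous_induced_rng.mpr (continuous_const.prodMk continuous_id)
    have h2 : Continuous (QuotientGroup.mk : G S → G S ⧸ Subgroup.center (G S)) :=
      QuotientGroup.continuous_mk
    exact lg.continuous.comp ((map_continuous χ).comp (h2.comp h1))
  obtain ⟨z, hz⟩ := dual_surj c hc
  refine ⟨(⟨1, z⟩ : G S), ?_⟩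
  apply dual_ext
  intro y
  rw [mQ_mk, ch_mk]
  have h1 : χ (y : G S ⧸ Subgroup.center (G S)) =
      χ ((⟨1, y.x⟩ : G S) : G S ⧸ Subgroup.center (G S)) := by
    congr 1
    rw [QuotientGroup.eq, mem_center_iff]
    show -y.x + y.x = 0
    rw [neg_add_cancel]
  rw [h1]
  show e (nab z y.x) = _
  rw [← hz]
  exact e_lg _

theorem isMumford [Countable ι] : IsMumfordGroup (G S) := by
  refine ⟨inferInstance, inferInstance, inferInstance, fun x y => ?_, zeta, ?_⟩
  · rw [commutator_eq]; exact cen_mem _
  · haveI : SigmaCompactSpace (G S ⧸ Subgroup.center (G S)) := by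
      rw [← isSigmaCompact_univ_iff]
      have h1 : IsSigmaCompact (univ : Set (G S)) := isSigmaCompact_univ
      have h2 := h1.image (QuotientGroup.continuous_mk (N := Subgroup.center (G S)))
      rwa [image_univ, range_eq_univ.mpr QuotientGroup.mk_surjective] at h2
    have hopen := MonoidHom.isOpenMap_of_sigmaCompact (mQ (S := S)) surjective_mQ continuous_mQ
    let M0 : (G S ⧸ Subgroup.center (G S)) ≃* PontryaginDual (G S ⧸ Subgroup.center (G S)) :=
      MulEquiv.ofBijective mQ ⟨injective_mQ, surjective_mQ⟩
    have hM0 : Continuous M0.symm := by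
      have h3 := hopen
      exact (Equiv.continuous_symm_iff M0.toEquiv).mpr h3
    refine ⟨{ M0 with continuous_toFun := continuous_mQ, continuous_invFun := hM0 }, ?_⟩
    intro x y
    show e (nab x.x y.x) = (x * y * x⁻¹ * y⁻¹ : G S).z
    rw [commutator_eq]
    rfl

/-! ## The projection given by a Heisenberg structure -/

theorem exists_proj {A E F : Type*} [AddCommGroup A] [AddCommGroup E] [AddCommGroup F]
    [TopologicalSpace A] [TopologicalSpace E] [TopologicalSpace F] (ω : E →+ F →+ A)
    (h : G S ≃ₜ* Heis ω) : ∃ p : R S →+ R S, Continuous p ∧ (∀ x, p (p x) = p x) ∧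
      ∀ x y, nab (p x) y + nab x (p y) = nab x y := by
  let P : G S →* G S := (h.symm.toMonoidHom.comp (projE ω)).comp h.toMonoidHom
  let Q : G S →* G S := (h.symm.toMonoidHom.comp (projF ω)).comp h.toMonoidHom
  have hPa : ∀ g, P g = h.symm (projE ω (h g)) := fun g => rfl
  have hQa : ∀ g, Q g = h.symm (projF ω (h g)) := fun g => rfl
  have hPc : Continuous P := h.symm.continuous.comp ((continuous_projE ω).comp h.continuous)
  have hcen : ∀ {g : G S}, h g ∈ Subgroup.center (Heis ω) ↔ g ∈ Subgroup.center (G S) := by
    intro g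
    rw [Subgroup.mem_center_iff, Subgroup.mem_center_iff]
    constructor
    · intro hg k
      apply h.injective
      rw [map_mul, map_mul, hg]
    · intro hg k
      obtain ⟨k, rfl⟩ := h.surjective k
      rw [← map_mul, ← map_mul, hg]
  have hPcen : ∀ g : G S, g.x = 0 → (P g).x = 0 := by
    intro g hg
    rw [← mem_center_iff, ← hcen] at hg
    rw [← mem_center_iff, ← hcen, hPa, h.apply_symm_apply]
    exact projE_center ω hg
  have hPP : ∀ g, P (P g) = P g := by
    intro g
    rw [hPa, hPa, h.apply_symm_apply, projE_projE]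
  have hPcomm : ∀ g k, P g * P k = P k * P g := by
    intro g k
    rw [hPa, hPa, ← map_mul h.symm, projE_comm, map_mul h.symm]
  have hQcomm : ∀ g k, Q g * Q k = Q k * Q g := by
    intro g k
    rw [hQa, hQa, ← map_mul h.symm, projF_comm, map_mul h.symm]
  have hPQ : ∀ g : G S, g.x = (P g).x + (Q g).x := by
    intro g
    obtain ⟨z, hz, hgz⟩ := proj_central ω (h g)
    have h1 : g = h.symm z * (P g * Q g) := by
      apply h.injective
      rw [map_mul, map_mul, h.apply_symm_apply, hPa, hQa, h.apply_symm_apply,
        h.apply_symm_apply]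
      exact hgz
    have h2 : (h.symm z).x = 0 := by
      rw [← mem_center_iff, ← hcen, h.apply_symm_apply]
      exact hz
    have h3 := congrArg G.x h1
    rw [mul_x, mul_x, h2, zero_add] at h3
    exact h3
  have hcommnab : ∀ g k : G S, g * k = k * g → nab g.x k.x = 0 := by
    intro g k hgk
    rw [mul_swap g k] at hgk
    have h2 : cen (e (nab g.x k.x)) = (1 : G S) := by
      have h3 : cen (e (nab g.x k.x)) * (k * g) = 1 * (k * g) := by
        rw [one_mul]; exact hgk
      exact mul_right_cancel h3
    have h4 : e (nab g.x k.x) = 1 := congrArg G.z h2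
    rw [← e_zero] at h4
    exact e_injective h4
  -- `P` modulo the centre
  have hmod : ∀ g k : G S, g.x = k.x → (P g).x = (P k).x := by
    intro g k hgk
    have h1 : (g * k⁻¹).x = 0 := by
      rw [mul_x, inv_x, hgk, add_neg_cancel]
    have h2 := hPcen _ h1
    rw [map_mul, map_inv, mul_x, inv_x] at h2
    exact add_neg_eq_zero.mp h2
  let p : R S →+ R S := AddMonoidHom.mk' (fun x => (P ⟨1, x⟩).x) (fun x y => by
    rw [← mul_x, ← map_mul]
    exact hmod _ _ rfl)
  have hpa : ∀ x, p x = (P ⟨1, x⟩).x := fun x => rfl
  have hpx : ∀ g : G S, p g.x = (P g).x := fun g => hmod _ _ rfl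
  refine ⟨p, ?_, ?_, ?_⟩
  · have h1 : Continuous fun x : R S => (⟨1, x⟩ : G S) :=
      continuous_induced_rng.mpr (continuous_const.prodMk continuous_id)
    exact continuous_x.comp (hPc.comp h1)
  · intro x
    rw [hpa x, hpx, hPP]
  · intro x y
    have h1 : nab (p x) (p y) = 0 := hcommnab _ _ (hPcomm ⟨1, x⟩ ⟨1, y⟩)
    have hq : ∀ x, (Q ⟨1, x⟩).x = x - p x := by
      intro x
      have := hPQ ⟨1, x⟩
      rw [hpa]
      exact eq_sub_of_add_eq' this.symm
    have h2 : nab (x - p x) (y - p y) = 0 := by
      have := hcommnab _ _ (hQcomm ⟨1, x⟩ ⟨1, y⟩)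
      rwa [hq, hq] at this
    rw [sub_eq_add_neg, sub_eq_add_neg, nab_add_left, nab_add_right, nab_add_right, nab_neg_left,
      nab_neg_left, nab_neg_right, nab_neg_right, h1, neg_neg, add_zero] at h2
    have h3 : nab x y - (nab (p x) y + nab x (p y)) = 0 := by
      rw [← h2]; abel
    exact (sub_eq_zero.mp h3).symm

end Pool.Agent.R627.MumfordG
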