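import Pool.Agent.R627.TreeFix

set_option linter.style.haveILetI false

/-!
# Universal groups on trees of circles

The dense countable subset `S` of the circle, its separation relation, trees of circles and their
universal groups; there is no subgroup of exponent three with more than three elements in the
universal group of a tree of circles in which every cut point lies on three circles.
-/

namespace Pool.Agent.R627.RabbitGroup

open Set

/-- The countable dense set of the points `exp (2 π i q)` of the circle, `q` rational,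
`0 ≤ q < 1`. -/
abbrev S : Type := {q : ℚ // 0 ≤ q ∧ q < 1}

/-- The parameter `c` lies strictly between the parameters `a` and `b`. -/
def Between (a b c : S) : Prop := (a < c ∧ c < b) ∨ (b < c ∧ c < a)

/-- The separation relation of pairs of points of `S ⊆` circle: the four points `a, b, c, d` are
distinct and exactly one of `c`, `d` lies in the arc of the circle between `a` and `b` that does not
contain the point of parameter `0` in its interior. -/
def Sep (a b c d : S) : Prop :=
  a ≠ b ∧ c ≠ d ∧ a ≠ c ∧ a ≠ d ∧ b ≠ c ∧ b ≠ d ∧ (Between a b c ↔ ¬ Between a b d)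

theorem sep_exists (a b c d : S) (h1 : a ≠ b) (h2 : a ≠ c) (h3 : a ≠ d) (h4 : b ≠ c) (h5 : b ≠ d)
    (h6 : c ≠ d) : Sep a b c d ∨ Sep a c b d ∨ Sep a d b c := by
  unfold Sep Between
  rcases lt_or_gt_of_ne h1 with h1' | h1' <;> rcases lt_or_gt_of_ne h2 with h2' | h2' <;>
  rcases lt_or_gt_of_ne h3 with h3' | h3' <;> rcases lt_or_gt_of_ne h4 with h4' | h4' <;>
  rcases lt_or_gt_of_ne h5 with h5' | h5' <;> rcases lt_or_gt_of_ne h6 with h6' | h6' <;>
  grind

theorem sep_unique (a b c d : S) (h : Sep a b c d) : ¬ Sep a c b d ∧ ¬ Sep a d b c := by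
  unfold Sep Between at *
  obtain ⟨h1, h6, h2, h3, h4, h5, h⟩ := h
  rcases lt_or_gt_of_ne h1 with h1' | h1' <;> rcases lt_or_gt_of_ne h2 with h2' | h2' <;>
  rcases lt_or_gt_of_ne h3 with h3' | h3' <;> rcases lt_or_gt_of_ne h4 with h4' | h4' <;>
  rcases lt_or_gt_of_ne h5 with h5' | h5' <;> rcases lt_or_gt_of_ne h6 with h6' | h6' <;>
  grind

theorem sep_swap (a b c d : S) (h : Sep a b c d) : Sep c d a b := by
  unfold Sep Between at *
  obtain ⟨h1, h6, h2, h3, h4, h5, h⟩ := h
  rcases lt_or_gt_of_ne h1 with h1' | h1' <;> rcases lt_or_gt_of_ne h2 with h2' | h2' <;>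
  rcases lt_or_gt_of_ne h3 with h3' | h3' <;> rcases lt_or_gt_of_ne h4 with h4' | h4' <;>
  rcases lt_or_gt_of_ne h5 with h5' | h5' <;> rcases lt_or_gt_of_ne h6 with h6' | h6' <;>
  grind

theorem sep_right (a b c d : S) (h : Sep a b c d) : Sep a b d c := by
  unfold Sep at *
  obtain ⟨h1, h6, h2, h3, h4, h5, h⟩ := h
  refine ⟨h1, h6.symm, h3, h2, h5, h4, fun k1 k2 => (h.mp k2) k1, fun k1 => ?_⟩
  by_contra k2
  exact k1 (h.mpr k2)

/-- Four points `z, x, y, w` with `h` fixing `z` and rotating `x, y, w`: impossible. -/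
theorem no_rot (z x y w : S) (h1 : z ≠ x) (h2 : z ≠ y) (h3 : z ≠ w) (h4 : x ≠ y) (h5 : x ≠ w)
    (h6 : y ≠ w) (e1 : Sep z x y w ↔ Sep z y w x) (e2 : Sep z y w x ↔ Sep z w x y) : False := by
  rcases sep_exists z x y w h1 h2 h3 h4 h5 h6 with h | h | h
  · have := sep_unique _ _ _ _ h
    exact this.1 (sep_right _ _ _ _ (e1.mp h))
  · have h' : Sep z y w x := sep_right _ _ _ _ h
    have := sep_unique _ _ _ _ h'
    exact this.1 (sep_right _ _ _ _ (e2.mp h'))
  · have h' : Sep z x y w := e1.mpr (e2.mpr h)
    have := sep_unique _ _ _ _ h'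
    exact this.2 h

/-- A finite group of exponent three with more than three elements has no free separation
preserving orbit in `S`. -/
theorem no_free_orbit {D : Type*} [Group D] [Finite D] (hexp : ∀ d : D, d ^ 3 = 1)
    (hcard : 3 < Nat.card D) (F : D → S) (hF : Function.Injective F)
    (hinv : ∀ e a b c d, Sep (F (e * a)) (F (e * b)) (F (e * c)) (F (e * d)) ↔
      Sep (F a) (F b) (F c) (F d)) : False := by
  classical
  haveI := Fintype.ofFinite D
  have hcard' : 3 < Fintype.card D := by rwa [Nat.card_eq_fintype_card] at hcard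
  -- choose an adjacent element
  have hadj : ∃ c : D, c ≠ 1 ∧ ∀ d d', d ≠ 1 → d ≠ c → d' ≠ 1 → d' ≠ c →
      ¬ Sep (F 1) (F c) (F d) (F d') := by
    by_cases hex : ∃ d, F 1 < F d
    · have hne : (Finset.univ.filter fun d => F 1 < F d).Nonempty := by
        obtain ⟨d, hd⟩ := hex
        exact ⟨d, by simp [hd]⟩
      obtain ⟨c, hc, hmin⟩ := Finset.exists_min_image _ F hne
      rw [Finset.mem_filter] at hc
      refine ⟨c, ?_, ?_⟩
      · rintro rfl
        exact lt_irrefl _ hc.2
      · intro d d' h1 h2 h3 h4 hs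
        have nb : ∀ x, ¬ Between (F 1) (F c) (F x) := by
          intro x hx
          rcases hx with ⟨hx1, hx2⟩ | ⟨hx1, hx2⟩
          · have := hmin x (by simp [hx1])
            exact absurd hx2 (not_lt.mpr this)
          · exact absurd (hx1.trans hx2) (not_lt.mpr hc.2.le)
        have := hs.2.2.2.2.2.2
        exact (nb d) (this.mpr (nb d'))
    · push Not at hex
      have hne : (Finset.univ.filter fun d : D => d ≠ 1).Nonempty := by
        by_contra hemp
        rw [Finset.not_nonempty_iff_eq_empty, Finset.filter_eq_empty_iff] at hemp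
        have hsub : Subsingleton D := ⟨fun a b => by
          have ha := hemp (Finset.mem_univ a)
          have hb := hemp (Finset.mem_univ b)
          push Not at ha hb
          rw [ha, hb]⟩
        have := Fintype.card_le_one_iff_subsingleton.mpr hsub
        omega
      obtain ⟨c, hc, hmin⟩ := Finset.exists_min_image _ F hne
      rw [Finset.mem_filter] at hc
      refine ⟨c, hc.2, ?_⟩
      intro d d' h1 h2 h3 h4 hs
      have nb : ∀ x, x ≠ 1 → x ≠ c → Between (F 1) (F c) (F x) := by
        intro x hx1 hxc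
        right
        constructor
        · exact lt_of_le_of_ne (hmin x (by simp [hx1])) (fun h => hxc (hF h).symm)
        · exact lt_of_le_of_ne (hex x) (fun h => hx1 (hF h))
      have := hs.2.2.2.2.2.2
      exact (this.mp (nb d h1 h2)) (nb d' h3 h4)
  obtain ⟨c, hc1, hc⟩ := hadj
  have hc3 : c ^ 3 = 1 := hexp c
  have hcc : c * c ≠ 1 := by
    intro h
    apply hc1
    calc c = c ^ 3 * (c * c)⁻¹ := by group
      _ = 1 := by rw [hc3, h]; simp
  have hccc : c * c * c = 1 := by
    rw [← hc3, pow_succ, pow_two]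
  have hcc' : c * c ≠ c := by
    intro h
    apply hc1
    exact mul_eq_left.mp h
  obtain ⟨z, hz⟩ : ∃ z : D, z ∉ ({1, c, c * c} : Finset D) := by
    by_contra hall
    push Not at hall
    have h1 : (Finset.univ : Finset D) ⊆ {1, c, c * c} := fun x _ => hall x
    have h2 := Finset.card_le_card h1
    have h3 : ({1, c, c * c} : Finset D).card ≤ 3 := Finset.card_le_three
    rw [Finset.card_univ] at h2
    omega
  simp only [Finset.mem_insert, Finset.mem_singleton, not_or] at hz
  obtain ⟨hz1, hz2, hz3⟩ := hz
  -- translated adjacency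
  have hA1 : ∀ d d', d ≠ c → d ≠ c * c → d' ≠ c → d' ≠ c * c →
      ¬ Sep (F c) (F (c * c)) (F d) (F d') := by
    intro d d' h1 h2 h3 h4 hs
    have := (hinv c⁻¹ c (c * c) d d').mpr hs
    rw [inv_mul_cancel, inv_mul_cancel_left] at this
    refine hc _ _ ?_ ?_ ?_ ?_ this
    · intro h; exact h1 (inv_mul_eq_one.mp h).symm
    · intro h; exact h2 (inv_mul_eq_iff_eq_mul.mp h)
    · intro h; exact h3 (inv_mul_eq_one.mp h).symm
    · intro h; exact h4 (inv_mul_eq_iff_eq_mul.mp h)
  have hA2 : ∀ d d', d ≠ c * c → d ≠ 1 → d' ≠ c * c → d' ≠ 1 →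
      ¬ Sep (F (c * c)) (F 1) (F d) (F d') := by
    intro d d' h1 h2 h3 h4 hs
    have e : (1 : D) = c * (c * c) := by rw [← mul_assoc, hccc]
    have hs' : Sep (F (c * c)) (F (c * (c * c))) (F (c * (c⁻¹ * d))) (F (c * (c⁻¹ * d'))) := by
      rw [← e, mul_inv_cancel_left, mul_inv_cancel_left]
      exact hs
    have := (hinv c c (c * c) (c⁻¹ * d) (c⁻¹ * d')).mp hs'
    refine hA1 _ _ ?_ ?_ ?_ ?_ this
    · intro h; exact h1 (inv_mul_eq_iff_eq_mul.mp h)
    · intro h; exact h2 (by rw [e]; exact inv_mul_eq_iff_eq_mul.mp h)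
    · intro h; exact h3 (inv_mul_eq_iff_eq_mul.mp h)
    · intro h; exact h4 (by rw [e]; exact inv_mul_eq_iff_eq_mul.mp h)
  rcases sep_exists (F 1) (F c) (F (c * c)) (F z) (fun h => hc1 (hF h).symm)
    (fun h => hcc (hF h).symm) (fun h => hz1 (hF h).symm) (fun h => hcc' (hF h).symm)
    (fun h => hz2 (hF h).symm) (fun h => hz3 (hF h).symm) with h | h | h
  · exact hc _ _ hcc hcc' hz1 hz2 h
  · -- Sep 1 cc c z
    have h' : Sep (F (c * c)) (F 1) (F c) (F z) := by
      have h1 := sep_swap _ _ _ _ h
      have h2 := sep_right _ _ _ _ h1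
      exact sep_swap _ _ _ _ h2
    exact hA2 _ _ (Ne.symm hcc') hc1 hz3 hz1 h'
  · have h' := sep_swap _ _ _ _ h
    exact hA1 _ _ (Ne.symm hc1) (Ne.symm hcc) hz2 hz3 h'

theorem perm_apply_inv {α : Type*} (g : Equiv.Perm α) (x : α) : g (g⁻¹ x) = x :=
  g.apply_symm_apply x

theorem perm_inv_apply {α : Type*} (g : Equiv.Perm α) (x : α) : g⁻¹ (g x) = x :=
  g.symm_apply_apply x

/-- A tree of circles of order `n`: a tree with two kinds of vertices, circles and points; circles
are adjacent only to points and points only to circles; every point is adjacent to exactly `n`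
circles; for every circle `c`, the map `χ c` is a bijection of the set of the points adjacent to `c`
onto `S` (so that the set of the points of `c` is identified with a countable dense subset of a
circle). -/
structure CircleTree (n : ℕ) where
  /-- vertices -/
  V : Type
  /-- the graph -/
  G : SimpleGraph V
  /-- the set of the circles -/
  circ : Set V
  /-- the charts -/
  χ : V → V → S
  tree : G.IsTree
  bip : ∀ u v, G.Adj u v → (u ∈ circ ↔ v ∉ circ)
  deg : ∀ v, v ∉ circ → (G.neighborSet v).encard = n
  chart : ∀ v, v ∈ circ → Set.BijOn (χ v) (G.neighborSet v) Set.univ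

/-- The bijection `σ` of `S` preserves the separation relation. -/
def PreservesSep (σ : Equiv.Perm S) : Prop :=
  ∀ a b c d, Sep (σ a) (σ b) (σ c) (σ d) ↔ Sep a b c d

theorem preservesSep_mul {σ τ : Equiv.Perm S} (hσ : PreservesSep σ) (hτ : PreservesSep τ) :
    PreservesSep (σ * τ) := fun a b c d => by
  rw [Equiv.Perm.mul_apply, Equiv.Perm.mul_apply, Equiv.Perm.mul_apply, Equiv.Perm.mul_apply, hσ,
    hτ]

theorem preservesSep_one : PreservesSep 1 := fun _ _ _ _ => Iff.rfl

theorem preservesSep_inv {σ : Equiv.Perm S} (hσ : PreservesSep σ) : PreservesSep σ⁻¹ :=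
  fun a b c d => by
    have := hσ (σ⁻¹ a) (σ⁻¹ b) (σ⁻¹ c) (σ⁻¹ d)
    simp only [perm_apply_inv] at this
    exact this.symm

/-- The group `Aut(S)` of the bijections of `S` that preserve the separation relation. -/
def AutS : Subgroup (Equiv.Perm S) where
  carrier := {σ | PreservesSep σ}
  mul_mem' := preservesSep_mul
  one_mem' := preservesSep_one
  inv_mem' := preservesSep_inv

/-- The bijection `g` of the set of the vertices is an automorphism of the graph. -/
def IsGraphAut {V : Type} (G : SimpleGraph V) (g : V → V) : Prop :=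
  ∀ u v, G.Adj (g u) (g v) ↔ G.Adj u v

/-- The local action of `g` at the vertex `v`, the bijection `χ (g v) ∘ g ∘ (χ v)⁻¹` of `S`,
belongs to `Aut(S)`: it is the restriction of `σ ∈ Aut(S)`. -/
def LocalAut {V : Type} (G : SimpleGraph V) (χ : V → V → S) (g : V → V) (v : V) : Prop :=
  ∃ σ ∈ AutS, ∀ u, G.Adj v u → χ (g v) (g u) = σ (χ v u)

/-- The bijection `g` of the set of the vertices of a tree of circles is an automorphism of the tree
that preserves the two types of vertices and its local action at every circle belongs to `Aut(S)`;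
there is no restriction on the local action at the points. -/
def IsUniversal {n : ℕ} (T : CircleTree n) (g : T.V → T.V) : Prop :=
  IsGraphAut T.G g ∧ (∀ v, g v ∈ T.circ ↔ v ∈ T.circ) ∧ ∀ v ∈ T.circ, LocalAut T.G T.χ g v

theorem isUniversal_mul {n : ℕ} {T : CircleTree n} {g h : Equiv.Perm T.V}
    (hg : IsUniversal T g) (hh : IsUniversal T h) : IsUniversal T ⇑(g * h) := by
  obtain ⟨g1, g2, g3⟩ := hg
  obtain ⟨h1, h2, h3⟩ := hh
  refine ⟨fun u v => ?_, fun v => ?_, fun v hv => ?_⟩
  · rw [Equiv.Perm.mul_apply, Equiv.Perm.mul_apply, g1, h1]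
  · rw [Equiv.Perm.mul_apply, g2, h2]
  · obtain ⟨σ, hσ, h4⟩ := h3 v hv
    obtain ⟨τ, hτ, h5⟩ := g3 (h v) ((h2 v).mpr hv)
    refine ⟨τ * σ, AutS.mul_mem hτ hσ, fun u hu => ?_⟩
    rw [Equiv.Perm.mul_apply, Equiv.Perm.mul_apply, h5 (h u) ((h1 v u).mpr hu), h4 u hu]
    rfl

theorem isUniversal_one {n : ℕ} {T : CircleTree n} : IsUniversal T ⇑(1 : Equiv.Perm T.V) :=
  ⟨fun _ _ => Iff.rfl, fun _ => Iff.rfl, fun v _ => ⟨1, AutS.one_mem, fun _ _ => rfl⟩⟩

theorem isUniversal_inv {n : ℕ} {T : CircleTree n} {g : Equiv.Perm T.V}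
    (hg : IsUniversal T g) : IsUniversal T ⇑g⁻¹ := by
  obtain ⟨g1, g2, g3⟩ := hg
  refine ⟨fun u v => ?_, fun v => ?_, fun v hv => ?_⟩
  · have := g1 (g⁻¹ u) (g⁻¹ v)
    simp only [perm_apply_inv] at this
    exact this.symm
  · have := g2 (g⁻¹ v)
    simp only [perm_apply_inv] at this
    exact this.symm
  · have hv' : g⁻¹ v ∈ T.circ := by
      have := g2 (g⁻¹ v)
      simp only [perm_apply_inv] at this
      exact this.mp hv
    obtain ⟨σ, hσ, h4⟩ := g3 (g⁻¹ v) hv'
    refine ⟨σ⁻¹, AutS.inv_mem hσ, fun u hu => ?_⟩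
    have h5 : T.G.Adj (g⁻¹ v) (g⁻¹ u) := by
      have := g1 (g⁻¹ v) (g⁻¹ u)
      simp only [perm_apply_inv] at this
      exact this.mp hu
    have h6 := h4 (g⁻¹ u) h5
    simp only [perm_apply_inv] at h6
    rw [h6, perm_inv_apply]

/-- The group `G` embeds into the group `H` (as an abstract group). -/
def EmbedsInto (G H : Type) [Group G] [Group H] : Prop := ∃ f : G →* H, Function.Injective f

/-- The universal group `𝓤(Sym([n]), Aut(S))` of a tree of circles of order `n`. -/
def universalGroup {n : ℕ} (T : CircleTree n) : Subgroup (Equiv.Perm T.V) where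
  carrier := {g | IsUniversal T g}
  mul_mem' := isUniversal_mul
  one_mem' := isUniversal_one
  inv_mem' := isUniversal_inv

theorem sep_inv {n : ℕ} (T : CircleTree n) {g : Equiv.Perm T.V} (hg : g ∈ universalGroup T)
    {v : T.V} (hv : v ∈ T.circ) {a b c d : T.V} (ha : T.G.Adj v a) (hb : T.G.Adj v b)
    (hc : T.G.Adj v c) (hd : T.G.Adj v d) :
    Sep (T.χ (g v) (g a)) (T.χ (g v) (g b)) (T.χ (g v) (g c)) (T.χ (g v) (g d)) ↔
      Sep (T.χ v a) (T.χ v b) (T.χ v c) (T.χ v d) := by
  obtain ⟨σ, hσ, h⟩ := hg.2.2 v hv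
  rw [h a ha, h b hb, h c hc, h d hd]
  exact hσ _ _ _ _

/-- In the order three case, an element of order three of the universal group that fixes an edge is
trivial. -/
theorem fix_edge (T : CircleTree 3) {g : Equiv.Perm T.V} (hg : g ∈ universalGroup T)
    (h3 : g ^ 3 = 1) {v w : T.V} (hvw : T.G.Adj v w) (hv : g v = v) (hw : g w = w) : g = 1 := by
  have hggg : ∀ x, g (g (g x)) = x := by
    intro x
    have := congrArg (fun f : Equiv.Perm T.V => f x) h3
    simpa [pow_succ, Equiv.Perm.mul_apply] using this
  -- step: all the neighbours of v are fixed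
  have step : ∀ v w : T.V, T.G.Adj v w → g v = v → g w = w → ∀ u, T.G.Adj v u → g u = u := by
    intro v w hvw hv hw u hu
    have adjg : ∀ x, T.G.Adj v x → T.G.Adj v (g x) := by
      intro x hx
      have := (hg.1 v x).mpr hx
      rwa [hv] at this
    by_contra hne
    have hne2 : g (g u) ≠ u := by
      intro h
      apply hne
      have := hggg u
      rw [h] at this
      exact this
    have hne3 : g u ≠ g (g u) := fun h => hne (g.injective h).symm
    have hwu : w ≠ u := by
      rintro rfl
      exact hne hw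
    have hwgu : w ≠ g u := by
      intro h
      apply hwu
      apply g.injective
      rw [hw, h]
    have hwggu : w ≠ g (g u) := by
      intro h
      apply hwgu
      apply g.injective
      rw [hw, h]
    by_cases hc : v ∈ T.circ
    · have hbij := T.chart v hc
      have inj : ∀ x y, T.G.Adj v x → T.G.Adj v y → x ≠ y → T.χ v x ≠ T.χ v y := by
        intro x y hx hy hxy h
        exact hxy (hbij.injOn hx hy h)
      have au := hu
      have agu := adjg u hu
      have aggu := adjg _ agu
      have e1 := sep_inv T hg hc hvw au agu aggu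
      have e2 := sep_inv T hg hc hvw agu aggu au
      rw [hv, hw, hggg] at e1 e2
      exact no_rot (T.χ v w) (T.χ v u) (T.χ v (g u)) (T.χ v (g (g u)))
        (inj _ _ hvw au hwu) (inj _ _ hvw agu hwgu) (inj _ _ hvw aggu hwggu)
        (inj _ _ au agu (Ne.symm hne)) (inj _ _ au aggu (Ne.symm hne2)) (inj _ _ agu aggu hne3)
        e1.symm e2.symm
    · have hd := T.deg v hc
      have hsub : ({w, u, g u, g (g u)} : Set T.V) ⊆ T.G.neighborSet v := by
        intro x hx
        simp only [mem_insert_iff, mem_singleton_iff] at hx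
        rcases hx with rfl | rfl | rfl | rfl
        · exact hvw
        · exact hu
        · exact adjg _ hu
        · exact adjg _ (adjg _ hu)
      have hle := Set.encard_le_encard hsub
      rw [hd] at hle
      have h4 : ({w, u, g u, g (g u)} : Set T.V).encard = 4 := by
        rw [Set.encard_insert_of_notMem, Set.encard_insert_of_notMem,
          Set.encard_insert_of_notMem, Set.encard_singleton]
        · norm_num
        · simpa using hne3
        · simp only [mem_insert_iff, mem_singleton_iff, not_or]
          exact ⟨Ne.symm hne, Ne.symm hne2⟩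
        · simp only [mem_insert_iff, mem_singleton_iff, not_or]
          exact ⟨hwu, hwgu, hwggu⟩
      rw [h4] at hle
      norm_num at hle
  -- propagate along walks
  have prop : ∀ {a b : T.V} (p : T.G.Walk a b) (c : T.V), T.G.Adj c a → g c = c → g a = a →
      g b = b := by
    intro a b p
    induction p with
    | nil => intro c _ _ h; exact h
    | @cons u v w h q ih =>
      intro c hc hgc hgu
      exact ih u h hgu (step u c hc.symm hgu hgc v h)
  ext x
  obtain ⟨p⟩ := T.tree.connected v x
  have := prop p w hvw.symm hw hv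
  rw [this]
  rfl

/-- In the order three case, a finite group of exponent three with more than three elements does
not embed into the universal group. -/
theorem no_embed (T : CircleTree 3) {D : Type*} [Group D] [Finite D]
    (hexp : ∀ d : D, d ^ 3 = 1) (hcard : 3 < Nat.card D) (ρ : D →* universalGroup T)
    (hρ : Function.Injective ρ) : False := by
  let ρ' : D →* Equiv.Perm T.V := (universalGroup T).subtype.comp ρ
  have hρ' : Function.Injective ρ' := (Subtype.val_injective).comp hρ
  have hmem : ∀ d, ρ' d ∈ universalGroup T := fun d => (ρ d).2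
  obtain ⟨v, hv⟩ := TreeFix.exists_fixed T.tree T.circ T.bip ρ' (fun d => (hmem d).1)
    (fun d => (hmem d).2.1)
  have h3 : ∀ d, ρ' d ^ 3 = 1 := by
    intro d
    rw [← map_pow, hexp, map_one]
  -- nontrivial elements move all the neighbours of v
  have free : ∀ d u, T.G.Adj v u → ρ' d u = u → d = 1 := by
    intro d u hu hd
    have := fix_edge T (hmem d) (h3 d) hu (hv d) hd
    apply hρ'
    rw [this, map_one]
  have adj : ∀ d u, T.G.Adj v u → T.G.Adj v (ρ' d u) := by
    intro d u hu
    have := ((hmem d).1 v u).mpr hu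
    rwa [hv] at this
  obtain ⟨u, hu⟩ : ∃ u, T.G.Adj v u := by
    by_cases hc : v ∈ T.circ
    · obtain ⟨u, hu, -⟩ := (T.chart v hc).surjOn (mem_univ (⟨0, by norm_num, by norm_num⟩ : S))
      exact ⟨u, hu⟩
    · have hd := T.deg v hc
      by_contra hne
      push Not at hne
      have : T.G.neighborSet v = ∅ := by
        ext x
        simp [hne x]
      rw [this, Set.encard_empty] at hd
      norm_num at hd
  have inj : Function.Injective fun d => ρ' d u := by
    intro a b hab
    have h1 : ρ' (b⁻¹ * a) u = u := by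
      rw [map_mul, Equiv.Perm.mul_apply]
      have hab' : ρ' a u = ρ' b u := hab
      rw [hab', ← Equiv.Perm.mul_apply, ← map_mul, inv_mul_cancel, map_one]
      rfl
    have := free _ u hu h1
    exact (inv_mul_eq_one.mp this).symm
  by_cases hc : v ∈ T.circ
  · refine no_free_orbit hexp hcard (fun d => T.χ v (ρ' d u)) ?_ ?_
    · intro a b hab
      exact inj ((T.chart v hc).injOn (adj a u hu) (adj b u hu) hab)
    · intro e a b c d
      have := sep_inv T (hmem e) hc (adj a u hu) (adj b u hu) (adj c u hu) (adj d u hu)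
      rw [hv e] at this
      simp only [map_mul, Equiv.Perm.mul_apply]
      exact this
  · have hd := T.deg v hc
    have hsub : range (fun d => ρ' d u) ⊆ T.G.neighborSet v := by
      rintro _ ⟨d, rfl⟩
      exact adj d u hu
    have hle := Set.encard_le_encard hsub
    rw [hd] at hle
    have hr : (range fun d => ρ' d u).encard = ENat.card D := by
      rw [← Set.image_univ, inj.encard_image, Set.encard_univ]
    rw [hr] at hle
    have : ENat.card D = (Nat.card D : ℕ∞) := (ENat.card_eq_coe_natCard D)
    rw [this] at hle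
    have h4 : Nat.card D ≤ 3 := by exact_mod_cast hle
    omega

end Pool.Agent.R627.RabbitGroup
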