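import Pool.Agent.R627.RabbitGroup

set_option linter.style.haveILetI false

/-!
# The standard tree of circles of order `m + 1`
-/

namespace Pool.Agent.R627.RabbitStd

open Set Pool.Agent.R627.RabbitGroup

/-! ### Trees from parent functions -/

section Parent

variable {V : Type*} (par : V → Option V)

/-- iterated parent -/
def anc : ℕ → V → Option V
  | 0, u => some u
  | k + 1, u => (par u).bind (anc k)

theorem anc_dep {dep : V → ℕ} (hdep : ∀ v w, par v = some w → dep v = dep w + 1) (k : ℕ) :
    ∀ u v, anc par k u = some v → dep v ≤ dep u := by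
  induction k with
  | zero =>
    intro u v h
    simp only [anc, Option.some.injEq] at h
    rw [h]
  | succ k ih =>
    intro u v h
    simp only [anc, Option.bind_eq_some_iff] at h
    obtain ⟨u1, h1, h2⟩ := h
    have := ih u1 v h2
    have := hdep u u1 h1
    omega

theorem isTree_of_parent (dep : V → ℕ) (r : V)
    (hpar : ∀ v, v ≠ r → ∃ w, par v = some w)
    (hdep : ∀ v w, par v = some w → dep v = dep w + 1) (G : SimpleGraph V)
    (hG : ∀ u v, G.Adj u v ↔ par u = some v ∨ par v = some u) : G.IsTree := by
  have hconn : ∀ n v, dep v = n → G.Reachable r v := by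
    intro n
    induction n using Nat.strong_induction_on with
    | _ n ih =>
      intro v hv
      by_cases h : v = r
      · rw [h]
      · obtain ⟨w, hw⟩ := hpar v h
        have h1 := hdep v w hw
        have h2 := ih (dep w) (by omega) w rfl
        exact h2.trans (SimpleGraph.Adj.reachable ((hG w v).mpr (Or.inr hw)))
  have hC : G.Connected := by
    haveI : Nonempty V := ⟨r⟩
    exact ⟨fun u v => (hconn _ u rfl).symm.trans (hconn _ v rfl)⟩
  refine ⟨hC, ?_⟩
  rw [SimpleGraph.isAcyclic_iff_forall_adj_isBridge]
  have key : ∀ v w, par v = some w → ¬ (G.deleteEdges {s(v, w)}).Reachable v w := by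
    intro v w hvw hre
    obtain ⟨p⟩ := hre
    have hclosed : ∀ {a b : V} (p : (G.deleteEdges {s(v, w)}).Walk a b),
        (∃ k, anc par k a = some v) → ∃ k, anc par k b = some v := by
      intro a b p
      induction p with
      | nil => exact id
      | @cons a c b hac q ih =>
        intro ha
        apply ih
        rw [SimpleGraph.deleteEdges_adj] at hac
        obtain ⟨hadj, hne⟩ := hac
        obtain ⟨k, hk⟩ := ha
        rcases (hG a c).mp hadj with h | h
        · cases k with
          | zero =>
            simp only [anc, Option.some.injEq] at hk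
            rw [hk] at h hne
            rw [hvw, Option.some.injEq] at h
            rw [h] at hne
            exact absurd rfl hne
          | succ k =>
            simp only [anc, h, Option.bind_some] at hk
            exact ⟨k, hk⟩
        · refine ⟨k + 1, ?_⟩
          simp only [anc, h, Option.bind_some]
          exact hk
    obtain ⟨k, hk⟩ := hclosed p ⟨0, rfl⟩
    have h1 := anc_dep par hdep k w v hk
    have h2 := hdep v w hvw
    omega
  intro v w hvw
  rw [SimpleGraph.isBridge_iff]
  rcases (hG v w).mp hvw with h | h
  · exact key v w h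
  · intro hre
    apply key w v h
    rw [Sym2.eq_swap]
    exact hre.symm

end Parent

/-! ### The standard tree -/

theorem zero_mem : (0 : ℚ) ≤ 0 ∧ (0 : ℚ) < 1 := ⟨le_rfl, zero_lt_one⟩

/-- the base point of `S` -/
def S0 : S := ⟨0, zero_mem⟩

/-- the nonzero elements of `S` -/
abbrev SS : Type := {s : S // s ≠ S0}

/-- Steps: from a circle through the point of position `s` to the `j`-th further circle. -/
abbrev Step (m : ℕ) : Type := SS × Fin m

/-- The vertices of the standard tree of order `m + 1`. The circles are the pairs `(k, L)`, where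
`k : Fin (m + 1)` is the index of a circle through the root point and `L` is a list of steps, the
last step being the head of the list. The points are the root and the points of position `s ≠ 0` of
the circles; the position `0` of a circle is occupied by the point through which it is entered. -/
inductive Vt (m : ℕ) : Type
  /-- the root point -/
  | root : Vt m
  /-- the point of position `s` on the circle `(k, L)` -/
  | pt (k : Fin (m + 1)) (L : List (Step m)) (s : SS) : Vt m
  /-- the circle `(k, L)` -/
  | ci (k : Fin (m + 1)) (L : List (Step m)) : Vt m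

variable {m : ℕ}

/-- The point through which a circle is entered. -/
def entry (k : Fin (m + 1)) : List (Step m) → Vt m
  | [] => Vt.root
  | (s, _) :: L => Vt.pt k L s

/-- The parent. -/
def par : Vt m → Option (Vt m)
  | Vt.root => none
  | Vt.pt k L _ => some (Vt.ci k L)
  | Vt.ci k L => some (entry k L)

/-- The depth. -/
def dep : Vt m → ℕ
  | Vt.root => 0
  | Vt.pt _ L _ => 2 * L.length + 2
  | Vt.ci _ L => 2 * L.length + 1

theorem dep_entry (k : Fin (m + 1)) (L : List (Step m)) : dep (entry k L) = 2 * L.length := by
  cases L with
  | nil => rfl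
  | cons a L => obtain ⟨s, j⟩ := a; simp only [entry, dep, List.length_cons]; ring

theorem par_dep (v w : Vt m) (h : par v = some w) : dep v = dep w + 1 := by
  cases v with
  | root => simp [par] at h
  | pt k L s =>
    simp only [par, Option.some.injEq] at h
    rw [← h]
    rfl
  | ci k L =>
    simp only [par, Option.some.injEq] at h
    rw [← h, dep_entry]
    rfl

theorem par_loopless (u : Vt m) (h : par u = some u ∨ par u = some u) : False := by
  have : par u = some u := by tauto
  have := par_dep u u this
  omega

/-- The standard tree as a graph. -/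
def graph (m : ℕ) : SimpleGraph (Vt m) where
  Adj u v := par u = some v ∨ par v = some u
  symm := ⟨fun _ _ h => h.symm⟩
  loopless := ⟨par_loopless⟩

/-- the circles -/
def circles (m : ℕ) : Set (Vt m) := {v | ∃ k L, v = Vt.ci k L}

/-- The charts of the standard tree. -/
def chi : Vt m → Vt m → S
  | Vt.ci k L, Vt.pt k' L' s => if k = k' ∧ L = L' then s.1 else S0
  | _, _ => S0

theorem chi_entry (k : Fin (m + 1)) (L : List (Step m)) : chi (Vt.ci k L) (entry k L) = S0 := by
  cases L with
  | nil => rfl
  | cons a L =>
    obtain ⟨s, j⟩ := a
    simp only [entry, chi]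
    rw [if_neg]
    rintro ⟨-, h⟩
    have := congrArg List.length h
    simp at this

theorem chi_pt (k : Fin (m + 1)) (L : List (Step m)) (s : SS) :
    chi (Vt.ci k L) (Vt.pt k L s) = s.1 := by
  simp [chi]

theorem adj_ci (k : Fin (m + 1)) (L : List (Step m)) (u : Vt m) :
    (graph m).Adj (Vt.ci k L) u ↔ u = entry k L ∨ ∃ s, u = Vt.pt k L s := by
  show (par (Vt.ci k L) = some u ∨ par u = some (Vt.ci k L)) ↔ _
  constructor
  · rintro (h | h)
    · left
      simp only [par, Option.some.injEq] at h
      exact h.symm
    · right
      cases u with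
      | root => simp [par] at h
      | pt k' L' s =>
        simp only [par, Option.some.injEq, Vt.ci.injEq] at h
        exact ⟨s, by rw [h.1, h.2]⟩
      | ci k' L' =>
        exfalso
        simp only [par, Option.some.injEq] at h
        cases L' with
        | nil => simp [entry] at h
        | cons a L' => obtain ⟨s, j⟩ := a; simp [entry] at h
  · rintro (h | ⟨s, h⟩)
    · left
      rw [h]
      rfl
    · right
      rw [h]
      rfl

theorem entry_eq_root {k : Fin (m + 1)} {L : List (Step m)} (h : entry k L = Vt.root) :
    L = [] := by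
  cases L with
  | nil => rfl
  | cons a L => obtain ⟨s, j⟩ := a; simp [entry] at h

theorem adj_root (u : Vt m) : (graph m).Adj Vt.root u ↔ ∃ k, u = Vt.ci k [] := by
  show (par Vt.root = some u ∨ par u = some Vt.root) ↔ _
  constructor
  · rintro (h | h)
    · simp [par] at h
    · cases u with
      | root => simp [par] at h
      | pt k' L' s => simp [par] at h
      | ci k' L' =>
        simp only [par, Option.some.injEq] at h
        exact ⟨k', by rw [entry_eq_root h]⟩
  · rintro ⟨k, h⟩
    right
    rw [h]
    rfl

theorem adj_pt (k : Fin (m + 1)) (L : List (Step m)) (s : SS) (u : Vt m) :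
    (graph m).Adj (Vt.pt k L s) u ↔ u = Vt.ci k L ∨ ∃ j, u = Vt.ci k ((s, j) :: L) := by
  show (par (Vt.pt k L s) = some u ∨ par u = some (Vt.pt k L s)) ↔ _
  constructor
  · rintro (h | h)
    · left
      simp only [par, Option.some.injEq] at h
      exact h.symm
    · right
      cases u with
      | root => simp [par] at h
      | pt k' L' s' => simp [par] at h
      | ci k' L' =>
        simp only [par, Option.some.injEq] at h
        cases L' with
        | nil => simp [entry] at h
        | cons a L' =>
          obtain ⟨s', j⟩ := a
          simp only [entry, Vt.pt.injEq] at h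
          obtain ⟨h1, h2, h3⟩ := h
          exact ⟨j, by rw [h1, h2, h3]⟩
  · rintro (h | ⟨j, h⟩)
    · left
      rw [h]
      rfl
    · right
      rw [h]
      rfl

theorem encard_fin (n : ℕ) {α : Type*} (f : Fin n → α) (hf : Function.Injective f) :
    (range f).encard = n := by
  rw [← image_univ, hf.encard_image, encard_univ, ENat.card_eq_coe_fintype_card, Fintype.card_fin]

theorem std_tree (m : ℕ) : (graph m).IsTree := by
  refine isTree_of_parent par dep Vt.root ?_ par_dep (graph m) (fun u v => Iff.rfl)
  intro v hv
  cases v with
  | root => exact absurd rfl hv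
  | pt k L s => exact ⟨_, rfl⟩
  | ci k L => exact ⟨_, rfl⟩

theorem std_bip (u v : Vt m) (h : (graph m).Adj u v) : u ∈ circles m ↔ v ∉ circles m := by
  cases u with
  | root =>
    obtain ⟨k, rfl⟩ := (adj_root v).mp h
    constructor
    · rintro ⟨k', L', h'⟩
      exact absurd h' (by simp)
    · intro h'
      exact absurd ⟨k, [], rfl⟩ h'
  | pt k L s =>
    constructor
    · rintro ⟨k', L', h'⟩
      exact absurd h' (by simp)
    · intro h'
      rcases (adj_pt k L s v).mp h with rfl | ⟨j, rfl⟩
      · exact absurd ⟨_, _, rfl⟩ h'
      · exact absurd ⟨_, _, rfl⟩ h'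
  | ci k L =>
    constructor
    · rintro -
      rcases (adj_ci k L v).mp h with rfl | ⟨s, rfl⟩
      · rintro ⟨k', L', h'⟩
        cases L with
        | nil => simp [entry] at h'
        | cons a L => obtain ⟨s, j⟩ := a; simp [entry] at h'
      · rintro ⟨k', L', h'⟩
        exact absurd h' (by simp)
    · rintro -
      exact ⟨k, L, rfl⟩

theorem std_deg (v : Vt m) (hv : v ∉ circles m) :
    ((graph m).neighborSet v).encard = (m + 1 : ℕ) := by
  cases v with
  | root =>
    have : (graph m).neighborSet Vt.root = range fun k : Fin (m + 1) => Vt.ci k [] := by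
      ext u
      rw [SimpleGraph.mem_neighborSet, adj_root]
      simp only [mem_range, eq_comm]
    rw [this, encard_fin]
    intro a b hab
    simpa using hab
  | pt k L s =>
    have : (graph m).neighborSet (Vt.pt k L s) =
        insert (Vt.ci k L) (range fun j : Fin m => Vt.ci k ((s, j) :: L)) := by
      ext u
      rw [SimpleGraph.mem_neighborSet, adj_pt, mem_insert_iff]
      simp only [mem_range, eq_comm]
    rw [this, encard_insert_of_notMem, encard_fin]
    · push_cast
      rfl
    · intro a b hab
      simpa using hab
    · rintro ⟨j, hj⟩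
      simp only [Vt.ci.injEq, true_and] at hj
      have := congrArg List.length hj
      simp at this
  | ci k L => exact absurd ⟨k, L, rfl⟩ hv

theorem std_chart (v : Vt m) (hv : v ∈ circles m) :
    Set.BijOn (chi v) ((graph m).neighborSet v) Set.univ := by
  obtain ⟨k, L, rfl⟩ := hv
  refine ⟨fun _ _ => mem_univ _, ?_, ?_⟩
  · intro a ha b hb hab
    rw [SimpleGraph.mem_neighborSet, adj_ci] at ha hb
    rcases ha with rfl | ⟨s, rfl⟩ <;> rcases hb with rfl | ⟨t, rfl⟩
    · rfl
    · rw [chi_entry, chi_pt] at hab
      exact absurd hab.symm t.2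
    · rw [chi_entry, chi_pt] at hab
      exact absurd hab s.2
    · rw [chi_pt, chi_pt] at hab
      rw [Subtype.ext hab]
  · intro s _
    by_cases hs : s = S0
    · exact ⟨entry k L, (adj_ci k L _).mpr (Or.inl rfl), by rw [chi_entry, hs]⟩
    · exact ⟨Vt.pt k L ⟨s, hs⟩, (adj_ci k L _).mpr (Or.inr ⟨_, rfl⟩), by rw [chi_pt]⟩

/-- The standard tree of circles of order `m + 1`. -/
def std (m : ℕ) : CircleTree (m + 1) where
  V := Vt m
  G := graph m
  circ := circles m
  χ := chi
  tree := std_tree m
  bip := std_bip
  deg := std_deg
  chart := std_chart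

/-! ### Some elements of the universal group -/

/-- Modify the first step of a word. -/
def modw (e : SS → Equiv.Perm (Fin m)) : List (Step m) → List (Step m)
  | [] => []
  | [(s, j)] => [(s, e s j)]
  | a :: b :: L => a :: modw e (b :: L)

theorem modw_mul (e f : SS → Equiv.Perm (Fin m)) (L : List (Step m)) :
    modw (e * f) L = modw e (modw f L) := by
  induction L with
  | nil => rfl
  | cons a L ih =>
    cases L with
    | nil => obtain ⟨s, j⟩ := a; rfl
    | cons b L =>
      rw [modw, ih]
      cases L with
      | nil => obtain ⟨t, i⟩ := b; rfl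
      | cons c L => rw [modw, modw, modw, modw]

theorem modw_one (L : List (Step m)) : modw (1 : SS → Equiv.Perm (Fin m)) L = L := by
  induction L with
  | nil => rfl
  | cons a L ih =>
    cases L with
    | nil => obtain ⟨s, j⟩ := a; rfl
    | cons b L => rw [modw, ih]

/-- the action on vertices -/
def actv (e : SS → Equiv.Perm (Fin m)) : Vt m → Vt m
  | Vt.root => Vt.root
  | Vt.pt k L s => Vt.pt k (modw e L) s
  | Vt.ci k L => Vt.ci k (modw e L)

theorem actv_mul (e f : SS → Equiv.Perm (Fin m)) (v : Vt m) :
    actv (e * f) v = actv e (actv f v) := by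
  cases v <;> simp [actv, modw_mul]

theorem actv_one (v : Vt m) : actv (1 : SS → Equiv.Perm (Fin m)) v = v := by
  cases v <;> simp [actv, modw_one]

/-- The action of the group of functions. -/
def act : (SS → Equiv.Perm (Fin m)) →* Equiv.Perm (Vt m) where
  toFun e :=
    { toFun := actv e
      invFun := actv e⁻¹
      left_inv := fun v => by rw [← actv_mul, inv_mul_cancel, actv_one]
      right_inv := fun v => by rw [← actv_mul, mul_inv_cancel, actv_one] }
  map_one' := by ext v; exact actv_one v
  map_mul' e f := by ext v; exact actv_mul e f v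

theorem act_apply (e : SS → Equiv.Perm (Fin m)) (v : Vt m) : act e v = actv e v := rfl

theorem actv_entry (e : SS → Equiv.Perm (Fin m)) (k : Fin (m + 1)) (L : List (Step m)) :
    actv e (entry k L) = entry k (modw e L) := by
  cases L with
  | nil => rfl
  | cons a L =>
    obtain ⟨s, j⟩ := a
    cases L with
    | nil => rfl
    | cons b L => rfl

theorem par_actv (e : SS → Equiv.Perm (Fin m)) (v : Vt m) :
    par (actv e v) = (par v).map (actv e) := by
  cases v with
  | root => rfl
  | pt k L s => rfl
  | ci k L =>
    show some (entry k (modw e L)) = some (actv e (entry k L))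
    rw [actv_entry]

theorem adj_actv (e : SS → Equiv.Perm (Fin m)) (u v : Vt m) :
    (graph m).Adj (actv e u) (actv e v) ↔ (graph m).Adj u v := by
  have hinj : Function.Injective (actv e) := (act e).injective
  show (par (actv e u) = some (actv e v) ∨ par (actv e v) = some (actv e u)) ↔
      (par u = some v ∨ par v = some u)
  rw [par_actv, par_actv]
  have h : ∀ u v : Vt m, (par u).map (actv e) = some (actv e v) ↔ par u = some v := by
    intro u v
    rw [← Option.map_some, (Option.map_injective hinj).eq_iff]
  rw [h, h]

theorem circ_actv (e : SS → Equiv.Perm (Fin m)) (v : Vt m) :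
    actv e v ∈ circles m ↔ v ∈ circles m := by
  cases v with
  | root => exact Iff.rfl
  | pt k L s =>
    constructor
    · rintro ⟨k', L', h⟩
      exact absurd h (by simp [actv])
    · rintro ⟨k', L', h⟩
      exact absurd h (by simp)
  | ci k L => exact ⟨fun _ => ⟨k, L, rfl⟩, fun _ => ⟨k, modw e L, rfl⟩⟩

theorem chi_actv (e : SS → Equiv.Perm (Fin m)) (k : Fin (m + 1)) (L : List (Step m)) (u : Vt m)
    (hu : (graph m).Adj (Vt.ci k L) u) :
    chi (actv e (Vt.ci k L)) (actv e u) = chi (Vt.ci k L) u := by
  rcases (adj_ci k L u).mp hu with rfl | ⟨s, rfl⟩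
  · rw [actv_entry, actv, chi_entry, chi_entry]
  · rw [actv, actv, chi_pt, chi_pt]

theorem act_mem (e : SS → Equiv.Perm (Fin m)) : act e ∈ universalGroup (std m) := by
  refine ⟨fun u v => adj_actv e u v, fun v => circ_actv e v, ?_⟩
  rintro v ⟨k, L, rfl⟩
  exact ⟨1, AutS.one_mem, fun u hu => chi_actv e k L u hu⟩

/-- The homomorphism to the universal group. -/
def actU : (SS → Equiv.Perm (Fin m)) →* universalGroup (std m) :=
  act.codRestrict _ act_mem

theorem actU_inj : Function.Injective (actU (m := m)) := by
  intro e f h
  have h1 : act e = act f := congrArg Subtype.val h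
  funext s
  ext j
  have h2 := congrArg (fun g : Equiv.Perm (Vt m) => g (Vt.ci 0 [(s, j)])) h1
  simp only [act_apply, actv, modw, Vt.ci.injEq, List.cons.injEq, Prod.mk.injEq, true_and,
    and_true] at h2
  rw [h2]

/-- two different positions -/
def s1 : SS := ⟨⟨1 / 2, by norm_num, by norm_num⟩, by
  intro h
  have := congrArg Subtype.val h
  norm_num [S0] at this⟩

/-- two different positions -/
def s2 : SS := ⟨⟨1 / 3, by norm_num, by norm_num⟩, by
  intro h
  have := congrArg Subtype.val h
  norm_num [S0] at this⟩

theorem s1_ne : s1 ≠ s2 := by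
  intro h
  have := congrArg (fun x : SS => (x.1.1 : ℚ)) h
  norm_num [s1, s2] at this

/-- the cyclic group of order three -/
abbrev C3 : Type := alternatingGroup (Fin 3)

open Classical in
/-- The elementary abelian group of order nine in the group of functions. -/
noncomputable def emb : C3 × C3 →* (SS → Equiv.Perm (Fin 3)) where
  toFun x := fun s => if s = s1 then x.1 else if s = s2 then x.2 else 1
  map_one' := by
    funext s
    simp
  map_mul' x y := by
    funext s
    simp only [Pi.mul_apply, Prod.fst_mul, Prod.snd_mul, Subgroup.coe_mul]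
    split_ifs <;> simp

theorem emb_inj : Function.Injective emb := by
  intro x y h
  have h1 := congrFun h s1
  have h2 := congrFun h s2
  simp only [emb, MonoidHom.coe_mk, OneHom.coe_mk, if_true] at h1 h2
  rw [if_neg s1_ne.symm, if_neg s1_ne.symm] at h2
  exact Prod.ext (Subtype.ext h1) (Subtype.ext h2)

theorem C3_exp (x : C3 × C3) : x ^ 3 = 1 := by
  have h : ∀ c : C3, c ^ 3 = 1 := by decide
  exact Prod.ext (h x.1) (h x.2)

theorem C3_card : 3 < Nat.card (C3 × C3) := by
  have : Fintype.card C3 = 3 := by decide
  rw [Nat.card_eq_fintype_card, Fintype.card_prod, this]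
  norm_num

end Pool.Agent.R627.RabbitStd
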