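import Mathlib

/-!
# A finite symplectic `p`-group with a Lagrangian subgroup that admits no compatible splitting

`K = (Z/p^8)^2 x (Z/p^4)^2` with the standard form and
`L = < e_2 - p^2 f_1, p^4 e_1 - p e_2 - p^2 f_2, p^2 e_2 >`.
-/

set_option autoImplicit false
set_option linter.unusedSectionVars false

namespace Pool.Agent.R627.SympFin

/-- The finite group. -/
abbrev Kp (p : ℕ) : Type := ZMod (p ^ 8) × ZMod (p ^ 8) × ZMod (p ^ 4) × ZMod (p ^ 4)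

section

variable (p : ℕ) [NeZero p]

/-- The element with given integer coordinates. -/
def el (a b c d : ℤ) : Kp p := (a, b, c, d)

theorem exists_el (x : Kp p) : ∃ a b c d : ℤ, x = el p a b c d := by
  obtain ⟨a, b, c, d⟩ := x
  obtain ⟨a, rfl⟩ := ZMod.intCast_surjective a
  obtain ⟨b, rfl⟩ := ZMod.intCast_surjective b
  obtain ⟨c, rfl⟩ := ZMod.intCast_surjective c
  obtain ⟨d, rfl⟩ := ZMod.intCast_surjective d
  exact ⟨a, b, c, d, rfl⟩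

theorem el_add (a b c d a' b' c' d' : ℤ) :
    el p a b c d + el p a' b' c' d' = el p (a + a') (b + b') (c + c') (d + d') := by
  simp only [el, Prod.mk_add_mk, Int.cast_add]

theorem el_zsmul (n a b c d : ℤ) :
    n • el p a b c d = el p (n * a) (n * b) (n * c) (n * d) := by
  simp only [el, Prod.smul_mk, zsmul_eq_mul, Int.cast_mul]

theorem el_eq_iff (a b c d a' b' c' d' : ℤ) : el p a b c d = el p a' b' c' d' ↔
    (p : ℤ) ^ 8 ∣ a' - a ∧ (p : ℤ) ^ 8 ∣ b' - b ∧ (p : ℤ) ^ 4 ∣ c' - c ∧ (p : ℤ) ^ 4 ∣ d' - d := by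
  simp only [el, Prod.mk.injEq, ZMod.intCast_eq_intCast_iff_dvd_sub, Nat.cast_pow]

theorem el_eq_zero_iff (a b c d : ℤ) : el p a b c d = 0 ↔
    (p : ℤ) ^ 8 ∣ a ∧ (p : ℤ) ^ 8 ∣ b ∧ (p : ℤ) ^ 4 ∣ c ∧ (p : ℤ) ^ 4 ∣ d := by
  have h0 : (0 : Kp p) = el p 0 0 0 0 := by
    simp only [el, Int.cast_zero]
    rfl
  rw [h0, el_eq_iff]
  simp only [zero_sub, dvd_neg]

theorem exponent (x : Kp p) : (p ^ 8) • x = 0 := by
  obtain ⟨a, b, c, d, rfl⟩ := exists_el p x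
  have h1 : (p ^ 8) • el p a b c d = ((p ^ 8 : ℕ) : ℤ) • el p a b c d := (natCast_zsmul _ _).symm
  rw [h1, el_zsmul, el_eq_zero_iff]
  push_cast
  refine ⟨dvd_mul_right _ _, dvd_mul_right _ _, ?_, ?_⟩
  · exact ⟨(p : ℤ) ^ 4 * c, by ring⟩
  · exact ⟨(p : ℤ) ^ 4 * d, by ring⟩

instance : NeZero (p ^ 8) := ⟨pow_ne_zero _ (NeZero.ne p)⟩
instance : NeZero (p ^ 4) := ⟨pow_ne_zero _ (NeZero.ne p)⟩

/-- The symplectic form. -/
noncomputable def B (x y : Kp p) : UnitAddCircle :=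
  ZMod.toAddCircle (x.1 * y.2.1 - y.1 * x.2.1) +
    ZMod.toAddCircle (x.2.2.1 * y.2.2.2 - y.2.2.1 * x.2.2.2)

theorem B_add_left (x y z : Kp p) : B p (x + y) z = B p x z + B p y z := by
  simp only [B, Prod.fst_add, Prod.snd_add, add_mul, mul_add, map_add, map_sub]
  abel

theorem B_add_right (x y z : Kp p) : B p x (y + z) = B p x y + B p x z := by
  simp only [B, Prod.fst_add, Prod.snd_add, add_mul, mul_add, map_add, map_sub]
  abel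

theorem B_self (x : Kp p) : B p x x = 0 := by
  simp only [B, sub_self, map_zero, add_zero]

theorem B_el (a b c d a' b' c' d' : ℤ) : B p (el p a b c d) (el p a' b' c' d') =
    ((((a * b' - a' * b : ℤ) : ℝ) / (p : ℝ) ^ 8 + ((c * d' - c' * d : ℤ) : ℝ) / (p : ℝ) ^ 4 : ℝ) :
      UnitAddCircle) := by
  have h1 : (a : ZMod (p ^ 8)) * (b' : ZMod (p ^ 8)) - (a' : ZMod (p ^ 8)) * (b : ZMod (p ^ 8)) =
      ((a * b' - a' * b : ℤ) : ZMod (p ^ 8)) := by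
    push_cast; rfl
  have h2 : (c : ZMod (p ^ 4)) * (d' : ZMod (p ^ 4)) - (c' : ZMod (p ^ 4)) * (d : ZMod (p ^ 4)) =
      ((c * d' - c' * d : ℤ) : ZMod (p ^ 4)) := by
    push_cast; rfl
  show ZMod.toAddCircle ((a : ZMod (p ^ 8)) * (b' : ZMod (p ^ 8)) -
      (a' : ZMod (p ^ 8)) * (b : ZMod (p ^ 8))) +
    ZMod.toAddCircle ((c : ZMod (p ^ 4)) * (d' : ZMod (p ^ 4)) -
      (c' : ZMod (p ^ 4)) * (d : ZMod (p ^ 4))) = _
  rw [h1, h2, ZMod.toAddCircle_intCast, ZMod.toAddCircle_intCast, ← AddCircle.coe_add]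
  push_cast
  rfl

theorem B_el_eq_zero_iff (a b c d a' b' c' d' : ℤ) : B p (el p a b c d) (el p a' b' c' d') = 0 ↔
    (p : ℤ) ^ 8 ∣ (a * b' - a' * b) + (p : ℤ) ^ 4 * (c * d' - c' * d) := by
  have hp : (p : ℝ) ≠ 0 := by exact_mod_cast NeZero.ne p
  rw [B_el, AddCircle.coe_eq_zero_iff]
  constructor
  · rintro ⟨n, hn⟩
    refine ⟨n, ?_⟩
    have h1 : (((a * b' - a' * b) + (p : ℤ) ^ 4 * (c * d' - c' * d) : ℤ) : ℝ) =
        (((p : ℤ) ^ 8 * n : ℤ) : ℝ) := by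
      rw [zsmul_eq_mul, mul_one] at hn
      field_simp at hn
      push_cast
      push_cast at hn
      linear_combination -hn
    exact_mod_cast h1
  · rintro ⟨n, hn⟩
    refine ⟨n, ?_⟩
    have h1 : (((a * b' - a' * b) + (p : ℤ) ^ 4 * (c * d' - c' * d) : ℤ) : ℝ) =
        (((p : ℤ) ^ 8 * n : ℤ) : ℝ) := by rw [hn]
    rw [zsmul_eq_mul, mul_one]
    field_simp
    push_cast at h1 ⊢
    linear_combination -h1

theorem nondeg {x : Kp p} (h : ∀ y, B p x y = 0) : x = 0 := by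
  have hp : (p : ℤ) ^ 4 ≠ 0 := pow_ne_zero _ (by exact_mod_cast NeZero.ne p)
  obtain ⟨a, b, c, d, rfl⟩ := exists_el p x
  rw [el_eq_zero_iff]
  have h1 := (B_el_eq_zero_iff p a b c d 0 1 0 0).mp (h _)
  have h2 := (B_el_eq_zero_iff p a b c d 1 0 0 0).mp (h _)
  have h3 := (B_el_eq_zero_iff p a b c d 0 0 0 1).mp (h _)
  have h4 := (B_el_eq_zero_iff p a b c d 0 0 1 0).mp (h _)
  simp only [mul_one, mul_zero, zero_mul, sub_zero, zero_sub, add_zero, zero_add, one_mul,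
    dvd_neg, mul_neg] at h1 h2 h3 h4
  have e : (p : ℤ) ^ 8 = (p : ℤ) ^ 4 * (p : ℤ) ^ 4 := by ring
  rw [e] at h3 h4
  exact ⟨h1, h2, (mul_dvd_mul_iff_left hp).mp h3, (mul_dvd_mul_iff_left hp).mp h4⟩

theorem exists_of_torsion (N : ℕ) [NeZero N] (t : UnitAddCircle) (h : N • t = 0) :
    ∃ k : ZMod N, t = ZMod.toAddCircle k := by
  obtain ⟨r, rfl⟩ := QuotientAddGroup.mk_surjective t
  have hN : (N : ℝ) ≠ 0 := by exact_mod_cast NeZero.ne N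
  have h1 : (((N : ℝ) * r : ℝ) : UnitAddCircle) = 0 := by
    rw [← h, ← nsmul_eq_mul]
    exact AddCircle.coe_nsmul (1 : ℝ)
  obtain ⟨n, hn⟩ := (AddCircle.coe_eq_zero_iff (1 : ℝ)).mp h1
  refine ⟨n, ?_⟩
  rw [ZMod.toAddCircle_intCast]
  show ((r : ℝ) : UnitAddCircle) = _
  congr 1
  rw [zsmul_eq_mul, mul_one] at hn
  rw [hn]
  field_simp

theorem perfect (χ : Kp p →+ UnitAddCircle) : ∃ z, ∀ y, χ y = B p z y := by
  have t1 : (p ^ 8) • χ (el p 1 0 0 0) = 0 := by rw [← map_nsmul, exponent, map_zero]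
  have t2 : (p ^ 8) • χ (el p 0 1 0 0) = 0 := by rw [← map_nsmul, exponent, map_zero]
  have t3 : (p ^ 4) • χ (el p 0 0 1 0) = 0 := by
    have h1 : (p ^ 4) • el p 0 0 1 0 = 0 := by
      have h1 : (p ^ 4) • el p 0 0 1 0 = ((p ^ 4 : ℕ) : ℤ) • el p 0 0 1 0 :=
        (natCast_zsmul _ _).symm
      rw [h1, el_zsmul, el_eq_zero_iff]
      push_cast
      simp
    rw [← map_nsmul, h1, map_zero]
  have t4 : (p ^ 4) • χ (el p 0 0 0 1) = 0 := by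
    have h1 : (p ^ 4) • el p 0 0 0 1 = 0 := by
      have h1 : (p ^ 4) • el p 0 0 0 1 = ((p ^ 4 : ℕ) : ℤ) • el p 0 0 0 1 :=
        (natCast_zsmul _ _).symm
      rw [h1, el_zsmul, el_eq_zero_iff]
      push_cast
      simp
    rw [← map_nsmul, h1, map_zero]
  obtain ⟨k1, h1⟩ := exists_of_torsion (p ^ 8) _ t1
  obtain ⟨k2, h2⟩ := exists_of_torsion (p ^ 8) _ t2
  obtain ⟨k3, h3⟩ := exists_of_torsion (p ^ 4) _ t3
  obtain ⟨k4, h4⟩ := exists_of_torsion (p ^ 4) _ t4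
  refine ⟨(k2, -k1, k4, -k3), fun y => ?_⟩
  obtain ⟨a, b, c, d, rfl⟩ := exists_el p y
  have e1 : el p a b c d = a • el p 1 0 0 0 + b • el p 0 1 0 0 + c • el p 0 0 1 0 +
      d • el p 0 0 0 1 := by
    rw [el_zsmul, el_zsmul, el_zsmul, el_zsmul, el_add, el_add, el_add]
    simp
  rw [e1, map_add, map_add, map_add, map_zsmul, map_zsmul, map_zsmul, map_zsmul, h1, h2, h3, h4,
    ← e1]
  show _ = ZMod.toAddCircle (k2 * (b : ZMod (p ^ 8)) - (a : ZMod (p ^ 8)) * -k1) +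
    ZMod.toAddCircle (k4 * (d : ZMod (p ^ 4)) - (c : ZMod (p ^ 4)) * -k3)
  rw [mul_neg, mul_neg, sub_neg_eq_add, sub_neg_eq_add, map_add, map_add, mul_comm k2,
    mul_comm k4, ← zsmul_eq_mul, ← zsmul_eq_mul, ← zsmul_eq_mul, ← zsmul_eq_mul, map_zsmul,
    map_zsmul, map_zsmul, map_zsmul]
  abel

/-! ## The Lagrangian -/

/-- The first generator. -/
def l1 : Kp p := el p 0 (-(p : ℤ) ^ 2) 1 0
/-- The second generator. -/
def l2 : Kp p := el p ((p : ℤ) ^ 4) 0 (-(p : ℤ)) (-(p : ℤ) ^ 2)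
/-- The third generator. -/
def l3 : Kp p := el p 0 0 ((p : ℤ) ^ 2) 0

theorem B_zero_left (y : Kp p) : B p 0 y = 0 := by
  have := B_add_left p 0 0 y
  rw [add_zero] at this
  exact left_eq_add.mp this

theorem B_neg_left (x y : Kp p) : B p (-x) y = -B p x y := by
  have := B_add_left p (-x) x y
  rw [neg_add_cancel, B_zero_left] at this
  exact eq_neg_of_add_eq_zero_left this.symm

/-- The form as a homomorphism in the first variable. -/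
noncomputable def Bl (y : Kp p) : Kp p →+ UnitAddCircle where
  toFun x := B p x y
  map_zero' := B_zero_left p y
  map_add' x x' := B_add_left p x x' y

/-- The Lagrangian subgroup. -/
noncomputable def L : AddSubgroup (Kp p) :=
  (Bl p (l1 p)).ker ⊓ (Bl p (l2 p)).ker ⊓ (Bl p (l3 p)).ker

theorem mem_L_iff (x : Kp p) :
    x ∈ L p ↔ B p x (l1 p) = 0 ∧ B p x (l2 p) = 0 ∧ B p x (l3 p) = 0 := by
  rw [L, AddSubgroup.mem_inf, AddSubgroup.mem_inf, and_assoc]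
  rfl

theorem pz : (p : ℤ) ≠ 0 := by exact_mod_cast NeZero.ne p

theorem el_mem_L_iff (a b c d : ℤ) : el p a b c d ∈ L p ↔
    (p : ℤ) ^ 6 ∣ a + (p : ℤ) ^ 2 * d ∧ (p : ℤ) ^ 4 ∣ b + (p : ℤ) ^ 2 * c - p * d ∧
      (p : ℤ) ^ 2 ∣ d := by
  have hp := pz p
  rw [mem_L_iff, l1, l2, l3, B_el_eq_zero_iff, B_el_eq_zero_iff, B_el_eq_zero_iff]
  refine and_congr ?_ (and_congr ?_ ?_)
  · have e1 : a * -(p : ℤ) ^ 2 - 0 * b + (p : ℤ) ^ 4 * (c * 0 - 1 * d) =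
        (p : ℤ) ^ 2 * -(a + (p : ℤ) ^ 2 * d) := by ring
    have e2 : (p : ℤ) ^ 8 = (p : ℤ) ^ 2 * (p : ℤ) ^ 6 := by ring
    rw [e1, e2, mul_dvd_mul_iff_left (pow_ne_zero _ hp), dvd_neg]
  · have e1 : a * 0 - (p : ℤ) ^ 4 * b + (p : ℤ) ^ 4 * (c * -(p : ℤ) ^ 2 - -(p : ℤ) * d) =
        (p : ℤ) ^ 4 * -(b + (p : ℤ) ^ 2 * c - p * d) := by ring
    have e2 : (p : ℤ) ^ 8 = (p : ℤ) ^ 4 * (p : ℤ) ^ 4 := by ring
    rw [e1, e2, mul_dvd_mul_iff_left (pow_ne_zero _ hp), dvd_neg]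
  · have e1 : a * 0 - 0 * b + (p : ℤ) ^ 4 * (c * 0 - (p : ℤ) ^ 2 * d) =
        (p : ℤ) ^ 6 * -d := by ring
    have e2 : (p : ℤ) ^ 8 = (p : ℤ) ^ 6 * (p : ℤ) ^ 2 := by ring
    rw [e1, e2, mul_dvd_mul_iff_left (pow_ne_zero _ hp), dvd_neg]

theorem l1_mem : l1 p ∈ L p := by
  rw [l1, el_mem_L_iff]
  refine ⟨⟨0, by ring⟩, ⟨0, by ring⟩, ⟨0, by ring⟩⟩

theorem l2_mem : l2 p ∈ L p := by
  rw [l2, el_mem_L_iff]
  refine ⟨⟨0, by ring⟩, ⟨0, by ring⟩, ⟨-1, by ring⟩⟩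

theorem l3_mem : l3 p ∈ L p := by
  rw [l3, el_mem_L_iff]
  refine ⟨⟨0, by ring⟩, ⟨1, by ring⟩, ⟨0, by ring⟩⟩

theorem span_of_mem {x : Kp p} (hx : x ∈ L p) :
    ∃ s t u : ℤ, x = s • l1 p + t • l2 p + u • l3 p := by
  have hp := pz p
  obtain ⟨a, b, c, d, rfl⟩ := exists_el p x
  obtain ⟨⟨a0, ha⟩, ⟨b0, hb⟩, ⟨d0, hd⟩⟩ := (el_mem_L_iff p a b c d).mp hx
  refine ⟨c - p * d0 - (p : ℤ) ^ 2 * b0, -d0 + (p : ℤ) ^ 2 * a0, b0 + p * a0, ?_⟩
  rw [l1, l2, l3, el_zsmul, el_zsmul, el_zsmul, el_add, el_add, el_eq_iff]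
  have ha' : a = (p : ℤ) ^ 6 * a0 - (p : ℤ) ^ 2 * d := by linarith
  have hb' : b = (p : ℤ) ^ 4 * b0 - (p : ℤ) ^ 2 * c + p * d := by linarith
  refine ⟨⟨0, ?_⟩, ⟨0, ?_⟩, ⟨0, ?_⟩, ⟨-a0, ?_⟩⟩
  · rw [ha', hd]; ring
  · rw [hb', hd]; ring
  · ring
  · rw [hd]; ring

theorem B_comm (x y : Kp p) : B p x y = -B p y x := by
  have h := B_self p (x + y)
  rw [B_add_left, B_add_right, B_add_right, B_self, B_self, zero_add, add_zero] at h
  exact eq_neg_of_add_eq_zero_left h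

theorem L_perp (x : Kp p) : x ∈ L p ↔ ∀ y ∈ L p, B p x y = 0 := by
  constructor
  · intro hx y hy
    obtain ⟨s, t, u, rfl⟩ := span_of_mem p hx
    have hy' := (mem_L_iff p y).mp hy
    have e : ∀ z, B p y z = 0 → B p z y = 0 := fun z hz => by rw [B_comm, hz, neg_zero]
    have h1 : Bl p y (l1 p) = 0 := e _ hy'.1
    have h2 : Bl p y (l2 p) = 0 := e _ hy'.2.1
    have h3 : Bl p y (l3 p) = 0 := e _ hy'.2.2
    show Bl p y _ = 0
    rw [map_add, map_add, map_zsmul, map_zsmul, map_zsmul, h1, h2, h3]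
    simp
  · intro h
    exact (mem_L_iff p x).mpr ⟨h _ (l1_mem p), h _ (l2_mem p), h _ (l3_mem p)⟩

end

/-- There is no projection that is compatible with the form and with the Lagrangian. -/
theorem no_splitting (p : ℕ) (hp : p.Prime) [NeZero p] (P : Kp p →+ Kp p)
    (hPP : ∀ x, P (P x) = P x) (hL : ∀ x ∈ L p, P x ∈ L p)
    (hB : ∀ x y, B p (P x) y + B p x (P y) = B p x y) : False := by
  have hz := pz p
  have hpz : Prime (p : ℤ) := Nat.prime_iff_prime_int.mp hp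
  obtain ⟨α, β, γ, δ, h2⟩ := exists_el p (P (el p 0 0 1 0))
  obtain ⟨α', β', γ', δ', h3⟩ := exists_el p (P (el p 0 0 0 1))
  obtain ⟨a1, b1, c1, d1, h1⟩ := exists_el p (P (el p 1 0 0 0))
  obtain ⟨a2, b2, c2, d2, h4⟩ := exists_el p (P (el p 0 1 0 0))
  have hP : ∀ a b c d : ℤ, P (el p a b c d) = el p (a * a1 + b * a2 + c * α + d * α')
      (a * b1 + b * b2 + c * β + d * β') (a * c1 + b * c2 + c * γ + d * γ')
      (a * d1 + b * d2 + c * δ + d * δ') := by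
    intro a b c d
    have e1 : el p a b c d = a • el p 1 0 0 0 + b • el p 0 1 0 0 + c • el p 0 0 1 0 +
        d • el p 0 0 0 1 := by
      rw [el_zsmul, el_zsmul, el_zsmul, el_zsmul, el_add, el_add, el_add]
      simp
    rw [e1, map_add, map_add, map_add, map_zsmul, map_zsmul, map_zsmul, map_zsmul, h1, h2, h3, h4,
      el_zsmul, el_zsmul, el_zsmul, el_zsmul, el_add, el_add, el_add]
  -- orders
  have o2 : P (el p 0 0 ((p : ℤ) ^ 4) 0) = 0 := by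
    have : el p 0 0 ((p : ℤ) ^ 4) 0 = 0 := by
      rw [el_eq_zero_iff]
      exact ⟨dvd_zero _, dvd_zero _, dvd_rfl, dvd_zero _⟩
    rw [this, map_zero]
  have o3 : P (el p 0 0 0 ((p : ℤ) ^ 4)) = 0 := by
    have : el p 0 0 0 ((p : ℤ) ^ 4) = 0 := by
      rw [el_eq_zero_iff]
      exact ⟨dvd_zero _, dvd_zero _, dvd_zero _, dvd_rfl⟩
    rw [this, map_zero]
  rw [hP, el_eq_zero_iff] at o2 o3
  simp only [zero_mul, zero_add, add_zero] at o2 o3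
  have e8 : (p : ℤ) ^ 8 = (p : ℤ) ^ 4 * (p : ℤ) ^ 4 := by ring
  rw [e8, mul_dvd_mul_iff_left (pow_ne_zero _ hz), mul_dvd_mul_iff_left (pow_ne_zero _ hz)] at o2 o3
  obtain ⟨⟨α₀, hα⟩, ⟨β₀, hβ⟩, -, -⟩ := o2
  obtain ⟨⟨α₀', hα'⟩, ⟨β₀', hβ'⟩, -, -⟩ := o3
  -- the form
  have f1 := hB (el p 0 0 1 0) (el p 0 0 0 1)
  have f2 : B p (P (el p 0 0 1 0) + -el p 0 0 1 0) (el p 0 0 0 1) +
      B p (el p 0 0 1 0) (P (el p 0 0 0 1)) = 0 := by
    rw [B_add_left, B_neg_left, ← f1]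
    abel
  have f3 : (p : ℤ) ^ 4 ∣ γ + δ' - 1 := by
    rw [hP, hP] at f2
    have e1 : -el p 0 0 1 0 = (-1 : ℤ) • el p 0 0 1 0 := by rw [neg_one_zsmul]
    rw [e1, el_zsmul, el_add, B_el, B_el, ← AddCircle.coe_add, AddCircle.coe_eq_zero_iff] at f2
    obtain ⟨n, hn⟩ := f2
    refine ⟨n, ?_⟩
    have hpr : (p : ℝ) ≠ 0 := by exact_mod_cast NeZero.ne p
    rw [zsmul_eq_mul, mul_one] at hn
    field_simp at hn
    have h5 : (((γ + δ' - 1 : ℤ)) : ℝ) = (((p : ℤ) ^ 4 * n : ℤ) : ℝ) := by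
      push_cast
      push_cast at hn
      have hpr8 : (p : ℝ) ^ 4 ≠ 0 := pow_ne_zero _ hpr
      apply mul_left_cancel₀ hpr8
      ring_nf at hn ⊢
      linear_combination -hn
    exact_mod_cast h5
  -- the third generator
  have g3 := hL _ (l3_mem p)
  rw [l3, hP, el_mem_L_iff] at g3
  obtain ⟨⟨n3, hn3⟩, -, -⟩ := g3
  have hδ : (p : ℤ) ^ 2 ∣ δ := by
    have h5 : (p : ℤ) ^ 4 * δ = (p : ℤ) ^ 4 * ((p : ℤ) ^ 2 * (n3 - α₀)) := by
      rw [hα] at hn3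
      linear_combination hn3
    exact ⟨n3 - α₀, mul_left_cancel₀ (pow_ne_zero 4 hz) h5⟩
  obtain ⟨δ₀, hδ₀⟩ := hδ
  -- the second generator
  have g2 := hL _ (l2_mem p)
  rw [l2, hP, el_mem_L_iff] at g2
  obtain ⟨-, ⟨n2, hn2⟩, -⟩ := g2
  have hγδ : (p : ℤ) ∣ δ' - γ := by
    refine ⟨n2 - b1 + p * β₀ + (p : ℤ) ^ 2 * β₀' - (p : ℤ) ^ 2 * c1 + γ' + p * d1 - δ₀, ?_⟩
    apply mul_left_cancel₀ (pow_ne_zero 3 hz)
    rw [hβ, hβ', hδ₀] at hn2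
    linear_combination hn2
  -- idempotency
  have i1 := hPP (el p 0 0 1 0)
  rw [hP 0 0 1 0, hP, el_eq_iff] at i1
  obtain ⟨-, -, ⟨n1, hn1⟩, -⟩ := i1
  have hγγ : (p : ℤ) ∣ γ * (γ - 1) := by
    refine ⟨-((p : ℤ) ^ 3 * n1) - (p : ℤ) ^ 3 * α₀ * c1 - (p : ℤ) ^ 3 * β₀ * c2 - p * δ₀ * γ', ?_⟩
    rw [hα, hβ, hδ₀] at hn1
    linear_combination -hn1
  have h2γ : (p : ℤ) ∣ 2 * γ - 1 := by
    have h5 : (p : ℤ) ∣ γ + δ' - 1 := dvd_trans (dvd_pow_self _ (by norm_num)) f3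
    have h6 := dvd_sub h5 hγδ
    have e : γ + δ' - 1 - (δ' - γ) = 2 * γ - 1 := by ring
    rwa [e] at h6
  have hnot : ¬ (p : ℤ) ∣ 1 := fun h => hpz.not_dvd_one h
  rcases hpz.dvd_or_dvd hγγ with h | h
  · apply hnot
    have h5 := dvd_sub (Dvd.dvd.mul_left h 2) h2γ
    have e : 2 * γ - (2 * γ - 1) = 1 := by ring
    rwa [e] at h5
  · apply hnot
    have h5 := dvd_sub h2γ (Dvd.dvd.mul_left h 2)
    have e : 2 * γ - 1 - 2 * (γ - 1) = 1 := by ring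
    rwa [e] at h5

end Pool.Agent.R627.SympFin
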