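import Pool.Agent.R627.TorusMaps

set_option linter.style.haveILetI false

/-!
# Faithfulness of the torus action of the free group of rank three

Path growth argument on lifts to the plane.
-/

namespace Pool.Agent.R627.TorusFaith

open Set Function Topology Pool.Agent.R627.TorusMaps

theorem cross_up {f : ℝ → ℝ} (hf : Continuous f) {s t u v : ℝ} (hst : s ≤ t) (huv : u < v)
    (h1 : f s ≤ u) (h2 : v ≤ f t) :
    ∃ s' t', s ≤ s' ∧ s' ≤ t' ∧ t' ≤ t ∧ (∀ r ∈ Icc s' t', u ≤ f r ∧ f r ≤ v) ∧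
      f s' = u ∧ f t' = v := by
  have hA : IsCompact (Icc s t ∩ f ⁻¹' (Ici v)) :=
    isCompact_Icc.inter_right (isClosed_Ici.preimage hf)
  obtain ⟨t', ⟨ht'1, ht'2⟩, ht'3⟩ := hA.exists_isLeast ⟨t, right_mem_Icc.mpr hst, h2⟩
  have hB : IsCompact (Icc s t' ∩ f ⁻¹' (Iic u)) :=
    isCompact_Icc.inter_right (isClosed_Iic.preimage hf)
  obtain ⟨s', ⟨hs'1, hs'2⟩, hs'3⟩ := hB.exists_isGreatest ⟨s, left_mem_Icc.mpr ht'1.1, h1⟩
  have ht'2' : v ≤ f t' := ht'2
  have hs'2' : f s' ≤ u := hs'2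
  have e1 : f t' = v := by
    obtain ⟨r, hr, hr2⟩ := intermediate_value_Icc ht'1.1 hf.continuousOn
      (show v ∈ Icc (f s) (f t') from ⟨by linarith, ht'2'⟩)
    have h3 := ht'3 ⟨⟨hr.1, hr.2.trans ht'1.2⟩, show v ≤ f r from hr2.ge⟩
    have h4 : r = t' := le_antisymm hr.2 h3
    rw [← h4, hr2]
  have e2 : f s' = u := by
    obtain ⟨r, hr, hr2⟩ := intermediate_value_Icc hs'1.2 hf.continuousOn
      (show u ∈ Icc (f s') (f t') from ⟨hs'2', by linarith⟩)
    have h3 := hs'3 ⟨⟨hs'1.1.trans hr.1, hr.2⟩, show f r ≤ u from hr2.le⟩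
    have h4 : r = s' := le_antisymm h3 hr.1
    rw [← h4, hr2]
  refine ⟨s', t', hs'1.1, hs'1.2, ht'1.2, ?_, e2, e1⟩
  intro r hr
  constructor
  · by_contra hlt
    push Not at hlt
    have h3 := hs'3 ⟨⟨hs'1.1.trans hr.1, hr.2⟩, show f r ≤ u from hlt.le⟩
    have h4 : r = s' := le_antisymm h3 hr.1
    rw [h4] at hlt
    linarith
  · by_contra hlt
    push Not at hlt
    have h3 := ht'3 ⟨⟨hs'1.1.trans hr.1, hr.2.trans ht'1.2⟩, show v ≤ f r from hlt.le⟩
    have h4 : r = t' := le_antisymm hr.2 h3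
    rw [h4] at hlt
    linarith

theorem cross {f : ℝ → ℝ} (hf : Continuous f) {s t u v : ℝ} (hst : s ≤ t) (huv : u < v)
    (h : (f s ≤ u ∧ v ≤ f t) ∨ (f t ≤ u ∧ v ≤ f s)) :
    ∃ s' t', s ≤ s' ∧ s' ≤ t' ∧ t' ≤ t ∧ (∀ r ∈ Icc s' t', u ≤ f r ∧ f r ≤ v) ∧
      ((f s' = u ∧ f t' = v) ∨ (f s' = v ∧ f t' = u)) := by
  rcases h with h | h
  · obtain ⟨s', t', a, b, c, d, e, g⟩ := cross_up hf hst huv h.1 h.2
    exact ⟨s', t', a, b, c, d, Or.inl ⟨e, g⟩⟩
  · obtain ⟨s', t', a, b, c, d, e, g⟩ := cross_up (f := fun r => - f r) hf.neg hst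
      (neg_lt_neg huv) (by linarith [h.2]) (by linarith [h.1])
    refine ⟨s', t', a, b, c, ?_, Or.inr ⟨by linarith, by linarith⟩⟩
    intro r hr
    have := d r hr
    constructor <;> linarith [this.1, this.2]

/-- the transverse coordinate -/
noncomputable def zz (v : ℝ × ℝ) : ℝ := v.2 - 9 * v.1

/-- The path lies over one arc in the first coordinate and moves far in the second. -/
def StLam (p : ℝ → ℝ × ℝ) (s t : ℝ) (i : ℕ) : Prop :=
  s ≤ t ∧ (∃ k : ℤ, ∀ r ∈ Icc s t, qq i + k ≤ (p r).1 ∧ (p r).1 ≤ qq i + 1 / 64 + k) ∧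
    6 ≤ |(p t).2 - (p s).2|

/-- The path moves far in the first coordinate, coherently with the twist. -/
def StG (p : ℝ → ℝ × ℝ) (s t : ℝ) (k : ℤ) : Prop :=
  s ≤ t ∧ (∀ r ∈ Icc s t, ∀ r' ∈ Icc s t, |zz (p r) - zz (p r')| ≤ 2) ∧
    ((zz (p s) ≤ zz (p t) ∧ 3 ≤ (k : ℝ) * ((p t).1 - (p s).1)) ∨
      (zz (p t) ≤ zz (p s) ∧ (k : ℝ) * ((p t).1 - (p s).1) ≤ -3))

/-- The path moves in the first coordinate. -/
def StX (p : ℝ → ℝ × ℝ) (s t : ℝ) : Prop :=
  s ≤ t ∧ (∀ r ∈ Icc s t, ∀ r' ∈ Icc s t, |zz (p r) - zz (p r')| ≤ 2) ∧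
    2 ≤ |(p t).1 - (p s).1|

/-- The path moves in the transverse coordinate. -/
def StZ (p : ℝ → ℝ × ℝ) (s t : ℝ) : Prop :=
  s ≤ t ∧ (∀ r ∈ Icc s t, ∀ r' ∈ Icc s t, |(p r).1 - (p r').1| ≤ 1 / 64) ∧
    2 ≤ |zz (p t) - zz (p s)|

/-- the diagonal lift -/
noncomputable def dl (u v : ℝ) (w : ℝ × ℝ) : ℝ × ℝ := (mv u v w.1, mv u v w.2)

/-- the twist lift -/
noncomputable def gl (k : ℤ) (w : ℝ × ℝ) : ℝ × ℝ :=
  (w.1 + k * (4 * cc (zz w)), w.2 + (9 * k) * (4 * cc (zz w)))

theorem zz_gl (k : ℤ) (w : ℝ × ℝ) : zz (gl k w) = zz w := by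
  simp only [zz, gl]
  ring

theorem stG_stX {p : ℝ → ℝ × ℝ} {s t : ℝ} {k : ℤ} (hk : k = 1 ∨ k = -1) (h : StG p s t k) :
    StX p s t := by
  obtain ⟨h0, h1, h2⟩ := h
  refine ⟨h0, h1, ?_⟩
  rcases hk with rfl | rfl <;> push_cast at h2 <;> rcases h2 with ⟨-, h2⟩ | ⟨-, h2⟩ <;>
    rw [le_abs]
  · left; linarith
  · right; linarith
  · right; linarith
  · left; linarith

theorem stLam_stZ {p : ℝ → ℝ × ℝ} {s t : ℝ} {i : ℕ} (h : StLam p s t i) : StZ p s t := by
  obtain ⟨h0, ⟨k, h1⟩, h2⟩ := h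
  refine ⟨h0, ?_, ?_⟩
  · intro r hr r' hr'
    have := h1 r hr
    have := h1 r' hr'
    rw [abs_le]
    constructor <;> linarith
  · have a1 := h1 s (left_mem_Icc.mpr h0)
    have a2 := h1 t (right_mem_Icc.mpr h0)
    rw [le_abs] at h2 ⊢
    simp only [zz]
    rcases h2 with h2 | h2
    · left; linarith
    · right; linarith

theorem mv_growth_abs (u v x y : ℝ) (h : 6 ≤ |y - x|) : 6 ≤ |mv u v y - mv u v x| := by
  rw [le_abs] at h ⊢
  rcases h with h | h
  · left
    have := mv_growth u v x y 6 (by push_cast; linarith)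
    push_cast at this
    exact this
  · right
    have := mv_growth u v y x 6 (by push_cast; linarith)
    push_cast at this
    linarith

/-- transition by a diagonal letter from an arc state -/
theorem tr_lam_diag {p : ℝ → ℝ × ℝ} {s t : ℝ} {i : ℕ} (a b : ℕ) (hi : i < 4) (ha : a < 4)
    (hai : a ≠ i) (h : StLam p s t i) : StLam (fun r => dl (qq a) (qq b) (p r)) s t b := by
  obtain ⟨h0, ⟨k, h1⟩, h2⟩ := h
  refine ⟨h0, ?_, mv_growth_abs _ _ _ _ h2⟩
  rcases lt_or_gt_of_ne hai with hlt | hlt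
  · refine ⟨k + 1, ?_⟩
    intro r hr
    have h3 := h1 r hr
    have hc : (a : ℝ) + 1 ≤ i := by exact_mod_cast hlt
    have hc2 : (i : ℝ) ≤ 3 := by exact_mod_cast Nat.lt_succ_iff.mp hi
    have hc3 : (0 : ℝ) ≤ a := by positivity
    unfold qq at h3
    have h4 := mv_big_mem (qq a) (qq b) (p r).1 k (by unfold qq; linarith) (by unfold qq; linarith)
    push_cast
    exact h4
  · refine ⟨k - 1 + 1, ?_⟩
    intro r hr
    have h3 := h1 r hr
    have hc : (i : ℝ) + 1 ≤ a := by exact_mod_cast hlt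
    have hc2 : (a : ℝ) ≤ 3 := by exact_mod_cast Nat.lt_succ_iff.mp ha
    have hc3 : (0 : ℝ) ≤ i := by positivity
    unfold qq at h3
    have h4 := mv_big_mem (qq a) (qq b) (p r).1 (k - 1)
      (by unfold qq; push_cast; linarith) (by unfold qq; push_cast; linarith)
    push_cast
    push_cast at h4
    exact h4

/-- transition by a diagonal letter from a horizontal state -/
theorem tr_x_diag {p : ℝ → ℝ × ℝ} (hp : Continuous p) {s t : ℝ} (a b : ℕ)
    (h : StX p s t) :
    ∃ s' t', s ≤ s' ∧ t' ≤ t ∧ StLam (fun r => dl (qq a) (qq b) (p r)) s' t' b := by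
  obtain ⟨h0, h1, h2⟩ := h
  have hf : Continuous (fun r => (p r).1) := continuous_fst.comp hp
  -- choose the integer
  have key : ∀ m M : ℝ, m + 2 ≤ M → ∃ k : ℤ, m ≤ qq a + 1 / 64 + k ∧ qq a + 1 + k ≤ M := by
    intro m M hmM
    refine ⟨⌈m - (qq a + 1 / 64)⌉, ?_, ?_⟩
    · have := Int.le_ceil (m - (qq a + 1 / 64))
      linarith
    · have := Int.ceil_lt_add_one (m - (qq a + 1 / 64))
      linarith
  have hex : ∃ k : ℤ, ((p s).1 ≤ qq a + 1 / 64 + k ∧ qq a + 1 + k ≤ (p t).1) ∨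
      ((p t).1 ≤ qq a + 1 / 64 + k ∧ qq a + 1 + k ≤ (p s).1) := by
    rw [le_abs] at h2
    rcases h2 with h2 | h2
    · obtain ⟨k, hk⟩ := key (p s).1 (p t).1 (by linarith)
      exact ⟨k, Or.inl hk⟩
    · obtain ⟨k, hk⟩ := key (p t).1 (p s).1 (by linarith)
      exact ⟨k, Or.inr hk⟩
  obtain ⟨k, hk⟩ := hex
  obtain ⟨s', t', c1, c2, c3, c4, c5⟩ := cross hf h0 (by linarith) hk
  refine ⟨s', t', c1, c3, c2, ⟨k + 1, ?_⟩, ?_⟩
  · intro r hr
    have h4 := mv_big_mem (qq a) (qq b) (p r).1 k (c4 r hr).1 (c4 r hr).2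
    push_cast
    exact h4
  · apply mv_growth_abs
    have h5 := h1 t' ⟨c1.trans c2, c3⟩ s' ⟨c1, c2.trans c3⟩
    simp only [zz] at h5
    rw [abs_le] at h5
    rw [le_abs]
    rcases c5 with ⟨c5, c6⟩ | ⟨c5, c6⟩
    · left
      rw [c5, c6] at h5
      linarith
    · right
      rw [c5, c6] at h5
      linarith

/-- transition by a twist letter from a transverse state -/
theorem tr_z_twist {p : ℝ → ℝ × ℝ} (hp : Continuous p) {s t : ℝ} (k : ℤ)
    (hk : k = 1 ∨ k = -1) (h : StZ p s t) :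
    ∃ s' t', s ≤ s' ∧ t' ≤ t ∧ StG (fun r => gl k (p r)) s' t' k := by
  obtain ⟨h0, h1, h2⟩ := h
  have hf : Continuous (fun r => zz (p r)) := by
    unfold zz
    fun_prop
  have key : ∀ m M : ℝ, m + 2 ≤ M → ∃ n : ℤ, m ≤ n ∧ (n : ℝ) + 1 ≤ M := by
    intro m M hmM
    refine ⟨⌈m⌉, Int.le_ceil _, ?_⟩
    have := Int.ceil_lt_add_one m
    linarith
  have hex : ∃ n : ℤ, (zz (p s) ≤ n ∧ (n : ℝ) + 1 ≤ zz (p t)) ∨
      (zz (p t) ≤ n ∧ (n : ℝ) + 1 ≤ zz (p s)) := by
    rw [le_abs] at h2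
    rcases h2 with h2 | h2
    · obtain ⟨k, hk⟩ := key (zz (p s)) (zz (p t)) (by linarith)
      exact ⟨k, Or.inl hk⟩
    · obtain ⟨k, hk⟩ := key (zz (p t)) (zz (p s)) (by linarith)
      exact ⟨k, Or.inr hk⟩
  obtain ⟨n, hn⟩ := hex
  obtain ⟨s', t', c1, c2, c3, c4, c5⟩ := cross hf h0 (by linarith) hn
  have hks : (k : ℝ) * k = 1 := by
    rcases hk with rfl | rfl <;> norm_num
  have hkabs : |(k : ℝ)| = 1 := by
    rcases hk with rfl | rfl <;> norm_num
  have h5 := h1 t' ⟨c1.trans c2, c3⟩ s' ⟨c1, c2.trans c3⟩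
  have h6 : |(k : ℝ) * ((p t').1 - (p s').1)| ≤ 1 / 64 := by
    rw [abs_mul, hkabs, one_mul]
    exact h5
  rw [abs_le] at h6
  have hcn : cc (n : ℝ) = n := cc_int n
  have hcn1 : cc ((n : ℝ) + 1) = n + 1 := by
    have := cc_int (n + 1)
    push_cast at this
    exact this
  have e : (k : ℝ) * (((gl k (p t')).1) - ((gl k (p s')).1)) =
      (k : ℝ) * ((p t').1 - (p s').1) + ((k : ℝ) * k) * (4 * (cc (zz (p t')) - cc (zz (p s')))) := by
    simp only [gl]
    ring
  refine ⟨s', t', c1, c3, c2, ?_, ?_⟩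
  · intro r hr r' hr'
    rw [zz_gl, zz_gl]
    have d1 := c4 r hr
    have d2 := c4 r' hr'
    rw [abs_le]
    constructor <;> linarith [d1.1, d1.2, d2.1, d2.2]
  · rw [zz_gl, zz_gl, e, hks, one_mul]
    rcases c5 with ⟨c5, c6⟩ | ⟨c5, c6⟩
    · left
      rw [c5, c6, hcn, hcn1]
      constructor
      · linarith
      · linarith
    · right
      rw [c5, c6, hcn, hcn1]
      constructor
      · linarith
      · linarith

/-- transition by a twist letter from a coherent twist state -/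
theorem tr_g_twist {p : ℝ → ℝ × ℝ} {s t : ℝ} (k : ℤ)
    (hk : k = 1 ∨ k = -1) (h : StG p s t k) : StG (fun r => gl k (p r)) s t k := by
  obtain ⟨h0, h1, h2⟩ := h
  have hks : (k : ℝ) * k = 1 := by
    rcases hk with rfl | rfl <;> norm_num
  have e : (k : ℝ) * (((gl k (p t)).1) - ((gl k (p s)).1)) =
      (k : ℝ) * ((p t).1 - (p s).1) + ((k : ℝ) * k) * (4 * (cc (zz (p t)) - cc (zz (p s)))) := by
    simp only [gl]
    ring
  refine ⟨h0, ?_, ?_⟩
  · intro r hr r' hr'
    rw [zz_gl, zz_gl]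
    exact h1 r hr r' hr'
  · rw [zz_gl, zz_gl, e, hks, one_mul]
    rcases h2 with ⟨h2, h3⟩ | ⟨h2, h3⟩
    · left
      have := cc_mono h2
      exact ⟨h2, by linarith⟩
    · right
      have := cc_mono h2
      exact ⟨h2, by linarith⟩

/-- The plane lift of a letter. -/
noncomputable def ll (l : Fin 3 × Bool) (w : ℝ × ℝ) : ℝ × ℝ :=
  if l.1 = 2 then gl (sgn l) w else dl (qq (inn l)) (qq (outn l)) w

theorem ll_cont (l : Fin 3 × Bool) : Continuous (ll l) := by
  by_cases h : l.1 = 2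
  · have : ll l = gl (sgn l) := by
      funext w
      simp [ll, h]
    rw [this]
    have hz : Continuous zz := by
      unfold zz
      fun_prop
    have hc : Continuous (fun w => cc (zz w)) := cc_cont.comp hz
    unfold gl
    fun_prop
  · have : ll l = dl (qq (inn l)) (qq (outn l)) := by
      funext w
      simp [ll, h]
    rw [this]
    exact ((mv_cont _ _).comp continuous_fst).prodMk ((mv_cont _ _).comp continuous_snd)

/-- The projection of the plane to the torus. -/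
noncomputable def pr (w : ℝ × ℝ) : TT := ((w.1 : UnitAddCircle), (w.2 : UnitAddCircle))

theorem lv_pr (w : ℝ × ℝ) : lv (pr w) = ((zz w : ℝ) : UnitAddCircle) := by
  simp only [lv, pr, zz]
  rw [AddCircle.coe_sub]
  congr 1
  rw [← AddCircle.coe_zsmul]
  congr 1
  simp

theorem pr_ll (l : Fin 3 × Bool) (w : ℝ × ℝ) : pr (ll l w) = lh l (pr w) := by
  by_cases h : l.1 = 2
  · rw [lh_twist l h, ll, if_pos h, gm, lv_pr, CC_coe]
    simp only [pr, gl]
    rw [AddCircle.coe_add, AddCircle.coe_add, ← AddCircle.coe_zsmul, ← AddCircle.coe_zsmul]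
    simp
  · rw [lh_diag l h, ll, if_neg h]
    simp only [pr, dl, cm_coe]

/-- The plane lift of a word. -/
noncomputable def wl (L : List (Fin 3 × Bool)) (w : ℝ × ℝ) : ℝ × ℝ := L.foldr ll w

theorem wl_cons (l : Fin 3 × Bool) (L : List (Fin 3 × Bool)) (w : ℝ × ℝ) :
    wl (l :: L) w = ll l (wl L w) := rfl

theorem wl_cont (L : List (Fin 3 × Bool)) : Continuous (wl L) := by
  induction L with
  | nil => exact continuous_id
  | cons l L ih => exact (ll_cont l).comp ih

theorem pr_wl (L : List (Fin 3 × Bool)) (w : ℝ × ℝ) :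
    pr (wl L w) = rep (FreeGroup.mk L) (pr w) := by
  induction L with
  | nil =>
    have : (FreeGroup.mk ([] : List (Fin 3 × Bool))) = 1 := rfl
    rw [this, map_one]
    rfl
  | cons l L ih => rw [wl_cons, pr_ll, ih, rep_mk_cons]

/-- The start path. -/
noncomputable def Gam (r : ℝ) : ℝ × ℝ := (min r 2, 9 * min r 2 + max (r - 2) 0)

theorem Gam_cont : Continuous Gam := by
  unfold Gam
  fun_prop

/-- The state of a word. -/
def St (l : Fin 3 × Bool) (p : ℝ → ℝ × ℝ) (s t : ℝ) : Prop :=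
  if l.1 = 2 then StG p s t (sgn l) else StLam p s t (outn l)

theorem sgn_cases (l : Fin 3 × Bool) : sgn l = 1 ∨ sgn l = -1 := by
  unfold sgn
  by_cases h : l.2 = true <;> simp [h]

theorem state_of_word (L : List (Fin 3 × Bool)) :
    ∀ l, List.IsChain (fun a b : Fin 3 × Bool => a.1 = b.1 → a.2 = b.2) (l :: L) →
      ∃ s t, 0 ≤ s ∧ t ≤ 4 ∧ St l (fun r => wl (l :: L) (Gam r)) s t := by
  induction L with
  | nil =>
    intro l _
    by_cases h : l.1 = 2
    · have hz : StZ (fun r => wl [] (Gam r)) 2 4 := by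
        refine ⟨by norm_num, ?_, ?_⟩
        · intro r hr r' hr'
          show |min r 2 - min r' 2| ≤ 1 / 64
          rw [min_eq_right hr.1, min_eq_right hr'.1]
          norm_num
        · show 2 ≤ |(9 * min (4 : ℝ) 2 + max ((4 : ℝ) - 2) 0 - 9 * min (4 : ℝ) 2) -
            (9 * min (2 : ℝ) 2 + max ((2 : ℝ) - 2) 0 - 9 * min (2 : ℝ) 2)|
          norm_num
      obtain ⟨s', t', hs', ht', hs⟩ :=
        tr_z_twist ((wl_cont []).comp Gam_cont) (sgn l) (sgn_cases l) hz
      refine ⟨s', t', by linarith, by linarith, ?_⟩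
      rw [St, if_pos h]
      have e : (fun r => wl [l] (Gam r)) = fun r => gl (sgn l) (wl [] (Gam r)) := by
        funext r
        rw [wl_cons, ll, if_pos h]
      rw [e]
      exact hs
    · have hx : StX (fun r => wl [] (Gam r)) 0 2 := by
        refine ⟨by norm_num, ?_, ?_⟩
        · intro r hr r' hr'
          show |(9 * min r 2 + max (r - 2) 0 - 9 * min r 2) -
            (9 * min r' 2 + max (r' - 2) 0 - 9 * min r' 2)| ≤ 2
          rw [max_eq_right (by linarith [hr.2]), max_eq_right (by linarith [hr'.2])]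
          norm_num
        · show 2 ≤ |min (2 : ℝ) 2 - min (0 : ℝ) 2|
          norm_num
      obtain ⟨s', t', hs', ht', hs⟩ :=
        tr_x_diag ((wl_cont []).comp Gam_cont) (inn l) (outn l) hx
      refine ⟨s', t', by linarith, by linarith, ?_⟩
      rw [St, if_neg h]
      have e : (fun r => wl [l] (Gam r)) =
          fun r => dl (qq (inn l)) (qq (outn l)) (wl [] (Gam r)) := by
        funext r
        rw [wl_cons, ll, if_neg h]
      rw [e]
      exact hs
  | cons m L ih =>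
    intro l hl
    rw [List.isChain_cons_cons] at hl
    obtain ⟨hlm, hm⟩ := hl
    obtain ⟨s, t, hs0, ht0, hst⟩ := ih m hm
    have hcont : Continuous (fun r => wl (m :: L) (Gam r)) := (wl_cont _).comp Gam_cont
    by_cases h : l.1 = 2
    · have e : (fun r => wl (l :: m :: L) (Gam r)) =
          fun r => gl (sgn l) (wl (m :: L) (Gam r)) := by
        funext r
        rw [wl_cons, ll, if_pos h]
      by_cases h' : m.1 = 2
      · rw [St, if_pos h'] at hst
        have hs : l.2 = m.2 := hlm (h.trans h'.symm)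
        have hs2 : sgn m = sgn l := by
          unfold sgn
          rw [hs]
        rw [hs2] at hst
        refine ⟨s, t, hs0, ht0, ?_⟩
        rw [St, if_pos h, e]
        exact tr_g_twist (sgn l) (sgn_cases l) hst
      · rw [St, if_neg h'] at hst
        obtain ⟨s', t', hs', ht', hs⟩ :=
          tr_z_twist hcont (sgn l) (sgn_cases l) (stLam_stZ hst)
        refine ⟨s', t', by linarith, by linarith, ?_⟩
        rw [St, if_pos h, e]
        exact hs
    · have e : (fun r => wl (l :: m :: L) (Gam r)) =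
          fun r => dl (qq (inn l)) (qq (outn l)) (wl (m :: L) (Gam r)) := by
        funext r
        rw [wl_cons, ll, if_neg h]
      by_cases h' : m.1 = 2
      · rw [St, if_pos h'] at hst
        obtain ⟨s', t', hs', ht', hs⟩ :=
          tr_x_diag hcont (inn l) (outn l) (stG_stX (sgn_cases m) hst)
        refine ⟨s', t', by linarith, by linarith, ?_⟩
        rw [St, if_neg h, e]
        exact hs
      · rw [St, if_neg h'] at hst
        refine ⟨s, t, hs0, ht0, ?_⟩
        rw [St, if_neg h, e]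
        have b1 : ∀ x : Fin 3 × Bool, x.1 ≠ 2 → outn x < 4 := by decide
        have b2 : ∀ x : Fin 3 × Bool, x.1 ≠ 2 → inn x < 4 := by decide
        have b3 : ∀ x y : Fin 3 × Bool, (x.1 = y.1 → x.2 = y.2) → inn x ≠ outn y := by decide
        exact tr_lam_diag (inn l) (outn l) (b1 m h') (b2 l h) (b3 l m hlm) hst

theorem disp_const {W : ℝ × ℝ → ℝ × ℝ} (hW : Continuous W) (h : ∀ w, pr (W w) = pr w)
    (s t : ℝ) : (W (Gam t)).1 - (W (Gam s)).1 = (Gam t).1 - (Gam s).1 ∧
      (W (Gam t)).2 - (W (Gam s)).2 = (Gam t).2 - (Gam s).2 := by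
  have gen : ∀ F : ℝ → ℝ, Continuous F → (∀ r, ((F r : ℝ) : UnitAddCircle) = 0) → F t = F s := by
    intro F hF hF0
    have h1 : ∀ r, ∃ n : ℤ, (n : ℝ) = F r := by
      intro r
      have := hF0 r
      rw [AddCircle.coe_eq_zero_iff] at this
      obtain ⟨n, hn⟩ := this
      exact ⟨n, by simpa using hn⟩
    choose n hn using h1
    have hnc : Continuous n := by
      have hemb : Topology.IsClosedEmbedding ((↑) : ℤ → ℝ) := Int.isClosedEmbedding_coe_real
      rw [hemb.isEmbedding.continuous_iff]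
      have : ((↑) : ℤ → ℝ) ∘ n = F := funext hn
      rw [this]
      exact hF
    have := PreconnectedSpace.constant (Y := ℤ) inferInstance hnc (x := t) (y := s)
    rw [← hn t, ← hn s, this]
  have hc1 : Continuous (fun r => (W (Gam r)).1 - (Gam r).1) :=
    (continuous_fst.comp (hW.comp Gam_cont)).sub (continuous_fst.comp Gam_cont)
  have hc2 : Continuous (fun r => (W (Gam r)).2 - (Gam r).2) :=
    (continuous_snd.comp (hW.comp Gam_cont)).sub (continuous_snd.comp Gam_cont)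
  have g1 := gen _ hc1 (fun r => by
    have := congrArg Prod.fst (h (Gam r))
    simp only [pr] at this
    rw [AddCircle.coe_sub, this, sub_self])
  have g2 := gen _ hc2 (fun r => by
    have := congrArg Prod.snd (h (Gam r))
    simp only [pr] at this
    rw [AddCircle.coe_sub, this, sub_self])
  constructor <;> linarith

/-- The representation is injective. -/
theorem rep_faithful (g : FreeGroup (Fin 3)) (h : ∀ p : TT, rep g p = p) : g = 1 := by
  have hg : FreeGroup.mk g.toWord = g := FreeGroup.mk_toWord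
  have hred := FreeGroup.isReduced_toWord (x := g)
  rcases hL : g.toWord with _ | ⟨l, L⟩
  · rw [hL] at hg
    rw [← hg]
    rfl
  · exfalso
    rw [hL] at hg hred
    obtain ⟨s, t, hs0, ht0, hst⟩ := state_of_word L l hred
    have hw : ∀ w, pr (wl (l :: L) w) = pr w := by
      intro w
      rw [pr_wl, hg, h]
    obtain ⟨d1, d2⟩ := disp_const (wl_cont (l :: L)) hw s t
    have hG1 : ∀ r : ℝ, (Gam r).1 = min r 2 := fun r => rfl
    have hG2 : ∀ r : ℝ, (Gam r).2 = 9 * min r 2 + max (r - 2) 0 := fun r => rfl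
    by_cases h2 : l.1 = 2
    · rw [St, if_pos h2] at hst
      obtain ⟨h0, h1, h3⟩ := hst
      rw [d1, hG1, hG1] at h3
      have b1 : 0 ≤ min t 2 - min s 2 := by
        have := min_le_min_right 2 h0
        linarith
      have b2 : min t 2 - min s 2 ≤ 2 := by
        have e1 := min_le_right t 2
        have e2 : (0 : ℝ) ≤ min s 2 := le_min hs0 (by norm_num)
        linarith
      rcases sgn_cases l with hk | hk <;> rw [hk] at h3 <;> push_cast at h3 <;>
        rcases h3 with ⟨-, h3⟩ | ⟨-, h3⟩ <;> linarith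
    · rw [St, if_neg h2] at hst
      obtain ⟨h0, ⟨k, h1⟩, h3⟩ := hst
      rw [d2, hG2, hG2] at h3
      have a1 := h1 s (left_mem_Icc.mpr h0)
      have a2 := h1 t (right_mem_Icc.mpr h0)
      rw [hG1, hG1] at d1
      have b1 : 0 ≤ min t 2 - min s 2 := by
        have := min_le_min_right 2 h0
        linarith
      have b3 : max (t - 2) 0 ≤ 2 := max_le (by linarith) (by norm_num)
      have b4 : 0 ≤ max (s - 2) 0 := le_max_right _ _
      have b5 : max (s - 2) 0 ≤ max (t - 2) 0 := max_le_max_right 0 (by linarith)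
      rw [le_abs] at h3
      rcases h3 with h3 | h3
      · linarith
      · linarith

end Pool.Agent.R627.TorusFaith
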