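import Mathlib

set_option linter.style.haveILetI false

/-!
# Three homeomorphisms of the two-torus

The maps used in the answer to MP_0c6837_al: two diagonal Schottky maps and one sheared twist.
-/

namespace Pool.Agent.R627.TorusMaps

open Set Function Topology

/-- The real line piecewise affine map `h` with `h (h x) = x + 1`. -/
noncomputable def hh (x : ℝ) : ℝ :=
  ⌊x⌋ + min (1 / 64 + 63 * Int.fract x) (1 + (Int.fract x - 1 / 64) / 63)

theorem hh_small (x : ℝ) (n : ℤ) (h0 : n ≤ x) (h1 : x ≤ n + 1 / 64) :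
    hh x = n + 1 / 64 + 63 * (x - n) := by
  have hf : ⌊x⌋ = n := by
    rw [Int.floor_eq_iff]
    constructor
    · exact h0
    · linarith
  have hfr : Int.fract x = x - n := by
    rw [Int.fract, hf]
  rw [hh, hf, hfr, min_eq_left]
  · ring
  · linarith

theorem hh_big (x : ℝ) (n : ℤ) (h0 : n + 1 / 64 ≤ x) (h1 : x ≤ n + 1) :
    hh x = n + 1 + (x - n - 1 / 64) / 63 := by
  rcases lt_or_eq_of_le h1 with h2 | h2
  · have hf : ⌊x⌋ = n := by
      rw [Int.floor_eq_iff]
      constructor
      · linarith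
      · linarith
    have hfr : Int.fract x = x - n := by
      rw [Int.fract, hf]
    rw [hh, hf, hfr, min_eq_right]
    · ring
    · linarith
  · have h3 := hh_small x (n + 1) (by push_cast; linarith) (by push_cast; linarith)
    rw [h3, h2]
    push_cast
    ring

theorem hh_cases (x : ℝ) :
    (∃ n : ℤ, n ≤ x ∧ x < n + 1 / 64 ∧ hh x = n + 1 / 64 + 63 * (x - n)) ∨
    (∃ n : ℤ, n + 1 / 64 ≤ x ∧ x < n + 1 ∧ hh x = n + 1 + (x - n - 1 / 64) / 63) := by
  have h0 := Int.floor_le x
  have h1 := Int.lt_floor_add_one x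
  rcases lt_or_ge x (⌊x⌋ + 1 / 64) with h | h
  · left
    exact ⟨⌊x⌋, h0, h, hh_small x ⌊x⌋ h0 h.le⟩
  · right
    exact ⟨⌊x⌋, h, h1, hh_big x ⌊x⌋ h h1.le⟩

theorem hh_add_int (x : ℝ) (n : ℤ) : hh (x + n) = hh x + n := by
  simp only [hh, Int.floor_add_intCast, Int.fract_add_intCast]
  push_cast
  ring

theorem hh_hh (x : ℝ) : hh (hh x) = x + 1 := by
  rcases hh_cases x with ⟨n, h0, h1, h2⟩ | ⟨n, h0, h1, h2⟩
  · rw [h2, hh_big (n + 1 / 64 + 63 * (x - n)) n (by linarith) (by linarith)]
    ring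
  · rw [h2, hh_small (n + 1 + (x - n - 1 / 64) / 63) (n + 1) (by push_cast; linarith)
      (by push_cast; linarith)]
    push_cast
    ring

theorem hh_mono : StrictMono hh := by
  intro x y hxy
  rcases hh_cases x with ⟨n, h0, h1, h2⟩ | ⟨n, h0, h1, h2⟩ <;>
  rcases hh_cases y with ⟨m, k0, k1, k2⟩ | ⟨m, k0, k1, k2⟩ <;> rw [h2, k2]
  · have hnm : n ≤ m := by
      have : (n : ℝ) < m + 1 := by linarith
      exact_mod_cast Int.lt_add_one_iff.mp (by exact_mod_cast this)
    rcases lt_or_eq_of_le hnm with h | h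
    · have : (n : ℝ) + 1 ≤ m := by exact_mod_cast h
      linarith
    · subst h
      linarith
  · have hnm : n ≤ m := by
      have : (n : ℝ) < m + 1 := by linarith
      exact_mod_cast Int.lt_add_one_iff.mp (by exact_mod_cast this)
    rcases lt_or_eq_of_le hnm with h | h
    · have : (n : ℝ) + 1 ≤ m := by exact_mod_cast h
      linarith
    · subst h
      linarith
  · have hnm : n ≤ m := by
      have : (n : ℝ) < m + 1 := by linarith
      exact_mod_cast Int.lt_add_one_iff.mp (by exact_mod_cast this)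
    rcases lt_or_eq_of_le hnm with h | h
    · have : (n : ℝ) + 1 ≤ m := by exact_mod_cast h
      linarith
    · subst h
      linarith
  · have hnm : n ≤ m := by
      have : (n : ℝ) < m + 1 := by linarith
      exact_mod_cast Int.lt_add_one_iff.mp (by exact_mod_cast this)
    rcases lt_or_eq_of_le hnm with h | h
    · have : (n : ℝ) + 1 ≤ m := by exact_mod_cast h
      linarith
    · subst h
      linarith

theorem hh_surj : Surjective hh := by
  intro y
  refine ⟨hh y - 1, ?_⟩
  have h1 := hh_add_int (hh y) (-1)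
  have h2 := hh_hh y
  push_cast at h1
  rw [sub_eq_add_neg, h1, h2]
  ring

theorem hh_cont : Continuous hh :=
  hh_mono.monotone.continuous_of_surjective hh_surj

/-- The map of the line `x ↦ h (x - u) + v`. -/
noncomputable def mv (u v x : ℝ) : ℝ := hh (x - u) + v

theorem mv_add_int (u v x : ℝ) (n : ℤ) : mv u v (x + n) = mv u v x + n := by
  unfold mv
  rw [show x + (n : ℝ) - u = (x - u) + n by ring, hh_add_int]
  ring

theorem mv_mv (u v x : ℝ) : mv u v (mv v u x) = x + 1 := by
  unfold mv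
  rw [show hh (x - v) + u - u = hh (x - v) by ring, hh_hh]
  ring

theorem mv_mono (u v : ℝ) : StrictMono (mv u v) := by
  intro x y hxy
  unfold mv
  have := hh_mono (sub_lt_sub_right hxy u)
  linarith

theorem mv_cont (u v : ℝ) : Continuous (mv u v) :=
  (hh_cont.comp (continuous_id.sub continuous_const)).add continuous_const

theorem mv_big (u v x : ℝ) (k : ℤ) (h0 : u + 1 / 64 + k ≤ x) (h1 : x ≤ u + 1 + k) :
    mv u v x = v + k + 1 + (x - u - k - 1 / 64) / 63 := by
  unfold mv
  rw [hh_big (x - u) k (by linarith) (by linarith)]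
  ring

theorem mv_big_mem (u v x : ℝ) (k : ℤ) (h0 : u + 1 / 64 + k ≤ x) (h1 : x ≤ u + 1 + k) :
    v + (k + 1) ≤ mv u v x ∧ mv u v x ≤ v + 1 / 64 + (k + 1) := by
  rw [mv_big u v x k h0 h1]
  constructor <;> linarith

theorem mv_growth (u v x y : ℝ) (n : ℤ) (h : (n : ℝ) ≤ y - x) :
    (n : ℝ) ≤ mv u v y - mv u v x := by
  have h1 : x + n ≤ y := by linarith
  have h2 := (mv_mono u v).monotone h1
  rw [mv_add_int] at h2
  linarith

/-- The twist profile. -/
noncomputable def cc (t : ℝ) : ℝ :=
  ⌊t⌋ + min 1 (Real.sqrt 2 * max 0 (2 * Int.fract t - 1))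

theorem cc_add_int (x : ℝ) (n : ℤ) : cc (x + n) = cc x + n := by
  simp only [cc, Int.floor_add_intCast, Int.fract_add_intCast]
  push_cast
  ring

theorem cc_bounds (x : ℝ) : (⌊x⌋ : ℝ) ≤ cc x ∧ cc x ≤ ⌊x⌋ + 1 := by
  unfold cc
  constructor
  · have : (0 : ℝ) ≤ min 1 (Real.sqrt 2 * max 0 (2 * Int.fract x - 1)) := by
      apply le_min (by norm_num)
      positivity
    linarith
  · have := min_le_left (1 : ℝ) (Real.sqrt 2 * max 0 (2 * Int.fract x - 1))
    linarith

theorem cc_mono : Monotone cc := by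
  intro x y hxy
  have hf := Int.floor_mono hxy
  rcases lt_or_eq_of_le hf with h | h
  · have h1 := (cc_bounds x).2
    have h2 := (cc_bounds y).1
    have : (⌊x⌋ : ℝ) + 1 ≤ ⌊y⌋ := by exact_mod_cast h
    linarith
  · unfold cc
    rw [h]
    have h3 : Int.fract x ≤ Int.fract y := by
      rw [Int.fract, Int.fract, h]
      linarith
    have h4 : max 0 (2 * Int.fract x - 1) ≤ max 0 (2 * Int.fract y - 1) :=
      max_le_max le_rfl (by linarith)
    have h5 : Real.sqrt 2 * max 0 (2 * Int.fract x - 1) ≤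
        Real.sqrt 2 * max 0 (2 * Int.fract y - 1) :=
      mul_le_mul_of_nonneg_left h4 (Real.sqrt_nonneg 2)
    have := min_le_min (le_refl (1 : ℝ)) h5
    linarith

theorem sqrt2_gt : (1.4 : ℝ) < Real.sqrt 2 := by
  rw [Real.lt_sqrt (by norm_num)]
  norm_num

theorem cc_mid (t : ℝ) (n : ℤ) (h0 : n + 1 / 2 ≤ t) (h1 : t < n + 1)
    (h2 : Real.sqrt 2 * (2 * (t - n) - 1) ≤ 1) :
    cc t = n + Real.sqrt 2 * (2 * (t - n) - 1) := by
  have hf : ⌊t⌋ = n := by
    rw [Int.floor_eq_iff]
    constructor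
    · linarith
    · linarith
  have hfr : Int.fract t = t - n := by
    rw [Int.fract, hf]
  unfold cc
  rw [hf, hfr, max_eq_right (by linarith), min_eq_right h2]

theorem cc_low (t : ℝ) (n : ℤ) (h0 : n ≤ t) (h1 : t ≤ n + 1 / 2) : cc t = n := by
  have hf : ⌊t⌋ = n := by
    rw [Int.floor_eq_iff]
    constructor
    · linarith
    · linarith
  have hfr : Int.fract t = t - n := by
    rw [Int.fract, hf]
  unfold cc
  rw [hf, hfr, max_eq_left (by linarith), mul_zero, min_eq_right (by norm_num), add_zero]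

theorem cc_int (n : ℤ) : cc n = n := cc_low n n le_rfl (by linarith)

theorem cc_surj : Surjective cc := by
  intro y
  have hs := sqrt2_gt
  have hs0 : (0 : ℝ) < Real.sqrt 2 := by linarith
  have h0 := Int.fract_nonneg y
  have h1 := Int.fract_lt_one y
  have h4 : Int.fract y / Real.sqrt 2 < 1 := by
    rw [div_lt_one hs0]
    linarith
  have h5 : 0 ≤ Int.fract y / Real.sqrt 2 := by positivity
  have h6 : Real.sqrt 2 * (Int.fract y / Real.sqrt 2) = Int.fract y := by
    field_simp
  refine ⟨⌊y⌋ + 1 / 2 + (Int.fract y / Real.sqrt 2) / 2, ?_⟩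
  have h8 : 2 * ((⌊y⌋ : ℝ) + 1 / 2 + (Int.fract y / Real.sqrt 2) / 2 - ⌊y⌋) - 1
      = Int.fract y / Real.sqrt 2 := by ring
  have h7 : Real.sqrt 2 * (2 * ((⌊y⌋ : ℝ) + 1 / 2 + (Int.fract y / Real.sqrt 2) / 2 - ⌊y⌋) - 1)
      = Int.fract y := by
    rw [h8, h6]
  rw [cc_mid _ ⌊y⌋ (by linarith) (by linarith) (by rw [h7]; exact h1.le), h7]
  exact Int.floor_add_fract y

theorem cc_cont : Continuous cc := cc_mono.continuous_of_surjective cc_surj

/-! ### Circle maps -/

/-- The torus. -/
abbrev TT : Type := UnitAddCircle × UnitAddCircle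

theorem mv_periodic (u v : ℝ) : Periodic (fun x : ℝ => ((mv u v x : ℝ) : UnitAddCircle)) 1 := by
  intro x
  have h := mv_add_int u v x 1
  push_cast at h
  show ((mv u v (x + 1) : ℝ) : UnitAddCircle) = _
  rw [h]
  simp

/-- The circle map covered by `mv u v`. -/
noncomputable def cm (u v : ℝ) : UnitAddCircle → UnitAddCircle := (mv_periodic u v).lift

theorem cm_coe (u v x : ℝ) : cm u v (x : UnitAddCircle) = ((mv u v x : ℝ) : UnitAddCircle) := rfl

theorem cm_cont (u v : ℝ) : Continuous (cm u v) := by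
  have hq : Topology.IsQuotientMap ((↑) : ℝ → UnitAddCircle) :=
    QuotientAddGroup.isQuotientMap_mk _
  rw [hq.continuous_iff]
  exact (AddCircle.continuous_mk' 1).comp (mv_cont u v)

theorem cm_cm (u v : ℝ) (z : UnitAddCircle) : cm u v (cm v u z) = z := by
  induction z using QuotientAddGroup.induction_on with
  | H x =>
    show cm u v (cm v u (x : UnitAddCircle)) = (x : UnitAddCircle)
    rw [cm_coe, cm_coe, mv_mv]
    simp

/-- The circle homeomorphism covered by `mv u v`. -/
noncomputable def ch (u v : ℝ) : UnitAddCircle ≃ₜ UnitAddCircle where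
  toFun := cm u v
  invFun := cm v u
  left_inv := cm_cm v u
  right_inv := cm_cm u v
  continuous_toFun := cm_cont u v
  continuous_invFun := cm_cont v u

/-- The diagonal torus homeomorphism. -/
noncomputable def dh (u v : ℝ) : TT ≃ₜ TT := (ch u v).prodCongr (ch u v)

theorem dh_apply (u v : ℝ) (p : TT) : dh u v p = (cm u v p.1, cm u v p.2) := rfl

theorem dh_inv_apply (u v : ℝ) (p : TT) : (dh u v)⁻¹ p = (cm v u p.1, cm v u p.2) := rfl

theorem CC_periodic : Periodic (fun x : ℝ => ((4 * cc x : ℝ) : UnitAddCircle)) 1 := by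
  intro x
  have h := cc_add_int x 1
  push_cast at h
  show ((4 * cc (x + 1) : ℝ) : UnitAddCircle) = ((4 * cc x : ℝ) : UnitAddCircle)
  rw [h, mul_add, AddCircle.coe_add]
  have h2 : ((4 * 1 : ℝ) : UnitAddCircle) = 0 := by
    rw [AddCircle.coe_eq_zero_iff]
    exact ⟨4, by norm_num⟩
  rw [h2, add_zero]

/-- The twist angle on the circle. -/
noncomputable def CC : UnitAddCircle → UnitAddCircle := CC_periodic.lift

theorem CC_coe (x : ℝ) : CC (x : UnitAddCircle) = ((4 * cc x : ℝ) : UnitAddCircle) := rfl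

theorem CC_cont : Continuous CC := by
  have hq : Topology.IsQuotientMap ((↑) : ℝ → UnitAddCircle) :=
    QuotientAddGroup.isQuotientMap_mk _
  rw [hq.continuous_iff]
  exact (AddCircle.continuous_mk' 1).comp (continuous_const.mul cc_cont)

/-- The level of a point. -/
noncomputable def lv (p : TT) : UnitAddCircle := p.2 - (9 : ℤ) • p.1

theorem lv_cont : Continuous lv :=
  continuous_snd.sub (continuous_fst.zsmul 9)

/-- The sheared twist, forwards or backwards. -/
noncomputable def gm (k : ℤ) (p : TT) : TT :=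
  (p.1 + k • CC (lv p), p.2 + (9 * k) • CC (lv p))

theorem lv_gm (k : ℤ) (p : TT) : lv (gm k p) = lv p := by
  simp only [lv, gm, zsmul_add, mul_smul]
  abel

theorem gm_gm (j k : ℤ) (p : TT) : gm j (gm k p) = gm (k + j) p := by
  have h := lv_gm k p
  conv_lhs => rw [gm]
  rw [h]
  ext
  · simp only [gm, add_smul]
    abel
  · simp only [gm, mul_add, add_smul]
    abel

theorem gm_zero (p : TT) : gm 0 p = p := by
  simp [gm]

theorem gm_cont (k : ℤ) : Continuous (gm k) := by
  have h1 : Continuous (fun p : TT => CC (lv p)) := CC_cont.comp lv_cont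
  exact (continuous_fst.add (h1.zsmul k)).prodMk (continuous_snd.add (h1.zsmul (9 * k)))

/-- The sheared twist homeomorphism. -/
noncomputable def gh : TT ≃ₜ TT where
  toFun := gm 1
  invFun := gm (-1)
  left_inv := fun p => by rw [gm_gm]; exact gm_zero p
  right_inv := fun p => by rw [gm_gm]; exact gm_zero p
  continuous_toFun := gm_cont 1
  continuous_invFun := gm_cont (-1)

/-- The left end points of the four arcs. -/
noncomputable def qq (j : ℕ) : ℝ := (j : ℝ) / 4 + 1 / 32

/-- The three generators. -/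
noncomputable def gens : Fin 3 → (TT ≃ₜ TT) := ![dh (qq 1) (qq 0), dh (qq 3) (qq 2), gh]

/-- The representation of the free group. -/
noncomputable def rep : FreeGroup (Fin 3) →* (TT ≃ₜ TT) := FreeGroup.lift gens

/-- The homeomorphism attached to a letter. -/
noncomputable def lh (l : Fin 3 × Bool) : TT ≃ₜ TT := if l.2 then gens l.1 else (gens l.1)⁻¹

/-- the index of the arc expanded by a letter -/
def inn (l : Fin 3 × Bool) : ℕ := 2 * (l.1 : ℕ) + (if l.2 then 1 else 0)

/-- the index of the arc into which a letter contracts -/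
def outn (l : Fin 3 × Bool) : ℕ := 2 * (l.1 : ℕ) + (if l.2 then 0 else 1)

/-- the sign of a letter -/
def sgn (l : Fin 3 × Bool) : ℤ := if l.2 then 1 else -1

theorem lh_diag (l : Fin 3 × Bool) (h : l.1 ≠ 2) (p : TT) :
    lh l p = (cm (qq (inn l)) (qq (outn l)) p.1, cm (qq (inn l)) (qq (outn l)) p.2) := by
  obtain ⟨i, b⟩ := l
  fin_cases i <;> cases b
  · rfl
  · rfl
  · rfl
  · rfl
  · exact absurd rfl h
  · exact absurd rfl h

theorem lh_twist (l : Fin 3 × Bool) (h : l.1 = 2) (p : TT) : lh l p = gm (sgn l) p := by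
  obtain ⟨i, b⟩ := l
  have : i = 2 := h
  subst this
  cases b
  · rfl
  · rfl

theorem rep_mk_cons (l : Fin 3 × Bool) (L : List (Fin 3 × Bool)) (p : TT) :
    rep (FreeGroup.mk (l :: L)) p = lh l (rep (FreeGroup.mk L) p) := by
  have h1 : FreeGroup.mk (l :: L) = FreeGroup.mk [l] * FreeGroup.mk L := by
    rw [FreeGroup.mul_mk]
    rfl
  rw [h1, map_mul]
  have h2 : rep (FreeGroup.mk [l]) = lh l := by
    rw [rep, FreeGroup.lift_mk]
    obtain ⟨i, b⟩ := l
    cases b <;> simp [lh]
  rw [h2]
  rfl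

end Pool.Agent.R627.TorusMaps
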