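import Pool.Agent.R627.TorusFaith

set_option linter.style.haveILetI false

/-!
# Minimality and proximality of the torus action of the free group of rank three
-/

namespace Pool.Agent.R627.TorusMin

open Set Function Topology Filter Pool.Agent.R627.TorusMaps Pool.Agent.R627.TorusFaith

/-- complement of the open arc -/
def Good (j : ℕ) (z : UnitAddCircle) : Prop :=
  ∃ r : ℝ, z = (r : UnitAddCircle) ∧ qq j + 1 / 64 ≤ r ∧ r ≤ qq j + 1

/-- the closed arc -/
def Arc (j : ℕ) (z : UnitAddCircle) : Prop :=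
  ∃ r : ℝ, z = (r : UnitAddCircle) ∧ qq j ≤ r ∧ r ≤ qq j + 1 / 64

theorem coe_int (n : ℤ) : ((n : ℝ) : UnitAddCircle) = 0 := by
  rw [AddCircle.coe_eq_zero_iff]
  exact ⟨n, by simp⟩

theorem coe_add_int (x : ℝ) (n : ℤ) : ((x + n : ℝ) : UnitAddCircle) = (x : UnitAddCircle) := by
  rw [AddCircle.coe_add, coe_int, add_zero]

theorem good_map {a : ℕ} (b : ℕ) {z : UnitAddCircle} (h : Good a z) :
    Arc b (cm (qq a) (qq b) z) := by
  obtain ⟨r, rfl, h0, h1⟩ := h
  have h2 := mv_big_mem (qq a) (qq b) r 0 (by push_cast; linarith) (by push_cast; linarith)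
  push_cast at h2
  refine ⟨mv (qq a) (qq b) r + ((-1 : ℤ) : ℝ), ?_, ?_, ?_⟩
  · rw [coe_add_int, cm_coe]
  · push_cast; linarith
  · push_cast; linarith

theorem arc_good {i j : ℕ} (hi : i < 4) (hj : j < 4) (hij : i ≠ j) {z : UnitAddCircle}
    (h : Arc i z) : Good j z := by
  obtain ⟨r, rfl, h0, h1⟩ := h
  unfold qq at h0 h1
  have hi2 : (i : ℝ) ≤ 3 := by exact_mod_cast Nat.lt_succ_iff.mp hi
  have hj2 : (j : ℝ) ≤ 3 := by exact_mod_cast Nat.lt_succ_iff.mp hj
  have hi3 : (0 : ℝ) ≤ i := by positivity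
  have hj3 : (0 : ℝ) ≤ j := by positivity
  rcases lt_or_gt_of_ne hij with hlt | hlt
  · have hc : (i : ℝ) + 1 ≤ j := by exact_mod_cast hlt
    refine ⟨r + ((1 : ℤ) : ℝ), (coe_add_int _ _).symm, ?_, ?_⟩
    · unfold qq; push_cast; linarith
    · unfold qq; push_cast; linarith
  · have hc : (j : ℝ) + 1 ≤ i := by exact_mod_cast hlt
    refine ⟨r, rfl, ?_, ?_⟩
    · unfold qq; linarith
    · unfold qq; linarith

theorem good_or_arc (j : ℕ) (z : UnitAddCircle) : Good j z ∨ Arc j z := by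
  induction z using QuotientAddGroup.induction_on with
  | H x =>
    have h0 := Int.floor_le (x - qq j)
    have h1 := Int.lt_floor_add_one (x - qq j)
    have e : ((x : ℝ) : UnitAddCircle) = ((x + ((-⌊x - qq j⌋ : ℤ) : ℝ) : ℝ) : UnitAddCircle) :=
      (coe_add_int _ _).symm
    rcases le_total (x + ((-⌊x - qq j⌋ : ℤ) : ℝ)) (qq j + 1 / 64) with h | h
    · right
      refine ⟨_, e, ?_, h⟩
      push_cast
      linarith
    · left
      refine ⟨_, e, h, ?_⟩
      push_cast
      linarith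

/-- the maps on the circle -/
noncomputable abbrev al : UnitAddCircle → UnitAddCircle := cm (qq 1) (qq 0)
/-- the maps on the circle -/
noncomputable abbrev be : UnitAddCircle → UnitAddCircle := cm (qq 3) (qq 2)

theorem be_good (z : UnitAddCircle) : ∀ᶠ n : ℕ in atTop, Good 1 (be^[n] z) := by
  by_cases h : ∀ n : ℕ, Arc 3 (be^[n] z)
  · exact Eventually.of_forall fun n => arc_good (by norm_num) (by norm_num) (by norm_num) (h n)
  · push Not at h
    obtain ⟨n0, hn0⟩ := h
    have h1 : Good 3 (be^[n0] z) := (good_or_arc 3 _).resolve_right hn0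
    have h2 : ∀ m : ℕ, Arc 2 (be^[n0 + 1 + m] z) := by
      intro m
      induction m with
      | zero =>
        rw [add_zero, iterate_succ_apply']
        exact good_map 2 h1
      | succ m ih =>
        rw [← add_assoc, iterate_succ_apply']
        exact good_map 2 (arc_good (by norm_num) (by norm_num) (by norm_num) ih)
    rw [eventually_atTop]
    refine ⟨n0 + 1, fun n hn => ?_⟩
    obtain ⟨m, rfl⟩ := Nat.exists_eq_add_of_le hn
    exact arc_good (by norm_num) (by norm_num) (by norm_num) (h2 m)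

/-- the attracting point of the first generator -/
noncomputable def xs : ℝ := 4139 / 3968

theorem al_iter (n : ℕ) (z : UnitAddCircle) (h : Good 1 z) :
    ∃ e : ℝ, |e| ≤ (1 / 63) ^ n ∧ al^[n] z = ((xs + e : ℝ) : UnitAddCircle) ∧
      qq 1 + 1 / 64 ≤ xs + e ∧ xs + e ≤ qq 1 + 1 := by
  induction n with
  | zero =>
    obtain ⟨r, hr, h0, h1⟩ := h
    refine ⟨r - xs, ?_, ?_, ?_, ?_⟩
    · unfold qq at h0 h1
      unfold xs
      norm_num at h0 h1 ⊢
      rw [abs_le]
      constructor <;> linarith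
    · rw [iterate_zero, id, hr]
      congr 1
      ring
    · linarith
    · linarith
  | succ n ih =>
    obtain ⟨e, he, h1, h2, h3⟩ := ih
    have hm : mv (qq 1) (qq 0) (xs + e) = xs + e / 63 := by
      rw [mv_big (qq 1) (qq 0) (xs + e) 0 (by push_cast; linarith) (by push_cast; linarith)]
      unfold qq xs
      push_cast
      ring
    refine ⟨e / 63, ?_, ?_, ?_, ?_⟩
    · rw [abs_div, pow_succ]
      have : |(63 : ℝ)| = 63 := by norm_num
      rw [this]
      linarith
    · rw [iterate_succ_apply', h1]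
      show cm (qq 1) (qq 0) _ = _
      rw [cm_coe, hm]
    · unfold qq xs at *
      norm_num at *
      linarith
    · unfold qq xs at *
      norm_num at *
      linarith

theorem tendsto_circle (z : UnitAddCircle) :
    Tendsto (fun n : ℕ => al^[n] (be^[n] z)) atTop (𝓝 ((xs : ℝ) : UnitAddCircle)) := by
  have h : ∀ n : ℕ, ∃ e : ℝ, |e| ≤ (1 / 63) ^ n ∧
      (Good 1 (be^[n] z) → al^[n] (be^[n] z) = ((xs + e : ℝ) : UnitAddCircle)) := by
    intro n
    by_cases hg : Good 1 (be^[n] z)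
    · obtain ⟨e, he, h1, -, -⟩ := al_iter n _ hg
      exact ⟨e, he, fun _ => h1⟩
    · refine ⟨0, ?_, fun h => absurd h hg⟩
      rw [abs_zero]
      positivity
  choose e he1 he2 using h
  have he : Tendsto e atTop (𝓝 0) := by
    refine squeeze_zero_norm (a := fun n : ℕ => ((1 : ℝ) / 63) ^ n) (fun n => he1 n) ?_
    exact tendsto_pow_atTop_nhds_zero_of_lt_one (by norm_num) (by norm_num)
  have h2 : Tendsto (fun n => ((xs + e n : ℝ) : UnitAddCircle)) atTop
      (𝓝 ((xs : ℝ) : UnitAddCircle)) := by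
    have h3 : Tendsto (fun n => xs + e n) atTop (𝓝 (xs + 0)) := he.const_add xs
    rw [add_zero] at h3
    exact ((AddCircle.continuous_mk' 1).tendsto xs).comp h3
  refine h2.congr' ?_
  filter_upwards [be_good z] with n hn
  exact (he2 n hn).symm

/-- the limit point -/
noncomputable def ps : TT := (((xs : ℝ) : UnitAddCircle), ((xs : ℝ) : UnitAddCircle))

/-- the contracting sequence -/
def vn (n : ℕ) : FreeGroup (Fin 3) := (FreeGroup.of 0) ^ n * (FreeGroup.of 1) ^ n

theorem dh_pow (u v : ℝ) (n : ℕ) (p : TT) :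
    ((dh u v) ^ n) p = ((cm u v)^[n] p.1, (cm u v)^[n] p.2) := by
  induction n with
  | zero => rfl
  | succ n ih =>
    rw [pow_succ', Homeomorph.mul_apply, ih, dh_apply, iterate_succ_apply', iterate_succ_apply']

theorem rep_vn (n : ℕ) (p : TT) :
    rep (vn n) p = (al^[n] (be^[n] p.1), al^[n] (be^[n] p.2)) := by
  have h0 : rep (FreeGroup.of 0) = dh (qq 1) (qq 0) := by
    rw [rep, FreeGroup.lift_apply_of]
    rfl
  have h1 : rep (FreeGroup.of 1) = dh (qq 3) (qq 2) := by
    rw [rep, FreeGroup.lift_apply_of]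
    rfl
  rw [vn, map_mul, map_pow, map_pow, h0, h1, Homeomorph.mul_apply, dh_pow, dh_pow]

theorem tendsto_vn (p : TT) : Tendsto (fun n : ℕ => rep (vn n) p) atTop (𝓝 ps) := by
  simp only [rep_vn]
  exact (tendsto_circle p.1).prodMk_nhds (tendsto_circle p.2)

/-! ### minimality -/

theorem rep_letter (l : Fin 3 × Bool) (p : TT) : rep (FreeGroup.mk [l]) p = lh l p := by
  rw [rep_mk_cons]
  have : (FreeGroup.mk ([] : List (Fin 3 × Bool))) = 1 := rfl
  rw [this, map_one]
  rfl

theorem irr_level (t : ℝ) (q : ℚ) (n : ℤ) (h : t = n + q) (h1 : (1 / 2 : ℝ) < q)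
    (h2 : (q : ℝ) < 4 / 5) : Irrational (4 * cc t) := by
  have hs2 : Real.sqrt 2 ≤ 1.5 := by
    rw [Real.sqrt_le_left (by norm_num)]
    norm_num
  have hs0 := Real.sqrt_nonneg 2
  have hm : cc t = n + Real.sqrt 2 * (2 * (t - n) - 1) := by
    apply cc_mid t n
    · rw [h]; linarith
    · rw [h]; linarith
    · rw [h]
      have : Real.sqrt 2 * (2 * ((n : ℝ) + q - n) - 1) ≤ 1.5 * (3 / 5) := by
        apply mul_le_mul hs2 (by linarith) (by linarith) (by norm_num)
      linarith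
  have e : 4 * cc t = ((4 * n : ℤ) : ℝ) + ((4 * (2 * q - 1) : ℚ) : ℝ) * Real.sqrt 2 := by
    rw [hm, h]
    push_cast
    ring
  rw [e]
  have hq : (4 * (2 * q - 1) : ℚ) ≠ 0 := by
    have : (1 / 2 : ℚ) < q := by
      have : (((1 / 2 : ℚ)) : ℝ) < q := by push_cast; linarith
      exact_mod_cast this
    intro h0
    linarith
  exact (irrational_sqrt_two.ratCast_mul hq).intCast_add _

section
variable {Z : Set TT} (hZ : IsClosed Z) (hinv : ∀ g : FreeGroup (Fin 3), ∀ p ∈ Z, rep g p ∈ Z)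
include hZ hinv

omit hZ in
theorem gm_mem {p : TT} (hp : p ∈ Z) (k : ℤ) : gm k p ∈ Z := by
  have h1 : ∀ q ∈ Z, gm 1 q ∈ Z := by
    intro q hq
    have := hinv (FreeGroup.mk [(2, true)]) q hq
    rw [rep_letter, lh_twist _ rfl] at this
    exact this
  have h2 : ∀ q ∈ Z, gm (-1) q ∈ Z := by
    intro q hq
    have := hinv (FreeGroup.mk [(2, false)]) q hq
    rw [rep_letter, lh_twist _ rfl] at this
    exact this
  induction k using Int.induction_on with
  | zero => rw [gm_zero]; exact hp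
  | succ k ih =>
    rw [← gm_gm]
    exact h1 _ ih
  | pred k ih =>
    rw [sub_eq_add_neg, ← gm_gm]
    exact h2 _ ih

theorem level_mem (w : ℝ × ℝ) (hw : pr w ∈ Z) (hirr : Irrational (4 * cc (zz w))) (s : ℝ) :
    pr (w.1 + s, w.2 + 9 * s) ∈ Z := by
  have hd : DenseRange (fun k : ℤ => k • (((4 * cc (zz w) : ℝ)) : UnitAddCircle)) := by
    have := AddCircle.denseRange_zsmul_coe_iff (a := 4 * cc (zz w)) (p := 1)
    rw [div_one] at this
    exact this.mpr hirr
  let Φ : UnitAddCircle → TT := fun x =>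
    ((w.1 : UnitAddCircle) + x, (w.2 : UnitAddCircle) + (9 : ℤ) • x)
  have hΦ : Continuous Φ :=
    (continuous_add_left (w.1 : UnitAddCircle)).prodMk
      ((continuous_add_left (w.2 : UnitAddCircle)).comp (continuous_zsmul 9))
  have hcl : IsClosed (Φ ⁻¹' Z) := hZ.preimage hΦ
  have hsub : range (fun k : ℤ => k • (((4 * cc (zz w) : ℝ)) : UnitAddCircle)) ⊆ Φ ⁻¹' Z := by
    rintro _ ⟨k, rfl⟩
    have := gm_mem hinv hw k
    rw [gm, lv_pr, CC_coe] at this
    show ((w.1 : UnitAddCircle) + _, (w.2 : UnitAddCircle) + (9 : ℤ) • _) ∈ Z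
    rw [smul_smul]
    exact this
  have huniv : Φ ⁻¹' Z = univ := by
    have h1 := hcl.closure_subset_iff.mpr hsub
    rw [hd.closure_range] at h1
    exact univ_subset_iff.mp h1
  have hs : ((s : ℝ) : UnitAddCircle) ∈ Φ ⁻¹' Z := by
    rw [huniv]
    exact mem_univ _
  have e : Φ ((s : ℝ) : UnitAddCircle) = pr (w.1 + s, w.2 + 9 * s) := by
    show ((w.1 : UnitAddCircle) + _, (w.2 : UnitAddCircle) + (9 : ℤ) • _) = _
    rw [pr, AddCircle.coe_add, AddCircle.coe_add, ← AddCircle.coe_zsmul]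
    simp
  rw [← e]
  exact hs

theorem ps_mem (hne : Z.Nonempty) : ps ∈ Z := by
  obtain ⟨p, hp⟩ := hne
  exact hZ.mem_of_tendsto (tendsto_vn p) (Eventually.of_forall fun n => hinv _ p hp)

theorem start_mem (hne : Z.Nonempty) (s : ℝ) : pr (xs + s, xs + 9 * s) ∈ Z := by
  have h := ps_mem hZ hinv hne
  have h1 : pr (xs, xs) ∈ Z := h
  refine level_mem hZ hinv (xs, xs) h1 ?_ s
  apply irr_level (zz (xs, xs)) (9 - 8 * (4139 / 3968)) (-9)
  · unfold zz xs
    push_cast
    ring
  · push_cast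
    norm_num
  · push_cast
    norm_num

theorem all_levels (hne : Z.Nonempty) (z' : ℝ) : ∃ w : ℝ × ℝ, pr w ∈ Z ∧ ∃ k : ℤ,
    zz w = k + z' := by
  let lam : ℝ → ℝ := fun s => zz (dl (qq 1) (qq 0) (xs + s, xs + 9 * s))
  have hlam : Continuous lam := by
    have c1 : Continuous fun s : ℝ => mv (qq 1) (qq 0) (xs + s) :=
      (mv_cont _ _).comp (by fun_prop)
    have c2 : Continuous fun s : ℝ => mv (qq 1) (qq 0) (xs + 9 * s) :=
      (mv_cont _ _).comp (by fun_prop)
    exact c2.sub (c1.const_mul 9)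
  have hmem : ∀ s, pr (dl (qq 1) (qq 0) (xs + s, xs + 9 * s)) ∈ Z := by
    intro s
    have h1 := hinv (FreeGroup.mk [(0, true)]) _ (start_mem hZ hinv hne s)
    rw [rep_letter, ← pr_ll, ll, if_neg (by decide)] at h1
    exact h1
  have hgrow : lam (qq 1 + 1 / 64 - xs) + 1 ≤ lam (qq 1 + 1 - xs) := by
    have g1 := mv_growth (qq 1) (qq 0) (xs + 9 * (qq 1 + 1 / 64 - xs))
      (xs + 9 * (qq 1 + 1 - xs)) 8 (by push_cast; linarith)
    push_cast at g1
    have e1 := mv_big (qq 1) (qq 0) (xs + (qq 1 + 1 / 64 - xs)) 0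
      (by push_cast; linarith) (by push_cast; linarith)
    have e2 := mv_big (qq 1) (qq 0) (xs + (qq 1 + 1 - xs)) 0
      (by push_cast; linarith) (by push_cast; linarith)
    push_cast at e1 e2
    show mv (qq 1) (qq 0) (xs + 9 * (qq 1 + 1 / 64 - xs)) -
      9 * mv (qq 1) (qq 0) (xs + (qq 1 + 1 / 64 - xs)) + 1 ≤
      mv (qq 1) (qq 0) (xs + 9 * (qq 1 + 1 - xs)) - 9 * mv (qq 1) (qq 0) (xs + (qq 1 + 1 - xs))
    rw [e1, e2]
    linarith
  set s0 := qq 1 + 1 / 64 - xs with hs0
  set s1 := qq 1 + 1 - xs with hs1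
  have hs01 : s0 ≤ s1 := by
    rw [hs0, hs1]; linarith
  have h0 := Int.le_ceil (lam s0 - z')
  have h1 := Int.ceil_lt_add_one (lam s0 - z')
  obtain ⟨s, -, hs⟩ := intermediate_value_Icc hs01 hlam.continuousOn
    (show (⌈lam s0 - z'⌉ : ℝ) + z' ∈ Icc (lam s0) (lam s1) from ⟨by linarith, by linarith⟩)
  exact ⟨_, hmem s, ⌈lam s0 - z'⌉, hs⟩

theorem rat_level (hne : Z.Nonempty) (q : ℚ) (h1 : (1 / 2 : ℝ) < q) (h2 : (q : ℝ) < 4 / 5)
    (x : ℝ) : pr (x, 9 * x + q) ∈ Z := by
  obtain ⟨w, hw, k, hk⟩ := all_levels hZ hinv hne q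
  have h3 := level_mem hZ hinv w hw (irr_level _ q k hk h1 h2) (x - w.1)
  have e : pr (w.1 + (x - w.1), w.2 + 9 * (x - w.1)) = pr (x, 9 * x + q) := by
    have e1 : w.2 + 9 * (x - w.1) = 9 * x + q + k := by
      unfold zz at hk
      linarith
    rw [e1]
    simp only [pr]
    rw [coe_add_int]
    ext
    · show ((w.1 + (x - w.1) : ℝ) : UnitAddCircle) = _
      congr 1
      ring
    · rfl
  rw [← e]
  exact h3

theorem band (hne : Z.Nonempty) (t : ℝ) (h1 : 1 / 2 < t) (h2 : t < 4 / 5)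
    (x : ℝ) : pr (x, 9 * x + t) ∈ Z := by
  have hc : Continuous (fun t : ℝ => pr (x, 9 * x + t)) := by
    have h1 : Continuous (fun t : ℝ => ((9 * x + t : ℝ) : UnitAddCircle)) :=
      (AddCircle.continuous_mk' 1).comp (continuous_add_left (9 * x))
    exact (continuous_const (y := ((x : ℝ) : UnitAddCircle))).prodMk h1
  have hcl : IsClosed {t : ℝ | pr (x, 9 * x + t) ∈ Z} := hZ.preimage hc
  have hd : Dense (range ((↑) : ℚ → ℝ)) := Rat.denseRange_cast
  have h3 := hd.open_subset_closure_inter (isOpen_Ioo (a := (1 / 2 : ℝ)) (b := 4 / 5))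
  have h4 : Ioo (1 / 2 : ℝ) (4 / 5) ∩ range ((↑) : ℚ → ℝ) ⊆ {t : ℝ | pr (x, 9 * x + t) ∈ Z} := by
    rintro _ ⟨⟨a, b⟩, q, rfl⟩
    exact rat_level hZ hinv hne q a b x
  exact (hcl.closure_subset_iff.mpr h4) (h3 ⟨h1, h2⟩)

theorem arcs_mem (hne : Z.Nonempty) (j : ℕ) {u v : UnitAddCircle} (hu : Arc j u)
    (hv : Arc j v) : (u, v) ∈ Z := by
  obtain ⟨x, rfl, a1, a2⟩ := hu
  obtain ⟨y, rfl, b1, b2⟩ := hv
  unfold qq at a1 a2 b1 b2
  have h := band hZ hinv hne (y - 9 * x + (2 * j + 1)) (by linarith) (by linarith) x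
  have e : pr (x, 9 * x + (y - 9 * x + (2 * j + 1))) =
      ((x : UnitAddCircle), (y : UnitAddCircle)) := by
    have e1 : 9 * x + (y - 9 * x + (2 * (j : ℝ) + 1)) = y + ((2 * j + 1 : ℤ) : ℝ) := by
      push_cast
      ring
    rw [e1]
    simp only [pr]
    rw [coe_add_int]
  rw [← e]
  exact h

theorem minimal (hne : Z.Nonempty) : Z = univ := by
  rw [eq_univ_iff_forall]
  rintro ⟨u, v⟩
  have hex : ∃ j, j < 4 ∧ Good j u ∧ Good j v := by
    by_cases hu : Good 0 u
    · by_cases hv : Good 0 v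
      · exact ⟨0, by norm_num, hu, hv⟩
      · have av : Arc 0 v := (good_or_arc 0 v).resolve_left hv
        by_cases hu1 : Good 1 u
        · exact ⟨1, by norm_num, hu1, arc_good (by norm_num) (by norm_num) (by norm_num) av⟩
        · have au : Arc 1 u := (good_or_arc 1 u).resolve_left hu1
          exact ⟨2, by norm_num, arc_good (by norm_num) (by norm_num) (by norm_num) au,
            arc_good (by norm_num) (by norm_num) (by norm_num) av⟩
    · have au : Arc 0 u := (good_or_arc 0 u).resolve_left hu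
      by_cases hv1 : Good 1 v
      · exact ⟨1, by norm_num, arc_good (by norm_num) (by norm_num) (by norm_num) au, hv1⟩
      · have av : Arc 1 v := (good_or_arc 1 v).resolve_left hv1
        exact ⟨2, by norm_num, arc_good (by norm_num) (by norm_num) (by norm_num) au,
          arc_good (by norm_num) (by norm_num) (by norm_num) av⟩
  obtain ⟨j, hj, hu, hv⟩ := hex
  have hl : ∃ l : Fin 3 × Bool, l.1 ≠ 2 ∧ inn l = j := by
    interval_cases j
    · exact ⟨(0, false), by decide, by decide⟩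
    · exact ⟨(0, true), by decide, by decide⟩
    · exact ⟨(1, false), by decide, by decide⟩
    · exact ⟨(1, true), by decide, by decide⟩
  obtain ⟨l, hl1, hl2⟩ := hl
  have h1 : rep (FreeGroup.mk [l]) (u, v) ∈ Z := by
    rw [rep_letter, lh_diag l hl1, hl2]
    exact arcs_mem hZ hinv hne (outn l) (good_map _ hu) (good_map _ hv)
  have h2 := hinv (FreeGroup.mk [l])⁻¹ _ h1
  rw [map_inv, ← Homeomorph.mul_apply, inv_mul_cancel] at h2
  exact h2

end

end Pool.Agent.R627.TorusMin
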