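import Mathlib

/-!
# Finite groups acting on trees have fixed vertices

Type-preserving actions on bipartite trees.
-/

namespace Pool.Agent.R627.TreeFix

open SimpleGraph

variable {V : Type*} {G : SimpleGraph V}

theorem dist_step (hG : G.IsTree) (p : V) {x y : V} (h : G.Adj x y) :
    (G.dist p y = G.dist p x + 1 ∧ ∃ P : G.Walk p y, P.IsPath ∧ P.penultimate = x) ∨
      (G.dist p x = G.dist p y + 1 ∧ ∃ P : G.Walk p x, P.IsPath ∧ P.penultimate = y) := by
  obtain ⟨Px, hPx, hlx⟩ := hG.connected.exists_path_of_dist p x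
  obtain ⟨Py, hPy, hly⟩ := hG.connected.exists_path_of_dist p y
  by_cases hx : x ∈ Py.support
  · left
    have e := hG.isAcyclic.path_concat hPx hPy h hx
    refine ⟨?_, Py, hPy, ?_⟩
    · rw [← hlx, ← hly, e, Walk.length_concat]
    · rw [e, Walk.penultimate_concat]
  · right
    have hy := hG.isAcyclic.mem_support_of_ne_mem_support_of_adj_of_isPath hPx hPy h hx
    have e := hG.isAcyclic.path_concat hPy hPx h.symm hy
    refine ⟨?_, Px, hPx, ?_⟩
    · rw [← hlx, ← hly, e, Walk.length_concat]
    · rw [e, Walk.penultimate_concat]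

theorem closer_unique (hG : G.IsTree) (p : V) {x y z : V} (hy : G.Adj x y) (hz : G.Adj x z)
    (h1 : G.dist p x = G.dist p y + 1) (h2 : G.dist p x = G.dist p z + 1) : y = z := by
  rcases dist_step hG p hy with ⟨h, -⟩ | ⟨-, P, hP, hPy⟩
  · omega
  rcases dist_step hG p hz with ⟨h, -⟩ | ⟨-, Q, hQ, hQz⟩
  · omega
  have := (hG.existsUnique_path p x).unique hP hQ
  rw [← hPy, ← hQz, this]

theorem dist_grow (hG : G.IsTree) (p : V) {a b : V} (q : G.Walk a b) :
    ∀ (c : V) (h : G.Adj c a), (Walk.cons h q).IsPath → G.dist p a = G.dist p c + 1 →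
      G.dist p b = G.dist p a + q.length := by
  induction q with
  | nil => intro c h _ _; simp
  | @cons u v w h2 q ih =>
    intro c h hpath hd
    have hstep := dist_step hG p h2
    rcases hstep with ⟨h3, -⟩ | ⟨h3, -⟩
    · have hq : (Walk.cons h2 q).IsPath := hpath.of_cons
      have := ih u h2 hq h3
      rw [this, h3, Walk.length_cons]
      omega
    · exfalso
      have e : c = v := closer_unique hG p h.symm h2 hd h3
      have hns := ((Walk.cons_isPath_iff h _).mp hpath).2
      apply hns
      rw [e, Walk.support_cons]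
      exact List.mem_cons_of_mem _ q.start_mem_support

/-- Strictly between two vertices at distance at least two there is a vertex which is closer than
the maximum to every vertex. -/
theorem exists_between (hG : G.IsTree) {x x' : V} (hne : x ≠ x') (hna : ¬ G.Adj x x') :
    ∃ z, ∀ p, G.dist p z + 1 ≤ max (G.dist p x) (G.dist p x') := by
  obtain ⟨P, hP, hl⟩ := hG.connected.exists_path_of_dist x x'
  cases P with
  | nil => exact absurd rfl hne
  | @cons _ z _ h q =>
    refine ⟨z, fun p => ?_⟩
    have hq1 : 1 ≤ q.length := by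
      cases q with
      | nil => exact absurd h hna
      | cons _ _ => simp
    rcases dist_step hG p h with ⟨h3, -⟩ | ⟨h3, -⟩
    · have := dist_grow hG p q x h hP h3
      apply le_max_of_le_right
      omega
    · apply le_max_of_le_left
      omega

theorem dist_perm (hG : G.IsTree) (f : Equiv.Perm V) (hf : ∀ u v, G.Adj (f u) (f v) ↔ G.Adj u v)
    (u v : V) : G.dist (f u) (f v) = G.dist u v := by
  have key : ∀ (f : Equiv.Perm V), (∀ u v, G.Adj (f u) (f v) ↔ G.Adj u v) → ∀ u v,
      G.dist (f u) (f v) ≤ G.dist u v := by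
    intro f hf u v
    obtain ⟨P, hP⟩ := hG.connected.exists_walk_length_eq_dist u v
    let φ : G →g G := ⟨f, fun {a b} h => (hf a b).mpr h⟩
    have := dist_le (P.map φ)
    rw [Walk.length_map, hP] at this
    exact this
  apply le_antisymm (key f hf u v)
  have h2 := key f.symm (fun a b => by
    have := hf (f.symm a) (f.symm b)
    rw [f.apply_symm_apply, f.apply_symm_apply] at this
    exact this.symm) (f u) (f v)
  simpa using h2

/-- A finite group acting on a bipartite tree preserving types fixes a vertex. -/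
theorem exists_fixed (hG : G.IsTree) (circ : Set V)
    (bip : ∀ u v, G.Adj u v → (u ∈ circ ↔ v ∉ circ)) {D : Type*} [Group D] [Finite D]
    (ρ : D →* Equiv.Perm V) (hadj : ∀ d u v, G.Adj (ρ d u) (ρ d v) ↔ G.Adj u v)
    (hc : ∀ d v, ρ d v ∈ circ ↔ v ∈ circ) : ∃ v, ∀ d, ρ d v = v := by
  classical
  haveI := Fintype.ofFinite D
  obtain ⟨y⟩ := hG.connected.nonempty
  let r : V → ℕ := fun x => Finset.univ.sup fun d : D => G.dist (ρ d y) x
  have hr : ∀ x d, G.dist (ρ d y) x ≤ r x := fun x d =>
    Finset.le_sup (f := fun d : D => G.dist (ρ d y) x) (Finset.mem_univ d)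
  obtain ⟨x, hx⟩ : ∃ x, ∀ z, r x ≤ r z := by
    have hne : (Set.range r).Nonempty := ⟨r y, y, rfl⟩
    obtain ⟨x, hx⟩ := Nat.sInf_mem hne
    refine ⟨x, fun z => ?_⟩
    rw [hx]
    exact Nat.sInf_le ⟨z, rfl⟩
  refine ⟨x, fun e => ?_⟩
  by_contra hne
  have hinv : ∀ d, G.dist (ρ d y) (ρ e x) ≤ r x := by
    intro d
    have h1 : ρ d y = ρ e (ρ (e⁻¹ * d) y) := by
      rw [← Equiv.Perm.mul_apply, ← map_mul, mul_inv_cancel_left]
    rw [h1, dist_perm hG (ρ e) (hadj e)]
    exact hr x _
  have hna : ¬ G.Adj x (ρ e x) := by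
    intro h
    have h1 := bip _ _ h
    have h2 := hc e x
    tauto
  obtain ⟨z, hz⟩ := exists_between hG (Ne.symm hne) hna
  have hlt : r z < r x := by
    have : r z + 1 ≤ r x := by
      have hsup : r z ≤ r x - 1 := by
        apply Finset.sup_le
        intro d _
        have h1 := hz (ρ d y)
        have h2 : max (G.dist (ρ d y) x) (G.dist (ρ d y) (ρ e x)) ≤ r x := max_le (hr x d) (hinv d)
        omega
      have hpos : 1 ≤ r x := by
        have h1 := hz (ρ 1 y)
        have h2 : max (G.dist (ρ 1 y) x) (G.dist (ρ 1 y) (ρ e x)) ≤ r x := max_le (hr x 1) (hinv 1)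
        omega
      omega
    omega
  exact absurd (hx z) (by omega)

end Pool.Agent.R627.TreeFix
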