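import Mathlib

/-!
# Twisted projective linear groups and their sharply 3-transitive action
-/

set_option autoImplicit false
set_option linter.style.haveILetI false
set_option linter.unusedSectionVars false

namespace Pool.Agent.R627.Twisted

open Topology Filter Set OnePoint

/-! ## Definitions -/

/-- The space of triples of pairwise distinct points, with the subspace topology. -/
def M3 (M : Type*) : Type _ := {p : M × M × M // p.1 ≠ p.2.1 ∧ p.1 ≠ p.2.2 ∧ p.2.1 ≠ p.2.2}

instance {M : Type*} [TopologicalSpace M] : TopologicalSpace (M3 M) :=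
  inferInstanceAs (TopologicalSpace {p : M × M × M // p.1 ≠ p.2.1 ∧ p.1 ≠ p.2.2 ∧ p.2.1 ≠ p.2.2})

/-- The coordinatewise action on triples. -/
def act {G M : Type*} [Group G] [MulAction G M] (g : G) (t : M3 M) : M3 M :=
  ⟨(g • t.1.1, g • t.1.2.1, g • t.1.2.2), fun h => t.2.1 (MulAction.injective g h),
    fun h => t.2.2.1 (MulAction.injective g h), fun h => t.2.2.2 (MulAction.injective g h)⟩

/-- The action is sharply 3-transitive. -/
def SharplyThreeTransitive (G M : Type*) [Group G] [MulAction G M] : Prop :=
  ∀ s t : M3 M, ∃! g : G, act g s = t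

/-! ## The Moebius action -/

section gl

variable {K : Type*} [NormedField K] [DecidableEq K]

/-- A matrix as an element of the general linear group. -/
noncomputable def mk (a b c d : K) (h : a * d - b * c ≠ 0) : GL (Fin 2) K :=
  Matrix.GeneralLinearGroup.mkOfDetNeZero !![a, b; c, d] (by rwa [Matrix.det_fin_two_of])

theorem mk00 (a b c d : K) (h : a * d - b * c ≠ 0) : mk a b c d h 0 0 = a := rfl
theorem mk01 (a b c d : K) (h : a * d - b * c ≠ 0) : mk a b c d h 0 1 = b := rfl
theorem mk10 (a b c d : K) (h : a * d - b * c ≠ 0) : mk a b c d h 1 0 = c := rfl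
theorem mk11 (a b c d : K) (h : a * d - b * c ≠ 0) : mk a b c d h 1 1 = d := rfl

theorem det_mk (a b c d : K) (h : a * d - b * c ≠ 0) :
    ((Matrix.GeneralLinearGroup.det (mk a b c d h) : Kˣ) : K) = a * d - b * c := by
  show Matrix.det !![a, b; c, d] = _
  rw [Matrix.det_fin_two_of]

theorem exists_three (x y z : OnePoint K) (hxy : x ≠ y) (hxz : x ≠ z) (hyz : y ≠ z) :
    ∃ A : GL (Fin 2) K, A • (∞ : OnePoint K) = x ∧ A • ((0 : K) : OnePoint K) = y ∧
      A • ((1 : K) : OnePoint K) = z := by
  induction x using OnePoint.rec with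
  | infty =>
    induction y using OnePoint.rec with
    | infty => exact absurd rfl hxy
    | coe y =>
      induction z using OnePoint.rec with
      | infty => exact absurd rfl hxz
      | coe z =>
        have h : z - y ≠ 0 := sub_ne_zero.mpr fun h => hyz (by rw [h])
        refine ⟨mk (z - y) y 0 1 (by simpa using h), ?_, ?_, ?_⟩
        · rw [smul_infty_eq_ite, mk10, if_pos rfl]
        · rw [smul_some_eq_ite, mk00, mk01, mk10, mk11]; simp
        · rw [smul_some_eq_ite, mk00, mk01, mk10, mk11]; simp
  | coe x =>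
    induction y using OnePoint.rec with
    | infty =>
      induction z using OnePoint.rec with
      | infty => exact absurd rfl hyz
      | coe z =>
        have h : z - x ≠ 0 := sub_ne_zero.mpr fun h => hxz (by rw [h])
        refine ⟨mk x (z - x) 1 0 (by
          intro h'
          apply h
          linear_combination -h'), ?_, ?_, ?_⟩
        · rw [smul_infty_eq_ite, mk00, mk10, if_neg one_ne_zero, div_one]
        · rw [smul_some_eq_ite, mk00, mk01, mk10, mk11]; simp
        · rw [smul_some_eq_ite, mk00, mk01, mk10, mk11]; simp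
    | coe y =>
      have hxy' : x - y ≠ 0 := sub_ne_zero.mpr fun h => hxy (by rw [h])
      induction z using OnePoint.rec with
      | infty =>
        refine ⟨mk x (-y) 1 (-1) (by
          intro h
          apply hxy'
          linear_combination -h), ?_, ?_, ?_⟩
        · rw [smul_infty_eq_ite, mk00, mk10, if_neg one_ne_zero, div_one]
        · rw [smul_some_eq_ite, mk00, mk01, mk10, mk11]; simp
        · rw [smul_some_eq_ite, mk00, mk01, mk10, mk11]; simp
      | coe z =>
        have hxz' : x - z ≠ 0 := sub_ne_zero.mpr fun h => hxz (by rw [h])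
        have hzy' : z - y ≠ 0 := sub_ne_zero.mpr fun h => hyz (by rw [h])
        refine ⟨mk (x * (z - y)) (y * (x - z)) (z - y) (x - z) (by
          have h1 : x * (z - y) * (x - z) - y * (x - z) * (z - y) = (z - y) * (x - z) * (x - y) := by
            ring
          rw [h1]
          exact mul_ne_zero (mul_ne_zero hzy' hxz') hxy'), ?_, ?_, ?_⟩
        · rw [smul_infty_eq_ite, mk00, mk10, if_neg hzy', mul_div_assoc, div_self hzy', mul_one]
        · rw [smul_some_eq_ite, mk00, mk01, mk10, mk11]
          simp only [mul_zero, zero_add, if_neg hxz']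
          rw [mul_div_assoc, div_self hxz', mul_one]
        · rw [smul_some_eq_ite, mk00, mk01, mk10, mk11]
          have h1 : (z - y) * 1 + (x - z) = x - y := by ring
          have h2 : x * (z - y) * 1 + y * (x - z) = z * (x - y) := by ring
          rw [h1, h2, if_neg hxy', mul_div_assoc, div_self hxy', mul_one]

theorem scalar_of_fix {A : GL (Fin 2) K} (h1 : A • (∞ : OnePoint K) = ∞)
    (h2 : A • ((0 : K) : OnePoint K) = ((0 : K) : OnePoint K))
    (h3 : A • ((1 : K) : OnePoint K) = ((1 : K) : OnePoint K)) :
    (∀ z : OnePoint K, A • z = z) ∧ ∃ u : Kˣ, Matrix.GeneralLinearGroup.det A = u * u := by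
  have e1 : A 1 0 = 0 := smul_infty_eq_self_iff.mp h1
  have hdet : A 0 0 * A 1 1 ≠ 0 := by
    have h4 := A.det_ne_zero
    rw [Matrix.det_fin_two, e1, mul_zero, sub_zero] at h4
    exact h4
  have ha : A 0 0 ≠ 0 := left_ne_zero_of_mul hdet
  have hd : A 1 1 ≠ 0 := right_ne_zero_of_mul hdet
  rw [smul_some_eq_ite, e1, zero_mul, zero_add, if_neg hd, mul_zero, zero_add] at h2
  have h2' : A 0 1 / A 1 1 = 0 := OnePoint.coe_injective h2
  have e2 : A 0 1 = 0 := by
    rcases div_eq_zero_iff.mp h2' with h | h
    · exact h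
    · exact absurd h hd
  rw [smul_some_eq_ite, e1, zero_mul, zero_add, if_neg hd, e2, mul_one, add_zero] at h3
  have h3' : A 0 0 / A 1 1 = 1 := OnePoint.coe_injective h3
  have e3 : A 0 0 = A 1 1 := (div_eq_one_iff_eq hd).mp h3'
  constructor
  · intro z
    induction z using OnePoint.rec with
    | infty => exact h1
    | coe z =>
      rw [smul_some_eq_ite, e1, zero_mul, zero_add, if_neg hd, e2, e3, add_zero]
      congr 1
      field_simp
  · refine ⟨Units.mk0 (A 0 0) ha, ?_⟩
    apply Units.ext
    show Matrix.det (A : Matrix (Fin 2) (Fin 2) K) = A 0 0 * A 0 0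
    rw [Matrix.det_fin_two, e1, mul_zero, sub_zero, ← e3]

/-! ## Continuity of the Moebius action -/

variable [ProperSpace K]

theorem continuous_upper (a b d : K) (h : a * d - b * 0 ≠ 0) :
    Continuous fun z : OnePoint K => mk a b 0 d h • z := by
  have h' : a * d ≠ 0 := by simpa using h
  have ha : a ≠ 0 := left_ne_zero_of_mul h'
  have hd : d ≠ 0 := right_ne_zero_of_mul h'
  let e : K ≃ₜ K :=
    { toFun := fun z => a / d * z + b / d
      invFun := fun z => (z - b / d) * (d / a)
      left_inv := fun z => by field_simp; ring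
      right_inv := fun z => by field_simp; ring
      continuous_toFun := by fun_prop
      continuous_invFun := by fun_prop }
  have h1 : (fun z : OnePoint K => mk a b 0 d h • z) = e.onePointCongr := by
    funext z
    induction z using OnePoint.rec with
    | infty =>
      rw [smul_infty_eq_ite, mk10, if_pos rfl]
      rfl
    | coe z =>
      rw [smul_some_eq_ite, mk00, mk01, mk10, mk11, zero_mul, zero_add, if_neg hd]
      show (((a * z + b) / d : K) : OnePoint K) = ((a / d * z + b / d : K) : OnePoint K)
      congr 1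
      field_simp
  rw [h1]
  exact e.onePointCongr.continuous

theorem continuous_inv' : Continuous fun z : OnePoint K =>
    mk (0 : K) 1 1 0 (by norm_num) • z := by
  classical
  have e1 : ∀ z : K, mk (0 : K) 1 1 0 (by norm_num) • (z : OnePoint K) =
      if z = 0 then ∞ else ((z⁻¹ : K) : OnePoint K) := by
    intro z
    rw [smul_some_eq_ite, mk00, mk01, mk10, mk11]
    simp [apply_ite]
  have e2 : mk (0 : K) 1 1 0 (by norm_num) • (∞ : OnePoint K) = ((0 : K) : OnePoint K) := by
    rw [smul_infty_eq_ite, mk00, mk10, if_neg one_ne_zero, zero_div]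
  rw [OnePoint.continuous_iff]
  constructor
  · rw [e2, Filter.coclosedCompact_eq_cocompact, ← Metric.cobounded_eq_cocompact]
    have h1 : Tendsto (fun z : K => ((z⁻¹ : K) : OnePoint K)) (Bornology.cobounded K)
        (𝓝 ((0 : K) : OnePoint K)) :=
      (OnePoint.continuous_coe.tendsto (0 : K)).comp Filter.tendsto_inv₀_cobounded
    refine h1.congr' ?_
    have h2 : ∀ᶠ z : K in Bornology.cobounded K, z ≠ 0 := Bornology.eventually_ne_cobounded 0
    filter_upwards [h2] with z hz
    rw [e1, if_neg hz]
  · rw [continuous_iff_continuousAt]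
    intro z
    by_cases hz : z = 0
    · subst hz
      rw [continuousAt_iff_punctured_nhds, e1, if_pos rfl]
      have h1 : Tendsto (fun z : K => ((z⁻¹ : K) : OnePoint K)) (𝓝[≠] 0) (𝓝 ∞) := by
        have h2 : Tendsto ((↑) : K → OnePoint K) (Bornology.cobounded K) (𝓝 ∞) := by
          rw [Metric.cobounded_eq_cocompact, ← Filter.coclosedCompact_eq_cocompact]
          exact OnePoint.tendsto_coe_infty
        exact h2.comp Filter.tendsto_inv₀_nhdsNE_zero
      refine h1.congr' ?_
      filter_upwards [self_mem_nhdsWithin] with w hw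
      have hw' : w ≠ 0 := hw
      rw [e1, if_neg hw']
    · rw [ContinuousAt, e1, if_neg hz]
      have h1 : Tendsto (fun z : K => ((z⁻¹ : K) : OnePoint K)) (𝓝 z)
          (𝓝 ((z⁻¹ : K) : OnePoint K)) :=
        (OnePoint.continuous_coe.tendsto _).comp (continuousAt_inv₀ hz)
      refine h1.congr' ?_
      filter_upwards [isOpen_ne.mem_nhds hz] with w hw
      rw [e1, if_neg hw]

theorem continuous_gl (A : GL (Fin 2) K) : Continuous fun z : OnePoint K => A • z := by
  have hdet := A.det_ne_zero
  rw [Matrix.det_fin_two] at hdet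
  by_cases hc : A 1 0 = 0
  · have e : A = mk (A 0 0) (A 0 1) 0 (A 1 1) (by rw [hc] at hdet; exact hdet) := by
      apply Units.ext
      ext i j
      fin_cases i <;> fin_cases j
      · rfl
      · rfl
      · exact hc
      · rfl
    rw [e]
    exact continuous_upper _ _ _ _
  · have e : A = mk (A 0 1 - A 0 0 * A 1 1 / A 1 0) (A 0 0) 0 (A 1 0) (by
        rw [mul_zero, sub_zero]
        intro h
        apply hdet
        field_simp at h
        linear_combination -h) * mk (0 : K) 1 1 0 (by norm_num) *
        mk 1 (A 1 1 / A 1 0) 0 1 (by norm_num) := by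
      apply Units.ext
      have : ∀ (a b c d : K) (h : a * d - b * c ≠ 0),
        ((mk a b c d h : GL (Fin 2) K) : Matrix (Fin 2) (Fin 2) K) = !![a, b; c, d] := fun _ _ _ _ _ => rfl
      rw [Units.val_mul, Units.val_mul, this, this, this, Matrix.mul_fin_two, Matrix.mul_fin_two]
      ext i j
      fin_cases i <;> fin_cases j
      · show A 0 0 = _
        simp
      · show A 0 1 = _
        simp
        field_simp
        ring
      · show A 1 0 = _
        simp
      · show A 1 1 = _
        simp
        field_simp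
    rw [e]
    simp only [mul_smul]
    exact (continuous_upper _ _ _ _).comp (continuous_inv'.comp (continuous_upper _ _ _ _))

end gl

/-! ## The twisted group -/

/-- The group of order two. -/
abbrev C2 : Type := Multiplicative (ZMod 2)

theorem C2_cases (e : C2) : e = 1 ∨ e = Multiplicative.ofAdd 1 := by
  revert e
  decide

theorem C2_mul_self (e : C2) : e * e = 1 := by
  revert e
  decide

theorem C2_ne : (Multiplicative.ofAdd 1 : C2) ≠ 1 := by decide

section twist

variable {K : Type*} [NormedField K] [DecidableEq K]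

/-- The data for a twisted group. -/
structure Data (K : Type*) [NormedField K] where
  sg : K ≃+* K
  sg_sg : ∀ x, sg (sg x) = x
  continuous_sg : Continuous sg
  ep : Kˣ →* C2
  ep_sg : ∀ u : Kˣ, ep (Units.map (sg : K →* K) u) = ep u

variable (D : Data K)

/-- The involution on the projective line. -/
def sgM (z : OnePoint K) : OnePoint K := z.map D.sg

theorem sgM_sgM (z : OnePoint K) : sgM D (sgM D z) = z := by
  induction z using OnePoint.rec with
  | infty => rfl
  | coe z =>
    show ((D.sg (D.sg z) : K) : OnePoint K) = z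
    rw [D.sg_sg]

/-- The power of the involution on the projective line. -/
def tw (e : C2) (z : OnePoint K) : OnePoint K := if e = 1 then z else sgM D z

theorem tw_one (z : OnePoint K) : tw D 1 z = z := if_pos rfl

theorem tw_gen (z : OnePoint K) : tw D (Multiplicative.ofAdd 1) z = sgM D z := if_neg C2_ne

theorem tw_tw (e f : C2) (z : OnePoint K) : tw D e (tw D f z) = tw D (e * f) z := by
  rcases C2_cases e with rfl | rfl <;> rcases C2_cases f with rfl | rfl
  · rw [tw_one, mul_one]
  · rw [tw_one, one_mul]
  · rw [tw_one, mul_one]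
  · rw [C2_mul_self, tw_gen, tw_gen, sgM_sgM, tw_one]

/-- The power of the involution on matrices. -/
noncomputable def twA (e : C2) (A : GL (Fin 2) K) : GL (Fin 2) K :=
  if e = 1 then A else Matrix.GeneralLinearGroup.map (D.sg : K →+* K) A

theorem tw_smul (e : C2) (A : GL (Fin 2) K) (z : OnePoint K) :
    tw D e (A • z) = twA D e A • tw D e z := by
  rcases C2_cases e with rfl | rfl
  · rw [tw_one, tw_one, twA, if_pos rfl]
  · rw [tw_gen, tw_gen, twA, if_neg C2_ne]
    exact OnePoint.map_smul (D.sg : K →+* K) A z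

/-- The twisting character of a matrix. -/
noncomputable def ch (A : GL (Fin 2) K) : C2 := D.ep (Matrix.GeneralLinearGroup.det A)

theorem ch_mul (A B : GL (Fin 2) K) : ch D (A * B) = ch D A * ch D B := by
  rw [ch, ch, ch, map_mul, map_mul]

theorem ch_inv (A : GL (Fin 2) K) : ch D A⁻¹ = ch D A := by
  have h1 : ch D A * ch D A⁻¹ = 1 := by
    rw [← ch_mul, mul_inv_cancel, ch, map_one, map_one]
  have h2 := C2_mul_self (ch D A)
  exact mul_left_cancel (h1.trans h2.symm)

theorem ch_twA (e : C2) (A : GL (Fin 2) K) : ch D (twA D e A) = ch D A := by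
  rw [twA]
  split_ifs
  · rfl
  · rw [ch, Matrix.GeneralLinearGroup.map_det]
    exact D.ep_sg _

/-- The twisted group, as a group of permutations of the projective line. -/
noncomputable def G : Subgroup (Equiv.Perm (OnePoint K)) where
  carrier := {g | ∃ A : GL (Fin 2) K, ∀ z, g z = A • tw D (ch D A) z}
  one_mem' := ⟨1, fun z => by
    rw [ch, map_one, map_one, tw_one, one_smul]; rfl⟩
  mul_mem' := by
    rintro g h ⟨A, hA⟩ ⟨B, hB⟩
    refine ⟨A * twA D (ch D A) B, fun z => ?_⟩
    rw [Equiv.Perm.mul_apply, hA, hB, tw_smul, tw_tw, mul_smul, ch_mul, ch_twA]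
  inv_mem' := by
    rintro g ⟨A, hA⟩
    refine ⟨twA D (ch D A) A⁻¹, fun z => ?_⟩
    rw [Equiv.Perm.inv_eq_iff_eq, hA, ch_twA, ch_inv, tw_smul, tw_tw, C2_mul_self, tw_one]
    rw [twA, twA]
    rcases C2_cases (ch D A) with h | h
    · rw [h, if_pos rfl, if_pos rfl, smul_inv_smul]
    · rw [h, if_neg C2_ne, if_neg C2_ne, map_inv, map_inv]
      have h1 : Matrix.GeneralLinearGroup.map (D.sg : K →+* K)
          (Matrix.GeneralLinearGroup.map (D.sg : K →+* K) A) = A := by
        apply Units.ext
        ext i j
        exact D.sg_sg _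
      rw [h1, smul_inv_smul]

theorem smul_def (g : G D) (z : OnePoint K) : g • z = (g : Equiv.Perm (OnePoint K)) z := rfl

/-- The element given by a matrix. -/
noncomputable def el (A : GL (Fin 2) K) : G D :=
  ⟨{ toFun := fun z => A • tw D (ch D A) z
     invFun := fun z => tw D (ch D A) (A⁻¹ • z)
     left_inv := fun z => by
      show tw D (ch D A) (A⁻¹ • (A • tw D (ch D A) z)) = z
      rw [inv_smul_smul, tw_tw, C2_mul_self, tw_one]
     right_inv := fun z => by
      show A • tw D (ch D A) (tw D (ch D A) (A⁻¹ • z)) = z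
      rw [tw_tw, C2_mul_self, tw_one, smul_inv_smul] }, A, fun _ => rfl⟩

theorem el_smul (A : GL (Fin 2) K) (z : OnePoint K) : el D A • z = A • tw D (ch D A) z := rfl

/-- The base triple. -/
def base : M3 (OnePoint K) :=
  ⟨(∞, ((0 : K) : OnePoint K), ((1 : K) : OnePoint K)), OnePoint.infty_ne_coe _,
    OnePoint.infty_ne_coe _, fun h => zero_ne_one (OnePoint.coe_injective h)⟩

theorem tw_infty (e : C2) : tw D e ∞ = ∞ := by
  rcases C2_cases e with rfl | rfl
  · rw [tw_one]
  · rw [tw_gen]; rfl

theorem tw_zero (e : C2) : tw D e ((0 : K) : OnePoint K) = ((0 : K) : OnePoint K) := by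
  rcases C2_cases e with rfl | rfl
  · rw [tw_one]
  · rw [tw_gen]
    show ((D.sg 0 : K) : OnePoint K) = _
    rw [map_zero]

theorem tw_one' (e : C2) : tw D e ((1 : K) : OnePoint K) = ((1 : K) : OnePoint K) := by
  rcases C2_cases e with rfl | rfl
  · rw [tw_one]
  · rw [tw_gen]
    show ((D.sg 1 : K) : OnePoint K) = _
    rw [map_one]

theorem exists_base (t : M3 (OnePoint K)) : ∃ g : G D, act g (base : M3 (OnePoint K)) = t := by
  obtain ⟨⟨x, y, z⟩, hxy, hxz, hyz⟩ := t
  obtain ⟨A, h1, h2, h3⟩ := exists_three x y z hxy hxz hyz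
  refine ⟨el D A, Subtype.ext (Prod.ext ?_ (Prod.ext ?_ ?_))⟩
  · show el D A • (∞ : OnePoint K) = x
    rw [el_smul, tw_infty, h1]
  · show el D A • ((0 : K) : OnePoint K) = y
    rw [el_smul, tw_zero, h2]
  · show el D A • ((1 : K) : OnePoint K) = z
    rw [el_smul, tw_one', h3]

theorem eq_one_of_base {g : G D} (hg : act g (base : M3 (OnePoint K)) = base) : g = 1 := by
  obtain ⟨g, A, hA⟩ := g
  have e1 : g ∞ = ∞ := congrArg (fun p : M3 (OnePoint K) => p.1.1) hg
  have e2 : g ((0 : K) : OnePoint K) = ((0 : K) : OnePoint K) :=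
    congrArg (fun p : M3 (OnePoint K) => p.1.2.1) hg
  have e3 : g ((1 : K) : OnePoint K) = ((1 : K) : OnePoint K) :=
    congrArg (fun p : M3 (OnePoint K) => p.1.2.2) hg
  rw [hA, tw_infty] at e1
  rw [hA, tw_zero] at e2
  rw [hA, tw_one'] at e3
  obtain ⟨h1, u, hu⟩ := scalar_of_fix e1 e2 e3
  have h2 : ch D A = 1 := by
    rw [ch, hu, map_mul, C2_mul_self]
  apply Subtype.ext
  apply Equiv.ext
  intro z
  show g z = z
  rw [hA, h2, tw_one, h1]

theorem act_act {G' M : Type*} [Group G'] [MulAction G' M] (g h : G') (t : M3 M) :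
    act g (act h t) = act (g * h) t := by
  refine Subtype.ext (Prod.ext ?_ (Prod.ext ?_ ?_))
  · exact (mul_smul g h _).symm
  · exact (mul_smul g h _).symm
  · exact (mul_smul g h _).symm

theorem act_one {G' M : Type*} [Group G'] [MulAction G' M] (t : M3 M) : act (1 : G') t = t := by
  refine Subtype.ext (Prod.ext ?_ (Prod.ext ?_ ?_))
  · exact one_smul _ _
  · exact one_smul _ _
  · exact one_smul _ _

theorem sharp : SharplyThreeTransitive (G D) (OnePoint K) := by
  intro s t
  obtain ⟨g, hg⟩ := exists_base D s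
  obtain ⟨h, hh⟩ := exists_base D t
  refine ⟨h * g⁻¹, ?_, ?_⟩
  · show act (h * g⁻¹) s = t
    rw [← hg, act_act, inv_mul_cancel_right, hh]
  · intro k hk
    have h1 : act (h⁻¹ * (k * g)) (base : M3 (OnePoint K)) = base := by
      rw [← act_act, ← act_act, hg, hk, ← hh, act_act, inv_mul_cancel, act_one]
    have h2 := eq_one_of_base D h1
    have h3 : k * g = h := (inv_mul_eq_one.mp h2).symm
    rw [← h3, mul_inv_cancel_right]

theorem continuous_sgM : Continuous (sgM D) := by
  let e : K ≃ₜ K :=
    { toFun := D.sg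
      invFun := D.sg
      left_inv := D.sg_sg
      right_inv := D.sg_sg
      continuous_toFun := D.continuous_sg
      continuous_invFun := D.continuous_sg }
  exact e.onePointCongr.continuous

theorem continuous_smul [ProperSpace K] (g : G D) : Continuous fun z : OnePoint K => g • z := by
  obtain ⟨g, A, hA⟩ := g
  have h1 : (fun z : OnePoint K => (⟨g, A, hA⟩ : G D) • z) = fun z => A • tw D (ch D A) z :=
    funext hA
  rw [h1]
  refine (continuous_gl A).comp ?_
  rcases C2_cases (ch D A) with h | h
  · rw [h]
    have : tw D 1 = id := funext (tw_one D)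
    rw [this]
    exact continuous_id
  · rw [h]
    have : tw D (Multiplicative.ofAdd 1) = sgM D := funext (tw_gen D)
    rw [this]
    exact continuous_sgM D

theorem isHomeomorph_smul [ProperSpace K] (g : G D) :
    IsHomeomorph fun z : OnePoint K => g • z := by
  rw [isHomeomorph_iff_exists_inverse]
  exact ⟨continuous_smul D g, fun z => g⁻¹ • z, fun z => inv_smul_smul g z,
    fun z => smul_inv_smul g z, continuous_smul D g⁻¹⟩

/-- If the twisting character is discontinuous, no topology on the group makes all orbit maps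
homeomorphisms. -/
theorem no_topology [ProperSpace K] (hx : ∃ x, D.sg x ≠ x) (u : ℕ → Kˣ)
    (hu : Tendsto (fun n => (u n : K)) atTop (𝓝 1))
    (hep : ∀ n, D.ep (u n) = Multiplicative.ofAdd 1) :
    ¬ ∃ τ : TopologicalSpace (G D), ∀ t : M3 (OnePoint K), IsHomeomorph fun g : G D => act g t := by
  rintro ⟨τ, hτ⟩
  obtain ⟨x, hx⟩ := hx
  have hx0 : x ≠ 0 := fun h => hx (by rw [h, map_zero])
  let A : ℕ → GL (Fin 2) K := fun n => mk (u n : K) 0 0 1 (by simp)
  have hchA : ∀ n, ch D (A n) = Multiplicative.ofAdd 1 := by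
    intro n
    have h1 : Matrix.GeneralLinearGroup.det (A n) = u n := by
      apply Units.ext
      rw [det_mk]
      ring
    rw [ch, h1, hep]
  have hA : ∀ n (z : K), el D (A n) • (z : OnePoint K) = (((u n : K) * D.sg z : K) : OnePoint K) := by
    intro n z
    rw [el_smul, hchA, tw_gen]
    show A n • ((D.sg z : K) : OnePoint K) = _
    rw [smul_some_eq_ite, mk00, mk01, mk10, mk11]
    simp
  have hAi : ∀ n, el D (A n) • (∞ : OnePoint K) = ∞ := by
    intro n
    rw [el_smul, tw_infty, smul_infty_eq_ite, mk10, if_pos rfl]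
  -- triples `(∞, 0, z)`
  let tr : {z : K // z ≠ 0} → M3 (OnePoint K) := fun z =>
    ⟨(∞, ((0 : K) : OnePoint K), ((z : K) : OnePoint K)), OnePoint.infty_ne_coe _,
      OnePoint.infty_ne_coe _, fun h => z.2 (OnePoint.coe_injective h).symm⟩
  have htr : Continuous tr := by
    refine Continuous.subtype_mk ?_ _
    exact continuous_const.prodMk (continuous_const.prodMk
      (OnePoint.continuous_coe.comp continuous_subtype_val))
  have hact : ∀ n (z : {z : K // z ≠ 0}), act (el D (A n)) (tr z) =
      tr ⟨(u n : K) * D.sg z, mul_ne_zero (u n).ne_zero (by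
        rw [map_ne_zero_iff D.sg D.sg.injective]; exact z.2)⟩ := by
    intro n z
    refine Subtype.ext (Prod.ext ?_ (Prod.ext ?_ ?_))
    · exact hAi n
    · show el D (A n) • ((0 : K) : OnePoint K) = ((0 : K) : OnePoint K)
      rw [hA, map_zero, mul_zero]
    · exact hA n z
  have hlim : ∀ z : {z : K // z ≠ 0}, Tendsto (fun n => act (el D (A n)) (tr z)) atTop
      (𝓝 (tr ⟨D.sg z, by rw [map_ne_zero_iff D.sg D.sg.injective]; exact z.2⟩)) := by
    intro z
    simp only [hact]
    refine (htr.tendsto _).comp ?_
    rw [tendsto_subtype_rng]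
    have h1 := hu.mul_const (D.sg z)
    rwa [one_mul] at h1
  -- the elements converge to `1`
  have h1 : Tendsto (fun n => el D (A n)) atTop (@nhds (G D) τ 1) := by
    have h2 := hτ (tr ⟨1, one_ne_zero⟩)
    rw [h2.isEmbedding.isInducing.tendsto_nhds_iff]
    have h3 := hlim ⟨1, one_ne_zero⟩
    have h4 : act (1 : G D) (tr ⟨1, one_ne_zero⟩) = tr ⟨D.sg 1, by
        rw [map_ne_zero_iff D.sg D.sg.injective]; exact one_ne_zero⟩ := by
      rw [act_one]
      congr 1
      exact Subtype.ext (map_one D.sg).symm
    rw [h4]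
    exact h3
  have h2 := ((hτ (tr ⟨x, hx0⟩)).continuous.tendsto 1).comp h1
  rw [act_one] at h2
  have h3 : Continuous fun t : M3 (OnePoint K) => t.1.2.2 :=
    (continuous_snd.comp continuous_snd).comp continuous_subtype_val
  have h4 := tendsto_nhds_unique ((h3.tendsto _).comp h2) ((h3.tendsto _).comp (hlim ⟨x, hx0⟩))
  exact hx (OnePoint.coe_injective h4).symm

end twist

end Pool.Agent.R627.Twisted
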